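import Mathlib

/-! Trees with a connected partition of every type. -/

set_option autoImplicit false

namespace Pool.Agent.Q134.CP

/-- `P` is a connected partition of `G` of the type `lam`. -/
def IsConnectedPartition {V : Type*} [Fintype V] [DecidableEq V] (G : SimpleGraph V)
    (lam : (Fintype.card V).Partition) (P : Finpartition (Finset.univ : Finset V)) : Prop :=
  (∀ B ∈ P.parts, (G.induce (B : Set V)).Connected) ∧
    P.parts.val.map Finset.card = lam.parts

/-- A graph with a connected partition of every type. -/
def IsCPET {V : Type*} [Fintype V] [DecidableEq V] (G : SimpleGraph V) : Prop :=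
  ∀ lam : (Fintype.card V).Partition, ∃ P, IsConnectedPartition G lam P

end Pool.Agent.Q134.CP
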