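import Mathlib

/-! The line model: orders of the parts and a checker. -/

set_option autoImplicit false

namespace Pool.Agent.Q134.CP

/-- the blocks, placed one after another from the position `s` on, are connected -/
def Good (par : ℕ → ℕ) : ℕ → List ℕ → Prop
  | _, [] => True
  | s, a :: l => (∀ j, s < j → j < s + a → s ≤ par j) ∧ Good par (s + a) l

lemma good_append (par : ℕ → ℕ) : ∀ (l₁ l₂ : List ℕ) (s : ℕ),
    Good par s (l₁ ++ l₂) ↔ Good par s l₁ ∧ Good par (s + l₁.sum) l₂
  | [], l₂, s => by simp [Good]
  | a :: l₁, l₂, s => by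
    rw [List.cons_append, Good, Good, good_append par l₁ l₂ (s + a), List.sum_cons]
    rw [← add_assoc]
    tauto

/-- parents in the first order -/
def par1 (j : ℕ) : ℕ :=
  if j = 31 ∨ j = 32 ∨ j = 33 then 30 else if j = 46 ∨ j = 47 ∨ j = 49 then 45 else j - 1

/-- parents in the second order (the leg of length two comes last) -/
def par2 (j : ℕ) : ℕ :=
  if j = 31 ∨ j = 32 ∨ j = 33 then 30 else if j = 46 ∨ j = 47 ∨ j = 59 then 45 else j - 1

lemma par1_ge {s j : ℕ} (h : s ≤ 30 ∨ (33 ≤ s ∧ s ≤ 45) ∨ 49 ≤ s) (hj : s < j) : s ≤ par1 j := by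
  unfold par1
  split_ifs <;> omega

/-- blocks which start at allowed positions -/
lemma good_range : ∀ (l : List ℕ) (s : ℕ),
    (∀ x, s ≤ x → x < s + l.sum → (x ≤ 30 ∨ (33 ≤ x ∧ x ≤ 45) ∨ 49 ≤ x)) → Good par1 s l
  | [], s, _ => trivial
  | a :: l, s, h => by
    rw [List.sum_cons] at h
    refine ⟨fun j h1 h2 => par1_ge (h s le_rfl (by omega)) h1, good_range l (s + a) ?_⟩
    intro x h1 h2
    exact h x (by omega) (by omega)

lemma good_double {A B C : List ℕ} {p q : ℕ} (h1 : A.sum ≤ 30) (h2 : 33 ≤ A.sum + p)
    (h3 : A.sum + p + B.sum ≤ 45) (h4 : 49 ≤ A.sum + p + B.sum + q) :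
    Good par1 0 (A ++ p :: (B ++ q :: C)) := by
  rw [good_append, zero_add]
  refine ⟨good_range _ _ fun x _ h => by omega, ?_⟩
  rw [Good]
  refine ⟨fun j h5 h6 => par1_ge (Or.inl h1) h5, ?_⟩
  rw [good_append, Good]
  refine ⟨good_range _ _ fun x _ h => by omega, fun j h5 h6 => par1_ge (by omega) h5,
    good_range _ _ fun x _ h => by omega⟩

lemma good_single {A C : List ℕ} {p : ℕ} (h1 : A.sum ≤ 30) (h2 : 49 ≤ A.sum + p) :
    Good par1 0 (A ++ p :: C) := by
  rw [good_append, zero_add]
  refine ⟨good_range _ _ fun x _ h => by omega, ?_⟩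
  rw [Good]
  exact ⟨fun j h5 h6 => par1_ge (Or.inl h1) h5, good_range _ _ fun x _ h => by omega⟩

/-- fill up greedily -/
lemma greedy (m lo : ℕ) : ∀ (l : List ℕ) (a : ℕ), (∀ x ∈ l, x ≤ m) → a < lo → lo ≤ a + l.sum →
    ∃ r₁ r₂, l = r₁ ++ r₂ ∧ lo ≤ a + r₁.sum ∧ a + r₁.sum < lo + m
  | [], a, _, h1, h2 => by simp at h2; omega
  | x :: l, a, h, h1, h2 => by
    by_cases hx : lo ≤ a + x
    · have := h x (by simp)
      exact ⟨[x], l, rfl, by simpa using hx, by simp; omega⟩
    · obtain ⟨r₁, r₂, h3, h4, h5⟩ := greedy m lo l (a + x)
        (fun y hy => h y (List.mem_cons_of_mem _ hy)) (by omega)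
        (by rw [List.sum_cons] at h2; omega)
      exact ⟨x :: r₁, r₂, by rw [h3]; rfl, by rw [List.sum_cons]; omega,
        by rw [List.sum_cons]; omega⟩

/-- the multiset of parts can be arranged -/
def OK (L : List ℕ) : Prop :=
  (∃ l : List ℕ, l.Perm L ∧ Good par1 0 l) ∨ (∃ l : List ℕ, l.Perm L ∧ Good par2 0 l)

lemma OK.perm {L L' : List ℕ} (h : L.Perm L') (hL : OK L) : OK L' := by
  rcases hL with ⟨l, h1, h2⟩ | ⟨l, h1, h2⟩
  · exact Or.inl ⟨l, h1.trans h, h2⟩
  · exact Or.inr ⟨l, h1.trans h, h2⟩

/-- condition for one jumping block -/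
def condS (m R a p : ℕ) : Bool :=
  decide (a ≤ 30) && (decide (49 ≤ a + p) || (decide (m + 18 ≤ p) && decide (49 ≤ a + p + R)))

/-- condition for two jumping blocks; `a, b, c` are the sums before, between and after -/
def condD (m R a p b q c : ℕ) : Bool :=
  decide (a ≤ 30) && (if 33 ≤ a + p then
      decide (a + p + b ≤ 45) && (decide (49 ≤ a + p + b + q) ||
        (decide (m + 3 ≤ q) && decide (c ≤ 12)))
    else
      decide (m + 2 ≤ p) && decide (33 ≤ a + p + R) &&
      decide (min (32 + m) (a + p + R) + b ≤ 45) &&
      (decide (49 ≤ 33 + b + q) || (decide (m + 3 ≤ q) && decide (c ≤ 12))))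

lemma condS_ok {m R p : ℕ} {A C rest : List ℕ} (hrest : ∀ x ∈ rest, x ≤ m) (hR : rest.sum = R)
    (h : condS m R A.sum p = true) : OK ((A ++ p :: C) ++ rest) := by
  unfold condS at h
  simp only [Bool.and_eq_true, Bool.or_eq_true, decide_eq_true_eq] at h
  obtain ⟨h1, h2⟩ := h
  by_cases h3 : 49 ≤ A.sum + p
  · refine Or.inl ⟨A ++ p :: (C ++ rest), by simp, good_single h1 h3⟩
  · obtain ⟨h4, h5⟩ := h2.resolve_left h3
    obtain ⟨r₁, r₂, h6, h7, h8⟩ := greedy m (49 - p) rest A.sum hrest (by omega) (by omega)
    refine Or.inl ⟨(A ++ r₁) ++ p :: (C ++ r₂), ?_, good_single ?_ ?_⟩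
    · rw [h6]
      have : ((A ++ r₁) ++ p :: (C ++ r₂)).Perm ((A ++ p :: C) ++ (r₁ ++ r₂)) := by
        rw [← Multiset.coe_eq_coe]
        simp only [← Multiset.coe_add, ← Multiset.cons_coe]
        simp only [← Multiset.singleton_add]
        abel
      exact this
    · rw [List.sum_append]; omega
    · rw [List.sum_append]; omega

lemma condD_ok {m R p q : ℕ} {A B C rest : List ℕ} (hrest : ∀ x ∈ rest, x ≤ m)
    (hR : rest.sum = R) (htot : A.sum + p + B.sum + q + C.sum + R = 61)
    (h : condD m R A.sum p B.sum q C.sum = true) :
    OK ((A ++ p :: (B ++ q :: C)) ++ rest) := by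
  -- the first step: reach a sum `s₁` before `p`
  have key : ∃ r₁ r₂, rest = r₁ ++ r₂ ∧ A.sum + r₁.sum ≤ 30 ∧ 33 ≤ A.sum + r₁.sum + p ∧
      A.sum + r₁.sum + p + B.sum ≤ 45 ∧ (49 ≤ A.sum + r₁.sum + p + B.sum + q ∨
        (m + 3 ≤ q ∧ C.sum ≤ 12)) := by
    unfold condD at h
    by_cases h3 : 33 ≤ A.sum + p
    · rw [if_pos h3] at h
      simp only [Bool.and_eq_true, Bool.or_eq_true, decide_eq_true_eq] at h
      refine ⟨[], rest, rfl, ?_⟩
      rw [List.sum_nil, add_zero]
      exact ⟨h.1, h3, h.2.1, h.2.2⟩
    · rw [if_neg h3] at h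
      simp only [Bool.and_eq_true, Bool.or_eq_true, decide_eq_true_eq] at h
      obtain ⟨h1, ⟨⟨h4, h5⟩, h6⟩, h7⟩ := h
      obtain ⟨r₁, r₂, h8, h9, h10⟩ := greedy m (33 - p) rest A.sum hrest (by omega) (by omega)
      have h11 : r₁.sum ≤ R := by rw [← hR, h8, List.sum_append]; omega
      refine ⟨r₁, r₂, h8, by omega, by omega, by omega, ?_⟩
      rcases h7 with h7 | h7
      · left; omega
      · exact Or.inr h7
  obtain ⟨r₁, r₂, h1, h2, h3, h4, h5⟩ := key
  have hsum : r₁.sum + r₂.sum = R := by rw [← hR, h1, List.sum_append]
  -- the second step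
  have key2 : ∃ t₁ t₂, r₂ = t₁ ++ t₂ ∧ A.sum + r₁.sum + p + B.sum + t₁.sum ≤ 45 ∧
      49 ≤ A.sum + r₁.sum + p + B.sum + t₁.sum + q := by
    by_cases h6 : 49 ≤ A.sum + r₁.sum + p + B.sum + q
    · exact ⟨[], r₂, rfl, by simpa using h4, by simpa using h6⟩
    · obtain ⟨h7, h8⟩ := h5.resolve_left h6
      obtain ⟨t₁, t₂, h9, h10, h11⟩ := greedy m (49 - q) r₂ (A.sum + r₁.sum + p + B.sum)
        (fun x hx => hrest x (by rw [h1]; exact List.mem_append_right _ hx)) (by omega) (by omega)
      exact ⟨t₁, t₂, h9, by omega, by omega⟩
  obtain ⟨t₁, t₂, h6, h7, h8⟩ := key2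
  refine Or.inl ⟨(A ++ r₁) ++ p :: ((B ++ t₁) ++ q :: (C ++ t₂)), ?_, good_double ?_ ?_ ?_ ?_⟩
  · rw [h1, h6]
    rw [← Multiset.coe_eq_coe]
    simp only [← Multiset.coe_add, ← Multiset.cons_coe]
    simp only [← Multiset.singleton_add]
    abel
  · rw [List.sum_append]; omega
  · rw [List.sum_append]; omega
  · rw [List.sum_append, List.sum_append]; omega
  · rw [List.sum_append, List.sum_append]; omega

/-- digits -/
def digs : ℕ → ℕ → List ℕ
  | 0, _ => []
  | f + 1, c => if c = 0 then [] else (c % 64) :: digs f (c / 64)

/-- Boolean version of `Good par2` -/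
def goodB : ℕ → List ℕ → Bool
  | _, [] => true
  | s, a :: l => ((List.range a).all fun i => decide (i = 0) || decide (s ≤ par2 (s + i))) &&
      goodB (s + a) l

lemma goodB_spec : ∀ (l : List ℕ) (s : ℕ), goodB s l = true → Good par2 s l
  | [], _, _ => trivial
  | a :: l, s, h => by
    unfold goodB at h
    rw [Bool.and_eq_true, List.all_eq_true] at h
    refine ⟨fun j h1 h2 => ?_, goodB_spec l (s + a) h.2⟩
    have := h.1 (j - s) (by rw [List.mem_range]; omega)
    simp only [Bool.or_eq_true, decide_eq_true_eq] at this
    rcases this with h3 | h3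
    · omega
    · have h4 : s + (j - s) = j := by omega
      rwa [h4] at h3

/-- check a leaf of the search tree -/
def chk (P : List ℕ) (m R c : ℕ) : Bool :=
  match digs 60 c with
  | [] => false
  | mode :: rest =>
    if mode = 1 then
      match rest with
      | [] => false
      | la :: vals =>
        match vals.drop la with
        | [] => false
        | p :: _ => vals.isPerm P && condS m R (vals.take la).sum p
    else if mode = 2 then
      match rest with
      | [] => false
      | [_] => false
      | la :: lb :: vals =>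
        match vals.drop la with
        | [] => false
        | p :: vals2 =>
          match vals2.drop lb with
          | [] => false
          | q :: C => vals.isPerm P &&
              condD m R (vals.take la).sum p (vals2.take lb).sum q C.sum
    else
      (rest ++ [2]).isPerm P && decide (R = 0) && goodB 0 (rest ++ [2])

lemma chk_ok {P : List ℕ} {m R c : ℕ} (h : chk P m R c = true) (htot : P.sum + R = 61)
    {rest : List ℕ} (hrest : ∀ x ∈ rest, 2 ≤ x ∧ x ≤ m) (hR : rest.sum = R) : OK (P ++ rest) := by
  unfold chk at h
  split at h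
  · exact absurd h (by simp)
  · rename_i mode rst _
    split_ifs at h with h1 h2
    · split at h
      · exact absurd h (by simp)
      · rename_i la vals _
        split at h
        · exact absurd h (by simp)
        · rename_i p C hdrop
          rw [Bool.and_eq_true] at h
          have hperm := List.isPerm_iff.mp h.1
          have hsplit : vals = vals.take la ++ p :: C := by rw [← hdrop, List.take_append_drop]
          refine OK.perm (hperm.append_right rest) ?_
          rw [hsplit]
          exact condS_ok (fun x hx => (hrest x hx).2) hR h.2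
    · split at h
      · exact absurd h (by simp)
      · exact absurd h (by simp)
      · rename_i la lb vals _
        split at h
        · exact absurd h (by simp)
        · rename_i p vals2 hdrop
          split at h
          · exact absurd h (by simp)
          · rename_i q C hdrop2
            rw [Bool.and_eq_true] at h
            have hperm := List.isPerm_iff.mp h.1
            have hsplit : vals = vals.take la ++ p :: vals2 := by
              rw [← hdrop, List.take_append_drop]
            have hsplit2 : vals2 = vals2.take lb ++ q :: C := by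
              rw [← hdrop2, List.take_append_drop]
            have hsum : (vals.take la).sum + p + (vals2.take lb).sum + q + C.sum + R = 61 := by
              have h3 := hperm.sum_eq
              have h4 : vals.sum = (vals.take la).sum + (p + vals2.sum) := by
                conv_lhs => rw [hsplit]
                rw [List.sum_append, List.sum_cons]
              have h5 : vals2.sum = (vals2.take lb).sum + (q + C.sum) := by
                conv_lhs => rw [hsplit2]
                rw [List.sum_append, List.sum_cons]
              omega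
            refine OK.perm (hperm.append_right rest) ?_
            rw [hsplit, hsplit2]
            have h6 : (vals2.take lb ++ q :: C).take lb = vals2.take lb := by rw [← hsplit2]
            exact condD_ok (fun x hx => (hrest x hx).2) hR hsum h.2
    · rw [Bool.and_eq_true, Bool.and_eq_true, decide_eq_true_eq] at h
      obtain ⟨⟨h3, h4⟩, h5⟩ := h
      have hnil : rest = [] := by
        cases rest with
        | nil => rfl
        | cons a l =>
          have := hrest a (by simp)
          rw [List.sum_cons] at hR
          omega
      rw [hnil, List.append_nil]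
      exact Or.inr ⟨_, List.isPerm_iff.mp h3, goodB_spec _ _ h5⟩

/-- the search over all completions of the list `P` of parts by parts in `[2, v]` -/
def go : ℕ → List ℕ → ℕ → ℕ → List ℕ → Option (List ℕ)
  | 0, _, _, _, _ => none
  | f + 1, P, v, R, s =>
    if R = 1 then some s
    else if R < v then go f P R R s
    else if v < 2 ∧ R ≠ 0 then some s
    else match s with
      | [] => none
      | c :: s' =>
        if c = 0 then
          (if R = 0 then none else
            match go f (v :: P) v (R - v) s' with
            | none => none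
            | some s'' => go f P (v - 1) R s'')
        else if chk P v R c then some s' else none

lemma go_ok : ∀ (f : ℕ) (P : List ℕ) (v R : ℕ) (s s' : List ℕ), go f P v R s = some s' →
    P.sum + R = 61 → ∀ rest : List ℕ, (∀ x ∈ rest, 2 ≤ x ∧ x ≤ v) → rest.sum = R →
      OK (P ++ rest) := by
  intro f
  induction f with
  | zero => intro P v R s s' h; simp [go] at h
  | succ f ih =>
    intro P v R s s' h htot rest hrest hR
    unfold go at h
    have hmem : ∀ x ∈ rest, x ≤ R := fun x hx => by
      rw [← hR]; exact List.le_sum_of_mem hx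
    by_cases h1 : R = 1
    · exfalso
      cases rest with
      | nil => simp at hR; omega
      | cons a l =>
        have := hrest a (by simp)
        have := hmem a (by simp)
        omega
    rw [if_neg h1] at h
    by_cases h2 : R < v
    · rw [if_pos h2] at h
      exact ih P R R s s' h htot rest (fun x hx => ⟨(hrest x hx).1, hmem x hx⟩) hR
    rw [if_neg h2] at h
    by_cases h3 : v < 2 ∧ R ≠ 0
    · exfalso
      cases rest with
      | nil => simp at hR; omega
      | cons a l =>
        have := hrest a (by simp)
        omega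
    rw [if_neg h3] at h
    cases s with
    | nil => exact absurd h (by simp)
    | cons c s1 =>
      simp only at h
      by_cases hc : c = 0
      · rw [if_pos hc] at h
        by_cases hR0 : R = 0
        · rw [if_pos hR0] at h; exact absurd h (by simp)
        · rw [if_neg hR0] at h
          cases hs2 : go f (v :: P) v (R - v) s1 with
          | none => rw [hs2] at h; exact absurd h (by simp)
          | some s2 =>
            rw [hs2] at h
            simp only at h
            by_cases hv : v ∈ rest
            · have h5 : rest.Perm (v :: rest.erase v) := List.perm_cons_erase hv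
              have h6 := h5.sum_eq
              rw [List.sum_cons] at h6
              have h4 := ih (v :: P) v (R - v) s1 s2 hs2
                (by rw [List.sum_cons]; have := hmem v hv; omega) (rest.erase v)
                (fun x hx => hrest x (List.mem_of_mem_erase hx)) (by omega)
              refine OK.perm ?_ h4
              rw [List.cons_append]
              exact (List.perm_middle.symm).trans (h5.symm.append_left P)
            · refine ih P (v - 1) R s2 s' h htot rest (fun x hx => ⟨(hrest x hx).1, ?_⟩) hR
              have h6 := (hrest x hx).2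
              have h7 : x ≠ v := fun h => hv (h ▸ hx)
              omega
      · rw [if_neg hc] at h
        by_cases h4 : chk P v R c = true
        · exact chk_ok h4 htot hrest hR
        · rw [if_neg h4] at h; exact absurd h (by simp)

end Pool.Agent.Q134.CP
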