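import Pool.Agent.Q134.CPCert
import Pool.Agent.Q134.CPDefs

/-! The tree on 61 vertices. -/

set_option autoImplicit false

namespace Pool.Agent.Q134.CP

open Finset

lemma go_all (v : ℕ) (h1 : 2 ≤ v) (h2 : v ≤ 61) : ∃ s, go 300 [v] v (61 - v) s = some [] := by
  interval_cases v
  exacts [⟨_, go2⟩, ⟨_, go3⟩, ⟨_, go4⟩, ⟨_, go5⟩, ⟨_, go6⟩, ⟨_, go7⟩, ⟨_, go8⟩, ⟨_, go9⟩, ⟨_, go10⟩,
      ⟨_, go11⟩, ⟨_, go12⟩, ⟨_, go13⟩, ⟨_, go14⟩, ⟨_, go15⟩, ⟨_, go16⟩, ⟨_, go17⟩, ⟨_, go18⟩,
      ⟨_, go19⟩, ⟨_, go20⟩, ⟨_, go21⟩, ⟨_, go22⟩, ⟨_, go23⟩, ⟨_, go24⟩, ⟨_, go25⟩, ⟨_, go26⟩,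
      ⟨_, go27⟩, ⟨_, go28⟩, ⟨_, go29⟩, ⟨_, go30⟩, ⟨_, go31⟩, ⟨_, go32⟩, ⟨_, go33⟩, ⟨_, go34⟩,
      ⟨_, go35⟩, ⟨_, go36⟩, ⟨_, go37⟩, ⟨_, go38⟩, ⟨_, go39⟩, ⟨_, go40⟩, ⟨_, go41⟩, ⟨_, go42⟩,
      ⟨_, go43⟩, ⟨_, go44⟩, ⟨_, go45⟩, ⟨_, go46⟩, ⟨_, go47⟩, ⟨_, go48⟩, ⟨_, go49⟩, ⟨_, go50⟩,
      ⟨_, go51⟩, ⟨_, go52⟩, ⟨_, go53⟩, ⟨_, go54⟩, ⟨_, go55⟩, ⟨_, go56⟩, ⟨_, go57⟩, ⟨_, go58⟩,
      ⟨_, go59⟩, ⟨_, go60⟩, ⟨_, go61⟩]

/-- lists without ones -/
lemma ok_two (L : List ℕ) (h : ∀ x ∈ L, 2 ≤ x) (hsum : L.sum = 61) : OK L := by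
  have hne : L ≠ [] := by rintro rfl; simp at hsum
  obtain ⟨v, hv, hmax⟩ : ∃ v ∈ L, ∀ x ∈ L, x ≤ v := by
    have := L.toFinset.exists_max_image id (by
      obtain ⟨a, l, rfl⟩ := List.exists_cons_of_ne_nil hne
      exact ⟨a, by simp⟩)
    obtain ⟨v, hv, hmax⟩ := this
    exact ⟨v, by simpa using hv, fun x hx => hmax x (by simpa using hx)⟩
  have hle : v ≤ 61 := by rw [← hsum]; exact List.le_sum_of_mem hv
  obtain ⟨s, hs⟩ := go_all v (h v hv) hle
  have hperm : L.Perm (v :: L.erase v) := List.perm_cons_erase hv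
  have hs2 := hperm.sum_eq
  rw [List.sum_cons] at hs2
  have h3 := go_ok 300 [v] v (61 - v) s [] hs (by simp; omega) (L.erase v)
    (fun x hx => ⟨h x (List.mem_of_mem_erase hx), hmax x (List.mem_of_mem_erase hx)⟩) (by omega)
  exact OK.perm hperm.symm h3

/-- a block of size `a + 1` can be cut into blocks of sizes `a` and `1` -/
lemma good_cut {par : ℕ → ℕ} {l₁ l₂ : List ℕ} {a : ℕ}
    (h : Good par 0 (l₁ ++ (a + 1) :: l₂)) : Good par 0 (l₁ ++ a :: 1 :: l₂) := by
  rw [good_append] at h ⊢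
  refine ⟨h.1, ?_⟩
  have h2 := h.2
  simp only [Good] at h2 ⊢
  refine ⟨fun j h3 h4 => h2.1 j h3 (by omega), fun j h3 h4 => by omega, ?_⟩
  have : 0 + l₁.sum + (a + 1) = 0 + l₁.sum + a + 1 := by ring
  rw [← this]; exact h2.2

lemma ok_cut {L : List ℕ} {a : ℕ} (h : OK ((a + 1) :: L)) : OK (a :: 1 :: L) := by
  have key : ∀ par : ℕ → ℕ, (∃ l : List ℕ, l.Perm ((a + 1) :: L) ∧ Good par 0 l) →
      ∃ l : List ℕ, l.Perm (a :: 1 :: L) ∧ Good par 0 l := by
    rintro par ⟨l, h1, h2⟩
    have hmem : a + 1 ∈ l := h1.mem_iff.mpr (by simp)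
    obtain ⟨l₁, l₂, rfl⟩ := List.mem_iff_append.mp hmem
    refine ⟨l₁ ++ a :: 1 :: l₂, ?_, good_cut h2⟩
    have h3 : ((a + 1) :: (l₁ ++ l₂)).Perm ((a + 1) :: L) := List.perm_middle.symm.trans h1
    have h4 : (l₁ ++ l₂).Perm L := (List.perm_cons _).mp h3
    have h5 : (l₁ ++ a :: 1 :: l₂).Perm (a :: (l₁ ++ 1 :: l₂)) := List.perm_middle
    have h6 : (l₁ ++ 1 :: l₂).Perm (1 :: (l₁ ++ l₂)) := List.perm_middle
    exact h5.trans ((h6.trans (h4.cons 1)).cons a)
  rcases h with h | h
  · exact Or.inl (key par1 h)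
  · exact Or.inr (key par2 h)

lemma ok_all : ∀ (n : ℕ) (L : List ℕ), L.length = n → (∀ x ∈ L, 1 ≤ x) → L.sum = 61 → OK L := by
  intro n
  induction n using Nat.strong_induction_on with
  | _ n ih =>
  intro L hn hpos hsum
  by_cases h1 : 1 ∈ L
  · have hperm : L.Perm (1 :: L.erase 1) := List.perm_cons_erase h1
    have hs := hperm.sum_eq
    have hl := hperm.length_eq
    rw [List.sum_cons] at hs
    rw [List.length_cons] at hl
    cases he : L.erase 1 with
    | nil => rw [he] at hs; simp at hs; omega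
    | cons a l =>
      rw [he] at hs hl hperm
      rw [List.sum_cons] at hs
      rw [List.length_cons] at hl
      have h2 : ∀ x ∈ a :: l, 1 ≤ x := by
        intro x hx; rw [← he] at hx; exact hpos x (List.mem_of_mem_erase hx)
      have h3 : OK ((a + 1) :: l) := by
        refine ih (l.length + 1) (by omega) _ rfl ?_ ?_
        · intro x hx
          rw [List.mem_cons] at hx
          rcases hx with rfl | hx
          · omega
          · exact h2 x (List.mem_cons_of_mem _ hx)
        · rw [List.sum_cons]; omega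
      exact OK.perm ((List.Perm.swap _ _ _).trans hperm.symm) (ok_cut h3)
  · refine ok_two L (fun x hx => ?_) hsum
    have h2 := hpos x hx
    have h3 : x ≠ 1 := fun h => h1 (h ▸ hx)
    omega

/-! ### the tree -/

/-- parents of the vertices -/
def parent (j : ℕ) : ℕ :=
  if j = 31 ∨ j = 32 ∨ j = 33 then 30 else if j = 46 ∨ j = 47 ∨ j = 49 then 45 else j - 1

/-- The tree with the vertices `0, …, 60`: the path `0 … 30`, the leaves `31, 32` at `30`, the path
`30, 33, …, 45`, the leaf `46` at `45`, the path `45, 47, 48`, and the path `45, 49, …, 60`. -/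
def tree : SimpleGraph (Fin 61) where
  Adj i j := (i.val ≠ 0 ∧ parent i.val = j.val) ∨ (j.val ≠ 0 ∧ parent j.val = i.val)
  symm := ⟨fun _ _ h => h.symm⟩
  loopless := ⟨fun i h => by
    have h' : i.val ≠ 0 ∧ parent i.val = i.val := by rcases h with h | h <;> exact h
    obtain ⟨h1, h2⟩ := h'
    unfold parent at h2
    split_ifs at h2 <;> omega⟩

instance : DecidableRel tree.Adj := fun i j =>
  inferInstanceAs (Decidable ((i.val ≠ 0 ∧ parent i.val = j.val) ∨
    (j.val ≠ 0 ∧ parent j.val = i.val)))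

/-- an order of the vertices with parents -/
structure Order (par : ℕ → ℕ) (e : Fin 61 ≃ Fin 61) : Prop where
  lt : ∀ j, 1 ≤ j → par j < j
  adj : ∀ j : Fin 61, 1 ≤ j.val → ∀ h : par j.val < 61, tree.Adj (e j) (e ⟨par j.val, h⟩)

/-- positions from `s` to `t - 1` -/
def region (e : Fin 61 ≃ Fin 61) (s t : ℕ) : Finset (Fin 61) :=
  univ.filter fun v => s ≤ (e.symm v).val ∧ (e.symm v).val < t

lemma mem_region {e : Fin 61 ≃ Fin 61} {s t : ℕ} {v : Fin 61} :
    v ∈ region e s t ↔ s ≤ (e.symm v).val ∧ (e.symm v).val < t := by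
  unfold region; simp

lemma card_region (e : Fin 61 ≃ Fin 61) (s t : ℕ) (h : s ≤ t) (ht : t ≤ 61) :
    (region e s t).card = t - s := by
  rw [← Nat.card_Ico]
  refine card_bij (fun v _ => (e.symm v).val) ?_ ?_ ?_
  · intro v hv; rw [mem_region] at hv; rw [Finset.mem_Ico]; exact hv
  · intro v _ w _ hvw
    exact e.symm.injective (Fin.ext hvw)
  · intro j hj
    rw [Finset.mem_Ico] at hj
    refine ⟨e ⟨j, by omega⟩, ?_, by simp⟩
    rw [mem_region]; simpa using hj

lemma region_connected {par : ℕ → ℕ} {e : Fin 61 ≃ Fin 61} (ho : Order par e) (s t : ℕ)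
    (hst : s < t) (ht : t ≤ 61) (hpar : ∀ j, s < j → j < t → s ≤ par j) :
    (tree.induce (region e s t : Set (Fin 61))).Connected := by
  have hs61 : s < 61 := by omega
  have hs : e ⟨s, hs61⟩ ∈ region e s t := by rw [mem_region]; simpa using hst
  have key : ∀ (n : ℕ) (v : Fin 61) (hv : v ∈ region e s t), (e.symm v).val = n →
      (tree.induce (region e s t : Set (Fin 61))).Reachable ⟨v, hv⟩ ⟨e ⟨s, hs61⟩, hs⟩ := by
    intro n
    induction n using Nat.strong_induction_on with
    | _ n ih =>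
    intro v hv hn
    have hv' := mem_region.mp hv
    by_cases hns : n = s
    · have h0 : e.symm v = ⟨s, hs61⟩ := Fin.ext (hn.trans hns)
      have : v = e ⟨s, hs61⟩ := by rw [← h0, e.apply_symm_apply]
      subst this
      exact SimpleGraph.Reachable.refl _
    · have h1 : par n < n := ho.lt n (by omega)
      have h2 : s ≤ par n := hpar n (by omega) (by omega)
      have hpn : par (e.symm v).val < 61 := by rw [hn]; omega
      have h3 := ho.adj (e.symm v) (by omega) hpn
      rw [e.apply_symm_apply] at h3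
      set w : Fin 61 := e ⟨par (e.symm v).val, hpn⟩ with hw
      have hwp : (e.symm w).val = par n := by
        rw [hw, e.symm_apply_apply]
        show par (e.symm v).val = par n
        rw [hn]
      have hwr : w ∈ region e s t := by rw [mem_region, hwp]; omega
      have h4 := ih (par n) h1 w hwr hwp
      refine SimpleGraph.Reachable.trans (SimpleGraph.Adj.reachable ?_) h4
      exact h3
  rw [SimpleGraph.connected_iff]
  refine ⟨?_, ⟨⟨_, hs⟩⟩⟩
  rintro ⟨v, hv⟩ ⟨w, hw⟩
  exact (key _ v hv rfl).trans (key _ w hw rfl).symm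

lemma exists_part {par : ℕ → ℕ} {e : Fin 61 ≃ Fin 61} (ho : Order par e) :
    ∀ (l : List ℕ) (s : ℕ), (∀ x ∈ l, 1 ≤ x) → Good par s l → s + l.sum ≤ 61 →
    ∃ P : Finpartition (region e s (s + l.sum)),
      (∀ B ∈ P.parts, (tree.induce (B : Set (Fin 61))).Connected) ∧
      P.parts.val.map Finset.card = (l : Multiset ℕ)
  | [], s, _, _, _ => by
    have h0 : region e s (s + ([] : List ℕ).sum) = ∅ := by
      ext v; rw [mem_region]; simp
    rw [h0]
    refine ⟨Finpartition.empty _, ?_, ?_⟩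
    · intro B hB; exact absurd hB (by simp)
    · simp
  | a :: l, s, hpos, hgood, hle => by
    rw [List.sum_cons] at hle
    have ha : 1 ≤ a := hpos a (by simp)
    obtain ⟨P, h1, h2⟩ := exists_part ho l (s + a) (fun x hx => hpos x (List.mem_cons_of_mem _ hx))
      hgood.2 (by omega)
    have hcard : (region e s (s + a)).card = a := by
      rw [card_region e s (s + a) (by omega) (by omega)]; omega
    have hne : region e s (s + a) ≠ ⊥ := by
      intro h
      rw [h] at hcard
      simp at hcard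
      omega
    have hdis : Disjoint (region e (s + a) (s + a + l.sum)) (region e s (s + a)) := by
      rw [Finset.disjoint_left]
      intro v h3 h4
      rw [mem_region] at h3 h4
      omega
    have hun : region e (s + a) (s + a + l.sum) ⊔ region e s (s + a) =
        region e s (s + (a :: l).sum) := by
      ext v
      rw [Finset.sup_eq_union, Finset.mem_union, mem_region, mem_region, mem_region, List.sum_cons]
      omega
    refine ⟨P.extend hne hdis hun, ?_, ?_⟩
    · intro B hB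
      rw [Finpartition.extend_parts, Finset.mem_insert] at hB
      rcases hB with rfl | hB
      · exact region_connected ho s (s + a) (by omega) (by omega) hgood.1
      · exact h1 B hB
    · have hnot : region e s (s + a) ∉ P.parts := by
        intro h
        have h3 := P.le h
        have h4 : region e s (s + a) ≤ ⊥ := hdis h3 le_rfl
        exact hne (le_bot_iff.mp h4)
      rw [Finpartition.extend_parts, Finset.insert_val_of_notMem hnot, Multiset.map_cons, h2, hcard]
      rfl

/-- the second order: the leg of length two comes last -/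
def f2 (j : Fin 61) : Fin 61 :=
  if j.val < 47 then j else if h : j.val < 59 then ⟨j.val + 2, by omega⟩ else
    ⟨j.val - 12, by omega⟩

/-- its inverse -/
def g2 (j : Fin 61) : Fin 61 :=
  if j.val < 47 then j else if h : j.val < 49 then ⟨j.val + 12, by omega⟩ else
    ⟨j.val - 2, by omega⟩

def e2 : Fin 61 ≃ Fin 61 where
  toFun := f2
  invFun := g2
  left_inv := by unfold Function.LeftInverse; decide +kernel
  right_inv := by unfold Function.RightInverse Function.LeftInverse; decide +kernel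

lemma order1 : Order par1 (Equiv.refl _) := by
  refine ⟨?_, ?_⟩
  · intro j hj; unfold par1; split_ifs <;> omega
  · intro j hj h
    left
    exact ⟨by simp; omega, rfl⟩

lemma order2 : Order par2 e2 := by
  refine ⟨?_, ?_⟩
  · intro j hj; unfold par2; split_ifs <;> omega
  · have : ∀ j : Fin 61, 1 ≤ j.val → ∀ h : par2 j.val < 61,
      tree.Adj (f2 j) (f2 ⟨par2 j.val, h⟩) := by decide +kernel
    exact this

lemma region_univ (e : Fin 61 ≃ Fin 61) : region e 0 61 = univ := by
  ext v; rw [mem_region]; simp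

theorem cpet : IsCPET tree := by
  intro lam
  obtain ⟨L, hL⟩ := Quot.exists_rep lam.parts
  have hL' : lam.parts = (L : Multiset ℕ) := hL.symm
  have hpos : ∀ x ∈ L, 1 ≤ x := by
    intro x hx
    exact lam.parts_pos (by rw [hL']; exact Multiset.mem_coe.mpr hx)
  have hsum : L.sum = 61 := by
    have h1 := lam.parts_sum
    rw [hL', Multiset.sum_coe] at h1
    simpa using h1
  have key : ∀ (par : ℕ → ℕ) (e : Fin 61 ≃ Fin 61), Order par e →
      (∃ l : List ℕ, l.Perm L ∧ Good par 0 l) → ∃ P, IsConnectedPartition tree lam P := by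
    rintro par e ho ⟨l, hl, hg⟩
    have hs : l.sum = 61 := by rw [hl.sum_eq, hsum]
    obtain ⟨P, h1, h2⟩ := exists_part ho l 0 (fun x hx => hpos x (hl.mem_iff.mp hx)) hg (by omega)
    have hreg : region e 0 (0 + l.sum) = univ := by rw [hs, zero_add, region_univ]
    refine ⟨P.copy hreg, ?_, ?_⟩
    · intro B hB
      exact h1 B (by simpa using hB)
    · rw [hL', ← Multiset.coe_eq_coe.mpr hl]
      simpa using h2
  rcases ok_all _ L rfl hpos hsum with h | h
  · exact key par1 _ order1 h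
  · exact key par2 _ order2 h

theorem isTree : tree.IsTree := by
  rw [SimpleGraph.isTree_iff_connected_and_card]
  constructor
  · have h1 := region_connected order1 0 61 (by norm_num) le_rfl (fun j _ _ => Nat.zero_le _)
    rw [region_univ, Finset.coe_univ] at h1
    exact (SimpleGraph.induceUnivIso tree).connected_iff.mp h1
  · have h1 : ∑ v, tree.degree v = 2 * tree.edgeFinset.card := tree.sum_degrees_eq_twice_card_edges
    have h2 : ∑ v, tree.degree v = 120 := by decide +kernel
    have h3 : Nat.card tree.edgeSet = tree.edgeFinset.card := by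
      rw [Nat.card_eq_fintype_card, SimpleGraph.edgeFinset_card]
    rw [h3, Nat.card_eq_fintype_card, Fintype.card_fin]
    omega

end Pool.Agent.Q134.CP
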