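import Mathlib

set_option autoImplicit false

namespace Pool.Agent.Q134.CT

/-- The disjoint union of `c` triangles. -/
def tri (c : ℕ) : SimpleGraph (Fin c × Fin 3) where
  Adj x y := x.1 = y.1 ∧ x.2 ≠ y.2
  symm := ⟨fun _ _ h => ⟨h.1.symm, h.2.symm⟩⟩
  loopless := ⟨fun _ h => h.2 rfl⟩

/-- `H` with the edge `a b` subdivided once; the new vertex is `none`. -/
def subdivide {W : Type} (H : SimpleGraph W) (a b : W) : SimpleGraph (Option W) where
  Adj x y :=
    match x, y with
    | some u, some v => H.Adj u v ∧ ¬ (u = a ∧ v = b) ∧ ¬ (u = b ∧ v = a)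
    | some u, none => u = a ∨ u = b
    | none, some v => v = a ∨ v = b
    | none, none => False
  symm := ⟨by
    rintro (_ | u) (_ | v) h
    · exact h
    · exact h
    · exact h
    · exact ⟨h.1.symm, fun h' => h.2.2 ⟨h'.2, h'.1⟩, fun h' => h.2.1 ⟨h'.2, h'.1⟩⟩⟩
  loopless := ⟨by
    rintro (_ | u) h
    · exact h
    · exact H.loopless.irrefl u h.1⟩

end Pool.Agent.Q134.CT
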