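import Mathlib
import Pool.Agent.TH507.Host
import Pool.Agent.Q134.CTDefs

set_option autoImplicit false

/-!
A graph on `12 s` vertices of treewidth at least `3 s` without `s` disjoint models of `K₃`.
-/

namespace Pool.Agent.Q134.CT

open Finset Pool.Agent.TH507.RG

section

variable {V : Type} [Fintype V] [DecidableEq V] {M : ℕ}

/-- the nonempty sets with at most `t` elements that contain at least as many entries of the list
as elements -/
def dense (t : ℕ) (φ : Fin M → V × V) : Finset (Finset V) :=
  univ.filter (fun S => (1 ≤ S.card ∧ S.card ≤ t) ∧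
    S.card ≤ (univ.filter (fun i => φ i ∈ S ×ˢ S)).card)

lemma dense_le (t : ℕ) (φ : Fin M → V × V) : (dense t φ).card ≤
    ∑ S ∈ (univ : Finset (Finset V)).filter (fun S => 1 ≤ S.card ∧ S.card ≤ t),
      ∑ I ∈ powersetCard S.card (univ : Finset (Fin M)), if φ ∈ badIn S I then 1 else 0 := by
  rw [card_eq_sum_ones]
  refine (sum_le_sum (g := fun S => ∑ I ∈ powersetCard S.card (univ : Finset (Fin M)),
    if φ ∈ badIn S I then 1 else 0) ?_).trans (sum_le_sum_of_subset ?_)
  · intro S hS
    rw [dense, mem_filter] at hS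
    obtain ⟨I, hI, hIc⟩ := exists_subset_card_eq hS.2.2
    have hmem : I ∈ powersetCard S.card (univ : Finset (Fin M)) := by
      rw [mem_powersetCard]
      exact ⟨subset_univ _, hIc⟩
    have hbad : φ ∈ badIn S I := by
      unfold badIn
      rw [Fintype.mem_piFinset]
      intro i
      split_ifs with hi
      · exact (mem_filter.1 (hI hi)).2
      · exact mem_univ _
    calc 1 = if φ ∈ badIn S I then 1 else 0 := by rw [if_pos hbad]
      _ ≤ _ := single_le_sum (f := fun I => if φ ∈ badIn S I then 1 else 0)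
        (fun _ _ => Nat.zero_le _) hmem
  · intro S hS
    rw [dense, mem_filter] at hS
    rw [mem_filter]
    exact ⟨hS.1, hS.2.1⟩

lemma sum_dense (t : ℕ) : ∑ φ : Fin M → V × V, (dense t φ).card ≤ ∑ k ∈ Finset.Icc 1 t,
    (Fintype.card V).choose k * (M.choose k *
      ((k ^ 2) ^ k * (Fintype.card V ^ 2) ^ (M - k))) := by
  calc ∑ φ : Fin M → V × V, (dense t φ).card
      ≤ ∑ φ : Fin M → V × V,
        ∑ S ∈ (univ : Finset (Finset V)).filter (fun S => 1 ≤ S.card ∧ S.card ≤ t),
        ∑ I ∈ powersetCard S.card (univ : Finset (Fin M)), (if φ ∈ badIn S I then 1 else 0) :=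
        sum_le_sum (fun φ _ => dense_le t φ)
    _ = ∑ S ∈ (univ : Finset (Finset V)).filter (fun S => 1 ≤ S.card ∧ S.card ≤ t),
        ∑ I ∈ powersetCard S.card (univ : Finset (Fin M)),
          ∑ φ : Fin M → V × V, (if φ ∈ badIn S I then 1 else 0) := by
        rw [sum_comm]
        refine sum_congr rfl (fun S _ => ?_)
        rw [sum_comm]
    _ = ∑ S ∈ (univ : Finset (Finset V)).filter (fun S => 1 ≤ S.card ∧ S.card ≤ t),
          (M.choose S.card * ((S.card ^ 2) ^ S.card * (Fintype.card V ^ 2) ^ (M - S.card))) := by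
        refine sum_congr rfl (fun S _ => ?_)
        rw [sum_congr rfl (g := fun _ => (S.card ^ 2) ^ S.card *
          (Fintype.card V ^ 2) ^ (M - S.card))]
        · rw [sum_const, card_powersetCard, card_univ, Fintype.card_fin, smul_eq_mul]
        · intro I hI
          rw [mem_powersetCard] at hI
          rw [← card_filter, filter_mem_eq_inter, univ_inter, card_badIn, hI.2]
    _ = ∑ k ∈ Finset.Icc 1 t, ∑ S ∈ powersetCard k (univ : Finset V),
          (M.choose k * ((k ^ 2) ^ k * (Fintype.card V ^ 2) ^ (M - k))) := by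
        have h1 : (univ : Finset (Finset V)).filter (fun S => 1 ≤ S.card ∧ S.card ≤ t) =
            (Finset.Icc 1 t).biUnion (fun k => powersetCard k (univ : Finset V)) := by
          ext S
          simp only [mem_filter, mem_univ, true_and, mem_biUnion, mem_Icc, mem_powersetCard,
            subset_univ]
          constructor
          · intro h
            exact ⟨S.card, h, rfl⟩
          · rintro ⟨k, h, rfl⟩
            exact h
        rw [h1, sum_biUnion]
        · refine sum_congr rfl (fun k _ => sum_congr rfl (fun S hS => ?_))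
          rw [mem_powersetCard] at hS
          rw [hS.2]
        · intro k _ l _ hkl
          rw [Function.onFun, Finset.disjoint_left]
          intro S h2 h3
          rw [mem_powersetCard] at h2 h3
          exact hkl (h2.2.symm.trans h3.2)
    _ = _ := by
        refine sum_congr rfl (fun k _ => ?_)
        rw [sum_const, card_powersetCard, card_univ, smul_eq_mul]

end

/-- the list -/
theorem exists_list0 {s t : ℕ} (hs : 1 ≤ s) (ht : 1 ≤ t) :
    ∃ φ : Fin (16 * (s * t)) → Fin (s * t) × Fin (s * t),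
      (∀ A B : Finset (Fin (s * t)), Disjoint A B → s * t ≤ 4 * A.card → s * t ≤ 4 * B.card →
        ∃ i, φ i ∈ A ×ˢ B ∪ B ×ˢ A) ∧
      (dense t φ).card < 4 * t * 119 ^ t := by
  classical
  set M := 16 * (s * t) with hM
  set V := Fin (s * t)
  have hN : 1 ≤ s * t := Nat.one_le_iff_ne_zero.2 (by positivity)
  have hcardV : Fintype.card V = s * t := Fintype.card_fin _
  -- first bad set
  have h1 : 2 * (bad1 V M).card ≤ ((s * t) ^ 2) ^ M := by
    have h := card_bad1 (V := V) (M := M)
    rw [hcardV] at h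
    have e1 : 2 * 4 ^ (s * t) * 7 ^ M ≤ 8 ^ M := by
      rw [hM, pow_mul 7, pow_mul 8]
      calc 2 * 4 ^ (s * t) * (7 ^ 16) ^ (s * t) ≤ 2 ^ (s * t) * 4 ^ (s * t) * (7 ^ 16) ^ (s * t) := by
            apply Nat.mul_le_mul_right
            apply Nat.mul_le_mul_right
            calc 2 = 2 ^ 1 := rfl
              _ ≤ 2 ^ (s * t) := Nat.pow_le_pow_right (by norm_num) hN
        _ = (2 * 4 * 7 ^ 16) ^ (s * t) := by rw [mul_pow, mul_pow]
        _ ≤ (8 ^ 16) ^ (s * t) := Nat.pow_le_pow_left (by norm_num) _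
    have e2 : 8 ^ M * (2 * (bad1 V M).card) ≤ 8 ^ M * (((s * t) ^ 2) ^ M) := by
      calc 8 ^ M * (2 * (bad1 V M).card) = 2 * (8 ^ M * (bad1 V M).card) := by ring
        _ ≤ 2 * (4 ^ (s * t) * (7 ^ M * ((s * t) ^ 2) ^ M)) := Nat.mul_le_mul_left _ h
        _ = (2 * 4 ^ (s * t) * 7 ^ M) * ((s * t) ^ 2) ^ M := by ring
        _ ≤ 8 ^ M * ((s * t) ^ 2) ^ M := Nat.mul_le_mul_right _ e1
    exact Nat.le_of_mul_le_mul_left e2 (by positivity)
  -- the number of dense sets
  have h2 : ∑ φ : Fin M → V × V, (dense t φ).card ≤ t * 119 ^ t * ((s * t) ^ 2) ^ M := by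
    have h := sum_dense (V := V) (M := M) t
    rw [hcardV] at h
    have h' : ((∑ φ : Fin M → V × V, (dense t φ).card : ℕ) : ℝ) ≤ ∑ k ∈ Finset.Icc 1 t,
        ((s * t).choose k : ℝ) * ((M.choose k : ℝ) *
      (((k : ℝ) ^ 2) ^ k * (((s * t : ℕ) : ℝ) ^ 2) ^ (M - k))) := by
      have := (Nat.cast_le (α := ℝ)).2 h
      push_cast at this ⊢
      exact this
    set N : ℝ := ((s * t : ℕ) : ℝ) with hNdef
    have hN0 : 0 < N := by rw [hNdef]; exact_mod_cast hN
    have hterm : ∀ k ∈ Finset.Icc 1 t, ((s * t).choose k : ℝ) * ((M.choose k : ℝ) *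
      (((k : ℝ) ^ 2) ^ k * (N ^ 2) ^ (M - k))) ≤ 119 ^ t * (N ^ 2) ^ M := by
      intro k hk
      rw [Finset.mem_Icc] at hk
      by_cases hkM : k ≤ M
      · have e1 : (N ^ 2) ^ M = (N ^ 2) ^ (M - k) * (N ^ 2) ^ k := by
          rw [← pow_add]
          congr 1
          omega
        have e2 := term_le (b := 0) hs ht hk.1 hk.2
        rw [← hNdef, ← hM, pow_zero, mul_one, add_zero] at e2
        have e3 : ((s * t).choose k : ℝ) * ((M.choose k : ℝ) *
            (((k : ℝ) ^ 2) ^ k * (N ^ 2) ^ (M - k))) =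
            (((s * t).choose k : ℝ) * ((M.choose k : ℝ) *
            (((k : ℝ) ^ 2) ^ k / (N ^ 2) ^ k))) * (N ^ 2) ^ M := by
          rw [e1]
          field_simp
        rw [e3]
        exact mul_le_mul_of_nonneg_right e2 (by positivity)
      · have : M.choose k = 0 := Nat.choose_eq_zero_of_lt (by omega)
        rw [this]
        simp only [Nat.cast_zero, zero_mul, mul_zero]
        positivity
    have h3 : ((∑ φ : Fin M → V × V, (dense t φ).card : ℕ) : ℝ) ≤
        t * (119 ^ t * (N ^ 2) ^ M) := by
      refine h'.trans ((Finset.sum_le_sum hterm).trans ?_)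
      rw [Finset.sum_const, Nat.card_Icc, Nat.add_sub_cancel, nsmul_eq_mul]
    have h4 : ((∑ φ : Fin M → V × V, (dense t φ).card : ℕ) : ℝ) ≤
        ((t * 119 ^ t * ((s * t) ^ 2) ^ M : ℕ) : ℝ) := by
      refine h3.trans (le_of_eq ?_)
      rw [hNdef]
      push_cast
      ring
    exact_mod_cast h4
  -- the second bad set
  set T := 4 * t * 119 ^ t with hT
  let bad3 : Finset (Fin M → V × V) := univ.filter (fun φ => T ≤ (dense t φ).card)
  have h5 : T * bad3.card ≤ t * 119 ^ t * ((s * t) ^ 2) ^ M := by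
    refine le_trans ?_ h2
    calc T * bad3.card = ∑ φ ∈ bad3, T := by rw [sum_const, smul_eq_mul, mul_comm]
      _ ≤ ∑ φ ∈ bad3, (dense t φ).card := sum_le_sum (fun φ hφ => (mem_filter.1 hφ).2)
      _ ≤ ∑ φ : Fin M → V × V, (dense t φ).card := sum_le_sum_of_subset (subset_univ _)
  have h6 : 4 * bad3.card ≤ ((s * t) ^ 2) ^ M := by
    have h7 : (t * 119 ^ t) * (4 * bad3.card) ≤ (t * 119 ^ t) * (((s * t) ^ 2) ^ M) := by
      calc (t * 119 ^ t) * (4 * bad3.card) = T * bad3.card := by rw [hT]; ring
        _ ≤ _ := h5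
    exact Nat.le_of_mul_le_mul_left h7 (by positivity)
  have h7 : 0 < ((s * t) ^ 2) ^ M := by positivity
  have h3 : (bad1 V M ∪ bad3).card < (univ : Finset (Fin M → V × V)).card := by
    have e1 := card_union_le (bad1 V M) bad3
    rw [card_univ, Fintype.card_fun, Fintype.card_prod, Fintype.card_fin, Fintype.card_fin,
      ← pow_two]
    omega
  obtain ⟨φ, -, hφ⟩ := exists_mem_notMem_of_card_lt_card h3
  rw [mem_union, not_or] at hφ
  refine ⟨φ, ?_, ?_⟩
  · intro A B hd hA hB
    by_contra hcon
    push Not at hcon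
    apply hφ.1
    unfold bad1
    rw [mem_biUnion]
    refine ⟨(A, B), ?_, ?_⟩
    · rw [mem_filter, hcardV]
      exact ⟨mem_univ _, hd, hA, hB⟩
    · unfold badPair
      rw [Fintype.mem_piFinset]
      intro i
      rw [mem_compl]
      exact hcon i
  · by_contra hcon
    push Not at hcon
    exact hφ.2 (mem_filter.2 ⟨mem_univ _, hcon⟩)

open Pool.Agent.TH507.Host in
/-- The host graph. -/
theorem exists_host : ∃ s : ℕ, 1 ≤ s ∧ ∃ G : SimpleGraph (Fin (s * 12)),
    ¬ IsMinor (tri s) G ∧ ∀ w, w < 3 * s → ¬ TwLE G w := by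
  classical
  set T := 4 * 12 * 119 ^ 12 with hT
  set s := 13 * (T + 1) with hs
  have hs1 : 1 ≤ s := by omega
  obtain ⟨φ, hφ1, hφ2⟩ := exists_list0 hs1 (t := 12) (by norm_num)
  refine ⟨s, hs1, gr φ, ?_, ?_⟩
  · rintro ⟨B, h1, h2, h3⟩
    let B' : Fin s → Fin 3 → Finset (Fin (s * 12)) := fun a w => (B (a, w)).toFinset
    have hB' : ∀ a w, ((B' a w : Finset (Fin (s * 12))) : Set (Fin (s * 12))) = B (a, w) :=
      fun a w => Set.coe_toFinset _
    let U : Fin s → Finset (Fin (s * 12)) := fun a => univ.biUnion (B' a)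
    have hne : ∀ a, (U a).Nonempty := by
      intro a
      obtain ⟨⟨x, hx⟩⟩ := (h1 (a, 0)).nonempty
      exact ⟨x, mem_biUnion.2 ⟨0, mem_univ _, Set.mem_toFinset.2 hx⟩⟩
    have hdis : ∀ a a' : Fin s, a ≠ a' → Disjoint (U a) (U a') := by
      intro a a' haa
      rw [Finset.disjoint_left]
      intro x hx hx'
      rw [mem_biUnion] at hx hx'
      obtain ⟨w, -, hw⟩ := hx
      obtain ⟨w', -, hw'⟩ := hx'
      have hne : (a, w) ≠ (a', w') := fun h => haa (Prod.mk.inj h).1
      exact Set.disjoint_left.1 (h2 _ _ hne) (Set.mem_toFinset.1 hw) (Set.mem_toFinset.1 hw')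
    have hdense : ∀ a, (U a).card ≤ 12 → U a ∈ dense 12 φ := by
      intro a ha
      obtain ⟨E, hE1, hE2⟩ := count_model (G := gr φ) (P := Fin 3) (B' a)
        (fun w => by rw [hB']; exact h1 _)
        (fun w w' hww => by
          rw [← Finset.disjoint_coe, hB', hB']
          exact h2 _ _ (fun h => hww (Prod.mk.inj h).2))
        (fun p => p) (fun p => p + 1)
        (by decide) (by decide)
        (fun p => by
          have hp : ∀ p : Fin 3, p ≠ p + 1 := by decide
          have hadj : (tri s).Adj (a, p) (a, p + 1) := ⟨rfl, hp p⟩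
          obtain ⟨u, hu, v, hv, huv⟩ := h3 _ _ hadj
          exact ⟨u, Set.mem_toFinset.2 hu, v, Set.mem_toFinset.2 hv, huv⟩)
      have hE3 := card_edges_le φ (U a) E hE1
      rw [dense, mem_filter]
      refine ⟨mem_univ _, ⟨card_pos.2 (hne a), ha⟩, ?_⟩
      rw [Fintype.card_fin] at hE2
      have : (U a).card ≤ E.card := by
        have := hE2
        simp only [U]
        omega
      omega
    have hUinj : Function.Injective U := by
      intro a a' h
      by_contra hne'
      have := hdis a a' hne'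
      rw [h, disjoint_self_iff_empty] at this
      exact (hne a').ne_empty this
    -- the small and the large sets
    have hsmall : ((univ : Finset (Fin s)).filter (fun a => (U a).card ≤ 12)).card < T := by
      refine lt_of_le_of_lt ?_ hφ2
      refine card_le_card_of_injOn U ?_ (hUinj.injOn)
      intro a ha
      exact hdense a (mem_filter.1 (mem_coe.1 ha)).2
    have hlarge : 13 * ((univ : Finset (Fin s)).filter (fun a => ¬ (U a).card ≤ 12)).card ≤
        s * 12 := by
      calc 13 * ((univ : Finset (Fin s)).filter (fun a => ¬ (U a).card ≤ 12)).card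
          = ∑ a ∈ (univ : Finset (Fin s)).filter (fun a => ¬ (U a).card ≤ 12), 13 := by
            rw [sum_const, smul_eq_mul, mul_comm]
        _ ≤ ∑ a ∈ (univ : Finset (Fin s)).filter (fun a => ¬ (U a).card ≤ 12), (U a).card := by
            apply sum_le_sum
            intro a ha
            have := (mem_filter.1 ha).2
            omega
        _ ≤ ∑ a, (U a).card := sum_le_sum_of_subset (subset_univ _)
        _ = (univ.biUnion U).card := (card_biUnion (fun a _ a' _ h => hdis a a' h)).symm
        _ ≤ s * 12 := by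
            refine (card_le_univ _).trans ?_
            rw [Fintype.card_fin]
    have htot := card_filter_add_card_filter_not (s := (univ : Finset (Fin s)))
      (fun a => (U a).card ≤ 12)
    rw [card_univ, Fintype.card_fin] at htot
    omega
  · intro w hw
    refine not_twLE (G := gr φ) (w := w) ?_ ?_
    · intro A B hd hA hB
      rw [Fintype.card_fin] at hA hB
      obtain ⟨i, hi⟩ := hφ1 A B hd hA hB
      rw [mem_union, mem_product, mem_product] at hi
      rcases hi with hi | hi
      · refine ⟨_, hi.1, _, hi.2, ?_, i, Or.inl rfl⟩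
        intro h
        exact Finset.disjoint_left.1 hd hi.1 (h ▸ hi.2)
      · refine ⟨_, hi.2, _, hi.1, ?_, i, Or.inr rfl⟩
        intro h
        exact Finset.disjoint_left.1 hd hi.2 (h ▸ hi.1)
    · rw [Fintype.card_fin]
      omega

end Pool.Agent.Q134.CT
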