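import Mathlib
import Pool.Agent.Helper805.CHS.Density

set_option autoImplicit false

/-!
# Path-pairable graphs without a `K_t` minor have linear maximum degree

Auxiliary results.
-/

namespace Pool.Agent.Q134.PP

open Finset

/-! ### Connected sets -/

theorem sing_conn {V : Type} (G : SimpleGraph V) (a : V) : (G.induce {a}).Connected :=
  SimpleGraph.Connected.of_subsingleton

/-- The component, outside `Z`, of a vertex `a` of a connected set `X` that meets `Z`. -/
theorem trunc {V : Type} (G : SimpleGraph V) (X Z : Set V) (hX : (G.induce X).Connected)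
    {a b : V} (ha : a ∈ X) (haZ : a ∉ Z) (hb : b ∈ X) (hbZ : b ∈ Z) :
    ∃ Y : Set V, Y ⊆ X \ Z ∧ a ∈ Y ∧ (G.induce Y).Connected ∧ ∃ y ∈ Y, ∃ z ∈ Z, G.Adj y z := by
  have key : ∀ (u v : X), (G.induce X).Walk u v → v.1 ∈ Z → u.1 ∉ Z →
      ∃ Y : Set V, Y ⊆ X \ Z ∧ u.1 ∈ Y ∧ (G.induce Y).Connected ∧
        ∃ y ∈ Y, ∃ z ∈ Z, G.Adj y z := by
    intro u v p
    induction p with
    | nil => intro h1 h2; exact absurd h1 h2
    | @cons u w v h p ih =>
      intro hv hu
      have huw : G.Adj u.1 w.1 := h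
      by_cases hw : w.1 ∈ Z
      · refine ⟨{u.1}, ?_, rfl, ?_, u.1, rfl, w.1, hw, huw⟩
        · intro x hx
          rw [Set.mem_singleton_iff] at hx
          subst hx
          exact ⟨u.2, hu⟩
        · exact sing_conn G u.1
      · obtain ⟨Y, h1, h2, h3, y, hy, z, hz, hyz⟩ := ih hv hw
        refine ⟨{u.1, w.1} ∪ Y, ?_, Or.inl (Or.inl rfl), ?_, y, Or.inr hy, z, hz, hyz⟩
        · rintro x (hx | hx)
          · rcases hx with hx | hx
            · subst hx; exact ⟨u.2, hu⟩
            · rw [Set.mem_singleton_iff] at hx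
              subst hx; exact ⟨w.2, hw⟩
          · exact h1 hx
        · exact SimpleGraph.induce_union_connected
            (SimpleGraph.induce_pair_connected_of_adj huw).preconnected h3.preconnected
            ⟨w.1, Or.inr rfl, h2⟩
  obtain ⟨p⟩ := hX.preconnected ⟨a, ha⟩ ⟨b, hb⟩
  exact key _ _ p hbZ haZ

/-- `K_t` is a minor of `G`. -/
def KModel {V : Type} (G : SimpleGraph V) (t : ℕ) : Prop :=
  ∃ f : Fin t → Set V, (∀ i, (G.induce (f i)).Connected) ∧
    (∀ i j, i ≠ j → Disjoint (f i) (f j)) ∧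
    (∀ i j, i ≠ j → ∃ u ∈ f i, ∃ v ∈ f j, G.Adj u v)

/-- A system of connected sets `X a b ∋ a, b` and a choice of vertices such that the sets of
disjoint pairs are disjoint give a complete minor. -/
theorem minor_of_good {V : Type} (G : SimpleGraph V) (X : V → V → Set V)
    (hX : ∀ a b, a ∈ X a b ∧ b ∈ X a b ∧ (G.induce (X a b)).Connected) (t : ℕ)
    (f : Fin t ⊕ (Fin t × Fin t) → V)
    (h4 : ∀ α β γ δ, α ≠ β → α ≠ γ → α ≠ δ → β ≠ γ → β ≠ δ → γ ≠ δ →
      Disjoint (X (f α) (f β)) (X (f γ) (f δ)))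
    (h3 : ∀ α β γ, α ≠ β → α ≠ γ → β ≠ γ → f γ ∉ X (f α) (f β)) : KModel G t := by
  classical
  -- the sets before truncation
  let Y0 : Fin t → Fin t → Set V := fun i j => X (f (.inl i)) (f (.inr (i, j)))
  let Z0 : Fin t → Fin t → Set V := fun i j => X (f (.inl j)) (f (.inr (i, j)))
  have htr : ∀ i j : Fin t, ∃ Y : Set V, i < j → (Y ⊆ Y0 i j \ Z0 i j ∧ f (.inl i) ∈ Y ∧
      (G.induce Y).Connected ∧ ∃ y ∈ Y, ∃ z ∈ Z0 i j, G.Adj y z) := by
    intro i j
    by_cases hij : i < j
    · obtain ⟨Y, hY⟩ := trunc G (Y0 i j) (Z0 i j) (hX _ _).2.2 (hX _ _).1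
        (h3 (.inl j) (.inr (i, j)) (.inl i) (by simp) (by simp [hij.ne']) (by simp))
        (hX _ _).2.1 (hX _ _).2.1
      exact ⟨Y, fun _ => hY⟩
    · exact ⟨∅, fun h => absurd h hij⟩
  choose Y hY using htr
  -- pieces
  let W : Fin t → Fin t → Set V := fun i l => if l < i then Z0 l i else if i < l then Y i l
    else {f (.inl i)}
  have hWa : ∀ i l, f (.inl i) ∈ W i l := by
    intro i l
    simp only [W]
    split_ifs with h1 h2
    · exact (hX _ _).1
    · exact (hY i l h2).2.1
    · rfl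
  have hWc : ∀ i l, (G.induce (W i l)).Connected := by
    intro i l
    by_cases h1 : l < i
    · have : W i l = Z0 l i := by simp only [W]; rw [if_pos h1]
      rw [this]
      exact (hX _ _).2.2
    · by_cases h2 : i < l
      · have : W i l = Y i l := by simp only [W]; rw [if_neg h1, if_pos h2]
        rw [this]
        exact (hY i l h2).2.2.1
      · have : W i l = {f (.inl i)} := by simp only [W]; rw [if_neg h1, if_neg h2]
        rw [this]
        exact sing_conn G _
  -- all pieces are contained in sets of the system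
  have hdis : ∀ i j l m, i < j → Disjoint (W i l) (W j m) := by
    intro i j l m hij
    rw [Set.disjoint_left]
    intro x hx hx'
    simp only [W] at hx hx'
    -- a general consequence of h3, h4
    have D : ∀ a b : Fin t, ∀ u v : Fin t × Fin t, a ≠ b → u ≠ v →
        Disjoint (X (f (.inl a)) (f (.inr u))) (X (f (.inl b)) (f (.inr v))) := by
      intro a b u v hab huv
      exact h4 _ _ _ _ (by simp) (by simp [hab]) (by simp) (by simp) (by simp [huv]) (by simp)
    have D3 : ∀ a b : Fin t, ∀ u : Fin t × Fin t, a ≠ b →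
        f (.inl b) ∉ X (f (.inl a)) (f (.inr u)) := by
      intro a b u hab
      exact h3 _ _ _ (by simp) (by simp [hab]) (by simp)
    have D0 : f (.inl i) ≠ f (.inl j) := by
      intro h
      apply D3 j i (i, j) hij.ne'
      rw [h]
      exact (hX _ _).1
    split_ifs at hx with h1 h2
    · -- W i l = X a_i b_{l i}
      split_ifs at hx' with h3' h4'
      · exact Set.disjoint_left.1 (D i j (l, i) (m, j) hij.ne
          (fun h => hij.ne (Prod.mk.inj h).2)) hx hx'
      · have := ((hY j m h4').1 hx').1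
        refine Set.disjoint_left.1 (D i j (l, i) (j, m) hij.ne ?_) hx this
        intro h
        have h5 := (Prod.mk.inj h).1
        rw [h5] at h1
        exact absurd (h1.trans hij) (lt_irrefl _)
      · rw [Set.mem_singleton_iff] at hx'
        subst hx'
        exact D3 i j (l, i) hij.ne hx
    · have hxY := (hY i l h2).1 hx
      split_ifs at hx' with h3' h4'
      · by_cases hp : (i, l) = (m, j)
        · obtain ⟨h5, h6⟩ := Prod.mk.inj hp
          subst h5
          subst h6
          exact hxY.2 hx'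
        · exact Set.disjoint_left.1 (D i j (i, l) (m, j) hij.ne hp) hxY.1 hx'
      · have := ((hY j m h4').1 hx').1
        exact Set.disjoint_left.1 (D i j (i, l) (j, m) hij.ne
          (fun h => hij.ne (Prod.mk.inj h).1)) hxY.1 this
      · rw [Set.mem_singleton_iff] at hx'
        subst hx'
        exact D3 i j (i, l) hij.ne hxY.1
    · rw [Set.mem_singleton_iff] at hx
      subst hx
      split_ifs at hx' with h3' h4'
      · exact D3 j i (m, j) hij.ne' hx'
      · exact D3 j i (j, m) hij.ne' ((hY j m h4').1 hx').1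
      · rw [Set.mem_singleton_iff] at hx'
        exact D0 hx'
  have hadj : ∀ i j, i < j → ∃ u ∈ W i j, ∃ v ∈ W j i, G.Adj u v := by
    intro i j hij
    obtain ⟨-, -, -, y, hy, z, hz, hyz⟩ := hY i j hij
    refine ⟨y, ?_, z, ?_, hyz⟩
    · simp only [W]
      rw [if_neg hij.not_gt, if_pos hij]
      exact hy
    · simp only [W]
      rw [if_pos hij]
      exact hz
  refine ⟨fun i => ⋃₀ (Set.range (W i)), ?_, ?_, ?_⟩
  · intro i
    apply SimpleGraph.induce_sUnion_connected_of_pairwise_not_disjoint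
    · exact ⟨_, i, rfl⟩
    · rintro _ _ ⟨l, rfl⟩ ⟨m, rfl⟩
      exact ⟨f (.inl i), hWa i l, hWa i m⟩
    · rintro _ ⟨l, rfl⟩
      exact hWc i l
  · intro i j hij
    rw [Set.disjoint_left]
    rintro x ⟨_, ⟨l, rfl⟩, hx⟩ ⟨_, ⟨m, rfl⟩, hx'⟩
    rcases lt_or_gt_of_ne hij with h | h
    · exact Set.disjoint_left.1 (hdis i j l m h) hx hx'
    · exact Set.disjoint_left.1 (hdis j i m l h) hx' hx
  · intro i j hij
    rcases lt_or_gt_of_ne hij with h | h
    · obtain ⟨u, hu, v, hv, huv⟩ := hadj i j h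
      exact ⟨u, ⟨_, ⟨j, rfl⟩, hu⟩, v, ⟨_, ⟨i, rfl⟩, hv⟩, huv⟩
    · obtain ⟨u, hu, v, hv, huv⟩ := hadj j i h
      exact ⟨v, ⟨_, ⟨j, rfl⟩, hv⟩, u, ⟨_, ⟨i, rfl⟩, hu⟩, huv.symm⟩

/-! ### Counting functions -/

/-- The functions whose restriction to some coordinates lies in a given set. -/
theorem card_comp {ι κ V : Type} [Fintype ι] [Fintype κ] [Fintype V] (e : κ ↪ ι)
    (S : Set (κ → V)) :
    Nat.card {f : ι → V | (fun k => f (e k)) ∈ S} * Fintype.card V ^ Fintype.card κ =
      Nat.card S * Fintype.card V ^ Fintype.card ι := by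
  classical
  let E1 : (ι → V) ≃ ({x // x ∈ Set.range e} → V) × ({x // ¬ x ∈ Set.range e} → V) :=
    Equiv.piEquivPiSubtypeProd (fun x => x ∈ Set.range e) (fun _ => V)
  let r : κ ≃ {x // x ∈ Set.range e} := Equiv.ofInjective e e.injective
  let E2 : ({x // x ∈ Set.range e} → V) ≃ (κ → V) := Equiv.arrowCongr r.symm (Equiv.refl V)
  let E : (ι → V) ≃ (κ → V) × ({x // ¬ x ∈ Set.range e} → V) :=
    E1.trans (Equiv.prodCongr E2 (Equiv.refl _))
  have hE : ∀ f k, (E f).1 k = f (e k) := by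
    intro f k
    rfl
  have h1 : Nat.card {f : ι → V | (fun k => f (e k)) ∈ S} =
      Nat.card S * Nat.card ({x // ¬ x ∈ Set.range e} → V) := by
    rw [← Nat.card_prod]
    apply Nat.card_congr
    refine ⟨fun f => (⟨(E f.1).1, f.2⟩, (E f.1).2), fun g => ⟨E.symm (g.1.1, g.2), ?_⟩, ?_, ?_⟩
    · have h2 : (fun k => (E.symm (g.1.1, g.2)) (e k)) = g.1.1 := by
        funext k
        rw [← hE (E.symm (g.1.1, g.2)) k, Equiv.apply_symm_apply]
      show (fun k => (E.symm (g.1.1, g.2)) (e k)) ∈ S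
      rw [h2]
      exact g.1.2
    · intro f
      apply Subtype.ext
      simp
    · rintro ⟨⟨g1, hg1⟩, g2⟩
      simp
  have h2 : Nat.card ({x // ¬ x ∈ Set.range e} → V) * Fintype.card V ^ Fintype.card κ =
      Fintype.card V ^ Fintype.card ι := by
    have h3 := Nat.card_congr E
    rw [Nat.card_prod, Nat.card_eq_fintype_card, Nat.card_eq_fintype_card (α := κ → V),
      Fintype.card_fun, Fintype.card_fun] at h3
    rw [h3, mul_comm]
  rw [h1, mul_assoc, h2]

/-! ### The path system -/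

theorem walk_inc {V : Type} {G : SimpleGraph V} {a b : V} (p : G.Walk a b) (hp : ¬ p.Nil) {x : V}
    (hx : x ∈ p.support) : ∃ y, s(x, y) ∈ p.edges := by
  induction p with
  | nil => exact absurd SimpleGraph.Walk.Nil.nil hp
  | @cons u v w h q ih =>
    rw [SimpleGraph.Walk.support_cons, List.mem_cons] at hx
    rcases hx with rfl | hx
    · exact ⟨v, by simp⟩
    · by_cases hq : q.Nil
      · have : x = v := by
          cases q with
          | nil => simpa using hx
          | cons h' q' => exact absurd hq SimpleGraph.Walk.not_nil_cons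
        subst this
        exact ⟨u, by simp [Sym2.eq_swap]⟩
      · obtain ⟨y, hy⟩ := ih hq hx
        exact ⟨y, by rw [SimpleGraph.Walk.edges_cons]; exact List.mem_cons_of_mem _ hy⟩

/-- path-pairability, as in the frozen statement -/
def PathPairable {V : Type} (G : SimpleGraph V) : Prop :=
  ∀ (k : ℕ) (s r : Fin k → V), Function.Injective (Sum.elim s r) →
    ∃ p : (i : Fin k) → G.Walk (s i) (r i), (∀ i, (p i).IsPath) ∧
      ∀ i j, i ≠ j → ∀ e ∈ (p i).edges, e ∉ (p j).edges

/-- One matching: the paths of the pairs `a, τ a`, `a ∈ R`. -/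
theorem matching {V : Type} [Fintype V] (G : SimpleGraph V) [DecidableRel G.Adj]
    (hG : PathPairable G) (R : Finset V) (τ : V → V) (hτ : ∀ a, τ (τ a) = a)
    (hR : ∀ a ∈ R, τ a ∉ R) :
    ∃ X : V → Set V, (∀ a ∈ R, a ∈ X a ∧ τ a ∈ X a ∧ (G.induce (X a)).Connected) ∧
      ∀ x, Nat.card {a // a ∈ R ∧ x ∈ X a} ≤ G.degree x := by
  classical
  let E := R.equivFin
  let s : Fin R.card → V := fun i => (E.symm i).1
  let r : Fin R.card → V := fun i => τ (s i)
  have hs : Function.Injective s := fun i j h => E.symm.injective (Subtype.ext h)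
  have hr : Function.Injective r := fun i j h => hs (by
    have := congrArg τ h
    simpa [r, hτ] using this)
  have hinj : Function.Injective (Sum.elim s r) := by
    refine Function.Injective.sumElim hs hr ?_
    intro i j h
    have h1 : s i ∈ R := (E.symm i).2
    have h2 : s j ∈ R := (E.symm j).2
    rw [h] at h1
    exact hR _ h2 h1
  obtain ⟨p, -, hp⟩ := hG R.card s r hinj
  obtain ⟨Xi, hXi⟩ : ∃ Xi : Fin R.card → Set V, ∀ i, Xi i = {v | v ∈ (p i).support} :=
    ⟨_, fun _ => rfl⟩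
  obtain ⟨X, hX⟩ : ∃ X : V → Set V, ∀ a (h : a ∈ R), X a = Xi (E ⟨a, h⟩) :=
    ⟨fun a => if h : a ∈ R then Xi (E ⟨a, h⟩) else ∅, fun a h => by simp [h]⟩
  refine ⟨X, ?_, ?_⟩
  · intro a ha
    have h1 : s (E ⟨a, ha⟩) = a := by simp [s]
    have h2 : r (E ⟨a, ha⟩) = τ a := by simp only [r]; rw [h1]
    have h3 : s (E ⟨a, ha⟩) ∈ Xi (E ⟨a, ha⟩) := by
      rw [hXi]; exact (p (E ⟨a, ha⟩)).start_mem_support
    have h4 : r (E ⟨a, ha⟩) ∈ Xi (E ⟨a, ha⟩) := by
      rw [hXi]; exact (p (E ⟨a, ha⟩)).end_mem_support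
    have h5 : (G.induce (Xi (E ⟨a, ha⟩))).Connected := by
      rw [hXi]; exact (p (E ⟨a, ha⟩)).connected_induce_support
    rw [h1] at h3
    rw [h2] at h4
    rw [hX a ha]
    exact ⟨h3, h4, h5⟩
  · intro x
    rw [← SimpleGraph.card_neighborSet_eq_degree, ← Nat.card_eq_fintype_card]
    have hex : ∀ a : {a // a ∈ R ∧ x ∈ X a},
        ∃ y : V, s(x, y) ∈ (p (E ⟨a.1, a.2.1⟩)).edges := by
      rintro ⟨a, ha, hx⟩
      rw [hX a ha, hXi] at hx
      refine walk_inc _ ?_ hx
      intro hnil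
      have h1 : s (E ⟨a, ha⟩) = r (E ⟨a, ha⟩) := hnil.eq
      have h2 : s (E ⟨a, ha⟩) ∈ R := (E.symm _).2
      have h3 := hR _ h2
      apply h3
      have h4 : τ (s (E ⟨a, ha⟩)) = r (E ⟨a, ha⟩) := rfl
      rw [h4, ← h1]
      exact h2
    choose y hy using hex
    refine Nat.card_le_card_of_injective
      (fun a => (⟨y a, (p (E ⟨a.1, a.2.1⟩)).adj_of_mem_edges (hy a)⟩ : G.neighborSet x)) ?_
    intro a b hab
    have h1 : y a = y b := congrArg Subtype.val hab
    by_contra hne
    have h2 : E ⟨a.1, a.2.1⟩ ≠ E ⟨b.1, b.2.1⟩ := by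
      intro h
      have := E.injective h
      apply hne
      exact Subtype.ext (Subtype.mk.inj this)
    have h3 := hp _ _ h2 _ (hy a)
    rw [h1] at h3
    exact h3 (hy b)

/-- The path system of a path-pairable graph: connected sets `X a b ∋ a, b` such that a vertex
`x` belongs to at most `1 + 2 n deg(x)` of them. -/
theorem exists_system {V : Type} [Fintype V] [Nonempty V] (G : SimpleGraph V)
    [DecidableRel G.Adj] (hG : PathPairable G) :
    ∃ X : V → V → Set V, (∀ a b, a ∈ X a b ∧ b ∈ X a b ∧ (G.induce (X a b)).Connected) ∧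
      ∀ x, Nat.card {q : V × V // x ∈ X q.1 q.2} ≤ 1 + 2 * (Fintype.card V * G.degree x) := by
  classical
  set n := Fintype.card V with hn
  have hn0 : n ≠ 0 := Fintype.card_ne_zero
  have : NeZero n := ⟨hn0⟩
  let e : V ≃ ZMod n := Fintype.equivOfCardEq (by rw [ZMod.card])
  let τ : ZMod n → V → V := fun s a => e.symm (s - e a)
  have hτ : ∀ s a, τ s (τ s a) = a := by
    intro s a
    simp [τ]
  let R : ZMod n → Finset V := fun s => univ.filter (fun a => (e a).val < (e (τ s a)).val)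
  have hR : ∀ s a, a ∈ R s → τ s a ∉ R s := by
    intro s a ha ha'
    simp only [R, mem_filter, mem_univ, true_and] at ha ha'
    rw [hτ] at ha'
    exact absurd (ha.trans ha') (lt_irrefl _)
  have hm := fun s => matching G hG (R s) (τ s) (hτ s) (hR s)
  choose X0 hX0 hload using hm
  have hmem : ∀ a b, (e a).val < (e b).val → a ∈ R (e a + e b) ∧ τ (e a + e b) a = b := by
    intro a b hab
    have h1 : τ (e a + e b) a = b := by simp [τ]
    refine ⟨?_, h1⟩
    simp only [R, mem_filter, mem_univ, true_and]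
    rw [h1]
    exact hab
  obtain ⟨X, hX1, hX2, hX3⟩ : ∃ X : V → V → Set V,
      (∀ a b, (e a).val < (e b).val → X a b = X0 (e a + e b) a) ∧
      (∀ a b, (e b).val < (e a).val → X a b = X0 (e b + e a) b) ∧ ∀ a, X a a = {a} := by
    refine ⟨fun a b => if (e a).val < (e b).val then X0 (e a + e b) a else
      if (e b).val < (e a).val then X0 (e b + e a) b else {a}, ?_, ?_, ?_⟩
    · intro a b h
      simp only
      rw [if_pos h]
    · intro a b h
      simp only
      rw [if_neg (not_lt.2 h.le), if_pos h]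
    · intro a
      simp
  refine ⟨X, ?_, ?_⟩
  · intro a b
    rcases lt_trichotomy (e a).val (e b).val with h1 | h1 | h1
    · obtain ⟨h3, h4⟩ := hmem a b h1
      have := hX0 _ a h3
      rw [h4] at this
      rw [hX1 a b h1]
      exact this
    · have h4 : a = b := e.injective (ZMod.val_injective n h1)
      subst h4
      rw [hX3]
      exact ⟨rfl, rfl, sing_conn G _⟩
    · obtain ⟨h3, h4⟩ := hmem b a h1
      have := hX0 _ b h3
      rw [h4] at this
      rw [hX2 a b h1]
      exact ⟨this.2.1, this.1, this.2.2⟩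
  · intro x
    -- the pairs in increasing order
    have hup : Nat.card {q : V × V // (e q.1).val < (e q.2).val ∧
        x ∈ X0 (e q.1 + e q.2) q.1} ≤ n * G.degree x := by
      have h1 : Nat.card (Σ s : ZMod n, {a // a ∈ R s ∧ x ∈ X0 s a}) ≤ n * G.degree x := by
        rw [Nat.card_sigma]
        refine (sum_le_sum (fun s _ => hload s x)).trans ?_
        simp [ZMod.card]
      refine le_trans ?_ h1
      refine Nat.card_le_card_of_injective (fun q => ⟨e q.1.1 + e q.1.2, q.1.1,
        (hmem _ _ q.2.1).1, q.2.2⟩) ?_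
      rintro ⟨⟨a, b⟩, h⟩ ⟨⟨a', b'⟩, h'⟩ heq
      simp only [Sigma.mk.injEq] at heq
      obtain ⟨h1, h2⟩ := heq
      have h3 : a = a' := by
        have : ∀ (s s' : ZMod n) (hs : s = s') (u : {a // a ∈ R s ∧ x ∈ X0 s a})
            (u' : {a // a ∈ R s' ∧ x ∈ X0 s' a}), u ≍ u' → u.1 = u'.1 := by
          intro s s' hs u u' huu
          subst hs
          rw [eq_of_heq huu]
        exact this _ _ h1 _ _ h2
      subst h3
      have h4 : b = b' := e.injective (add_left_cancel h1)
      subst h4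
      rfl
    have hdown : Nat.card {q : V × V // (e q.2).val < (e q.1).val ∧
        x ∈ X0 (e q.2 + e q.1) q.2} ≤ n * G.degree x := by
      refine le_trans (Nat.card_le_card_of_injective (fun q => ⟨(q.1.2, q.1.1), q.2⟩) ?_) hup
      rintro ⟨⟨a, b⟩, h⟩ ⟨⟨a', b'⟩, h'⟩ heq
      have := congrArg Subtype.val heq
      obtain ⟨h1, h2⟩ := Prod.mk.inj this
      simp only at h1 h2
      subst h1
      subst h2
      rfl
    have hsub : {q : V × V | x ∈ X q.1 q.2} ⊆ {(x, x)} ∪
        ({q : V × V | (e q.1).val < (e q.2).val ∧ x ∈ X0 (e q.1 + e q.2) q.1} ∪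
        {q : V × V | (e q.2).val < (e q.1).val ∧ x ∈ X0 (e q.2 + e q.1) q.2}) := by
      rintro ⟨a, b⟩ h
      have h0 : x ∈ X a b := h
      rcases lt_trichotomy (e a).val (e b).val with h1 | h1 | h1
      · rw [hX1 a b h1] at h0
        exact Or.inr (Or.inl ⟨h1, h0⟩)
      · have h4 : a = b := e.injective (ZMod.val_injective n h1)
        subst h4
        rw [hX3, Set.mem_singleton_iff] at h0
        subst h0
        exact Or.inl rfl
      · rw [hX2 a b h1] at h0
        exact Or.inr (Or.inr ⟨h1, h0⟩)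
    have h1 : Nat.card {q : V × V // x ∈ X q.1 q.2} = {q : V × V | x ∈ X q.1 q.2}.ncard := rfl
    rw [h1]
    refine (Set.ncard_le_ncard hsub (Set.toFinite _)).trans ?_
    refine (Set.ncard_union_le _ _).trans ?_
    have h2 := Set.ncard_union_le
      {q : V × V | (e q.1).val < (e q.2).val ∧ x ∈ X0 (e q.1 + e q.2) q.1}
      {q : V × V | (e q.2).val < (e q.1).val ∧ x ∈ X0 (e q.2 + e q.1) q.2}
    have h3 : {q : V × V | (e q.1).val < (e q.2).val ∧ x ∈ X0 (e q.1 + e q.2) q.1}.ncard ≤
      n * G.degree x := hup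
    have h4 : {q : V × V | (e q.2).val < (e q.1).val ∧ x ∈ X0 (e q.2 + e q.1) q.2}.ncard ≤
      n * G.degree x := hdown
    rw [Set.ncard_singleton]
    omega

/-! ### The number of edges -/

theorem deg_sum {V : Type} [Fintype V] (G : SimpleGraph V) [DecidableRel G.Adj] (t : ℕ)
    (h : ¬ KModel G t) : ∑ x, G.degree x ≤ 2 * 2 ^ t * Fintype.card V := by
  classical
  by_contra hcon
  push Not at hcon
  set P : Finset (Set V) := univ.image (fun v => ({v} : Set V)) with hP
  have hinj : Function.Injective (fun v => ({v} : Set V)) := Set.singleton_injective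
  have hF : Helper805.CHS.Fam G P := by
    constructor
    · intro A hA
      obtain ⟨v, -, rfl⟩ := mem_image.1 hA
      exact sing_conn G v
    · intro A hA B hB hAB
      obtain ⟨v, -, rfl⟩ := mem_image.1 hA
      obtain ⟨w, -, rfl⟩ := mem_image.1 hB
      rw [Set.disjoint_singleton]
      rintro rfl
      exact hAB rfl
  have hPc : P.card = Fintype.card V := by
    rw [hP, card_image_of_injective _ hinj, card_univ]
  have hle : ∑ x, G.degree x ≤ (Helper805.CHS.prs G P).card := by
    have h1 : ∑ x, G.degree x = (univ.sigma (fun x => G.neighborFinset x)).card := by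
      rw [card_sigma]
      rfl
    rw [h1]
    refine card_le_card_of_injOn (fun x => (({x.1} : Set V), ({x.2} : Set V))) ?_ ?_
    · intro x hx
      have hx' := (mem_sigma.1 (mem_coe.1 hx)).2
      rw [SimpleGraph.mem_neighborFinset] at hx'
      apply mem_coe.2
      rw [Helper805.CHS.mem_prs]
      refine ⟨mem_image_of_mem _ (mem_univ _), mem_image_of_mem _ (mem_univ _), ?_,
        x.1, rfl, x.2, rfl, hx'⟩
      intro h2
      exact hx'.ne (hinj h2)
    · rintro ⟨a, b⟩ _ ⟨a', b'⟩ _ hab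
      obtain ⟨h1, h2⟩ := Prod.mk.inj hab
      have h3 := hinj h1
      have h4 := hinj h2
      simp only at h3 h4
      subst h3
      subst h4
      rfl
  obtain ⟨f, f1, f2, f3, -, -⟩ := Helper805.CHS.mader G t P hF (by
    rw [hPc]
    refine lt_of_le_of_lt ?_ (lt_of_lt_of_le hcon hle)
    gcongr
    exact Nat.sub_le _ _)
  exact h ⟨fun i => f (Fin.castAdd 2 i), fun i => f1 _,
    fun i j hij => f2 _ _ (fun h => hij (Fin.castAdd_injective _ _ h)),
    fun i j hij => f3 _ _ (fun h => hij (Fin.castAdd_injective _ _ h))⟩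

/-! ### The union bound -/

theorem inj4 {ι : Type} {α β γ δ : ι} (h1 : α ≠ β) (h2 : α ≠ γ) (h3 : α ≠ δ) (h4 : β ≠ γ)
    (h5 : β ≠ δ) (h6 : γ ≠ δ) : Function.Injective (![α, β, γ, δ] : Fin 4 → ι) := by
  intro i j hij
  fin_cases i <;> fin_cases j <;>
    first
      | rfl
      | exact absurd hij h1
      | exact absurd hij h2
      | exact absurd hij h3
      | exact absurd hij h4
      | exact absurd hij h5
      | exact absurd hij h6
      | exact absurd hij.symm h1
      | exact absurd hij.symm h2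
      | exact absurd hij.symm h3
      | exact absurd hij.symm h4
      | exact absurd hij.symm h5
      | exact absurd hij.symm h6

theorem inj3 {ι : Type} {α β γ : ι} (h1 : α ≠ β) (h2 : α ≠ γ) (h4 : β ≠ γ) :
    Function.Injective (![α, β, γ] : Fin 3 → ι) := by
  intro i j hij
  fin_cases i <;> fin_cases j <;>
    first
      | rfl
      | exact absurd hij h1
      | exact absurd hij h2
      | exact absurd hij h4
      | exact absurd hij.symm h1
      | exact absurd hij.symm h2
      | exact absurd hij.symm h4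

/-- The constant. -/
def cst (t : ℕ) : ℕ := (1 + 4 * 2 ^ t) * (3 * (t + t * t) ^ 4 + (t + t * t) ^ 3)

theorem key {V : Type} [Fintype V] (G : SimpleGraph V) [DecidableRel G.Adj] (t : ℕ)
    (h2 : 2 ≤ Fintype.card V) (hG : PathPairable G) (hK : ¬ KModel G t) :
    ∃ v, Fintype.card V ≤ cst t * G.degree v := by
  classical
  have hne : Nonempty V := Fintype.card_pos_iff.1 (by omega)
  set n := Fintype.card V with hn
  obtain ⟨X, hX, hload⟩ := exists_system G hG
  rw [← hn] at hload
  -- a vertex of maximum degree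
  obtain ⟨v, -, hv⟩ := exists_max_image univ (fun v => G.degree v) ⟨hne.some, mem_univ _⟩
  set Δ := G.degree v with hΔ
  refine ⟨v, ?_⟩
  have hΔ1 : 1 ≤ Δ := by
    obtain ⟨a, b, hab⟩ : ∃ a b : V, a ≠ b := Fintype.exists_pair_of_one_lt_card (by omega)
    have hc := (hX a b).2.2
    obtain ⟨p⟩ := hc.preconnected ⟨a, (hX a b).1⟩ ⟨b, (hX a b).2.1⟩
    cases p with
    | nil => exact absurd rfl hab
    | @cons _ c _ h p =>
      have h3 : G.Adj a c := h
      have h4 : 0 < G.degree a := by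
        rw [SimpleGraph.degree_pos_iff_exists_adj]
        exact ⟨c, h3⟩
      have := hv a (mem_univ _)
      omega
  let L : V → ℕ := fun x => Nat.card {q : V × V // x ∈ X q.1 q.2}
  have hL1 : ∀ x, L x ≤ 3 * (n * Δ) := by
    intro x
    have h3 := hload x
    have h4 : n * G.degree x ≤ n * Δ := Nat.mul_le_mul_left _ (hv x (mem_univ _))
    have h5 : 1 ≤ n * Δ := Nat.mul_pos (by omega) hΔ1
    have h6 : L x ≤ 1 + 2 * (n * G.degree x) := h3
    omega
  have hL2 : ∑ x, L x ≤ (1 + 4 * 2 ^ t) * n ^ 2 := by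
    have h3 : ∑ x, L x ≤ ∑ x, (1 + 2 * (n * G.degree x)) := sum_le_sum (fun x _ => hload x)
    rw [sum_add_distrib, ← mul_sum, ← mul_sum] at h3
    simp only [sum_const, card_univ, smul_eq_mul, mul_one] at h3
    have h4 := deg_sum G t hK
    rw [← hn] at h3 h4
    calc ∑ x, L x ≤ n + 2 * (n * ∑ x, G.degree x) := h3
      _ ≤ n * n + 2 * (n * (2 * 2 ^ t * n)) := by
          gcongr
          exact Nat.le_mul_self n
      _ = (1 + 4 * 2 ^ t) * n ^ 2 := by ring
  -- bad tuples
  let S4 : Set (Fin 4 → V) := {g | ∃ x, x ∈ X (g 0) (g 1) ∧ x ∈ X (g 2) (g 3)}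
  let S3 : Set (Fin 3 → V) := {g | g 2 ∈ X (g 0) (g 1)}
  have hS4 : Nat.card S4 ≤ 3 * (n * Δ) * ((1 + 4 * 2 ^ t) * n ^ 2) := by
    have h3 : Nat.card S4 ≤ ∑ x, L x * L x := by
      have h4 : ∑ x, L x * L x = Nat.card (Σ x : V, {q : V × V // x ∈ X q.1 q.2} ×
          {q : V × V // x ∈ X q.1 q.2}) := by
        rw [Nat.card_sigma]
        exact sum_congr rfl (fun x _ => (Nat.card_prod _ _).symm)
      rw [h4]
      have hch : ∀ g : S4, ∃ x, x ∈ X (g.1 0) (g.1 1) ∧ x ∈ X (g.1 2) (g.1 3) := fun g => g.2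
      choose x hx using hch
      refine Nat.card_le_card_of_injective (fun g => ⟨x g, ⟨(g.1 0, g.1 1), (hx g).1⟩,
        ⟨(g.1 2, g.1 3), (hx g).2⟩⟩) ?_
      intro g g' hgg
      have h5 : ∀ (u : Σ x : V, {q : V × V // x ∈ X q.1 q.2} × {q : V × V // x ∈ X q.1 q.2})
        (u' : Σ x : V, {q : V × V // x ∈ X q.1 q.2} × {q : V × V // x ∈ X q.1 q.2}), u = u' →
          u.2.1.1 = u'.2.1.1 ∧ u.2.2.1 = u'.2.2.1 := by
        rintro u _ rfl
        exact ⟨rfl, rfl⟩
      obtain ⟨h6, h7⟩ := h5 _ _ hgg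
      obtain ⟨h8, h9⟩ := Prod.mk.inj h6
      obtain ⟨h10, h11⟩ := Prod.mk.inj h7
      apply Subtype.ext
      funext i
      fin_cases i
      · exact h8
      · exact h9
      · exact h10
      · exact h11
    refine h3.trans ?_
    calc ∑ x, L x * L x ≤ ∑ x, 3 * (n * Δ) * L x :=
          sum_le_sum (fun x _ => Nat.mul_le_mul_right _ (hL1 x))
      _ = 3 * (n * Δ) * ∑ x, L x := by rw [mul_sum]
      _ ≤ _ := Nat.mul_le_mul_left _ hL2
  have hS3 : Nat.card S3 ≤ (1 + 4 * 2 ^ t) * n ^ 2 := by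
    refine le_trans ?_ hL2
    have h4 : ∑ x, L x = Nat.card (Σ x : V, {q : V × V // x ∈ X q.1 q.2}) := by
      rw [Nat.card_sigma]
    rw [h4]
    refine Nat.card_le_card_of_injective (fun g => ⟨g.1 2, (g.1 0, g.1 1), g.2⟩) ?_
    intro g g' hgg
    have h5 : ∀ (u : Σ x : V, {q : V × V // x ∈ X q.1 q.2})
      (u' : Σ x : V, {q : V × V // x ∈ X q.1 q.2}), u = u' →
        u.1 = u'.1 ∧ u.2.1 = u'.2.1 := by
      rintro u _ rfl
      exact ⟨rfl, rfl⟩
    obtain ⟨h6, h7⟩ := h5 _ _ hgg
    obtain ⟨h8, h9⟩ := Prod.mk.inj h7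
    apply Subtype.ext
    funext i
    fin_cases i
    · exact h8
    · exact h9
    · exact h6
  -- all functions are bad
  let ι := Fin t ⊕ (Fin t × Fin t)
  set N := t + t * t with hN
  have hιc : Fintype.card ι = N := by simp [ι, hN]
  have hbad : ∀ f : ι → V, (∃ e : Fin 4 ↪ ι, (fun k => f (e k)) ∈ S4) ∨
      (∃ e : Fin 3 ↪ ι, (fun k => f (e k)) ∈ S3) := by
    intro f
    by_contra hcon
    push Not at hcon
    obtain ⟨hc4, hc3⟩ := hcon
    apply hK
    refine minor_of_good G X hX t f ?_ ?_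
    · intro α β γ δ h1 h2' h3 h4 h5 h6
      rw [Set.disjoint_left]
      intro x hx hx'
      exact hc4 ⟨![α, β, γ, δ], inj4 h1 h2' h3 h4 h5 h6⟩ ⟨x, hx, hx'⟩
    · intro α β γ h1 h2' h3 hmem
      exact hc3 ⟨![α, β, γ], inj3 h1 h2' h3⟩ hmem
  -- counting
  let A4 : (Fin 4 ↪ ι) → Set (ι → V) := fun e => {f | (fun k => f (e k)) ∈ S4}
  let A3 : (Fin 3 ↪ ι) → Set (ι → V) := fun e => {f | (fun k => f (e k)) ∈ S3}
  have hA4 : ∀ e, Nat.card (A4 e) * n ^ 4 = Nat.card S4 * n ^ N := by
    intro e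
    have := card_comp e S4
    rw [hιc, Fintype.card_fin, ← hn] at this
    exact this
  have hA3 : ∀ e, Nat.card (A3 e) * n ^ 3 = Nat.card S3 * n ^ N := by
    intro e
    have := card_comp e S3
    rw [hιc, Fintype.card_fin, ← hn] at this
    exact this
  have htot : n ^ N ≤ ∑ e, Nat.card (A4 e) + ∑ e, Nat.card (A3 e) := by
    have h3 : Nat.card (ι → V) = n ^ N := by
      rw [Nat.card_eq_fintype_card, Fintype.card_fun, hιc]
    rw [← h3, ← Nat.card_sigma, ← Nat.card_sigma, ← Nat.card_sum]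
    have hch : ∀ f : ι → V, ∃ u : (Σ e, A4 e) ⊕ (Σ e, A3 e),
        Sum.elim (fun v => v.2.1) (fun v => v.2.1) u = f := by
      intro f
      rcases hbad f with ⟨e, he⟩ | ⟨e, he⟩
      · exact ⟨.inl ⟨e, f, he⟩, rfl⟩
      · exact ⟨.inr ⟨e, f, he⟩, rfl⟩
    choose u hu using hch
    refine Nat.card_le_card_of_injective u ?_
    intro f f' hff
    rw [← hu f, ← hu f', hff]
  have hc4 : Fintype.card (Fin 4 ↪ ι) ≤ N ^ 4 := by
    rw [Fintype.card_embedding_eq, hιc, Fintype.card_fin]
    exact Nat.descFactorial_le_pow _ _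
  have hc3 : Fintype.card (Fin 3 ↪ ι) ≤ N ^ 3 := by
    rw [Fintype.card_embedding_eq, hιc, Fintype.card_fin]
    exact Nat.descFactorial_le_pow _ _
  have hpos : 0 < n ^ N := Nat.pow_pos (by omega)
  have hmain : n ^ 4 ≤ N ^ 4 * Nat.card S4 + N ^ 3 * (Nat.card S3 * n) := by
    have h3 : n ^ 4 * n ^ N ≤ (N ^ 4 * Nat.card S4 + N ^ 3 * (Nat.card S3 * n)) * n ^ N := by
      calc n ^ 4 * n ^ N ≤ n ^ 4 * (∑ e, Nat.card (A4 e) + ∑ e, Nat.card (A3 e)) :=
            Nat.mul_le_mul_left _ htot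
        _ = ∑ e, Nat.card (A4 e) * n ^ 4 + (∑ e, Nat.card (A3 e) * n ^ 3) * n := by
            rw [← sum_mul, ← sum_mul]
            ring
        _ = Fintype.card (Fin 4 ↪ ι) * (Nat.card S4 * n ^ N) +
            Fintype.card (Fin 3 ↪ ι) * (Nat.card S3 * n ^ N) * n := by
            simp only [hA4, hA3, sum_const, card_univ, smul_eq_mul]
        _ ≤ N ^ 4 * (Nat.card S4 * n ^ N) + N ^ 3 * (Nat.card S3 * n ^ N) * n := by
            gcongr
        _ = _ := by ring
    exact Nat.le_of_mul_le_mul_right h3 hpos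
  have hfin : n ^ 3 * n ≤ n ^ 3 * (cst t * Δ) := by
    calc n ^ 3 * n = n ^ 4 := by ring
      _ ≤ N ^ 4 * Nat.card S4 + N ^ 3 * (Nat.card S3 * n) := hmain
      _ ≤ N ^ 4 * (3 * (n * Δ) * ((1 + 4 * 2 ^ t) * n ^ 2)) +
          N ^ 3 * ((1 + 4 * 2 ^ t) * n ^ 2 * n * Δ) := by
          refine Nat.add_le_add (Nat.mul_le_mul_left _ hS4) (Nat.mul_le_mul_left _ ?_)
          calc Nat.card S3 * n ≤ (1 + 4 * 2 ^ t) * n ^ 2 * n := Nat.mul_le_mul_right _ hS3
            _ ≤ (1 + 4 * 2 ^ t) * n ^ 2 * n * Δ := Nat.le_mul_of_pos_right _ hΔ1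
      _ = n ^ 3 * (cst t * Δ) := by
          rw [cst, ← hN]
          ring
  exact Nat.le_of_mul_le_mul_left hfin (Nat.pow_pos (by omega))

end Pool.Agent.Q134.PP
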