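import Mathlib
import Pool.Agent.Q134.CTHost
import Pool.Agent.Q134.PathPair
import Pool.Agent.TH507.Bound
import Pool.Agent.Results.MP_14fa4b_co.ManySummands

set_option autoImplicit false

/-!
Disjoint triangles and cycles of length four in graphs of large treewidth.
-/

namespace Pool.Agent.Q134.CT

open Finset Pool.Agent.TH507.Host Pool.Agent.W126.Split
open Pool.Agent.Q134.PP (trunc sing_conn)

/-- the cycle of length four -/
def c4 : SimpleGraph (Fin 4) where
  Adj i j := j = i + 1 ∨ i = j + 1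
  symm := ⟨fun _ _ h => h.symm⟩
  loopless := ⟨by decide⟩

theorem isMinor_map {W V V' : Type} {H : SimpleGraph W} {G : SimpleGraph V}
    {G' : SimpleGraph V'} (f : V → V') (hf : Function.Injective f)
    (hadj : ∀ a b, G.Adj a b → G'.Adj (f a) (f b)) (h : IsMinor H G) :
    ∃ B : W → Set V', (∀ x, B x ⊆ Set.range f) ∧ (∀ x, (G'.induce (B x)).Connected) ∧
      (∀ x y, x ≠ y → Disjoint (B x) (B y)) ∧
      ∀ x y, H.Adj x y → ∃ u ∈ B x, ∃ v ∈ B y, G'.Adj u v := by
  obtain ⟨B, h1, h2, h3⟩ := h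
  refine ⟨fun x => f '' (B x), ?_, ?_, ?_, ?_⟩
  · rintro x _ ⟨y, _, rfl⟩
    exact ⟨y, rfl⟩
  · intro x
    let φ : G.induce (B x) →g G'.induce (f '' (B x)) :=
      { toFun := fun y => ⟨f y.1, ⟨y.1, y.2, rfl⟩⟩
        map_rel' := fun {a b} hab => hadj _ _ hab }
    have hφ : Function.Surjective φ := by
      rintro ⟨_, y, hy, rfl⟩
      exact ⟨⟨y, hy⟩, rfl⟩
    exact (h1 x).map φ hφ
  · intro x y hxy
    rw [Set.disjoint_left]
    rintro _ ⟨a, ha, rfl⟩ ⟨b, hb, hab⟩
    have hab' : b = a := hf hab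
    subst hab'
    exact (Set.disjoint_left.1 (h2 x y hxy)) ha hb
  · intro x y hxy
    obtain ⟨u, hu, v, hv, huv⟩ := h3 x y hxy
    exact ⟨f u, ⟨u, hu, rfl⟩, f v, ⟨v, hv, rfl⟩, hadj _ _ huv⟩

theorem seg_conn {V : Type} {G : SimpleGraph V} {u w : V} (p : G.Walk u w) (a b : ℕ)
    (hab : a ≤ b) (hb : b ≤ p.length) :
    (G.induce {x | ∃ j, a ≤ j ∧ j ≤ b ∧ p.getVert j = x}).Connected := by
  induction b, hab using Nat.le_induction with
  | base =>
    have : {x | ∃ j, a ≤ j ∧ j ≤ a ∧ p.getVert j = x} = {p.getVert a} := by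
      ext x
      constructor
      · rintro ⟨j, h1, h2, rfl⟩
        have : j = a := le_antisymm h2 h1
        subst this
        rfl
      · rintro rfl
        exact ⟨a, le_rfl, le_rfl, rfl⟩
    rw [this]
    exact sing_conn G _
  | succ b hab ih =>
    have h1 := ih (by omega)
    have h2 : G.Adj (p.getVert b) (p.getVert (b + 1)) := p.adj_getVert_succ (by omega)
    have : {x | ∃ j, a ≤ j ∧ j ≤ b + 1 ∧ p.getVert j = x} =
        {x | ∃ j, a ≤ j ∧ j ≤ b ∧ p.getVert j = x} ∪ {p.getVert b, p.getVert (b + 1)} := by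
      ext x
      constructor
      · rintro ⟨j, h3, h4, rfl⟩
        by_cases hj : j = b + 1
        · subst hj
          exact Or.inr (Or.inr rfl)
        · exact Or.inl ⟨j, h3, by omega, rfl⟩
      · rintro (⟨j, h3, h4, rfl⟩ | h)
        · exact ⟨j, h3, by omega, rfl⟩
        · rcases h with h | h
          · exact ⟨b, hab, by omega, h.symm⟩
          · exact ⟨b + 1, by omega, le_rfl, (Set.mem_singleton_iff.1 h).symm⟩
    rw [this]
    exact SimpleGraph.induce_union_connected h1.preconnected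
      (SimpleGraph.induce_pair_connected_of_adj h2).preconnected
      ⟨p.getVert b, ⟨b, hab, le_rfl, rfl⟩, Or.inl rfl⟩

theorem c4_of_far {V : Type} {G : SimpleGraph V} {u w : V} (p : G.Walk u w) (hp : p.IsPath)
    (i : ℕ) (hi : 3 ≤ i) (hil : i ≤ p.length) (hadj : G.Adj u (p.getVert i)) :
    IsMinor c4 G := by
  -- the four intervals
  let lo : Fin 4 → ℕ := ![0, 1, 2, i]
  let hi' : Fin 4 → ℕ := ![0, 1, i - 1, i]
  have hlohi : ∀ k, lo k ≤ hi' k ∧ hi' k ≤ p.length := by
    intro k
    fin_cases k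
    · exact ⟨le_rfl, Nat.zero_le _⟩
    · exact ⟨le_rfl, by show 1 ≤ p.length; omega⟩
    · exact ⟨by show 2 ≤ i - 1; omega, by show i - 1 ≤ p.length; omega⟩
    · exact ⟨le_rfl, hil⟩
  have hord : ∀ k l, k < l → hi' k < lo l := by
    intro k l hkl
    fin_cases k <;> fin_cases l <;> first | (exact absurd hkl (by decide)) | skip
    · show 0 < 1; omega
    · show 0 < 2; omega
    · show 0 < i; omega
    · show 1 < 2; omega
    · show 1 < i; omega
    · show i - 1 < i; omega
  refine ⟨fun k => {x | ∃ j, lo k ≤ j ∧ j ≤ hi' k ∧ p.getVert j = x}, ?_, ?_, ?_⟩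
  · intro k
    exact seg_conn p _ _ (hlohi k).1 (hlohi k).2
  · have key : ∀ k l, k < l → Disjoint {x | ∃ j, lo k ≤ j ∧ j ≤ hi' k ∧ p.getVert j = x}
        {x | ∃ j, lo l ≤ j ∧ j ≤ hi' l ∧ p.getVert j = x} := by
      intro k l hkl
      rw [Set.disjoint_left]
      rintro x ⟨j, h1, h2, rfl⟩ ⟨j', h3, h4, h5⟩
      have h6 := hord k l hkl
      have h7 := (hlohi l).2
      have h8 := hp.getVert_injOn (show j' ≤ p.length by omega) (show j ≤ p.length by omega) h5
      omega
    intro k l hkl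
    rcases lt_or_gt_of_ne hkl with h | h
    · exact key k l h
    · exact (key l k h).symm
  · have key : ∀ k : Fin 4, ∃ x ∈ {x | ∃ j, lo k ≤ j ∧ j ≤ hi' k ∧ p.getVert j = x},
        ∃ y ∈ {x | ∃ j, lo (k + 1) ≤ j ∧ j ≤ hi' (k + 1) ∧ p.getVert j = x}, G.Adj x y := by
      intro k
      fin_cases k
      · exact ⟨_, ⟨0, le_rfl, le_rfl, rfl⟩, _, ⟨1, le_rfl, le_rfl, rfl⟩,
          p.adj_getVert_succ (by omega)⟩
      · exact ⟨_, ⟨1, le_rfl, le_rfl, rfl⟩, _, ⟨2, le_rfl, by show 2 ≤ i - 1; omega, rfl⟩,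
          p.adj_getVert_succ (by omega)⟩
      · refine ⟨_, ⟨i - 1, by show 2 ≤ i - 1; omega, le_rfl, rfl⟩, _, ⟨i, le_rfl, le_rfl, rfl⟩, ?_⟩
        have := p.adj_getVert_succ (i := i - 1) (by omega)
        rwa [show i - 1 + 1 = i by omega] at this
      · refine ⟨_, ⟨i, le_rfl, le_rfl, rfl⟩, _, ⟨0, le_rfl, le_rfl, rfl⟩, ?_⟩
        rw [SimpleGraph.Walk.getVert_zero]
        exact hadj.symm
    intro x y hxy
    rcases hxy with rfl | rfl
    · exact key x
    · obtain ⟨a, ha, b, hb, hab⟩ := key y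
      exact ⟨b, hb, a, ha, hab.symm⟩

theorem exists_simp {V : Type} [Finite V] [Nonempty V] (G : SimpleGraph V)
    (h : ¬ IsMinor c4 G) : ∃ v, (∀ u, ¬ G.Adj v u) ∨ (∃ a, G.Adj v a ∧ ∀ u, G.Adj v u → u = a) ∨
      (∃ a b, G.Adj v a ∧ G.Adj v b ∧ G.Adj a b ∧ ∀ u, G.Adj v u → u = a ∨ u = b) := by
  classical
  obtain ⟨v, w, p, hp, hmax⟩ := SimpleGraph.Walk.exists_isPath_forall_isPath_length_le_length G
  have hsup : ∀ x, G.Adj v x → ∃ i, 1 ≤ i ∧ i < 3 ∧ i ≤ p.length ∧ p.getVert i = x := by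
    intro x hx
    have hxs : x ∈ p.support := by
      by_contra hns
      have h1 : (SimpleGraph.Walk.cons hx.symm p).IsPath := by
        rw [SimpleGraph.Walk.cons_isPath_iff]
        exact ⟨hp, hns⟩
      have := hmax _ _ _ h1
      rw [SimpleGraph.Walk.length_cons] at this
      omega
    rw [SimpleGraph.Walk.mem_support_iff_exists_getVert] at hxs
    obtain ⟨i, hi, hil⟩ := hxs
    refine ⟨i, ?_, ?_, hil, hi⟩
    · by_contra h0
      have : i = 0 := by omega
      subst this
      rw [SimpleGraph.Walk.getVert_zero] at hi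
      exact hx.ne hi
    · by_contra h3
      apply h
      refine c4_of_far p hp i (by omega) hil ?_
      rw [hi]
      exact hx
  refine ⟨v, ?_⟩
  by_cases h0 : ∀ u, ¬ G.Adj v u
  · exact Or.inl h0
  · right
    push Not at h0
    obtain ⟨u, hu⟩ := h0
    obtain ⟨i, hi1, -, hil, -⟩ := hsup u hu
    have hadj1 : G.Adj v (p.getVert 1) := by
      have := p.adj_getVert_succ (i := 0) (by omega)
      rwa [SimpleGraph.Walk.getVert_zero] at this
    by_cases h2 : p.length ≥ 2 ∧ G.Adj v (p.getVert 2)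
    · right
      refine ⟨p.getVert 1, p.getVert 2, hadj1, h2.2, p.adj_getVert_succ (by omega), ?_⟩
      intro x hx
      obtain ⟨j, hj1, hj2, -, rfl⟩ := hsup x hx
      interval_cases j
      · exact Or.inl rfl
      · exact Or.inr rfl
    · left
      refine ⟨p.getVert 1, hadj1, ?_⟩
      intro x hx
      obtain ⟨j, hj1, hj2, hj3, rfl⟩ := hsup x hx
      interval_cases j
      · rfl
      · exact absurd ⟨hj3, hx⟩ h2

section

set_option linter.unusedSectionVars false

variable {V : Type} [Fintype V] [DecidableEq V] {G : SimpleGraph V}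

/-- attaching a leaf to a tree decomposition -/
theorem bw_attach {S : Finset V} {v : V} (hv : v ∉ S) {k : ℕ} {ι : Type} [Fintype ι]
    {T : SimpleGraph ι} {bag : ι → Finset V} (hT : T.IsTree) (hsub : ∀ i, bag i ⊆ S)
    (hcov : ∀ v ∈ S, ∃ i, v ∈ bag i)
    (hedge : ∀ u ∈ S, ∀ v ∈ S, G.Adj u v → ∃ i, u ∈ bag i ∧ v ∈ bag i)
    (hconn : ∀ v, ∀ i j, v ∈ bag i → v ∈ bag j → ∃ p : T.Walk i j, ∀ x ∈ p.support, v ∈ bag x)
    (hcard : ∀ i, (bag i).card ≤ k) (i₀ : ι) (K : Finset V) (hK : K ⊆ bag i₀)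
    (hKc : K.card + 1 ≤ k) (hN : ∀ u ∈ S, G.Adj v u → u ∈ K) : Bw G (insert v S) k := by
  have hvb : ∀ i, v ∉ bag i := fun i h => hv (hsub i h)
  have hT' : (⊥ : SimpleGraph Unit).IsTree := by
    rw [SimpleGraph.isTree_iff_connected_and_card]
    refine ⟨?_, by simp⟩
    refine SimpleGraph.Connected.mk ?_
    intro x y
    exact SimpleGraph.Reachable.refl _
  refine ⟨ι ⊕ Unit, inferInstance, glue T ⊥ i₀ (), Sum.elim bag (fun _ => insert v K),
    glue_isTree hT hT', ?_, ?_, ?_, ?_, ?_⟩
  · rintro (i | i)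
    · exact (hsub i).trans (subset_insert _ _)
    · exact insert_subset_insert _ (hK.trans (hsub i₀))
  · intro u hu
    rcases mem_insert.1 hu with rfl | hu
    · exact ⟨Sum.inr (), mem_insert_self _ _⟩
    · obtain ⟨i, hi⟩ := hcov u hu
      exact ⟨Sum.inl i, hi⟩
  · intro u hu w hw huw
    rcases mem_insert.1 hu with hu1 | hu1 <;> rcases mem_insert.1 hw with hw1 | hw1
    · rw [hu1, hw1] at huw
      exact absurd huw (G.loopless.irrefl _)
    · subst hu1
      exact ⟨Sum.inr (), mem_insert_self _ _, mem_insert_of_mem (hN w hw1 huw)⟩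
    · subst hw1
      exact ⟨Sum.inr (), mem_insert_of_mem (hN u hu1 huw.symm), mem_insert_self _ _⟩
    · obtain ⟨i, hi⟩ := hedge u hu1 w hw1 huw
      exact ⟨Sum.inl i, hi⟩
  · rintro u (i | i) (j | j) hi hj
    · obtain ⟨p, hp⟩ := hconn u i j hi hj
      obtain ⟨q, hq⟩ := walk_inl (T' := (⊥ : SimpleGraph Unit)) (a := i₀) (b := ()) p
      refine ⟨q, fun x hx => ?_⟩
      obtain ⟨y, hy, rfl⟩ := hq x hx
      exact hp y hy
    · have hu : u ∈ K := by
        rcases mem_insert.1 hj with rfl | h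
        · exact absurd hi (hvb i)
        · exact h
      obtain ⟨p, hp⟩ := hconn u i i₀ hi (hK hu)
      obtain ⟨q, hq⟩ := walk_inl (T' := (⊥ : SimpleGraph Unit)) (a := i₀) (b := ()) p
      have hadj : (glue T ⊥ i₀ ()).Adj (Sum.inl i₀) (Sum.inr j) := ⟨rfl, rfl⟩
      refine ⟨q.concat hadj, fun x hx => ?_⟩
      rw [SimpleGraph.Walk.support_concat, List.mem_append, List.mem_singleton] at hx
      rcases hx with hx | rfl
      · obtain ⟨y, hy, rfl⟩ := hq x hx
        exact hp y hy
      · exact hj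
    · have hu : u ∈ K := by
        rcases mem_insert.1 hi with rfl | h
        · exact absurd hj (hvb j)
        · exact h
      obtain ⟨p, hp⟩ := hconn u i₀ j (hK hu) hj
      obtain ⟨q, hq⟩ := walk_inl (T' := (⊥ : SimpleGraph Unit)) (a := i₀) (b := ()) p
      have hadj : (glue T ⊥ i₀ ()).Adj (Sum.inr i) (Sum.inl i₀) := ⟨rfl, rfl⟩
      refine ⟨q.cons hadj, fun x hx => ?_⟩
      rw [SimpleGraph.Walk.support_cons, List.mem_cons] at hx
      rcases hx with rfl | hx
      · exact hi
      · obtain ⟨y, hy, rfl⟩ := hq x hx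
        exact hp y hy
    · exact ⟨SimpleGraph.Walk.nil.copy rfl rfl, fun x hx => by
        have : x = Sum.inr i := by simpa using hx
        rw [this]; exact hi⟩
  · rintro (i | i)
    · exact hcard i
    · exact (card_insert_le _ _).trans hKc

theorem bw_simp {S : Finset V} {v : V} (hv : v ∉ S) (h : Bw G S 3)
    (hK : (∀ u ∈ S, ¬ G.Adj v u) ∨ (∃ a ∈ S, ∀ u ∈ S, G.Adj v u → u = a) ∨
      (∃ a ∈ S, ∃ b ∈ S, G.Adj a b ∧ ∀ u ∈ S, G.Adj v u → u = a ∨ u = b)) :
    Bw G (insert v S) 3 := by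
  obtain ⟨ι, hι, T, bag, hT, hsub, hcov, hedge, hconn, hcard⟩ := h
  rcases hK with hK | ⟨a, ha, hK⟩ | ⟨a, ha, b, hb, hab, hK⟩
  · obtain ⟨i⟩ := hT.connected.nonempty
    exact bw_attach hv hT hsub hcov hedge hconn hcard i ∅ (empty_subset _) (by simp)
      (fun u hu h => absurd h (hK u hu))
  · obtain ⟨i, hi⟩ := hcov a ha
    exact bw_attach hv hT hsub hcov hedge hconn hcard i {a} (singleton_subset_iff.2 hi) (by simp)
      (fun u hu h => mem_singleton.2 (hK u hu h))
  · obtain ⟨i, hi, hi'⟩ := hedge a ha b hb hab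
    refine bw_attach hv hT hsub hcov hedge hconn hcard i {a, b} ?_ ?_ ?_
    · intro x hx
      rcases mem_insert.1 hx with rfl | hx
      · exact hi
      · rw [mem_singleton.1 hx]; exact hi'
    · have := card_le_two (a := a) (b := b)
      omega
    · intro u hu h
      rcases hK u hu h with rfl | rfl <;> simp

theorem bw_of_no_c4 (n : ℕ) : ∀ S : Finset V, S.card = n →
    ¬ IsMinor c4 (G.induce (S : Set V)) → Bw G S 3 := by
  induction n with
  | zero =>
    intro S hS _
    have : S = ∅ := card_eq_zero.1 hS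
    subst this
    exact (bw_card (G := G) ∅).mono (Subset.refl _) (by simp)
  | succ n ih =>
    intro S hS hno
    have hne : S.Nonempty := card_pos.1 (by omega)
    have : Nonempty (S : Set V) := by
      obtain ⟨x, hx⟩ := hne
      exact ⟨⟨x, hx⟩⟩
    obtain ⟨⟨v, hv⟩, hvK⟩ := exists_simp _ hno
    have hvS : v ∈ S := hv
    have h1 := ih (S.erase v) (by rw [card_erase_of_mem hvS]; omega) (by
      intro hm
      apply hno
      have hsub : ∀ x : ((S.erase v : Finset V) : Set V), x.1 ∈ (S : Set V) := fun x =>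
        erase_subset _ _ x.2
      obtain ⟨B, -, h2, h3, h4⟩ := isMinor_map (G' := G.induce (S : Set V))
        (fun x : ((S.erase v : Finset V) : Set V) => (⟨x.1, hsub x⟩ : (S : Set V)))
        (fun x y hxy => Subtype.ext (congrArg Subtype.val hxy :)) (fun a b hab => hab) hm
      exact ⟨B, h2, h3, h4⟩)
    have h2 := bw_simp (v := v) (notMem_erase v S) h1 (by
      rcases hvK with hK | ⟨a, ha, hK⟩ | ⟨a, b, ha, hb, hab, hK⟩
      · left
        intro u hu huv
        exact hK ⟨u, mem_of_mem_erase hu⟩ huv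
      · right; left
        refine ⟨a.1, mem_erase.2 ⟨?_, a.2⟩, ?_⟩
        · intro h
          exact ha.ne (Subtype.ext h.symm)
        · intro u hu huv
          exact congrArg Subtype.val (hK ⟨u, mem_of_mem_erase hu⟩ huv)
      · right; right
        refine ⟨a.1, mem_erase.2 ⟨?_, a.2⟩, b.1, mem_erase.2 ⟨?_, b.2⟩, hab, ?_⟩
        · intro h
          exact ha.ne (Subtype.ext h.symm)
        · intro h
          exact hb.ne (Subtype.ext h.symm)
        · intro u hu huv
          rcases hK ⟨u, mem_of_mem_erase hu⟩ huv with h | h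
          · exact Or.inl (congrArg Subtype.val h)
          · exact Or.inr (congrArg Subtype.val h))
    rw [insert_erase hvS] at h2
    exact h2

end

/-! ### Models of triangles and of the cycle of length four -/

/-- the subdivided disjoint union of triangles -/
def tri' (m : ℕ) : SimpleGraph (Option (Fin (m + 1) × Fin 3)) :=
  subdivide (tri (m + 1)) (0, 0) (0, 1)

/-- a model of the subdivided graph from models of `m` triangles and of a cycle of length four -/
theorem mk_minor' {V : Type} {G : SimpleGraph V} {m : ℕ} (i₀ : Fin (m + 1))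
    (B : Fin (m + 1) → Fin 3 → Set V) (A : Fin 4 → Set V)
    (hBc : ∀ i j, i ≠ i₀ → (G.induce (B i j)).Connected)
    (hBd : ∀ i j i' j', i ≠ i₀ → i' ≠ i₀ → (i, j) ≠ (i', j') → Disjoint (B i j) (B i' j'))
    (hBa : ∀ i j j', i ≠ i₀ → j ≠ j' → ∃ u ∈ B i j, ∃ v ∈ B i j', G.Adj u v)
    (hAc : ∀ i, (G.induce (A i)).Connected) (hAd : ∀ i j, i ≠ j → Disjoint (A i) (A j))
    (hAa : ∀ i j, c4.Adj i j → ∃ u ∈ A i, ∃ v ∈ A j, G.Adj u v)
    (hAB : ∀ i j k, i ≠ i₀ → Disjoint (B i j) (A k)) : IsMinor (tri' m) G := by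
  classical
  let σ : Equiv.Perm (Fin (m + 1)) := Equiv.swap 0 i₀
  have hσ : ∀ i, i ≠ 0 → σ i ≠ i₀ := by
    intro i hi h
    apply hi
    have : σ i = σ 0 := by rw [h]; exact (Equiv.swap_apply_left _ _).symm
    exact σ.injective this
  let r : Fin 3 → Fin 4 := ![0, 2, 3]
  have hr : ∀ j, r j ≠ 1 := by decide
  have hrinj : ∀ i j, i ≠ j → r i ≠ r j := by decide
  let F : Option (Fin (m + 1) × Fin 3) → Set V := fun x =>
    match x with
    | none => A 1
    | some (i, j) => if i = 0 then A (r j) else B (σ i) j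
  have F0 : ∀ j, F (some (0, j)) = A (r j) := fun j => if_pos rfl
  have F1 : ∀ i j, i ≠ 0 → F (some (i, j)) = B (σ i) j := fun i j h => if_neg h
  refine ⟨F, ?_, ?_, ?_⟩
  · rintro (_ | ⟨i, j⟩)
    · exact hAc 1
    · by_cases hi : i = 0
      · subst hi; rw [F0]; exact hAc _
      · rw [F1 i j hi]; exact hBc _ _ (hσ i hi)
  · rintro (_ | ⟨i, j⟩) (_ | ⟨i', j'⟩) hne
    · exact absurd rfl hne
    · by_cases hi : i' = 0
      · subst hi; rw [F0]; exact hAd _ _ (hr _).symm
      · rw [F1 i' j' hi]; exact (hAB _ _ _ (hσ i' hi)).symm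
    · by_cases hi : i = 0
      · subst hi; rw [F0]; exact hAd _ _ (hr _)
      · rw [F1 i j hi]; exact hAB _ _ _ (hσ i hi)
    · by_cases hi : i = 0
      · subst hi
        rw [F0]
        by_cases hi' : i' = 0
        · subst hi'
          rw [F0]
          exact hAd _ _ (hrinj _ _ (fun h => hne (by rw [h])))
        · rw [F1 i' j' hi']
          exact (hAB _ _ _ (hσ i' hi')).symm
      · rw [F1 i j hi]
        by_cases hi' : i' = 0
        · subst hi'
          rw [F0]
          exact hAB _ _ _ (hσ i hi)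
        · rw [F1 i' j' hi']
          refine hBd _ _ _ _ (hσ i hi) (hσ i' hi') (fun h => hne ?_)
          obtain ⟨h1, h2⟩ := Prod.mk.inj h
          rw [σ.injective h1, h2]
  · have key : ∀ j j' : Fin 3, j ≠ j' → ¬ (j = 0 ∧ j' = 1) → ¬ (j = 1 ∧ j' = 0) →
        c4.Adj (r j) (r j') := by
      intro j j' h1 h2 h3
      fin_cases j <;> fin_cases j'
      · exact absurd rfl h1
      · exact absurd ⟨rfl, rfl⟩ h2
      · exact Or.inr (by decide)
      · exact absurd ⟨rfl, rfl⟩ h3
      · exact absurd rfl h1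
      · exact Or.inl (by decide)
      · exact Or.inl (by decide)
      · exact Or.inr (by decide)
      · exact absurd rfl h1
    have k0 : c4.Adj 1 (r 0) := Or.inr (by decide)
    have k1 : c4.Adj 1 (r 1) := Or.inl (by decide)
    rintro (_ | ⟨i, j⟩) (_ | ⟨i', j'⟩) hadj
    · exact absurd hadj (fun h => h)
    · rcases (hadj : (i', j') = (0, 0) ∨ (i', j') = (0, 1)) with h | h
      · rw [h, F0]; exact hAa _ _ k0
      · rw [h, F0]; exact hAa _ _ k1
    · rcases (hadj : (i, j) = (0, 0) ∨ (i, j) = (0, 1)) with h | h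
      · rw [h, F0]; exact hAa _ _ k0.symm
      · rw [h, F0]; exact hAa _ _ k1.symm
    · obtain ⟨⟨h1, h2⟩, h3, h4⟩ : ((tri (m + 1)).Adj (i, j) (i', j') ∧
        ¬ ((i, j) = (0, 0) ∧ (i', j') = (0, 1)) ∧ ¬ ((i, j) = (0, 1) ∧ (i', j') = (0, 0))) := hadj
      simp only at h1 h2
      subst h1
      by_cases hi : i = 0
      · subst hi
        rw [F0, F0]
        exact hAa _ _ (key j j' h2 (fun h => h3 (by rw [h.1, h.2]; exact ⟨rfl, rfl⟩))
          (fun h => h4 (by rw [h.1, h.2]; exact ⟨rfl, rfl⟩)))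
      · rw [F1 _ _ hi, F1 _ _ hi]
        exact hBa _ _ _ (hσ i hi) h2

/-- The disjoint union of triangles is a minor of its subdivision, hence of any graph that has the
latter as a minor. -/
theorem minor_of_minor' {V : Type} {G : SimpleGraph V} {m : ℕ} (h : IsMinor (tri' m) G) :
    IsMinor (tri (m + 1)) G := by
  classical
  obtain ⟨B, h1, h2, h3⟩ := h
  -- the vertex `(0, 0)` absorbs the new vertex
  let F : Fin (m + 1) × Fin 3 → Set V := fun x =>
    if x = (0, 0) then B (some (0, 0)) ∪ B none else B (some x)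
  have F0 : F (0, 0) = B (some (0, 0)) ∪ B none := if_pos rfl
  have F1 : ∀ x, x ≠ (0, 0) → F x = B (some x) := fun x hx => if_neg hx
  have hsub : ∀ x, B (some x) ⊆ F x := by
    intro x
    by_cases hx : x = (0, 0)
    · subst hx; rw [F0]; exact Set.subset_union_left
    · rw [F1 x hx]
  refine ⟨F, ?_, ?_, ?_⟩
  · intro x
    by_cases hx : x = (0, 0)
    · subst hx
      rw [F0]
      obtain ⟨u, hu, v, hv, huv⟩ := h3 (some (0, 0)) none (Or.inl rfl)
      have e1 := SimpleGraph.induce_union_connected (G := G) (h1 (some (0, 0))).preconnected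
        (SimpleGraph.induce_pair_connected_of_adj huv).preconnected ⟨u, hu, Or.inl rfl⟩
      have e2 := SimpleGraph.induce_union_connected (G := G) e1.preconnected (h1 none).preconnected
        ⟨v, Or.inr (Or.inr rfl), hv⟩
      have e3 : B (some (0, 0)) ∪ {u, v} ∪ B none = B (some (0, 0)) ∪ B none := by
        ext z
        constructor
        · rintro ((h | h | h) | h)
          · exact Or.inl h
          · exact Or.inl (h ▸ hu)
          · exact Or.inr (by rw [Set.mem_singleton_iff] at h; exact h ▸ hv)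
          · exact Or.inr h
        · rintro (h | h)
          · exact Or.inl (Or.inl h)
          · exact Or.inr h
      rw [e3] at e2
      exact e2
    · rw [F1 x hx]; exact h1 _
  · have key : ∀ y, y ≠ (0, 0) → Disjoint (F (0, 0)) (F y) := by
      intro y hy
      rw [F0, F1 y hy, Set.disjoint_union_left]
      exact ⟨h2 _ _ (fun h => hy (Option.some.inj h).symm), h2 _ _ (by simp)⟩
    intro x y hxy
    by_cases hx : x = (0, 0)
    · subst hx
      exact key y (Ne.symm hxy)
    · by_cases hy : y = (0, 0)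
      · subst hy
        exact (key x hx).symm
      · rw [F1 x hx, F1 y hy]
        exact h2 _ _ (fun h => hxy (Option.some.inj h))
  · intro x y hxy
    by_cases hsp : (x = (0, 0) ∧ y = (0, 1)) ∨ (x = (0, 1) ∧ y = (0, 0))
    · obtain ⟨u, hu, v, hv, huv⟩ := h3 none (some (0, 1)) (Or.inr rfl)
      have hu' : u ∈ F (0, 0) := by rw [F0]; exact Or.inr hu
      have hv' : v ∈ F (0, 1) := hsub _ hv
      rcases hsp with ⟨rfl, rfl⟩ | ⟨rfl, rfl⟩
      · exact ⟨u, hu', v, hv', huv⟩
      · exact ⟨v, hv', u, hu', huv.symm⟩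
    · push Not at hsp
      obtain ⟨u, hu, v, hv, huv⟩ := h3 (some x) (some y)
        ⟨hxy, fun h => hsp.1 h.1 h.2, fun h => hsp.2 h.1 h.2⟩
      exact ⟨u, hsub _ hu, v, hsub _ hv, huv⟩

/-- A graph with a model of the disjoint triangles and of treewidth at least three times their
number has a model of the subdivided graph. -/
theorem minor'_of_minor {V : Type} [Finite V] {G : SimpleGraph V} {m : ℕ}
    (h : IsMinor (tri (m + 1)) G) (hw : 3 * (m + 1) ≤ tw G) : IsMinor (tri' m) G := by
  classical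
  have : Fintype V := Fintype.ofFinite V
  -- a minimal model
  let P : ℕ → Prop := fun n => ∃ B : Fin (m + 1) × Fin 3 → Set V,
    (∀ x, (G.induce (B x)).Connected) ∧ (∀ x y, x ≠ y → Disjoint (B x) (B y)) ∧
    (∀ x y, (tri (m + 1)).Adj x y → ∃ u ∈ B x, ∃ v ∈ B y, G.Adj u v) ∧
    ∑ x, (B x).ncard = n
  have hP : ∃ n, P n := by
    obtain ⟨B, h1, h2, h3⟩ := h
    exact ⟨_, B, h1, h2, h3, rfl⟩
  obtain ⟨B, h1, h2, h3, h4⟩ := Nat.find_spec hP
  have hmin := fun n (hn : n < Nat.find hP) => Nat.find_min hP hn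
  have hadj3 : ∀ i (j j' : Fin 3), j ≠ j' → ∃ u ∈ B (i, j), ∃ v ∈ B (i, j'), G.Adj u v :=
    fun i j j' hjj => h3 _ _ ⟨rfl, hjj⟩
  by_cases hsing : ∀ x, ∃ v, B x = {v}
  · -- all branch sets are vertices
    choose v hv using hsing
    let X : Finset V := (univ.filter (fun x : Fin (m + 1) × Fin 3 => x.1 ≠ 0)).image v
    have hXc : X.card ≤ 3 * m := by
      refine card_image_le.trans ?_
      have e1 : (univ.filter (fun x : Fin (m + 1) × Fin 3 => x.1 ≠ 0)) =
          (univ.filter (fun i : Fin (m + 1) => i ≠ 0)) ×ˢ (univ : Finset (Fin 3)) := by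
        ext ⟨i, j⟩
        simp
      rw [e1, card_product, card_univ, Fintype.card_fin, filter_ne', card_erase_of_mem
        (mem_univ _), card_univ, Fintype.card_fin]
      omega
    have hc4 : IsMinor c4 (G.induce ((univ \ X : Finset V) : Set V)) := by
      by_contra hno
      have e1 := bw_of_no_c4 _ (univ \ X) rfl hno
      have e2 := e1.add X
      rw [sdiff_union_of_subset (subset_univ X)] at e2
      obtain ⟨k, T, bag, g1, g2, g3, g4, g5⟩ := td_of_bw e2
      have e3 : TwLE G (3 * m + 2) := ⟨k, T, bag, g1, g2, g3, g4,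
        fun i => (g5 i).trans (by omega)⟩
      have e4 : tw G ≤ 3 * m + 2 := Nat.sInf_le e3
      omega
    obtain ⟨A, g1, g2, g3, g4⟩ := isMinor_map (G' := G) (Subtype.val)
      Subtype.val_injective (fun a b hab => hab) hc4
    refine mk_minor' 0 (fun i j => B (i, j)) A (fun i j _ => h1 _)
      (fun i j i' j' _ _ hne => h2 _ _ hne) (fun i j j' _ hjj => hadj3 i j j' hjj)
      g2 g3 g4 ?_
    intro i j k hi
    rw [Set.disjoint_left]
    intro x hx hx'
    obtain ⟨⟨y, hy⟩, rfl⟩ := g1 k hx'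
    rw [hv (i, j), Set.mem_singleton_iff] at hx
    simp only at hx
    have hyX : y ∈ X := mem_image.2 ⟨(i, j), by simp [hi], hx.symm⟩
    rw [mem_coe, mem_sdiff] at hy
    exact hy.2 hyX
  · -- a branch set with at least two vertices
    push Not at hsing
    obtain ⟨⟨i₀, j₀⟩, hbig⟩ := hsing
    have fj1 : ∀ j : Fin 3, j ≠ j + 1 := by decide
    have fj2 : ∀ j : Fin 3, j ≠ j + 2 := by decide
    have fj12 : ∀ j : Fin 3, j + 1 ≠ j + 2 := by decide
    have fj3 : ∀ i j : Fin 3, i ≠ j → j = i + 1 ∨ j = i + 2 := by decide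
    have hj1 := fj1 j₀
    have hj2 := fj2 j₀
    have hj12 := fj12 j₀
    obtain ⟨p, hp, p', hp', hpp⟩ := hadj3 i₀ _ _ hj1
    obtain ⟨q, hq, q', hq', hqq⟩ := hadj3 i₀ _ _ hj2
    have hne : q ≠ p := by
      rintro rfl
      -- replace the branch set by a single vertex
      let B1 : Fin (m + 1) × Fin 3 → Set V := Function.update B (i₀, j₀) {q}
      have b0 : B1 (i₀, j₀) = {q} := Function.update_self _ _ _
      have b1 : ∀ x, x ≠ (i₀, j₀) → B1 x = B x := fun x hx => Function.update_of_ne hx _ _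
      have bsub : ∀ x, B1 x ⊆ B x := by
        intro x
        by_cases hx : x = (i₀, j₀)
        · subst hx; rw [b0]; exact Set.singleton_subset_iff.2 hq
        · rw [b1 x hx]
      have hlt : ∑ x, (B1 x).ncard < ∑ x, (B x).ncard := by
        apply sum_lt_sum
        · intro x _
          exact Set.ncard_le_ncard (bsub x) (Set.toFinite _)
        · refine ⟨(i₀, j₀), mem_univ _, ?_⟩
          apply Set.ncard_lt_ncard _ (Set.toFinite _)
          refine ⟨bsub _, fun hsup => ?_⟩
          apply hbig q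
          apply Set.Subset.antisymm
          · rw [b0] at hsup; exact hsup
          · exact Set.singleton_subset_iff.2 hq
      rw [h4] at hlt
      refine hmin _ hlt ⟨B1, ?_, ?_, ?_, rfl⟩
      · intro x
        by_cases hx : x = (i₀, j₀)
        · subst hx; rw [b0]; exact sing_conn G _
        · rw [b1 x hx]; exact h1 x
      · intro x y hxy
        exact (h2 x y hxy).mono (bsub x) (bsub y)
      · have key : ∀ y, (tri (m + 1)).Adj (i₀, j₀) y → ∃ v ∈ B y, G.Adj q v := by
          rintro ⟨i, j⟩ ⟨hi, hj⟩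
          simp only at hi hj
          subst hi
          rcases fj3 j₀ j hj with rfl | rfl
          · exact ⟨p', hp', hpp⟩
          · exact ⟨q', hq', hqq⟩
        intro x y hxy
        by_cases hx : x = (i₀, j₀)
        · subst hx
          obtain ⟨v, hv, hqv⟩ := key y hxy
          have hy : y ≠ (i₀, j₀) := hxy.ne'
          rw [b0, b1 y hy]
          exact ⟨q, rfl, v, hv, hqv⟩
        · by_cases hy : y = (i₀, j₀)
          · subst hy
            obtain ⟨v, hv, hqv⟩ := key x hxy.symm
            rw [b0, b1 x hx]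
            exact ⟨v, hv, q, rfl, hqv.symm⟩
          · rw [b1 x hx, b1 y hy]
            exact h3 x y hxy
    obtain ⟨Y, hY1, hY2, hY3, y, hy, z, hz, hyz⟩ := trunc G (B (i₀, j₀)) {p} (h1 _) hq
      (by rwa [Set.mem_singleton_iff]) hp rfl
    rw [Set.mem_singleton_iff] at hz
    subst hz
    have hYB : Y ⊆ B (i₀, j₀) := fun x hx => (hY1 hx).1
    refine mk_minor' i₀ (fun i j => B (i, j)) ![{z}, Y, B (i₀, j₀ + 2), B (i₀, j₀ + 1)]
      (fun i j _ => h1 _)
      (fun i j i' j' _ _ hne => h2 _ _ hne) (fun i j j' _ hjj => hadj3 i j j' hjj) ?_ ?_ ?_ ?_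
    · intro i
      fin_cases i
      · exact sing_conn G _
      · exact hY3
      · exact h1 _
      · exact h1 _
    · have d01 : Disjoint ({z} : Set V) Y := by
        rw [Set.disjoint_singleton_left]
        exact fun h => (hY1 h).2 rfl
      have dz : ∀ x, x ≠ (i₀, j₀) → Disjoint ({z} : Set V) (B x) := fun x hx =>
        (h2 _ _ (Ne.symm hx)).mono_left (Set.singleton_subset_iff.2 hp)
      have dY : ∀ x, x ≠ (i₀, j₀) → Disjoint Y (B x) := fun x hx =>
        (h2 _ _ (Ne.symm hx)).mono_left hYB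
      have n1 : (i₀, j₀ + 1) ≠ (i₀, j₀) := fun h => hj1 (Prod.mk.inj h).2.symm
      have n2 : (i₀, j₀ + 2) ≠ (i₀, j₀) := fun h => hj2 (Prod.mk.inj h).2.symm
      have n12 : (i₀, j₀ + 2) ≠ (i₀, j₀ + 1) := fun h => hj12 (Prod.mk.inj h).2.symm
      have key : ∀ i j : Fin 4, i < j → Disjoint
          ((![{z}, Y, B (i₀, j₀ + 2), B (i₀, j₀ + 1)] : Fin 4 → Set V) i)
          ((![{z}, Y, B (i₀, j₀ + 2), B (i₀, j₀ + 1)] : Fin 4 → Set V) j) := by
        intro i j hij
        fin_cases i <;> fin_cases j <;> first | (exact absurd hij (by decide)) | skip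
        · exact d01
        · exact dz _ n2
        · exact dz _ n1
        · exact dY _ n2
        · exact dY _ n1
        · exact h2 _ _ n12
      intro i j hij
      rcases lt_or_gt_of_ne hij with h | h
      · exact key i j h
      · exact (key j i h).symm
    · have key : ∀ k : Fin 4, ∃ x ∈ (![{z}, Y, B (i₀, j₀ + 2), B (i₀, j₀ + 1)] : Fin 4 → Set V) k,
          ∃ y ∈ (![{z}, Y, B (i₀, j₀ + 2), B (i₀, j₀ + 1)] : Fin 4 → Set V) (k + 1),
            G.Adj x y := by
        intro k
        fin_cases k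
        · exact ⟨z, rfl, y, hy, hyz.symm⟩
        · exact ⟨q, hY2, q', hq', hqq⟩
        · exact hadj3 i₀ _ _ hj12.symm
        · exact ⟨p', hp', z, rfl, hpp.symm⟩
      intro i j hij
      rcases hij with rfl | rfl
      · exact key i
      · obtain ⟨a, ha, b, hb, hab⟩ := key j
        exact ⟨b, hb, a, ha, hab.symm⟩
    · intro i j k hi
      have n0 : (i, j) ≠ (i₀, j₀) := fun h => hi (Prod.mk.inj h).1
      fin_cases k
      · exact (h2 _ _ n0).mono_right (Set.singleton_subset_iff.2 hp)
      · exact (h2 _ _ n0).mono_right hYB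
      · exact h2 _ _ (fun h => hi (Prod.mk.inj h).1)
      · exact h2 _ _ (fun h => hi (Prod.mk.inj h).1)

/-- Large treewidth forces disjoint cycles of length at least four. -/
theorem finite_bound (m : ℕ) : ∃ K : ℕ, ∀ (V : Type) [Finite V] (G : SimpleGraph V),
    K ≤ tw G → IsMinor (tri' m) G := by
  classical
  refine ⟨114 ^ Nat.clog 2 (Fintype.card (Fin (m + 1))) * 3, ?_⟩
  intro V _ G hG
  have : Fintype V := Fintype.ofFinite V
  obtain ⟨col, hcol⟩ := (Pool.Agent.Results.MP_14fa4b_co.ManySummands.result.1 V G (Fin (m + 1)) 3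
    (by norm_num) hG).1
  have hc4 : ∀ i, IsMinor c4 (G.induce {v | col v = i}) := by
    intro i
    by_contra hno
    have e1 : Bw (G.induce {v | col v = i}) univ 3 := by
      apply bw_of_no_c4 _ univ rfl
      intro hm
      apply hno
      obtain ⟨B, -, g2, g3, g4⟩ := isMinor_map (G' := G.induce {v | col v = i}) (Subtype.val)
        Subtype.val_injective (fun a b hab => hab) hm
      exact ⟨B, g2, g3, g4⟩
    obtain ⟨k, T, bag, g1, g2, g3, g4, g5⟩ := td_of_bw e1
    have e3 : TwLE (G.induce {v | col v = i}) 2 := ⟨k, T, bag, g1, g2, g3, g4, g5⟩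
    have e4 : tw (G.induce {v | col v = i}) ≤ 2 := Nat.sInf_le e3
    have e5 : 3 ≤ tw (G.induce {v | col v = i}) := hcol i
    omega
  choose A hA1 hA2 hA3 hA4 using fun i => isMinor_map (G' := G) (Subtype.val)
    Subtype.val_injective (fun a b hab => hab) (hc4 i)
  have hcolA : ∀ i k x, x ∈ A i k → col x = i := by
    intro i k x hx
    obtain ⟨⟨y, hy⟩, rfl⟩ := hA1 i k hx
    exact hy
  have hdd : ∀ i i' k k', i ≠ i' → Disjoint (A i k) (A i' k') := by
    intro i i' k k' hii
    rw [Set.disjoint_left]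
    intro x hx hx'
    exact hii ((hcolA i k x hx).symm.trans (hcolA i' k' x hx'))
  -- triangles from cycles of length four
  let B : Fin (m + 1) → Fin 3 → Set V := fun i => ![A i 0, A i 1, A i 2 ∪ A i 3]
  have h23 : ∀ i, (G.induce (A i 2 ∪ A i 3)).Connected := by
    intro i
    obtain ⟨u, hu, v, hv, huv⟩ := hA4 i 2 3 (Or.inl rfl)
    have e1 := SimpleGraph.induce_union_connected (G := G) (hA2 i 2).preconnected
      (SimpleGraph.induce_pair_connected_of_adj huv).preconnected ⟨u, hu, Or.inl rfl⟩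
    have e2 := SimpleGraph.induce_union_connected (G := G) e1.preconnected
      (hA2 i 3).preconnected ⟨v, Or.inr (Or.inr rfl), hv⟩
    have e3 : A i 2 ∪ {u, v} ∪ A i 3 = A i 2 ∪ A i 3 := by
      ext z
      constructor
      · rintro ((h | h | h) | h)
        · exact Or.inl h
        · exact Or.inl (h ▸ hu)
        · exact Or.inr (by rw [Set.mem_singleton_iff] at h; exact h ▸ hv)
        · exact Or.inr h
      · rintro (h | h)
        · exact Or.inl (Or.inl h)
        · exact Or.inr h
    rw [e3] at e2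
    exact e2
  refine mk_minor' 0 B (A 0) ?_ ?_ ?_ (hA2 0) (hA3 0) (hA4 0) ?_
  · intro i j _
    fin_cases j
    · exact hA2 i 0
    · exact hA2 i 1
    · exact h23 i
  · intro i j i' j' _ _ hne
    by_cases hii : i = i'
    · subst hii
      have hjj : j ≠ j' := fun h => hne (by rw [h])
      have key : ∀ j j' : Fin 3, j < j' → Disjoint (B i j) (B i j') := by
        intro j j' hj
        fin_cases j <;> fin_cases j' <;> first | (exact absurd hj (by decide)) | skip
        · exact hA3 i _ _ (by decide)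
        · exact Set.disjoint_union_right.2 ⟨hA3 i _ _ (by decide), hA3 i _ _ (by decide)⟩
        · exact Set.disjoint_union_right.2 ⟨hA3 i _ _ (by decide), hA3 i _ _ (by decide)⟩
      rcases lt_or_gt_of_ne hjj with h | h
      · exact key j j' h
      · exact (key j' j h).symm
    · have hBA : ∀ i j x, x ∈ B i j → col x = i := by
        intro i j x hx
        fin_cases j
        · exact hcolA i _ x hx
        · exact hcolA i _ x hx
        · rcases hx with hx | hx
          · exact hcolA i _ x hx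
          · exact hcolA i _ x hx
      rw [Set.disjoint_left]
      intro x hx hx'
      exact hii ((hBA i j x hx).symm.trans (hBA i' j' x hx'))
  · intro i j j' _ hjj
    have key : ∀ j j' : Fin 3, j < j' → ∃ u ∈ B i j, ∃ v ∈ B i j', G.Adj u v := by
      intro j j' hj
      fin_cases j <;> fin_cases j' <;> first | (exact absurd hj (by decide)) | skip
      · exact hA4 i 0 1 (Or.inl rfl)
      · obtain ⟨u, hu, v, hv, huv⟩ := hA4 i 0 3 (Or.inr rfl)
        exact ⟨u, hu, v, Or.inr hv, huv⟩
      · obtain ⟨u, hu, v, hv, huv⟩ := hA4 i 1 2 (Or.inl rfl)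
        exact ⟨u, hu, v, Or.inl hv, huv⟩
    rcases lt_or_gt_of_ne hjj with h | h
    · exact key j j' h
    · obtain ⟨u, hu, v, hv, huv⟩ := key j' j h
      exact ⟨v, hv, u, hu, huv.symm⟩
  · intro i j k hi
    fin_cases j
    · exact hdd i 0 _ _ hi
    · exact hdd i 0 _ _ hi
    · exact Set.disjoint_union_left.2 ⟨hdd i 0 _ _ hi, hdd i 0 _ _ hi⟩

/-- The graphs `G` of treewidth at least `k` all contain `H`. -/
def Forces {W : Type} (H : SimpleGraph W) (k : ℕ) : Prop :=
  ∀ (V : Type) [Finite V] (G : SimpleGraph V), k ≤ tw G → IsMinor H G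

/-- The main equivalence, for some number of triangles. -/
theorem forces_iff : ∃ m : ℕ, ∀ k, Forces (tri (m + 1)) k ↔ Forces (tri' m) k := by
  obtain ⟨s, hs, G₀, hG1, hG2⟩ := exists_host
  obtain ⟨m, rfl⟩ : ∃ m, s = m + 1 := ⟨s - 1, by omega⟩
  refine ⟨m, fun k => ⟨?_, ?_⟩⟩
  · intro h V _ G hG
    have hk : 3 * (m + 1) ≤ k := by
      by_contra hlt
      apply hG1
      apply h
      have h1 : ¬ tw G₀ < 3 * (m + 1) := fun h2 => hG2 _ h2 (exists_twLE G₀)
      omega
    exact minor'_of_minor (h V G hG) (hk.trans hG)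
  · intro h V _ G hG
    exact minor_of_minor' (h V G hG)

end Pool.Agent.Q134.CT
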