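import Pool.Agent.Q134.CellTab

/-!
# Transitivity of the vertex sets of the 120-cell and the 600-cell
-/

set_option autoImplicit false

namespace Pool.Agent.Q134.Cell

open Real

/-- The value `a + b φ` of a pair of integers. -/
noncomputable def val (x : ℤ × ℤ) : ℝ := x.1 + x.2 * goldenRatio

lemma val_add (x y : ℤ × ℤ) : val (x + y) = val x + val y := by
  simp only [val, Prod.fst_add, Prod.snd_add]; push_cast; ring

lemma val_sub (x y : ℤ × ℤ) : val (x - y) = val x - val y := by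
  simp only [val, Prod.fst_sub, Prod.snd_sub]; push_cast; ring

lemma val_neg (x : ℤ × ℤ) : val (-x.1, -x.2) = -val x := by
  simp only [val]; push_cast; ring

lemma val_mz (x y : ℤ × ℤ) : val (mz x y) = val x * val y := by
  have h := goldenRatio_sq
  simp only [val, mz]; push_cast
  linear_combination (-(x.2 : ℝ) * y.2) * h

lemma val_dz (r x : ℕ → ℤ × ℤ) : val (dz r x) =
    val (r 0) * val (x 0) + val (r 1) * val (x 1) + val (r 2) * val (x 2) +
      val (r 3) * val (x 3) := by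
  simp only [dz, val_add, val_mz]

/-- All points whose coordinates are an even permutation of those of `v`, with arbitrary signs. -/
def evenPerm (v : Fin 4 → ℝ) : Set (EuclideanSpace ℝ (Fin 4)) :=
  {x | ∃ σ : Equiv.Perm (Fin 4), Equiv.Perm.sign σ = 1 ∧
    ∃ ε : Fin 4 → ℝ, (∀ i, ε i = 1 ∨ ε i = -1) ∧ ∀ i, x i = ε i * v (σ i)}

/-- All points whose coordinates are a permutation of those of `v`, with arbitrary signs. -/
def allPerm (v : Fin 4 → ℝ) : Set (EuclideanSpace ℝ (Fin 4)) :=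
  {x | ∃ σ : Equiv.Perm (Fin 4), ∃ ε : Fin 4 → ℝ, (∀ i, ε i = 1 ∨ ε i = -1) ∧
    ∀ i, x i = ε i * v (σ i)}

/-- If two coordinates of `v` agree, odd permutations give nothing new. -/
lemma allPerm_eq (v : Fin 4 → ℝ) (a b : Fin 4) (hab : a ≠ b) (hv : v a = v b) :
    allPerm v = evenPerm v := by
  ext x
  constructor
  · rintro ⟨σ, ε, hε, hx⟩
    rcases Int.units_eq_one_or (Equiv.Perm.sign σ) with h | h
    · exact ⟨σ, h, ε, hε, hx⟩
    · refine ⟨Equiv.swap a b * σ, ?_, ε, hε, fun i => ?_⟩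
      · rw [map_mul, Equiv.Perm.sign_swap hab, h]; rfl
      · rw [hx i, Equiv.Perm.mul_apply]
        congr 1
        rcases eq_or_ne (σ i) a with h1 | h1
        · rw [h1, Equiv.swap_apply_left, hv]
        · rcases eq_or_ne (σ i) b with h2 | h2
          · rw [h2, Equiv.swap_apply_right, hv]
          · rw [Equiv.swap_apply_of_ne_of_ne h1 h2]
  · rintro ⟨σ, -, ε, hε, hx⟩
    exact ⟨σ, ε, hε, hx⟩

/-- The base vector of type `t`. -/
noncomputable def bv (B : ℕ → ℕ → ℤ × ℤ) (t : ℕ) : Fin 4 → ℝ := fun i => val (B t i.val)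

/-- The union of the first `m` types. -/
def XX (B : ℕ → ℕ → ℤ × ℤ) (m : ℕ) : Set (EuclideanSpace ℝ (Fin 4)) :=
  {x | ∃ t, t < m ∧ x ∈ evenPerm (bv B t)}

/-- The point coded by `n`. -/
noncomputable def pt (B : ℕ → ℕ → ℤ × ℤ) (n : ℕ) : EuclideanSpace ℝ (Fin 4) :=
  WithLp.toLp 2 (fun i => val (co B n i.val))

lemma pidx_perm : ∀ k < 12, ∃ σ : Equiv.Perm (Fin 4), Equiv.Perm.sign σ = 1 ∧
    ∀ i : Fin 4, (σ i).val = pidx k i.val := by decide +kernel

lemma perm_pidx : ∀ σ : Equiv.Perm (Fin 4), Equiv.Perm.sign σ = 1 → ∃ k, k < 12 ∧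
    ∀ i : Fin 4, (σ i).val = pidx k i.val := by decide +kernel

lemma bits : ∀ b : Fin 4 → Bool, ∃ e, e < 16 ∧ ∀ i : Fin 4, e.testBit i.val = b i := by
  decide +kernel

lemma pt_mem (B : ℕ → ℕ → ℤ × ℤ) (n : ℕ) : pt B n ∈ evenPerm (bv B (n / 192)) := by
  obtain ⟨σ, hσ, h⟩ := pidx_perm ((n / 16) % 12) (Nat.mod_lt _ (by norm_num))
  refine ⟨σ, hσ, fun i => if (n % 16).testBit i.val then -1 else 1, ?_, ?_⟩
  · intro i
    by_cases hb : (n % 16).testBit i.val = true <;> simp [hb]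
  · intro i
    have h2 : pt B n i = val (co B n i.val) := rfl
    rw [h2, co, bv, h i]
    by_cases hb : (n % 16).testBit i.val = true
    · rw [if_pos hb, val_neg]; simp [hb]
    · rw [if_neg hb]; simp [hb]

lemma mem_pt (B : ℕ → ℕ → ℤ × ℤ) (t : ℕ) (x : EuclideanSpace ℝ (Fin 4))
    (hx : x ∈ evenPerm (bv B t)) : ∃ n, n / 192 = t ∧ x = pt B n := by
  obtain ⟨σ, hσ, ε, hε, h⟩ := hx
  obtain ⟨k, hk, hk2⟩ := perm_pidx σ hσ
  classical
  obtain ⟨e, he, he2⟩ := bits (fun i => decide (ε i = -1))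
  have h1 : (192 * t + 16 * k + e) / 192 = t := by omega
  have h2 : (192 * t + 16 * k + e) / 16 % 12 = k := by omega
  have h3 : (192 * t + 16 * k + e) % 16 = e := by omega
  refine ⟨192 * t + 16 * k + e, h1, ?_⟩
  ext i
  have h4 : pt B (192 * t + 16 * k + e) i = val (co B (192 * t + 16 * k + e) i.val) := rfl
  rw [h4, h i, co, h1, h2, h3, he2 i, ← hk2 i]
  rcases hε i with h5 | h5
  · rw [h5]
    have : ¬ (decide ((1 : ℝ) = -1) = true) := by simp; norm_num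
    rw [if_neg this, one_mul]; rfl
  · rw [h5]
    rw [if_pos (by simp), val_neg]
    simp [bv]

/-- Signed coordinate permutations as isometries. -/
noncomputable def sp (σ : Equiv.Perm (Fin 4)) (ε : Fin 4 → ℝ) (hε : ∀ i, ε i = 1 ∨ ε i = -1) :
    EuclideanSpace ℝ (Fin 4) ≃ᵢ EuclideanSpace ℝ (Fin 4) :=
  IsometryEquiv.mk' (fun x => WithLp.toLp 2 (fun i => ε i * x (σ i)))
    (fun y => WithLp.toLp 2 (fun j => ε (σ⁻¹ j) * y (σ⁻¹ j)))
    (by
      intro y
      ext i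
      have h : ε i * ε i = 1 := by rcases hε i with h | h <;> rw [h] <;> norm_num
      have h2 : σ⁻¹ (σ i) = i := by simp
      simp only [h2]
      rw [← mul_assoc, h, one_mul])
    (by
      refine Isometry.of_dist_eq fun x y => ?_
      rw [EuclideanSpace.dist_eq, EuclideanSpace.dist_eq]
      congr 1
      rw [← Equiv.sum_comp σ (fun j => dist (x j) (y j) ^ 2)]
      refine Finset.sum_congr rfl fun i _ => ?_
      simp only [Real.dist_eq, sq_abs]
      have h : ε i * ε i = 1 := by rcases hε i with h | h <;> rw [h] <;> norm_num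
      linear_combination ((x (σ i) - y (σ i)) ^ 2) * h)

lemma sp_apply (σ : Equiv.Perm (Fin 4)) (ε : Fin 4 → ℝ) (hε : ∀ i, ε i = 1 ∨ ε i = -1)
    (x : EuclideanSpace ℝ (Fin 4)) (i : Fin 4) : sp σ ε hε x i = ε i * x (σ i) := rfl

lemma sp_symm_apply (σ : Equiv.Perm (Fin 4)) (ε : Fin 4 → ℝ) (hε : ∀ i, ε i = 1 ∨ ε i = -1)
    (x : EuclideanSpace ℝ (Fin 4)) (i : Fin 4) :
    (sp σ ε hε).symm x i = ε (σ⁻¹ i) * x (σ⁻¹ i) := rfl

/-- The point reflection in the line spanned by `R`. -/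
noncomputable def rf (R : Fin 4 → ℝ) (hR : R 0 * R 0 + R 1 * R 1 + R 2 * R 2 + R 3 * R 3 = 4) :
    EuclideanSpace ℝ (Fin 4) ≃ᵢ EuclideanSpace ℝ (Fin 4) :=
  IsometryEquiv.mk'
    (fun x => WithLp.toLp 2
      (fun i => (R 0 * x 0 + R 1 * x 1 + R 2 * x 2 + R 3 * x 3) / 2 * R i - x i))
    (fun x => WithLp.toLp 2
      (fun i => (R 0 * x 0 + R 1 * x 1 + R 2 * x 2 + R 3 * x 3) / 2 * R i - x i))
    (by
      intro x
      ext i
      simp only
      linear_combination (R i * (R 0 * x 0 + R 1 * x 1 + R 2 * x 2 + R 3 * x 3) / 4) * hR)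
    (by
      refine Isometry.of_dist_eq fun x y => ?_
      rw [EuclideanSpace.dist_eq, EuclideanSpace.dist_eq]
      congr 1
      simp only [Fin.sum_univ_four, Real.dist_eq, sq_abs]
      linear_combination ((R 0 * (x 0 - y 0) + R 1 * (x 1 - y 1) + R 2 * (x 2 - y 2) +
        R 3 * (x 3 - y 3)) ^ 2 / 4) * hR)

lemma rf_apply (R : Fin 4 → ℝ) (hR : R 0 * R 0 + R 1 * R 1 + R 2 * R 2 + R 3 * R 3 = 4)
    (x : EuclideanSpace ℝ (Fin 4)) (i : Fin 4) :
    rf R hR x i = (R 0 * x 0 + R 1 * x 1 + R 2 * x 2 + R 3 * x 3) / 2 * R i - x i := rfl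

lemma rf_rf (R : Fin 4 → ℝ) (hR : R 0 * R 0 + R 1 * R 1 + R 2 * R 2 + R 3 * R 3 = 4)
    (x : EuclideanSpace ℝ (Fin 4)) : rf R hR (rf R hR x) = x := by
  ext i
  simp only [rf_apply]
  linear_combination (R i * (R 0 * x 0 + R 1 * x 1 + R 2 * x 2 + R 3 * x 3) / 4) * hR

/-- Two points are related when a symmetry of `X` maps one to the other. -/
def Rel (X : Set (EuclideanSpace ℝ (Fin 4))) (x y : EuclideanSpace ℝ (Fin 4)) : Prop :=
  ∃ g : EuclideanSpace ℝ (Fin 4) ≃ᵢ EuclideanSpace ℝ (Fin 4), ⇑g '' X = X ∧ g x = y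

lemma Rel.symm {X : Set (EuclideanSpace ℝ (Fin 4))} {x y : EuclideanSpace ℝ (Fin 4)}
    (h : Rel X x y) : Rel X y x := by
  obtain ⟨g, hg, hgx⟩ := h
  refine ⟨g.symm, ?_, ?_⟩
  · conv_lhs => rw [← hg]
    rw [← Set.image_comp]
    simp
  · rw [← hgx]; simp

lemma Rel.trans {X : Set (EuclideanSpace ℝ (Fin 4))} {x y z : EuclideanSpace ℝ (Fin 4)}
    (h : Rel X x y) (h' : Rel X y z) : Rel X x z := by
  obtain ⟨g, hg, hgx⟩ := h
  obtain ⟨g', hg', hgx'⟩ := h'
  refine ⟨g.trans g', ?_, ?_⟩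
  · have h1 : ⇑(g.trans g') = ⇑g' ∘ ⇑g := rfl
    rw [h1, Set.image_comp, hg, hg']
  · simp [hgx, hgx']

lemma sp_maps (B : ℕ → ℕ → ℤ × ℤ) (m : ℕ) (σ : Equiv.Perm (Fin 4))
    (hσ : Equiv.Perm.sign σ = 1) (ε : Fin 4 → ℝ) (hε : ∀ i, ε i = 1 ∨ ε i = -1) :
    ⇑(sp σ ε hε) '' XX B m = XX B m := by
  apply Set.Subset.antisymm
  · rintro _ ⟨x, ⟨t, ht, τ, hτ, δ, hδ, hx⟩, rfl⟩
    refine ⟨t, ht, τ * σ, by rw [map_mul, hτ, hσ, one_mul], fun i => ε i * δ (σ i), ?_, ?_⟩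
    · intro i
      rcases hε i with h | h <;> rcases hδ (σ i) with h' | h' <;> simp [h, h']
    · intro i
      rw [sp_apply, hx, Equiv.Perm.mul_apply]; ring
  · rintro y ⟨t, ht, τ, hτ, δ, hδ, hy⟩
    refine ⟨(sp σ ε hε).symm y, ⟨t, ht, τ * σ⁻¹, ?_, fun i => ε (σ⁻¹ i) * δ (σ⁻¹ i), ?_, ?_⟩, ?_⟩
    · rw [map_mul, hτ, map_inv, hσ]; simp
    · intro i
      rcases hε (σ⁻¹ i) with h | h <;> rcases hδ (σ⁻¹ i) with h' | h' <;>
        simp only [h, h'] <;> norm_num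
    · intro i
      rw [sp_symm_apply, hy, Equiv.Perm.mul_apply]; ring
    · simp

/-- Every point of type `t` is related to the base vector of type `t`. -/
lemma rel_base (B : ℕ → ℕ → ℤ × ℤ) (m t : ℕ) (x : EuclideanSpace ℝ (Fin 4))
    (hx : x ∈ evenPerm (bv B t)) : Rel (XX B m) (WithLp.toLp 2 (bv B t)) x := by
  obtain ⟨σ, hσ, ε, hε, h⟩ := hx
  refine ⟨sp σ ε hε, sp_maps B m σ hσ ε hε, ?_⟩
  ext i
  rw [sp_apply, h i]

/-- The reflection maps coded points to coded points. -/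
lemma rf_pt (B : ℕ → ℕ → ℤ × ℤ) (r : ℕ → ℤ × ℤ) (m tab n : ℕ) (hc : chk B r m tab n = true)
    (hR : val (r 0) * val (r 0) + val (r 1) * val (r 1) + val (r 2) * val (r 2) +
      val (r 3) * val (r 3) = 4) :
    (tab >>> (11 * n)) % 2048 < 192 * m ∧
    rf (fun i => val (r i.val)) hR (pt B n) = pt B ((tab >>> (11 * n)) % 2048) := by
  rw [chk] at hc
  simp only [Bool.and_eq_true, decide_eq_true_eq] at hc
  obtain ⟨h0, ⟨⟨h1, h2⟩, h3⟩, h4⟩ := hc
  refine ⟨h0, ?_⟩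
  set j := (tab >>> (11 * n)) % 2048 with hj
  have key : ∀ i : ℕ, co B j i + co B j i = mz (dz r (co B n)) (r i) - co B n i - co B n i →
      (val (r 0) * val (co B n 0) + val (r 1) * val (co B n 1) + val (r 2) * val (co B n 2) +
        val (r 3) * val (co B n 3)) / 2 * val (r i) - val (co B n i) = val (co B j i) := by
    intro i h
    have h' := congrArg val h
    rw [val_add, val_sub, val_sub, val_mz, val_dz] at h'
    linear_combination (-1 / 2 : ℝ) * h'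
  ext i
  rw [rf_apply]
  fin_cases i
  · exact key 0 h1
  · exact key 1 h2
  · exact key 2 h3
  · exact key 3 h4

lemma XX_pt (B : ℕ → ℕ → ℤ × ℤ) (m : ℕ) (x : EuclideanSpace ℝ (Fin 4)) :
    x ∈ XX B m ↔ ∃ n, n < 192 * m ∧ x = pt B n := by
  constructor
  · rintro ⟨t, ht, hx⟩
    obtain ⟨n, hn, rfl⟩ := mem_pt B t x hx
    exact ⟨n, by omega, rfl⟩
  · rintro ⟨n, hn, rfl⟩
    exact ⟨n / 192, by omega, pt_mem B n⟩

lemma XX_finite (B : ℕ → ℕ → ℤ × ℤ) (m : ℕ) : (XX B m).Finite := by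
  refine Set.Finite.subset ((Finset.range (192 * m)).finite_toSet.image (pt B)) ?_
  intro x hx
  obtain ⟨n, hn, rfl⟩ := (XX_pt B m x).1 hx
  exact ⟨n, by simpa using hn, rfl⟩

/-- The union of the types is a transitive set. -/
theorem transitive (B : ℕ → ℕ → ℤ × ℤ) (r : ℕ → ℤ × ℤ) (m tab : ℕ)
    (hc : chkAll B r m tab (192 * m) = true) (hr : dz r r = (4, 0)) (t0 : ℕ)
    (link : ∀ t, t < m → ∃ n, n / 192 = t ∧ (tab >>> (11 * n)) % 2048 / 192 = t0) :
    ∀ x ∈ XX B m, ∀ y ∈ XX B m, Rel (XX B m) x y := by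
  have hc' := chkAll_spec B r m tab _ hc
  have hR : val (r 0) * val (r 0) + val (r 1) * val (r 1) + val (r 2) * val (r 2) +
      val (r 3) * val (r 3) = 4 := by
    rw [← val_dz, hr]; simp [val]
  have hmaps : ⇑(rf (fun i => val (r i.val)) hR) '' XX B m = XX B m := by
    have hsub : ⇑(rf (fun i => val (r i.val)) hR) '' XX B m ⊆ XX B m := by
      rintro _ ⟨x, hx, rfl⟩
      obtain ⟨n, hn, rfl⟩ := (XX_pt B m x).1 hx
      obtain ⟨h1, h2⟩ := rf_pt B r m tab n (hc' n hn) hR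
      rw [h2]
      exact (XX_pt B m _).2 ⟨_, h1, rfl⟩
    apply Set.Subset.antisymm hsub
    intro y hy
    exact ⟨_, hsub ⟨y, hy, rfl⟩, rf_rf _ hR y⟩
  have h0 : ∀ t, t < m → Rel (XX B m) (WithLp.toLp 2 (bv B t0)) (WithLp.toLp 2 (bv B t)) := by
    intro t ht
    obtain ⟨n, hn, hj⟩ := link t ht
    obtain ⟨h1, h2⟩ := rf_pt B r m tab n (hc' n (by omega)) hR
    have e1 := rel_base B m t (pt B n) (hn ▸ pt_mem B n)
    have e2 : Rel (XX B m) (pt B n) (pt B ((tab >>> (11 * n)) % 2048)) := ⟨_, hmaps, h2⟩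
    have e3 := rel_base B m t0 (pt B ((tab >>> (11 * n)) % 2048))
      (by rw [← hj]; exact pt_mem B _)
    exact e3.trans (e2.symm.trans e1.symm)
  intro x hx y hy
  obtain ⟨t, ht, hx⟩ := hx
  obtain ⟨s, hs, hy⟩ := hy
  exact ((h0 t ht).trans (rel_base B m t x hx)).symm.trans ((h0 s hs).trans (rel_base B m s y hy))

theorem trans120 : ∀ x ∈ XX B120 7, ∀ y ∈ XX B120 7, Rel (XX B120 7) x y := by
  refine transitive B120 r120 7 tab120 chk120 (by decide +kernel) 4 ?_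
  have h : ∀ t < 7, (([32, 195, 448, 592, 784, 1024, 1184] : List ℕ).getD t 0) / 192 = t ∧
      (tab120 >>> (11 * (([32, 195, 448, 592, 784, 1024, 1184] : List ℕ).getD t 0))) % 2048 / 192
        = 4 := by decide +kernel
  intro t ht
  exact ⟨_, h t ht⟩

theorem trans600 : ∀ x ∈ XX B600 3, ∀ y ∈ XX B600 3, Rel (XX B600 3) x y := by
  refine transitive B600 r600 3 tab600 chk600 (by decide +kernel) 2 ?_
  have h : ∀ t < 3, (([0, 192, 384] : List ℕ).getD t 0) / 192 = t ∧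
      (tab600 >>> (11 * (([0, 192, 384] : List ℕ).getD t 0))) % 2048 / 192
        = 2 := by decide +kernel
  intro t ht
  exact ⟨_, h t ht⟩

end Pool.Agent.Q134.Cell
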