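import Mathlib

/-! Longest paths and rotations. -/

set_option autoImplicit false

namespace Pool.Agent.Q134.Circ

open Finset

variable {V : Type*} {G : SimpleGraph V}

/-- `l` lists the vertices of a path. -/
def PL (G : SimpleGraph V) (l : List V) : Prop := l.Nodup ∧ l.IsChain G.Adj

/-- `a ++ b` is a path whose first vertex is adjacent to the last vertex of `a`. -/
def Conf (G : SimpleGraph V) (a b : List V) : Prop :=
  PL G (a ++ b) ∧ 2 ≤ a.length ∧ ∃ x ∈ a.head?, ∃ z ∈ a.getLast?, G.Adj x z

/-- there is a path with vertex set `X` from `u` to `z` -/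
def HP (G : SimpleGraph V) (X : Set V) (z u : V) : Prop :=
  ∃ l : List V, PL G l ∧ {x | x ∈ l} = X ∧ u ∈ l.head? ∧ z ∈ l.getLast?

lemma PL.reverse {l : List V} (h : PL G l) : PL G l.reverse := by
  refine ⟨List.nodup_reverse.mpr h.1, ?_⟩
  rw [List.isChain_reverse]
  have : (fun a b => G.Adj b a) = G.Adj := by
    ext a b; exact G.adj_comm b a
  rw [this]; exact h.2

lemma PL.append_iff {l₁ l₂ : List V} : PL G (l₁ ++ l₂) ↔
    PL G l₁ ∧ PL G l₂ ∧ (∀ x ∈ l₁.getLast?, ∀ y ∈ l₂.head?, G.Adj x y) ∧ List.Disjoint l₁ l₂ := by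
  unfold PL
  rw [List.isChain_append, List.nodup_append']
  tauto

/-- Move A. -/
lemma moveA {p q r : List V} (h : PL G (p ++ q ++ r)) (hp : p ≠ []) 
    (h1 : ∀ x ∈ q.head?, ∀ y ∈ p.head?, G.Adj x y)
    (h2 : ∀ x ∈ p.getLast?, ∀ y ∈ r.head?, G.Adj x y) : PL G (q.reverse ++ p ++ r) := by
  rw [PL.append_iff, PL.append_iff] at h
  obtain ⟨⟨hp1, hq1, -, hpq⟩, hr, -, hd⟩ := h
  rw [PL.append_iff, PL.append_iff]
  refine ⟨⟨hq1.reverse, hp1, ?_, ?_⟩, hr, ?_, ?_⟩
  · intro x hx y hy
    rw [List.getLast?_reverse] at hx
    exact h1 x hx y hy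
  · intro x hx hx'
    exact hpq hx' (List.mem_reverse.mp hx)
  · intro x hx y hy
    rw [List.getLast?_append] at hx
    have : p.getLast? = some (p.getLast hp) := List.getLast?_eq_some_getLast hp
    rw [this, Option.some_or] at hx
    exact h2 x (by rw [this]; exact hx) y hy
  · intro x hx hx'
    refine hd ?_ hx'
    rw [List.mem_append, List.mem_reverse] at hx
    rw [List.mem_append]
    exact hx.symm

/-- Move B. -/
lemma moveB {p q r : List V} (h : PL G (p ++ q ++ r)) (hq : q ≠ []) 
    (h1 : ∀ x ∈ p.head?, ∀ y ∈ q.getLast?, G.Adj x y)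
    (h2 : ∀ x ∈ q.head?, ∀ y ∈ r.head?, G.Adj x y) : PL G (p.reverse ++ q.reverse ++ r) := by
  rw [PL.append_iff, PL.append_iff] at h
  obtain ⟨⟨hp1, hq1, -, hpq⟩, hr, -, hd⟩ := h
  rw [PL.append_iff, PL.append_iff]
  refine ⟨⟨hp1.reverse, hq1.reverse, ?_, ?_⟩, hr, ?_, ?_⟩
  · intro x hx y hy
    rw [List.getLast?_reverse] at hx
    rw [List.head?_reverse] at hy
    exact h1 x hx y hy
  · intro x hx hx'
    exact hpq (List.mem_reverse.mp hx) (List.mem_reverse.mp hx')
  · intro x hx y hy
    rw [List.getLast?_append, List.getLast?_reverse] at hx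
    have : q.head? = some (q.head hq) := List.head?_eq_some_head hq
    rw [this, Option.some_or] at hx
    exact h2 x (by rw [this]; exact hx) y hy
  · intro x hx hx'
    refine hd ?_ hx'
    rw [List.mem_append, List.mem_reverse, List.mem_reverse] at hx
    rw [List.mem_append]
    exact hx

/-- rotation -/
lemma moveC {p r : List V} (h : PL G (p ++ r))
    (h1 : ∀ x ∈ p.head?, ∀ y ∈ r.head?, G.Adj x y) : PL G (p.reverse ++ r) := by
  rw [PL.append_iff] at h
  obtain ⟨hp1, hr, -, hd⟩ := h
  rw [PL.append_iff]
  refine ⟨hp1.reverse, hr, ?_, ?_⟩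
  · intro x hx y hy
    rw [List.getLast?_reverse] at hx
    exact h1 x hx y hy
  · intro x hx hx'
    exact hd (List.mem_reverse.mp hx) hx'

/-- The rotation, with indices. -/
lemma hp_rot {l : List V} {X : Set V} {z : V} (hl : PL G l) (hX : {x | x ∈ l} = X)
    (hz : z ∈ l.getLast?) (k : ℕ) (hk : k + 1 < l.length)
    (hadj : G.Adj (l[0]'(by omega)) (l[k + 1]'hk)) : HP G X z (l[k]'(by omega)) := by
  have hsplit : l.take (k + 1) ++ l.drop (k + 1) = l := List.take_append_drop _ _
  refine ⟨(l.take (k + 1)).reverse ++ l.drop (k + 1), ?_, ?_, ?_, ?_⟩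
  · refine moveC (by rw [hsplit]; exact hl) ?_
    intro x hx y hy
    rw [List.head?_take, if_neg (by omega), List.head?_eq_getElem?,
      List.getElem?_eq_getElem (by omega), Option.mem_some_iff] at hx
    rw [List.head?_drop, List.getElem?_eq_getElem hk, Option.mem_some_iff] at hy
    rw [← hx, ← hy]; exact hadj
  · rw [← hX]
    ext x
    simp only [Set.mem_ofPred_eq]
    rw [List.mem_append, List.mem_reverse, ← List.mem_append, hsplit]
  · rw [List.head?_append, List.head?_reverse, List.getLast?_take, if_neg (by omega)]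
    simp only [Nat.add_sub_cancel]
    rw [List.getElem?_eq_getElem (by omega)]
    simp
  · rw [List.getLast?_append, List.getLast?_drop, if_neg (by omega)]
    rw [Option.mem_def] at hz ⊢
    rw [hz]; simp

/-- Move A with indices. -/
lemma hp_A {l : List V} {X : Set V} {z : V} (hl : PL G l) (hX : {x | x ∈ l} = X)
    (hz : z ∈ l.getLast?) (i k : ℕ) (hi : 1 ≤ i) (hik : i ≤ k) (hk : k + 1 < l.length)
    (h1 : G.Adj (l[0]'(by omega)) (l[i]'(by omega)))
    (h2 : G.Adj (l[k + 1]'hk) (l[i - 1]'(by omega))) : HP G X z (l[k]'(by omega)) := by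
  set p := l.take i with hp
  set q := (l.take (k + 1)).drop i with hq
  set r := l.drop (k + 1) with hr
  have hpq : p ++ q = l.take (k + 1) := by
    rw [hp, hq]
    have : l.take i = (l.take (k + 1)).take i := by
      rw [List.take_take]; congr 1; omega
    rw [this, List.take_append_drop]
  have hsplit : p ++ q ++ r = l := by
    rw [hpq, hr]; exact List.take_append_drop _ _
  have hqne : q ≠ [] := by
    intro h
    have : q.length = 0 := by rw [h]; rfl
    rw [hq, List.length_drop, List.length_take] at this
    omega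
  have hpne : p ≠ [] := by
    intro h
    have : p.length = 0 := by rw [h]; rfl
    rw [hp, List.length_take] at this
    omega
  have hrne : r ≠ [] := by
    intro h
    have : r.length = 0 := by rw [h]; rfl
    rw [hr, List.length_drop] at this
    omega
  have hp0 : p.head? = some (l[0]'(by omega)) := by
    rw [hp, List.head?_take, if_neg (by omega), List.head?_eq_getElem?,
      List.getElem?_eq_getElem (by omega)]
  have hplast : p.getLast? = some (l[i - 1]'(by omega)) := by
    rw [hp, List.getLast?_take, if_neg (by omega), List.getElem?_eq_getElem (by omega)]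
    simp
  have hq0 : q.head? = some (l[i]'(by omega)) := by
    rw [hq, List.head?_drop, List.getElem?_take_of_lt (by omega),
      List.getElem?_eq_getElem (by omega)]
  have hqlast : q.getLast? = some (l[k]'(by omega)) := by
    rw [hq, List.getLast?_drop, if_neg (by rw [List.length_take]; omega), List.getLast?_take,
      if_neg (by omega)]
    simp only [Nat.add_sub_cancel]
    rw [List.getElem?_eq_getElem (by omega)]
    simp
  have hr0 : r.head? = some (l[k + 1]'(by omega)) := by
    rw [hr, List.head?_drop, List.getElem?_eq_getElem hk]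
  have hrlast : r.getLast? = some z := by
    rw [hr, List.getLast?_drop, if_neg (by omega)]; exact hz
  refine ⟨q.reverse ++ p ++ r, ?_, ?_, ?_, ?_⟩
  · refine moveA (by rw [hsplit]; exact hl) hpne ?_ ?_
    · intro x hx y hy
      rw [hq0, Option.mem_some_iff] at hx
      rw [hp0, Option.mem_some_iff] at hy
      rw [← hx, ← hy]; exact h1.symm
    · intro x hx y hy
      rw [hplast, Option.mem_some_iff] at hx
      rw [hr0, Option.mem_some_iff] at hy
      rw [← hx, ← hy]; exact h2.symm
  · rw [← hX, ← hsplit]
    ext x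
    simp only [Set.mem_ofPred_eq, List.mem_append, List.mem_reverse]
    tauto
  · rw [List.append_assoc, List.head?_append, List.head?_reverse, hqlast]
    simp
  · rw [List.getLast?_append, hrlast]
    simp

/-- Move B with indices. -/
lemma hp_B {l : List V} {X : Set V} {z : V} (hl : PL G l) (hX : {x | x ∈ l} = X)
    (hz : z ∈ l.getLast?) (i k : ℕ) (hik : k + 1 ≤ i) (hi : i + 1 < l.length)
    (h1 : G.Adj (l[0]'(by omega)) (l[i]'(by omega)))
    (h2 : G.Adj (l[k + 1]'(by omega)) (l[i + 1]'(by omega))) : HP G X z (l[k]'(by omega)) := by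
  set p := l.take (k + 1) with hp
  set q := (l.take (i + 1)).drop (k + 1) with hq
  set r := l.drop (i + 1) with hr
  have hpq : p ++ q = l.take (i + 1) := by
    rw [hp, hq]
    have : l.take (k + 1) = (l.take (i + 1)).take (k + 1) := by
      rw [List.take_take]; congr 1; omega
    rw [this, List.take_append_drop]
  have hsplit : p ++ q ++ r = l := by
    rw [hpq, hr]; exact List.take_append_drop _ _
  have hqne : q ≠ [] := by
    intro h
    have : q.length = 0 := by rw [h]; rfl
    rw [hq, List.length_drop, List.length_take] at this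
    omega
  have hp0 : p.head? = some (l[0]'(by omega)) := by
    rw [hp, List.head?_take, if_neg (by omega), List.head?_eq_getElem?,
      List.getElem?_eq_getElem (by omega)]
  have hplast : p.getLast? = some (l[k]'(by omega)) := by
    rw [hp, List.getLast?_take, if_neg (by omega)]
    simp only [Nat.add_sub_cancel]
    rw [List.getElem?_eq_getElem (by omega)]
    simp
  have hq0 : q.head? = some (l[k + 1]'(by omega)) := by
    rw [hq, List.head?_drop, List.getElem?_take_of_lt (by omega),
      List.getElem?_eq_getElem (by omega)]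
  have hqlast : q.getLast? = some (l[i]'(by omega)) := by
    rw [hq, List.getLast?_drop, if_neg (by rw [List.length_take]; omega), List.getLast?_take,
      if_neg (by omega)]
    simp only [Nat.add_sub_cancel]
    rw [List.getElem?_eq_getElem (by omega)]
    simp
  have hr0 : r.head? = some (l[i + 1]'(by omega)) := by
    rw [hr, List.head?_drop, List.getElem?_eq_getElem hi]
  have hrlast : r.getLast? = some z := by
    rw [hr, List.getLast?_drop, if_neg (by omega)]; exact hz
  refine ⟨p.reverse ++ q.reverse ++ r, ?_, ?_, ?_, ?_⟩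
  · refine moveB (by rw [hsplit]; exact hl) hqne ?_ ?_
    · intro x hx y hy
      rw [hp0, Option.mem_some_iff] at hx
      rw [hqlast, Option.mem_some_iff] at hy
      rw [← hx, ← hy]; exact h1
    · intro x hx y hy
      rw [hq0, Option.mem_some_iff] at hx
      rw [hr0, Option.mem_some_iff] at hy
      rw [← hx, ← hy]; exact h2
  · rw [← hX, ← hsplit]
    ext x
    simp only [Set.mem_ofPred_eq, List.mem_append, List.mem_reverse]
  · rw [List.append_assoc, List.head?_append, List.head?_reverse, hplast]
    simp
  · rw [List.getLast?_append, hrlast]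
    simp

end Pool.Agent.Q134.Circ
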