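import Pool.Agent.Q134.CircDefs
import Pool.Agent.Q134.CircLists

set_option autoImplicit false

namespace Pool.Agent.Q134.Circ

open Finset Classical

variable {V : Type*} {G : SimpleGraph V}

/-- `l` lists the vertices of a cycle (or of an edge) -/
def CL (G : SimpleGraph V) (l : List V) : Prop :=
  PL G l ∧ 2 ≤ l.length ∧ ∀ x ∈ l.head?, ∀ z ∈ l.getLast?, G.Adj x z

lemma chain_reach {S : Set V} : ∀ (l : List V) (_ : l.IsChain G.Adj)
    (hS : ∀ x ∈ l, x ∈ S) (x : V) (hx : x ∈ l.head?) (y : V) (hy : y ∈ l),
    (G.induce S).Reachable ⟨x, hS x (List.mem_of_head? hx)⟩ ⟨y, hS y hy⟩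
  | [], _, _, x, hx, _, _ => by simp at hx
  | [a], _, hS, x, hx, y, hy => by
    have h1 : a = x := by simpa using hx
    have h2 : y = a := by simpa using hy
    subst h1 h2
    exact SimpleGraph.Reachable.refl _
  | a :: b :: r, hc, hS, x, hx, y, hy => by
    have h1 : a = x := by simpa using hx
    subst h1
    rw [List.isChain_cons_cons] at hc
    rcases List.mem_cons.mp hy with h | h
    · subst h
      exact SimpleGraph.Reachable.refl _
    · have hS' : ∀ x ∈ b :: r, x ∈ S := fun x hx => hS x (List.mem_cons_of_mem _ hx)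
      have ih := chain_reach (b :: r) hc.2 hS' b (by simp) y h
      refine SimpleGraph.Reachable.trans ?_ ih
      refine SimpleGraph.Adj.reachable ?_
      exact hc.1

lemma chain_preconnected {S : Set V} {l : List V} (hc : l.IsChain G.Adj)
    (hS : ∀ x, x ∈ l ↔ x ∈ S) : (G.induce S).Preconnected := by
  rintro ⟨x, hx⟩ ⟨y, hy⟩
  have hx' := (hS x).mpr hx
  have hy' := (hS y).mpr hy
  have hne : l ≠ [] := List.ne_nil_of_mem hx'
  have hh : l.head hne ∈ l.head? := by rw [List.head?_eq_some_head hne]; exact rfl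
  have h1 := chain_reach l hc (fun x h => (hS x).mp h) _ hh x hx'
  have h2 := chain_reach l hc (fun x h => (hS x).mp h) _ hh y hy'
  exact h1.symm.trans h2

/-- a cycle is nonseparable -/
lemma CL.nonsep {l : List V} (h : CL G l) : Nonseparable G {x | x ∈ l} := by
  obtain ⟨⟨hnd, hc⟩, h2, hadj⟩ := h
  have hne : l ≠ [] := by rintro rfl; simp at h2
  refine ⟨?_, ?_⟩
  · rw [SimpleGraph.connected_iff]
    exact ⟨chain_preconnected hc (fun x => Iff.rfl), ⟨⟨l.head hne, List.head_mem hne⟩⟩⟩
  · intro v hv
    obtain ⟨l1, l2, rfl⟩ := List.mem_iff_append.mp hv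
    refine chain_preconnected (l := l2 ++ l1) ?_ ?_
    · rw [List.isChain_append, List.isChain_cons] at hc
      rw [List.isChain_append]
      refine ⟨hc.2.1.2, hc.1, ?_⟩
      intro x hx y hy
      refine (hadj y ?_ x ?_).symm
      · rw [List.head?_append, Option.mem_def.mp hy]; exact rfl
      · rw [List.getLast?_append, List.getLast?_cons, Option.mem_def.mp hx]
        exact rfl
    · intro x
      have h3 := List.nodup_append'.mp hnd
      rw [List.nodup_cons] at h3
      have h4 : v ∉ l1 := fun h => h3.2.2 h (List.mem_cons_self)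
      show x ∈ l2 ++ l1 ↔ x ∈ l1 ++ v :: l2 ∧ x ≠ v
      simp only [List.mem_append, List.mem_cons]
      constructor
      · rintro (h | h)
        · exact ⟨Or.inr (Or.inr h), fun hx => h3.2.1.1 (hx ▸ h)⟩
        · exact ⟨Or.inl h, fun hx => h4 (hx ▸ h)⟩
      · rintro ⟨h | h | h, hx⟩
        · exact Or.inr h
        · exact absurd h hx
        · exact Or.inl h

/-- the vertices of a cycle, as a list -/
lemma CL_of_cycle {v : V} {c : G.Walk v v} (hc : c.IsCycle) : CL G c.support.tail ∧
    c.support.tail.length = c.length ∧ ∀ x, x ∈ c.support ↔ x ∈ c.support.tail := by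
  have hlen : c.support.tail.length = c.length := by simp
  have h3 := hc.three_le_length
  cases c with
  | nil => simp at h3
  | cons hadj p =>
    simp only [SimpleGraph.Walk.support_cons, List.tail_cons] at *
    have hend : v ∈ p.support := p.end_mem_support
    refine ⟨⟨⟨?_, ?_⟩, ?_, ?_⟩, hlen, ?_⟩
    · have := hc.support_nodup
      simpa using this
    · exact p.isChain_adj_support
    · rw [hlen]; omega
    · intro x hx z hz
      rw [List.head?_eq_some_head p.support_ne_nil, SimpleGraph.Walk.head_support,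
        Option.mem_some_iff] at hx
      rw [List.getLast?_eq_some_getLast p.support_ne_nil, SimpleGraph.Walk.getLast_support,
        Option.mem_some_iff] at hz
      rw [← hx, ← hz]; exact hadj.symm
    · intro x
      rw [List.mem_cons]
      constructor
      · rintro (h | h)
        · rw [h]; exact hend
        · exact h
      · exact Or.inr

/-- the cycle walk of a cyclic list -/
lemma cycle_of_CL {l : List V} (h : CL G l) (h3 : 3 ≤ l.length) :
    ∃ (v : V) (c : G.Walk v v), c.IsCycle ∧ c.length = l.length ∧ ∀ x, x ∈ c.support ↔ x ∈ l := by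
  obtain ⟨⟨hnd, hc⟩, h2, hadj⟩ := h
  have hne : l ≠ [] := by rintro rfl; simp at h2
  have hA : G.Adj (l.getLast hne) (l.head hne) :=
    (hadj _ (by rw [List.head?_eq_some_head hne]; exact rfl) _
      (by rw [List.getLast?_eq_some_getLast hne]; exact rfl)).symm
  refine ⟨l.getLast hne, SimpleGraph.Walk.cons hA (SimpleGraph.Walk.ofSupport l hne hc), ?_, ?_, ?_⟩
  · rw [SimpleGraph.Walk.isCycle_iff_isPath_tail_and_le_length]
    constructor
    · have : (SimpleGraph.Walk.cons hA (SimpleGraph.Walk.ofSupport l hne hc)).tail.support = l := by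
        simp [SimpleGraph.Walk.support_ofSupport]
      rw [SimpleGraph.Walk.isPath_def, this]; exact hnd
    · rw [SimpleGraph.Walk.length_cons, SimpleGraph.Walk.length_ofSupport]; omega
  · rw [SimpleGraph.Walk.length_cons, SimpleGraph.Walk.length_ofSupport]; omega
  · intro x
    rw [SimpleGraph.Walk.support_cons, SimpleGraph.Walk.support_ofSupport, List.mem_cons]
    constructor
    · rintro (h | h)
      · rw [h]; exact List.getLast_mem hne
      · exact h
    · exact Or.inr

/-! ### Separation -/

/-- A nonseparable set which meets `X \ {z}` is contained in `X` if no edge leaves `X \ {z}`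
other than to `X`. -/
lemma nonsep_subset {X S : Set V} {z : V} (hX : ∀ x ∈ X, x ≠ z → ∀ y, G.Adj x y → y ∈ X)
    (hS : Nonseparable G S) {p : V} (hp : p ∈ S) (hpX : p ∈ X) (hpz : p ≠ z) : S ⊆ X := by
  intro q hq
  by_contra hqX
  have hpre : (G.induce (S \ {z})).Preconnected := by
    by_cases hz : z ∈ S
    · exact hS.2 z hz
    · rw [Set.sdiff_singleton_eq_self hz]
      exact hS.1.preconnected
  by_cases hqz : q = z
  · -- then `z ∉ X`, and no vertex of `X` has a neighbour outside
    subst hqz
    have hpre2 := hS.1.preconnected ⟨p, hp⟩ ⟨q, hq⟩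
    obtain ⟨W⟩ := hpre2
    have key : ∀ (a b : S) (W : (G.induce S).Walk a b), (a : V) ∈ X → (b : V) ∈ X := by
      intro a b W
      induction W with
      | nil => exact id
      | cons hadj _ ih =>
        intro ha
        refine ih (hX _ ha ?_ _ hadj)
        rintro h
        exact hqX (h ▸ ha)
    exact hqX (key _ _ W hpX)
  · obtain ⟨W⟩ := hpre ⟨p, hp, hpz⟩ ⟨q, hq, hqz⟩
    have key : ∀ (a b : (S \ {z} : Set V)) (W : (G.induce (S \ {z})).Walk a b),
        (a : V) ∈ X → (b : V) ∈ X := by
      intro a b W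
      induction W with
      | nil => exact id
      | @cons a' b' c' hadj _ ih =>
        intro ha
        exact ih (hX _ ha a'.2.2 _ hadj)
    exact hqX (key _ _ W hpX)

lemma nonsep_congr {G G' : SimpleGraph V} {S : Set V}
    (h : ∀ x ∈ S, ∀ y ∈ S, G.Adj x y ↔ G'.Adj x y) : Nonseparable G S ↔ Nonseparable G' S := by
  have h1 : G.induce S = G'.induce S := by
    ext ⟨x, hx⟩ ⟨y, hy⟩
    exact h x hx y hy
  have h2 : ∀ v, G.induce (S \ {v}) = G'.induce (S \ {v}) := by
    intro v
    ext ⟨x, hx⟩ ⟨y, hy⟩
    exact h x hx.1 y hy.1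
  unfold Nonseparable
  rw [h1]
  simp only [h2]

lemma nonsep_mono {G G' : SimpleGraph V} (h : G ≤ G') {S : Set V} (hS : Nonseparable G S) :
    Nonseparable G' S := by
  have h1 : ∀ T : Set V, G.induce T ≤ G'.induce T := fun T x y hxy => h hxy
  refine ⟨hS.1.mono (h1 _), fun v hv => (hS.2 v hv).mono (h1 _)⟩

/-- a nonseparable set with two points has an edge at each of its points -/
lemma nonsep_adj {S : Set V} (hS : Nonseparable G S) {x y : V} (hx : x ∈ S) (hy : y ∈ S)
    (hxy : x ≠ y) : ∃ w ∈ S, G.Adj x w := by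
  obtain ⟨W⟩ := hS.1.preconnected ⟨x, hx⟩ ⟨y, hy⟩
  cases W with
  | nil => exact absurd rfl hxy
  | @cons _ w _ hadj _ => exact ⟨w, w.2, hadj⟩

lemma exists_block [Finite V] {S : Set V} (hS : Nonseparable G S) :
    ∃ B, S ⊆ B ∧ IsBlock G B :=
  Finite.exists_le_maximal hS

/-- A one-vertex block is an isolated vertex. -/
lemma isolated_of_block {v : V} (h : IsBlock G {v}) : ∀ w, ¬ G.Adj v w := by
  intro w hvw
  have h1 : CL G [v, w] := by
    refine ⟨⟨by simp [hvw.ne], by simp [hvw]⟩, by simp, ?_⟩
    intro x hx z hz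
    have h2 : v = x := by simpa using hx
    have h3 : w = z := by simpa using hz
    rw [← h2, ← h3]; exact hvw
  have h2 := h.2 h1.nonsep (by intro x hx; rw [Set.mem_singleton_iff] at hx; subst hx; simp)
  have h3 : w ∈ ({v} : Set V) := h2 (by simp)
  exact hvw.ne (Set.mem_singleton_iff.mp h3).symm

end Pool.Agent.Q134.Circ
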