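import Mathlib

/-!
Definitions: longest cycles through a clique, blocks.
-/

set_option autoImplicit false

namespace Pool.Agent.Q134.Circ

/-- The largest length of a cycle of `G` passing through every vertex of `T`. -/
noncomputable def circ {V : Type*} (G : SimpleGraph V) (T : Finset V) : ℕ :=
  sSup {k : ℕ | ∃ (v : V) (c : G.Walk v v), c.IsCycle ∧ c.length = k ∧ ∀ x ∈ T, x ∈ c.support}

/-- The weight `binom γ 2 / binom γ t`, where `γ` is the largest length of a cycle
through every vertex of `T`. -/
noncomputable def weight {V : Type*} (t : ℕ) (G : SimpleGraph V) (T : Finset V) : ℚ :=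
  ((circ G T).choose 2 : ℚ) / ((circ G T).choose t : ℚ)

/-- `S` spans a connected subgraph of `G` without a cut vertex. -/
def Nonseparable {V : Type*} (G : SimpleGraph V) (S : Set V) : Prop :=
  (G.induce S).Connected ∧ ∀ v ∈ S, (G.induce (S \ {v})).Preconnected

/-- `S` is the vertex set of a block of `G`: it is maximal among the vertex sets of connected
subgraphs without a cut vertex. -/
def IsBlock {V : Type*} (G : SimpleGraph V) (S : Set V) : Prop := Maximal (Nonseparable G) S

end Pool.Agent.Q134.Circ
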