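import Mathlib

set_option autoImplicit false

namespace Pool.Agent.Q134.Circ

open Finset Classical

variable {V : Type*} [Fintype V] {G : SimpleGraph V}

/-- the cliques with `s` vertices -/
noncomputable def Kq (s : ℕ) (G : SimpleGraph V) : Finset (Finset V) :=
  univ.filter fun T => G.IsNClique s T

lemma mem_Kq {s : ℕ} {G : SimpleGraph V} {T : Finset V} : T ∈ Kq s G ↔ G.IsNClique s T := by
  unfold Kq; simp

/-- the cliques with `s` vertices inside `X` -/
noncomputable def Kin (s : ℕ) (G : SimpleGraph V) (X : Finset V) : Finset (Finset V) :=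
  (Kq s G).filter fun T => T ⊆ X

lemma mem_Kin {s : ℕ} {G : SimpleGraph V} {X T : Finset V} :
    T ∈ Kin s G X ↔ G.IsNClique s T ∧ T ⊆ X := by
  unfold Kin; rw [mem_filter, mem_Kq]

omit [Fintype V] in
lemma card_super (X P : Finset V) (t : ℕ) (hP : P ⊆ X) (h2 : P.card = 2) (ht : 2 ≤ t) :
    ((powersetCard t X).filter fun T => P ⊆ T).card = (X.card - 2).choose (t - 2) := by
  have h1 : ((powersetCard t X).filter fun T => P ⊆ T) =
      (powersetCard (t - 2) (X \ P)).image fun S => S ∪ P := by
    ext T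
    rw [mem_filter, mem_powersetCard, mem_image]
    constructor
    · rintro ⟨⟨hT, hc⟩, hPT⟩
      refine ⟨T \ P, ?_, sdiff_union_of_subset hPT⟩
      rw [mem_powersetCard]
      exact ⟨sdiff_subset_sdiff hT le_rfl, by rw [card_sdiff_of_subset hPT, hc, h2]⟩
    · rintro ⟨S, hS, rfl⟩
      rw [mem_powersetCard] at hS
      have hd : Disjoint S P := disjoint_of_subset_left hS.1 sdiff_disjoint
      refine ⟨⟨union_subset (hS.1.trans sdiff_subset) hP, ?_⟩, subset_union_right⟩
      rw [card_union_of_disjoint hd, hS.2, h2]; omega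
  rw [h1, card_image_of_injOn, card_powersetCard, card_sdiff_of_subset hP, h2]
  intro S hS S' hS' h
  rw [mem_coe, mem_powersetCard] at hS hS'
  simp only at h
  have hd : Disjoint S P := disjoint_of_subset_left hS.1 sdiff_disjoint
  have hd' : Disjoint S' P := disjoint_of_subset_left hS'.1 sdiff_disjoint
  have h3 : (S ∪ P) \ P = (S' ∪ P) \ P := by rw [h]
  rwa [union_sdiff_cancel_right hd, union_sdiff_cancel_right hd'] at h3

lemma double_count (X : Finset V) (t : ℕ) :
    (Kin t G X).card * t.choose 2 =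
      ∑ P ∈ Kin 2 G X, ((Kin t G X).filter fun T => P ⊆ T).card := by
  have h := sum_card_bipartiteAbove_eq_sum_card_bipartiteBelow
    (s := Kin t G X) (t := Kin 2 G X) (fun T P => P ⊆ T)
  rw [show ∑ P ∈ Kin 2 G X, ((Kin t G X).filter fun T => P ⊆ T).card =
    ∑ b ∈ Kin 2 G X, #(bipartiteBelow (fun T P => P ⊆ T) (Kin t G X) b) from rfl, ← h]
  rw [sum_const_nat (m := t.choose 2)]
  intro T hT
  rw [mem_Kin] at hT
  have h1 : bipartiteAbove (fun T P => P ⊆ T) (Kin 2 G X) T = powersetCard 2 T := by
    ext P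
    rw [mem_bipartiteAbove, mem_Kin, mem_powersetCard]
    constructor
    · rintro ⟨h1, h2⟩
      exact ⟨h2, h1.1.2⟩
    · rintro ⟨h1, h2⟩
      refine ⟨⟨⟨?_, h2⟩, h1.trans hT.2⟩, h1⟩
      exact hT.1.1.subset (by exact_mod_cast h1)
  rw [h1, card_powersetCard, hT.1.2]

lemma below_le (X : Finset V) (t : ℕ) (P : Finset V) :
    ((Kin t G X).filter fun T => P ⊆ T) ⊆ ((powersetCard t X).filter fun T => P ⊆ T) := by
  intro T hT
  rw [mem_filter, mem_Kin] at hT
  rw [mem_filter, mem_powersetCard]
  exact ⟨⟨hT.1.2, hT.1.1.2⟩, hT.2⟩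

lemma density (X : Finset V) (t : ℕ) (ht : 3 ≤ t) :
    (Kin t G X).card * X.card.choose 2 ≤ (Kin 2 G X).card * X.card.choose t := by
  have h1 := double_count (G := G) X t
  have h2 : (Kin t G X).card * t.choose 2 ≤ (Kin 2 G X).card * (X.card - 2).choose (t - 2) := by
    rw [h1, ← smul_eq_mul, ← sum_const]
    refine sum_le_sum fun P hP => ?_
    rw [mem_Kin] at hP
    rw [← card_super X P t hP.2 hP.1.2 (by omega)]
    exact card_le_card (below_le X t P)
  have h3 : X.card.choose t * t.choose 2 = X.card.choose 2 * (X.card - 2).choose (t - 2) :=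
    Nat.choose_mul (by omega)
  have h4 : 0 < t.choose 2 := Nat.choose_pos (by omega)
  refine Nat.le_of_mul_le_mul_right ?_ h4
  calc (Kin t G X).card * X.card.choose 2 * t.choose 2
      = ((Kin t G X).card * t.choose 2) * X.card.choose 2 := by ring
    _ ≤ ((Kin 2 G X).card * (X.card - 2).choose (t - 2)) * X.card.choose 2 := by gcongr
    _ = (Kin 2 G X).card * (X.card.choose 2 * (X.card - 2).choose (t - 2)) := by ring
    _ = (Kin 2 G X).card * X.card.choose t * t.choose 2 := by rw [← h3]; ring

/-- equality: the set is a clique -/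
lemma density_eq (X : Finset V) (t : ℕ) (ht : 3 ≤ t) (hX : t ≤ X.card)
    (hne : (Kin 2 G X).Nonempty)
    (heq : (Kin t G X).card * X.card.choose 2 = (Kin 2 G X).card * X.card.choose t) :
    G.IsClique (X : Set V) := by
  have h1 := double_count (G := G) X t
  have h3 : X.card.choose t * t.choose 2 = X.card.choose 2 * (X.card - 2).choose (t - 2) :=
    Nat.choose_mul (by omega)
  have h4 : 0 < X.card.choose 2 := Nat.choose_pos (by omega)
  have h2 : (Kin t G X).card * t.choose 2 = (Kin 2 G X).card * (X.card - 2).choose (t - 2) := by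
    refine Nat.eq_of_mul_eq_mul_right h4 ?_
    calc (Kin t G X).card * t.choose 2 * X.card.choose 2
        = ((Kin t G X).card * X.card.choose 2) * t.choose 2 := by ring
      _ = (Kin 2 G X).card * (X.card.choose t * t.choose 2) := by rw [heq]; ring
      _ = _ := by rw [h3]; ring
  rw [h1] at h2
  have h5 : ∀ P ∈ Kin 2 G X, ((Kin t G X).filter fun T => P ⊆ T).card ≤
      ((powersetCard t X).filter fun T => P ⊆ T).card := fun P _ => card_le_card (below_le X t P)
  have h6 : ∑ P ∈ Kin 2 G X, ((powersetCard t X).filter fun T => P ⊆ T).card =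
      (Kin 2 G X).card * (X.card - 2).choose (t - 2) := by
    rw [← smul_eq_mul, ← sum_const]
    refine sum_congr rfl fun P hP => ?_
    rw [mem_Kin] at hP
    exact card_super X P t hP.2 hP.1.2 (by omega)
  rw [← h6] at h2
  have h7 := (sum_eq_sum_iff_of_le h5).mp h2
  -- every superset of an edge is a clique
  have h8 : ∀ P ∈ Kin 2 G X, ∀ T, T ⊆ X → T.card = t → P ⊆ T → G.IsClique (T : Set V) := by
    intro P hP T hT hTc hPT
    have h9 := eq_of_subset_of_card_le (below_le (G := G) X t P) (h7 P hP).ge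
    have h10 : T ∈ (powersetCard t X).filter fun T => P ⊆ T := by
      rw [mem_filter, mem_powersetCard]; exact ⟨⟨hT, hTc⟩, hPT⟩
    rw [← h9, mem_filter, mem_Kin] at h10
    exact h10.1.1.1
  -- triples
  have h11 : ∀ p q x : V, p ∈ X → q ∈ X → x ∈ X → G.Adj p q → G.IsClique ({p, q, x} : Set V) := by
    intro p q x hp hq hx hpq
    have hP : ({p, q} : Finset V) ∈ Kin 2 G X := by
      rw [mem_Kin]
      refine ⟨⟨?_, card_pair hpq.ne⟩, ?_⟩
      · rw [coe_pair, SimpleGraph.isClique_pair]
        exact fun _ => hpq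
      · intro y hy; rw [mem_insert, mem_singleton] at hy
        rcases hy with rfl | rfl
        · exact hp
        · exact hq
    have hs : ({p, q, x} : Finset V) ⊆ X := by
      intro y hy; rw [mem_insert, mem_insert, mem_singleton] at hy
      rcases hy with rfl | rfl | rfl
      · exact hp
      · exact hq
      · exact hx
    have hc : ({p, q, x} : Finset V).card ≤ t := card_le_three.trans ht
    obtain ⟨T, hT1, hT2, hT3⟩ := exists_subsuperset_card_eq hs hc hX
    have h12 := h8 _ hP T hT2 hT3 ?_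
    · refine h12.subset ?_
      have : (({p, q, x} : Finset V) : Set V) ⊆ T := by exact_mod_cast hT1
      simpa using this
    · intro y hy
      refine hT1 ?_
      rw [mem_insert, mem_singleton] at hy
      rw [mem_insert, mem_insert]
      tauto
  obtain ⟨P, hP⟩ := hne
  rw [mem_Kin] at hP
  obtain ⟨p, q, hpq, rfl⟩ := card_eq_two.mp hP.1.2
  have hadj : G.Adj p q := hP.1.1 (by simp) (by simp) hpq
  have hp : p ∈ X := hP.2 (by simp)
  have hq : q ∈ X := hP.2 (by simp)
  have h13 : ∀ x ∈ X, x ≠ p → G.Adj p x := by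
    intro x hx hxp
    exact h11 p q x hp hq hx hadj (by simp) (by simp) hxp.symm
  intro x hx y hy hxy
  by_cases hxp : x = p
  · subst hxp; exact h13 y hy hxy.symm
  · exact h11 p x y hp hx hy (h13 x hx hxp) (by simp) (by simp) hxy

lemma Kin_of_clique (X : Finset V) (s : ℕ) (h : G.IsClique (X : Set V)) :
    (Kin s G X).card = X.card.choose s := by
  rw [← card_powersetCard]
  congr 1
  ext T
  rw [mem_Kin, mem_powersetCard]
  constructor
  · rintro ⟨h1, h2⟩; exact ⟨h2, h1.2⟩
  · rintro ⟨h1, h2⟩
    exact ⟨⟨h.subset (by exact_mod_cast h1), h2⟩, h1⟩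

end Pool.Agent.Q134.Circ
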