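import Pool.Agent.Q134.CircBlocks
import Pool.Agent.Q134.CircDensity

set_option autoImplicit false

namespace Pool.Agent.Q134.Circ

open Finset Classical

variable {V : Type*} [Fintype V] {G : SimpleGraph V}

/-- the lengths of the cycles through `T` -/
def KS (G : SimpleGraph V) (T : Finset V) : Set ℕ :=
  {k : ℕ | ∃ (v : V) (c : G.Walk v v), c.IsCycle ∧ c.length = k ∧ ∀ x ∈ T, x ∈ c.support}

lemma KS_bdd (G : SimpleGraph V) (T : Finset V) : BddAbove (KS G T) := by
  refine ⟨Fintype.card V, ?_⟩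
  rintro k ⟨v, c, hc, rfl, -⟩
  obtain ⟨h1, h2, -⟩ := CL_of_cycle hc
  rw [← h2]
  exact h1.1.1.length_le_card

lemma circ_ge {T : Finset V} {l : List V} (h : CL G l) (h3 : 3 ≤ l.length) (hT : ∀ x ∈ T, x ∈ l) :
    l.length ≤ circ G T := by
  obtain ⟨v, c, hc, hlen, hsupp⟩ := cycle_of_CL h h3
  exact le_csSup (KS_bdd G T) ⟨v, c, hc, hlen, fun x hx => (hsupp x).mpr (hT x hx)⟩

omit [Fintype V] in
lemma CL_of_clique {T : Finset V} (hT : G.IsClique (T : Set V)) (h2 : 2 ≤ T.card) :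
    CL G T.toList := by
  have hadj : ∀ x ∈ T.toList, ∀ y ∈ T.toList, x ≠ y → G.Adj x y := by
    intro x hx y hy hxy
    exact hT (by simpa using hx) (by simpa using hy) hxy
  have hlen : T.toList.length = T.card := T.length_toList
  refine ⟨⟨T.nodup_toList, ?_⟩, by rw [hlen]; exact h2, ?_⟩
  · refine List.Pairwise.isChain ?_
    have h1 : T.toList.Pairwise (fun x y => x ≠ y) := T.nodup_toList
    exact h1.imp_of_mem fun {x y} hx hy hxy => hadj x hx y hy hxy
  · intro x hx z hz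
    refine hadj x (List.mem_of_head? hx) z (List.mem_of_getLast? hz) ?_
    rintro rfl
    have hnd := T.nodup_toList
    rw [List.head?_eq_getElem?, List.getElem?_eq_getElem (by omega), Option.mem_some_iff] at hx
    rw [List.getLast?_eq_getElem?, List.getElem?_eq_getElem (by omega), Option.mem_some_iff] at hz
    have := (hnd.getElem_inj_iff (hi := by omega) (hj := by omega)).mp (hx.trans hz.symm)
    omega

lemma circ_attained {s : ℕ} {T : Finset V} (hT : G.IsNClique s T) (hs : 3 ≤ s) :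
    s ≤ circ G T ∧ ∃ l, CL G l ∧ l.length = circ G T ∧ ∀ x ∈ T, x ∈ l := by
  have h1 : CL G T.toList := CL_of_clique hT.1 (by rw [hT.2]; omega)
  have hlen : T.toList.length = s := by rw [T.length_toList, hT.2]
  have h2 := circ_ge (T := T) h1 (by omega) (fun x hx => by simpa using hx)
  refine ⟨by omega, ?_⟩
  obtain ⟨v, c, hc, hlen', hsupp⟩ := cycle_of_CL h1 (by omega)
  have hne : (KS G T).Nonempty := ⟨_, v, c, hc, rfl, fun x hx => (hsupp x).mpr (by simpa using hx)⟩
  obtain ⟨v', c', hc', hl', hT'⟩ := Nat.sSup_mem hne (KS_bdd G T)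
  obtain ⟨h3, h4, h5⟩ := CL_of_cycle hc'
  exact ⟨c'.support.tail, h3, h4.trans hl', fun x hx => (h5 x).mp (hT' x hx)⟩

omit [Fintype V] in
lemma CL.mono {G G' : SimpleGraph V} {l : List V} (h : CL G l)
    (hle : ∀ x ∈ l, ∀ y ∈ l, G.Adj x y → G'.Adj x y) : CL G' l := by
  obtain ⟨⟨h1, h2⟩, h3, h4⟩ := h
  refine ⟨⟨h1, ?_⟩, h3, fun x hx z hz =>
    hle x (List.mem_of_head? hx) z (List.mem_of_getLast? hz) (h4 x hx z hz)⟩
  exact List.IsChain.imp_of_mem_imp (fun {a b} ha hb hab => hle a ha b hb hab) h2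

lemma circ_mono {G G' : SimpleGraph V} (hle : G ≤ G') {s : ℕ} {T : Finset V}
    (hT : G.IsNClique s T) (hs : 3 ≤ s) : circ G T ≤ circ G' T := by
  obtain ⟨h1, l, h2, h3, h4⟩ := circ_attained hT hs
  rw [← h3]
  exact circ_ge (h2.mono fun x _ y _ h => hle h) (by omega) h4

end Pool.Agent.Q134.Circ
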