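import Mathlib

set_option autoImplicit false

namespace Pool.Agent.Q134.Circ

open Finset

/-- one step of the monotonicity -/
lemma step (n t : ℕ) (ht : 2 ≤ t) (hn : t ≤ n) :
    (n + 1).choose 2 * n.choose t ≤ n.choose 2 * (n + 1).choose t := by
  have h1 := Nat.choose_mul_succ_eq n t
  have h2 := Nat.choose_mul_succ_eq n 2
  have h3 : n + 1 - t ≤ n + 1 - 2 := by omega
  have h4 : ((n + 1).choose 2 * n.choose t) * (n + 1) ≤ (n.choose 2 * (n + 1).choose t) * (n + 1) := by
    calc ((n + 1).choose 2 * n.choose t) * (n + 1)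
        = (n + 1).choose 2 * (n.choose t * (n + 1)) := by ring
      _ = (n + 1).choose 2 * ((n + 1).choose t * (n + 1 - t)) := by rw [h1]
      _ ≤ (n + 1).choose 2 * ((n + 1).choose t * (n + 1 - 2)) := by gcongr
      _ = ((n + 1).choose 2 * (n + 1 - 2)) * (n + 1).choose t := by ring
      _ = (n.choose 2 * (n + 1)) * (n + 1).choose t := by rw [h2]
      _ = (n.choose 2 * (n + 1).choose t) * (n + 1) := by ring
  exact Nat.le_of_mul_le_mul_right h4 (by omega)

/-- the weight as a function of the cycle length -/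
def w (t n : ℕ) : ℚ := (n.choose 2 : ℚ) / (n.choose t : ℚ)

lemma w_nonneg (t n : ℕ) : 0 ≤ w t n := by unfold w; positivity

lemma w_step (n t : ℕ) (ht : 2 ≤ t) (hn : t ≤ n) : w t (n + 1) ≤ w t n := by
  unfold w
  have h1 : (0 : ℚ) < n.choose t := by exact_mod_cast Nat.choose_pos hn
  have h2 : (0 : ℚ) < (n + 1).choose t := by exact_mod_cast Nat.choose_pos (by omega)
  rw [div_le_div_iff₀ h2 h1]
  exact_mod_cast step n t ht hn

lemma w_anti (t a b : ℕ) (ht : 2 ≤ t) (ha : t ≤ a) (hab : a ≤ b) : w t b ≤ w t a := by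
  induction b, hab using Nat.le_induction with
  | base => exact le_rfl
  | succ n hn ih => exact (w_step n t ht (by omega)).trans ih

/-- Vandermonde: two terms -/
lemma vandermonde (d t : ℕ) (ht : 3 ≤ t) :
    2 * d * d.choose (t - 1) ≤ (2 * d).choose t := by
  rw [two_mul d, Nat.add_choose_eq]
  have h1 : ((1, t - 1) : ℕ × ℕ) ∈ antidiagonal t := by
    rw [Finset.HasAntidiagonal.mem_antidiagonal]; show 1 + (t - 1) = t; omega
  have h2 : ((t - 1, 1) : ℕ × ℕ) ∈ antidiagonal t := by
    rw [Finset.HasAntidiagonal.mem_antidiagonal]; show (t - 1) + 1 = t; omega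
  have h3 : ((1, t - 1) : ℕ × ℕ) ≠ (t - 1, 1) := by
    intro h
    have := congrArg Prod.fst h
    simp only at this
    omega
  calc (d + d) * d.choose (t - 1)
      = ∑ ij ∈ {((1, t - 1) : ℕ × ℕ), (t - 1, 1)}, d.choose ij.1 * d.choose ij.2 := by
        rw [sum_pair h3]; simp only [Nat.choose_one_right]; ring
    _ ≤ _ := by
        refine sum_le_sum_of_subset ?_
        intro x hx
        rw [mem_insert, mem_singleton] at hx
        rcases hx with rfl | rfl
        · exact h1
        · exact h2

/-- the cliques through a vertex of small degree do not pay -/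
lemma small_degree (d c t : ℕ) (ht : 3 ≤ t) (hd : t - 1 ≤ d) (hc : 2 * d ≤ c) :
    (d.choose (t - 1) : ℚ) * w t c < d := by
  have h1 : w t c ≤ w t (2 * d) := w_anti t (2 * d) c (by omega) (by omega) hc
  have hpos : 0 < d.choose (t - 1) := Nat.choose_pos hd
  have hpos2 : (0 : ℚ) < (2 * d).choose t := by exact_mod_cast Nat.choose_pos (by omega)
  have h2 := vandermonde d t ht
  have h3 : (2 * d).choose 2 = d * (2 * d - 1) := by
    rw [Nat.choose_two_right, mul_assoc, Nat.mul_div_cancel_left _ (by norm_num)]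
  have hd1 : 1 ≤ d := by omega
  calc (d.choose (t - 1) : ℚ) * w t c ≤ (d.choose (t - 1) : ℚ) * w t (2 * d) := by gcongr
    _ = ((d.choose (t - 1) : ℚ) * ((2 * d).choose 2 : ℚ)) / ((2 * d).choose t : ℚ) := by
        unfold w; ring
    _ < d := by
        rw [div_lt_iff₀ hpos2, h3]
        have : d.choose (t - 1) * (d * (2 * d - 1)) < d * (2 * d).choose t := by
          calc d.choose (t - 1) * (d * (2 * d - 1))
              < d.choose (t - 1) * (d * (2 * d)) := by
                have : 2 * d - 1 < 2 * d := by omega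
                gcongr
            _ = d * (2 * d * d.choose (t - 1)) := by ring
            _ ≤ d * (2 * d).choose t := by gcongr
        exact_mod_cast this

end Pool.Agent.Q134.Circ
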