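import Pool.Agent.Q134.CircLists

set_option autoImplicit false

namespace Pool.Agent.Q134.Circ

open Finset Classical

set_option linter.unusedSectionVars false

variable {V : Type*} [Fintype V] {G : SimpleGraph V}

/-- the degree -/
noncomputable def dg (G : SimpleGraph V) (v : V) : ℕ := (univ.filter fun w => G.Adj v w).card

/-- indices of the neighbours -/
noncomputable def idx (G : SimpleGraph V) (l : List V) (v : V) : Finset ℕ :=
  (range l.length).filter fun i => ∃ y ∈ l[i]?, G.Adj v y

omit [Fintype V] in
lemma mem_idx {l : List V} {v : V} {i : ℕ} :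
    i ∈ idx G l v ↔ ∃ h : i < l.length, G.Adj v (l[i]'h) := by
  unfold idx
  rw [mem_filter, mem_range]
  constructor
  · rintro ⟨h, y, hy, hv⟩
    rw [List.getElem?_eq_getElem h, Option.mem_some_iff] at hy
    exact ⟨h, hy ▸ hv⟩
  · rintro ⟨h, hv⟩
    exact ⟨h, _, by rw [List.getElem?_eq_getElem h]; exact rfl, hv⟩

lemma dg_le_idx {l : List V} {v : V} (h : ∀ w, G.Adj v w → w ∈ l) : dg G v ≤ (idx G l v).card := by
  unfold dg
  have : (univ.filter fun w => G.Adj v w) ⊆ (idx G l v).image fun i => l.getD i v := by
    intro w hw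
    rw [mem_filter] at hw
    obtain ⟨i, hi, hiw⟩ := List.getElem_of_mem (h w hw.2)
    rw [mem_image]
    refine ⟨i, mem_idx.mpr ⟨hi, by rw [hiw]; exact hw.2⟩, ?_⟩
    rw [List.getD_eq_getElem?_getD, List.getElem?_eq_getElem hi]
    simpa using hiw
  exact (card_le_card this).trans card_image_le

lemma idx_sum {l : List V} {X : Set V} {z : V} (hl : PL G l) (hX : {x | x ∈ l} = X)
    (hz : z ∈ l.getLast?) (k : ℕ) (hk : k + 1 + 1 < l.length)
    (hno : ¬ HP G X z (l[k]'(by omega))) :
    (idx G l (l[0]'(by omega))).card + (idx G l (l[k + 1]'(by omega))).card ≤ l.length := by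
  set n := l.length with hn
  set S0 := idx G l (l[0]'(by omega)) with hS0
  set S1 := idx G l (l[k + 1]'(by omega)) with hS1
  have h1 : ∀ s ∈ S0, 1 ≤ s ∧ s ≠ k + 1 := by
    intro s hs
    rw [hS0, mem_idx] at hs
    obtain ⟨h, hs⟩ := hs
    constructor
    · by_contra h0
      have : s = 0 := by omega
      subst this
      exact G.loopless.irrefl _ hs
    · rintro rfl
      exact hno (hp_rot hl hX hz k (by omega) hs)
  have h2 : k + 1 ∉ S1 := by
    intro h
    rw [hS1, mem_idx] at h
    exact G.loopless.irrefl _ h.2
  have h3 : insert (k + 1) S1 ⊆ range n := by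
    intro s hs
    rw [mem_insert] at hs
    rw [mem_range]
    rcases hs with rfl | hs
    · omega
    · rw [hS1, mem_idx] at hs
      exact hs.1
  have h4 : (S0.erase (n - 1)).card ≤ (range n \ insert (k + 1) S1).card := by
    refine card_le_card_of_injOn (fun s => if s ≤ k then s - 1 else s + 1) ?_ ?_
    · intro s hs
      rw [mem_coe, mem_erase] at hs
      obtain ⟨hs1, hs2⟩ := hs
      obtain ⟨hs3, hs4⟩ := h1 s hs2
      rw [hS0, mem_idx] at hs2
      obtain ⟨hs5, hs6⟩ := hs2
      rw [mem_coe, mem_sdiff, mem_range, mem_insert, not_or]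
      by_cases hsk : s ≤ k
      · simp only [if_pos hsk]
        refine ⟨by omega, by omega, ?_⟩
        intro h
        rw [hS1, mem_idx] at h
        obtain ⟨h5, h6⟩ := h
        exact hno (hp_A hl hX hz s k hs3 hsk (by omega) hs6 h6)
      · simp only [if_neg hsk]
        refine ⟨by omega, by omega, ?_⟩
        intro h
        rw [hS1, mem_idx] at h
        obtain ⟨h5, h6⟩ := h
        exact hno (hp_B hl hX hz s k (by omega) (by omega) hs6 h6)
    · intro s hs s' hs' h
      rw [mem_coe, mem_erase] at hs hs'
      obtain ⟨hs3, hs4⟩ := h1 s hs.2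
      obtain ⟨hs3', hs4'⟩ := h1 s' hs'.2
      simp only at h
      split_ifs at h <;> omega
  rw [card_sdiff_of_subset h3, card_insert_of_notMem h2, card_range] at h4
  have h5 : S0.card - 1 ≤ (S0.erase (n - 1)).card := pred_card_le_card_erase
  have h6 : (insert (k + 1) S1).card ≤ n := by
    have := card_le_card h3
    rwa [card_range] at this
  rw [card_insert_of_notMem h2] at h6
  omega

/-- If every end of a Hamilton path of `X` towards `z` has its neighbours in `X` and degree larger
than `|X| / 2`, then every vertex of `X` different from `z` is such an end. -/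
lemma posa {l : List V} {X : Set V} {z : V} (hl : PL G l) (hX : {x | x ∈ l} = X)
    (hz : z ∈ l.getLast?) (h2 : 2 ≤ l.length) (hadj : ∀ x ∈ l.head?, G.Adj x z)
    (hdeg : ∀ u, HP G X z u → l.length < 2 * dg G u ∧ ∀ w, G.Adj u w → w ∈ X) :
    ∀ v ∈ X, v ≠ z → HP G X z v := by
  have hlast : z = l[l.length - 1]'(by omega) := by
    rw [List.getLast?_eq_getElem?, List.getElem?_eq_getElem (by omega), Option.mem_some_iff] at hz
    exact hz.symm
  have h0 : HP G X z (l[0]'(by omega)) := by
    refine ⟨l, hl, hX, ?_, hz⟩
    rw [List.head?_eq_getElem?, List.getElem?_eq_getElem (by omega)]; exact rfl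
  have key : ∀ m k : ℕ, ∀ hk : k + 1 < l.length, k + m = l.length - 2 →
      HP G X z (l[k]'(by omega)) := by
    intro m
    induction m with
    | zero =>
      intro k hk hm
      refine hp_rot hl hX hz k hk ?_
      have h3 : k + 1 = l.length - 1 := by omega
      have h4 : l[k + 1]'hk = z := by rw [hlast]; congr 1
      rw [h4]
      refine hadj _ ?_
      rw [List.head?_eq_getElem?, List.getElem?_eq_getElem (by omega)]; exact rfl
    | succ m ih =>
      intro k hk hm
      by_contra hno
      have h3 := ih (k + 1) (by omega) (by omega)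
      have h4 := idx_sum hl hX hz k (by omega) hno
      have h5 := hdeg _ h0
      have h6 := hdeg _ h3
      have h7 : dg G (l[0]'(by omega)) ≤ (idx G l (l[0]'(by omega))).card := by
        refine dg_le_idx fun w hw => ?_
        have := h5.2 w hw
        rw [← hX] at this; exact this
      have h8 : dg G (l[k + 1]'(by omega)) ≤ (idx G l (l[k + 1]'(by omega))).card := by
        refine dg_le_idx fun w hw => ?_
        have := h6.2 w hw
        rw [← hX] at this; exact this
      omega
  intro v hv hvz
  rw [← hX] at hv
  obtain ⟨i, hi, hiv⟩ := List.getElem_of_mem hv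
  rw [← hiv]
  have hi2 : i + 1 < l.length := by
    by_contra h
    apply hvz
    rw [← hiv, hlast]
    congr 1
    omega
  exact key (l.length - 2 - i) i hi2 (by omega)

/-! ### the optimal configuration -/

lemma PL.length_le {l : List V} (h : PL G l) : l.length ≤ Fintype.card V := h.1.length_le_card

lemma exists_opt (hG : ∃ x y, G.Adj x y) : ∃ a b : List V, Conf G a b ∧
    ∀ a' b' : List V, Conf G a' b' → (a' ++ b').length < (a ++ b).length ∨
      ((a' ++ b').length = (a ++ b).length ∧ a'.length ≤ a.length) := by
  set N := Fintype.card V with hN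
  let f : List V → List V → ℕ := fun a b => (N + 1) * (a ++ b).length + a.length
  let S : Set ℕ := {n | ∃ a b : List V, Conf G a b ∧ f a b = n}
  have hne : S.Nonempty := by
    obtain ⟨x, y, hxy⟩ := hG
    refine ⟨_, [x, y], [], ⟨⟨?_, ?_⟩, by simp, x, by simp, y, by simp, hxy⟩, rfl⟩
    · simp [hxy.ne]
    · simp [hxy]
  have hbd : BddAbove S := by
    refine ⟨(N + 1) * N + N, ?_⟩
    rintro n ⟨a, b, hab, rfl⟩
    have h1 := hab.1.length_le
    have h2 : a.length ≤ N := by rw [List.length_append] at h1; omega
    show (N + 1) * (a ++ b).length + a.length ≤ _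
    gcongr
  obtain ⟨a, b, hab, hmax⟩ := Nat.sSup_mem hne hbd
  refine ⟨a, b, hab, fun a' b' h' => ?_⟩
  have h1 : f a' b' ≤ f a b := by
    rw [hmax]; exact le_csSup hbd ⟨a', b', h', rfl⟩
  have h2 : (N + 1) * (a' ++ b').length + a'.length ≤ (N + 1) * (a ++ b).length + a.length := h1
  have h3 : a.length ≤ N := by
    have := hab.1.length_le; rw [List.length_append] at this; omega
  rcases lt_trichotomy (a' ++ b').length (a ++ b).length with h | h | h
  · exact Or.inl h
  · right
    refine ⟨h, ?_⟩
    rw [h] at h2
    omega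
  · exfalso
    have h4 : (N + 1) * ((a ++ b).length + 1) ≤ (N + 1) * (a' ++ b').length := by gcongr; exact h
    rw [mul_add, mul_one] at h4
    omega

/-- The ends of the Hamilton paths of `X` towards `z` have no neighbours outside `X`. -/
lemma opt_closed {a b : List V} (hab : Conf G a b)
    (hopt : ∀ a' b' : List V, Conf G a' b' → (a' ++ b').length < (a ++ b).length ∨
      ((a' ++ b').length = (a ++ b).length ∧ a'.length ≤ a.length))
    {z : V} (hz : z ∈ a.getLast?) {u : V} (hu : HP G {x | x ∈ a} z u) :
    ∀ w, G.Adj u w → w ∈ a := by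
  obtain ⟨l, hl, hX, hul, hzl⟩ := hu
  have hmem : ∀ x, x ∈ l ↔ x ∈ a := fun x => by
    have := Set.ext_iff.mp hX x
    exact this
  have hanod : a.Nodup := (List.nodup_append'.mp hab.1.1).1
  have hlen : l.length = a.length := by
    have : l.Perm a := (List.perm_ext_iff_of_nodup hl.1 hanod).mpr hmem
    exact this.length_eq
  have hpl : PL G (l ++ b) := by
    have h := hab.1
    rw [PL.append_iff] at h ⊢
    refine ⟨hl, h.2.1, ?_, ?_⟩
    · intro x hx y hy
      refine h.2.2.1 x ?_ y hy
      rw [Option.mem_def] at hx hz hzl ⊢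
      rw [hzl, Option.some_inj] at hx
      rw [hz, hx]
    · intro x hx hx'
      exact h.2.2.2 ((hmem x).mp hx) hx'
  intro w hw
  by_contra hwa
  have hwl : w ∉ l := fun h => hwa ((hmem w).mp h)
  have hlne : l ≠ [] := by
    rintro rfl; simp at hul
  obtain ⟨u', r, rfl⟩ := List.exists_cons_of_ne_nil hlne
  have huu : u' = u := by simpa using hul
  subst huu
  by_cases hwb : w ∈ b
  · obtain ⟨b1, b2, rfl⟩ := List.mem_iff_append.mp hwb
    have hc : Conf G ((u' :: r) ++ b1 ++ [w]) b2 := by
      refine ⟨?_, ?_, u', ?_, w, ?_, hw⟩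
      · have : (u' :: r ++ b1 ++ [w] ++ b2) = (u' :: r) ++ (b1 ++ w :: b2) := by simp
        rw [this]; exact hpl
      · simp only [List.length_append, List.length_cons, List.length_nil]; omega
      · simp
      · rw [List.getLast?_append]; simp
    rcases hopt _ _ hc with h | ⟨h1, h2⟩
    · simp only [List.length_append, List.length_cons, List.length_nil] at h hlen
      omega
    · simp only [List.length_append, List.length_cons, List.length_nil] at h1 h2 hlen
      omega
  · have hc : Conf G [w, u'] (r ++ b) := by
      refine ⟨?_, by simp, w, by simp, u', by simp, hw.symm⟩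
      have h1 : [w, u'] ++ (r ++ b) = w :: ((u' :: r) ++ b) := by simp
      rw [h1]
      refine ⟨?_, ?_⟩
      · rw [List.nodup_cons]
        refine ⟨?_, hpl.1⟩
        rw [List.mem_append, not_or]
        exact ⟨hwl, hwb⟩
      · have h2 := hpl.2
        rw [List.cons_append] at h2 ⊢
        exact List.IsChain.cons_cons hw.symm h2
    rcases hopt _ _ hc with h | ⟨h1, h2⟩
    · simp only [List.length_append, List.length_cons, List.length_nil] at h hlen
      omega
    · simp only [List.length_append, List.length_cons, List.length_nil] at h1 h2 hlen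
      omega

end Pool.Agent.Q134.Circ
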