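import Pool.Agent.Q134.CircGamma
import Pool.Agent.Q134.CircPosa
import Pool.Agent.Q134.CircNum

set_option autoImplicit false

namespace Pool.Agent.Q134.Circ

open Finset Classical

variable {V : Type*} [Fintype V] {G : SimpleGraph V}

/-! ### deleting a vertex -/

/-- `G` without the edges at `u` -/
def del (G : SimpleGraph V) (u : V) : SimpleGraph V where
  Adj x y := G.Adj x y ∧ x ≠ u ∧ y ≠ u
  symm := ⟨fun _ _ h => ⟨h.1.symm, h.2.2, h.2.1⟩⟩
  loopless := ⟨fun x h => G.loopless.irrefl x h.1⟩

omit [Fintype V] in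
lemma del_le (G : SimpleGraph V) (u : V) : del G u ≤ G := fun _ _ h => h.1

lemma Kq_del (u : V) (s : ℕ) (hs : 2 ≤ s) : Kq s (del G u) = (Kq s G).filter fun T => u ∉ T := by
  ext T
  rw [mem_filter, mem_Kq, mem_Kq]
  constructor
  · intro h
    refine ⟨⟨fun x hx y hy hxy => (h.1 hx hy hxy).1, h.2⟩, fun hu => ?_⟩
    obtain ⟨y, hy, hyu⟩ := exists_mem_ne (by rw [h.2]; omega : 1 < T.card) u
    exact (h.1 hu hy hyu.symm).2.1 rfl
  · rintro ⟨h, hu⟩
    refine ⟨fun x hx y hy hxy => ⟨h.1 hx hy hxy, ?_, ?_⟩, h.2⟩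
    · rintro rfl; exact hu hx
    · rintro rfl; exact hu hy

lemma card_edges_at (u : V) : ((Kq 2 G).filter fun T => u ∈ T).card = dg G u := by
  unfold dg
  symm
  refine card_bij (fun w _ => {u, w}) ?_ ?_ ?_
  · intro w hw
    rw [mem_filter] at hw
    rw [mem_filter, mem_Kq]
    refine ⟨⟨?_, card_pair hw.2.ne⟩, by simp⟩
    rw [coe_pair, SimpleGraph.isClique_pair]
    exact fun _ => hw.2
  · intro w hw w' hw' h
    rw [mem_filter] at hw hw'
    have : w ∈ ({u, w'} : Finset V) := by rw [← h]; simp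
    rw [mem_insert, mem_singleton] at this
    rcases this with h1 | h1
    · exact absurd h1 hw.2.ne'
    · exact h1
  · intro T hT
    rw [mem_filter, mem_Kq] at hT
    obtain ⟨⟨h1, h2⟩, h3⟩ := hT
    obtain ⟨p, q, hpq, rfl⟩ := card_eq_two.mp h2
    have hadj : G.Adj p q := h1 (by simp) (by simp) hpq
    rw [mem_insert, mem_singleton] at h3
    rcases h3 with h3 | h3
    · subst h3
      exact ⟨q, by rw [mem_filter]; exact ⟨mem_univ _, hadj⟩, rfl⟩
    · subst h3
      exact ⟨p, by rw [mem_filter]; exact ⟨mem_univ _, hadj.symm⟩, pair_comm _ _⟩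

lemma card_cliques_at (u : V) (t : ℕ) :
    ((Kq t G).filter fun T => u ∈ T).card ≤ (dg G u).choose (t - 1) := by
  unfold dg
  rw [← card_powersetCard]
  refine card_le_card_of_injOn (fun T => T.erase u) ?_ ?_
  · intro T hT
    rw [mem_coe, mem_filter, mem_Kq] at hT
    rw [mem_coe, mem_powersetCard]
    refine ⟨fun w hw => ?_, by simp only; rw [card_erase_of_mem hT.2, hT.1.2]⟩
    rw [mem_erase] at hw
    rw [mem_filter]
    exact ⟨mem_univ _, hT.1.1 hT.2 hw.2 hw.1.symm⟩
  · intro T hT T' hT' h
    rw [mem_coe, mem_filter] at hT hT'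
    simp only at h
    rw [← insert_erase hT.2, h, insert_erase hT'.2]

/-! ### removing a set of vertices which hangs at one vertex -/

/-- `G` without the edges inside `X` -/
def cut (G : SimpleGraph V) (X : Finset V) : SimpleGraph V where
  Adj x y := G.Adj x y ∧ ¬ (x ∈ X ∧ y ∈ X)
  symm := ⟨fun _ _ h => ⟨h.1.symm, fun h' => h.2 h'.symm⟩⟩
  loopless := ⟨fun x h => G.loopless.irrefl x h.1⟩

omit [Fintype V] in
lemma cut_le (G : SimpleGraph V) (X : Finset V) : cut G X ≤ G := fun _ _ h => h.1

/-- no edge leaves `X` except at `z` -/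
def Closed (G : SimpleGraph V) (X : Finset V) (z : V) : Prop :=
  ∀ x ∈ X, x ≠ z → ∀ y, G.Adj x y → y ∈ X

lemma Kq_cut {X : Finset V} {z : V} (hX : Closed G X z) (s : ℕ) (hs : 2 ≤ s) :
    Kq s (cut G X) = (Kq s G).filter fun T => ¬ T ⊆ X := by
  ext T
  rw [mem_filter, mem_Kq, mem_Kq]
  constructor
  · intro h
    refine ⟨⟨fun x hx y hy hxy => (h.1 hx hy hxy).1, h.2⟩, fun hT => ?_⟩
    obtain ⟨x, hx, y, hy, hxy⟩ := one_lt_card.mp (by rw [h.2]; omega : 1 < T.card)
    exact (h.1 hx hy hxy).2 ⟨hT hx, hT hy⟩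
  · rintro ⟨h, hT⟩
    obtain ⟨q, hq, hqX⟩ := not_subset.mp hT
    have h1 : ∀ x ∈ T, x ∈ X → x = z := by
      intro x hx hxX
      by_contra hxz
      exact hqX (hX x hxX hxz q (h.1 hx hq (fun h => hqX (h ▸ hxX))))
    refine ⟨fun x hx y hy hxy => ⟨h.1 hx hy hxy, ?_⟩, h.2⟩
    rintro ⟨hx1, hy1⟩
    exact hxy ((h1 x hx hx1).trans (h1 y hy hy1).symm)

/-- all blocks are good -/
def AllGood (t : ℕ) (G : SimpleGraph V) : Prop :=
  ∀ S, IsBlock G S → (∃ v, S = {v}) ∨ (t ≤ S.ncard ∧ G.IsClique S)

/-- the blocks of `G` and of `cut G X` -/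
lemma allGood_cut {X : Finset V} {z : V} (hX : Closed G X z) (h2 : 2 ≤ X.card)
    (hns : Nonseparable G (X : Set V)) (t : ℕ) :
    AllGood t G ↔ (t ≤ X.card ∧ G.IsClique (X : Set V)) ∧ AllGood t (cut G X) := by
  -- a set which meets `X` at most in `z`
  have hsub : ∀ S : Set V, Nonseparable G S → ∀ p ∈ S, p ∈ X → p ≠ z → S ⊆ (X : Set V) := by
    intro S hS p hp hpX hpz
    exact nonsep_subset (fun x hx hxz y hxy => hX x hx hxz y hxy) hS hp hpX hpz
  have hagree : ∀ S : Set V, (∀ p ∈ S, p ∈ X → p = z) →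
      ∀ x ∈ S, ∀ y ∈ S, G.Adj x y ↔ (cut G X).Adj x y := by
    intro S hS x hx y hy
    constructor
    · intro h
      refine ⟨h, fun h' => ?_⟩
      exact h.ne ((hS x hx h'.1).trans (hS y hy h'.2).symm)
    · exact fun h => h.1
  have hcutX : ∀ S : Set V, Nonseparable (cut G X) S → (∃ x ∈ S, ∃ y ∈ S, x ≠ y) →
      ∀ p ∈ S, p ∈ X → p = z := by
    rintro S hS ⟨x, hx, y, hy, hxy⟩ p hp hpX
    by_contra hpz
    have h3 : ∃ q ∈ S, p ≠ q := by
      by_cases h : p = x
      · exact ⟨y, hy, h ▸ hxy⟩
      · exact ⟨x, hx, h⟩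
    obtain ⟨q, hq, hpq⟩ := h3
    obtain ⟨w, -, hw⟩ := nonsep_adj hS hp hq hpq
    exact hw.2 ⟨hpX, hX p hpX hpz w hw.1⟩
  have hpexists : ∃ p ∈ X, p ≠ z := exists_mem_ne (by omega) z
  constructor
  · intro hgood
    constructor
    · obtain ⟨S, hXS, hS⟩ := exists_block hns
      obtain ⟨p, hpX, hpz⟩ := hpexists
      have h3 : S ⊆ (X : Set V) := hsub S hS.1 p (hXS hpX) hpX hpz
      have h4 : S = (X : Set V) := Set.Subset.antisymm h3 hXS
      subst h4
      rcases hgood _ hS with ⟨v, hv⟩ | h
      · exfalso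
        obtain ⟨x, hx, y, hy, hxy⟩ := one_lt_card.mp (by omega : 1 < X.card)
        have hx' : x ∈ (X : Set V) := hx
        have hy' : y ∈ (X : Set V) := hy
        rw [hv, Set.mem_singleton_iff] at hx' hy'
        exact hxy (hx'.trans hy'.symm)
      · rw [Set.ncard_coe_finset] at h
        exact h
    · intro S hS
      by_cases hsing : ∃ x ∈ S, ∃ y ∈ S, x ≠ y
      · right
        have h3 := hcutX S hS.1 hsing
        have h4 : Nonseparable G S := nonsep_mono (cut_le G X) hS.1
        obtain ⟨B, hSB, hB⟩ := exists_block h4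
        have h5 : ∀ p ∈ B, p ∈ X → p = z := by
          intro p hp hpX
          by_contra hpz
          have h6 := hsub B hB.1 p hp hpX hpz
          obtain ⟨x, hx, y, hy, hxy⟩ := hsing
          exact hxy ((h3 x hx (h6 (hSB hx))).trans (h3 y hy (h6 (hSB hy))).symm)
        have h6 : Nonseparable (cut G X) B := (nonsep_congr (hagree B h5)).mp hB.1
        have h7 : B ⊆ S := hS.2 h6 hSB
        have h8 : B = S := Set.Subset.antisymm h7 hSB
        subst h8
        rcases hgood _ hB with ⟨v, hv⟩ | ⟨h9, h10⟩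
        · exfalso
          obtain ⟨x, hx, y, hy, hxy⟩ := hsing
          rw [hv, Set.mem_singleton_iff] at hx hy
          exact hxy (hx.trans hy.symm)
        · exact ⟨h9, fun x hx y hy hxy => (hagree B h5 x hx y hy).mp (h10 hx hy hxy)⟩
      · left
        push Not at hsing
        obtain ⟨⟨v, hv⟩⟩ := hS.1.1.nonempty
        refine ⟨v, ?_⟩
        ext x
        rw [Set.mem_singleton_iff]
        exact ⟨fun hx => hsing x hx v hv, fun h => h ▸ hv⟩
  · rintro ⟨⟨h3, h4⟩, hgood⟩ S hS
    by_cases hsing : ∃ x ∈ S, ∃ y ∈ S, x ≠ y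
    · right
      by_cases hmeet : ∃ p ∈ S, p ∈ X ∧ p ≠ z
      · obtain ⟨p, hp, hpX, hpz⟩ := hmeet
        have h5 := hsub S hS.1 p hp hpX hpz
        have h6 : (X : Set V) ⊆ S := hS.2 hns h5
        have h7 : S = (X : Set V) := Set.Subset.antisymm h5 h6
        subst h7
        rw [Set.ncard_coe_finset]
        exact ⟨h3, h4⟩
      · push Not at hmeet
        have h5 : Nonseparable (cut G X) S := (nonsep_congr (hagree S hmeet)).mp hS.1
        obtain ⟨B, hSB, hB⟩ := exists_block h5
        have h6 : Nonseparable G B := nonsep_mono (cut_le G X) hB.1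
        have h7 : B = S := Set.Subset.antisymm (hS.2 h6 hSB) hSB
        subst h7
        rcases hgood _ hB with ⟨v, hv⟩ | ⟨h9, h10⟩
        · exfalso
          obtain ⟨x, hx, y, hy, hxy⟩ := hsing
          rw [hv, Set.mem_singleton_iff] at hx hy
          exact hxy (hx.trans hy.symm)
        · exact ⟨h9, fun x hx y hy hxy => (h10 hx hy hxy).1⟩
    · left
      push Not at hsing
      obtain ⟨⟨v, hv⟩⟩ := hS.1.1.nonempty
      refine ⟨v, ?_⟩
      ext x
      rw [Set.mem_singleton_iff]
      exact ⟨fun hx => hsing x hx v hv, fun h => h ▸ hv⟩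

/-- the largest cycle through a clique inside `X` -/
lemma circ_in {X : Finset V} {z : V} (hX : Closed G X z) {l : List V} (hl : CL G l)
    (hlX : ∀ x, x ∈ l ↔ x ∈ X) {s : ℕ} (hs : 3 ≤ s) {T : Finset V} (hT : G.IsNClique s T)
    (hTX : T ⊆ X) : circ G T = X.card := by
  have hlen : l.length = X.card := by
    rw [← List.toFinset_card_of_nodup hl.1.1]
    congr 1
    ext x; rw [List.mem_toFinset]; exact hlX x
  have hTc : s ≤ X.card := by rw [← hT.2]; exact card_le_card hTX
  refine le_antisymm ?_ ?_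
  · obtain ⟨h1, l', h2, h3, h4⟩ := circ_attained hT hs
    obtain ⟨p, hp, hpz⟩ := exists_mem_ne (by rw [hT.2]; omega : 1 < T.card) z
    have h5 := nonsep_subset (X := (X : Set V)) (fun x hx hxz y hxy => hX x hx hxz y hxy)
      h2.nonsep (h4 p hp) (hTX hp) hpz
    rw [← h3, ← List.toFinset_card_of_nodup h2.1.1]
    refine card_le_card fun x hx => ?_
    rw [List.mem_toFinset] at hx
    exact h5 hx
  · rw [← hlen]
    exact circ_ge hl (by omega) fun x hx => (hlX x).mpr (hTX hx)

/-- the largest cycle through a clique outside `X` -/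
lemma circ_out {X : Finset V} {z : V} (hX : Closed G X z) {s : ℕ} (hs : 3 ≤ s) {T : Finset V}
    (hT : (cut G X).IsNClique s T) : circ G T = circ (cut G X) T := by
  have hTG : G.IsNClique s T := ⟨fun x hx y hy hxy => (hT.1 hx hy hxy).1, hT.2⟩
  refine le_antisymm ?_ (circ_mono (cut_le G X) hT hs)
  obtain ⟨h1, l, h2, h3, h4⟩ := circ_attained hTG hs
  rw [← h3]
  obtain ⟨x, hx, y, hy, hxy⟩ := one_lt_card.mp (by rw [hT.2]; omega : 1 < T.card)
  have hq : ∃ q ∈ T, q ∉ X := by
    by_contra h
    push Not at h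
    exact (hT.1 hx hy hxy).2 ⟨h x hx, h y hy⟩
  obtain ⟨q, hqT, hqX⟩ := hq
  have h5 : ∀ p ∈ l, p ∈ X → p = z := by
    intro p hp hpX
    by_contra hpz
    exact hqX (nonsep_subset (X := (X : Set V)) (fun x hx hxz y hxy => hX x hx hxz y hxy)
      h2.nonsep hp hpX hpz (h4 q hqT))
  refine circ_ge (h2.mono ?_) (by omega) h4
  intro a ha b hb hab
  refine ⟨hab, fun h => ?_⟩
  exact hab.ne ((h5 a ha h.1).trans (h5 b hb h.2).symm)

/-- the sum of the weights -/
noncomputable def Sg (t : ℕ) (G : SimpleGraph V) : ℚ := ∑ T ∈ Kq t G, w t (circ G T)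

theorem main (t : ℕ) (ht : 3 ≤ t) : ∀ (n : ℕ) (G : SimpleGraph V), (Kq 2 G).card = n →
    Sg t G ≤ n ∧ (Sg t G = n ↔ AllGood t G) := by
  intro n
  induction n using Nat.strong_induction_on with
  | _ n ih =>
  intro G hn
  by_cases hE : ∃ x y, G.Adj x y
  swap
  · -- no edges
    push Not at hE
    have h0 : n = 0 := by
      rw [← hn, card_eq_zero, eq_empty_iff_forall_notMem]
      intro T hT
      rw [mem_Kq] at hT
      obtain ⟨p, q, hpq, rfl⟩ := card_eq_two.mp hT.2
      exact hE p q (hT.1 (by simp) (by simp) hpq)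
    have h1 : Kq t G = ∅ := by
      rw [eq_empty_iff_forall_notMem]
      intro T hT
      rw [mem_Kq] at hT
      obtain ⟨x, hx, y, hy, hxy⟩ := one_lt_card.mp (by rw [hT.2]; omega : 1 < T.card)
      exact hE x y (hT.1 hx hy hxy)
    have h2 : Sg t G = 0 := by unfold Sg; rw [h1, sum_empty]
    rw [h2, h0]
    have hgood : AllGood t G := ?_
    · exact ⟨by simp, by simp [hgood]⟩
    intro S hS
    left
    obtain ⟨⟨v, hv⟩⟩ := hS.1.1.nonempty
    refine ⟨v, ?_⟩
    ext x
    rw [Set.mem_singleton_iff]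
    refine ⟨fun hx => ?_, fun h => h ▸ hv⟩
    by_contra hxv
    obtain ⟨w, -, hw⟩ := nonsep_adj hS.1 hx hv hxv
    exact hE _ _ hw
  -- the optimal configuration
  obtain ⟨a, b, hab, hopt⟩ := exists_opt hE
  obtain ⟨hPL, ha2, x0, hx0, z, hz, hadj0⟩ := id hab
  set X : Finset V := a.toFinset with hXdef
  have hXa : ∀ x, x ∈ a ↔ x ∈ X := fun x => by rw [hXdef, List.mem_toFinset]
  have haPL : PL G a := by
    rw [PL.append_iff] at hPL; exact hPL.1
  have hXc : X.card = a.length := by rw [hXdef, List.toFinset_card_of_nodup haPL.1]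
  have hCL : CL G a := by
    refine ⟨haPL, ha2, fun x hx y hy => ?_⟩
    rw [Option.mem_def] at hx hy hx0 hz
    rw [hx0, Option.some_inj] at hx
    rw [hz, Option.some_inj] at hy
    rw [← hx, ← hy]; exact hadj0
  have hset : {x | x ∈ a} = (X : Set V) := by
    ext x; exact hXa x
  have hns : Nonseparable G (X : Set V) := by rw [← hset]; exact hCL.nonsep
  have hclosed : ∀ u, HP G {x | x ∈ a} z u → ∀ w, G.Adj u w → w ∈ a :=
    fun u hu => opt_closed hab hopt hz hu
  have hHPX : ∀ u, HP G {x | x ∈ a} z u → u ∈ X := by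
    rintro u ⟨l, -, hl, hul, -⟩
    have h1 : u ∈ l := List.mem_of_head? hul
    have h2 : u ∈ {x | x ∈ l} := h1
    rw [hl] at h2
    exact (hXa u).mp h2
  have h2X : 2 ≤ X.card := by omega
  by_cases hcase : ∃ u, HP G {x | x ∈ a} z u ∧ 2 * dg G u ≤ a.length
  · -- delete a vertex of small degree
    obtain ⟨u, hu, hdu⟩ := hcase
    have huX := hHPX u hu
    have hNu : ∀ w, G.Adj u w → w ∈ X := fun w hw => (hXa w).mp (hclosed u hu w hw)
    have hd1 : 1 ≤ dg G u := by
      obtain ⟨y, hy, hyu⟩ := exists_mem_ne (by omega : 1 < X.card) u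
      obtain ⟨w, -, hw⟩ := nonsep_adj hns (x := u) (y := y) huX hy hyu.symm
      unfold dg
      exact card_pos.mpr ⟨w, by rw [mem_filter]; exact ⟨mem_univ _, hw⟩⟩
    have hsplit2 : (Kq 2 (del G u)).card + dg G u = n := by
      rw [← hn, Kq_del u 2 le_rfl, ← card_edges_at, add_comm]
      exact card_filter_add_card_filter_not _
    have hih := ih _ (by omega) (del G u) rfl
    have hlt : Sg t G < n := by
      have h1 : Sg t G = ∑ T ∈ (Kq t G).filter (fun T => u ∈ T), w t (circ G T) +
          ∑ T ∈ (Kq t G).filter (fun T => u ∉ T), w t (circ G T) := by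
        unfold Sg; rw [sum_filter_add_sum_filter_not]
      have h2 : ∑ T ∈ (Kq t G).filter (fun T => u ∉ T), w t (circ G T) ≤ Sg t (del G u) := by
        unfold Sg
        rw [Kq_del u t (by omega)]
        refine sum_le_sum fun T hT => ?_
        have hT' : T ∈ Kq t (del G u) := by rw [Kq_del u t (by omega)]; exact hT
        rw [mem_Kq] at hT'
        exact w_anti t _ _ (by omega) (circ_attained hT' ht).1 (circ_mono (del_le G u) hT' ht)
      have h3 : ∑ T ∈ (Kq t G).filter (fun T => u ∈ T), w t (circ G T) < dg G u := by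
        by_cases hemp : (Kq t G).filter (fun T => u ∈ T) = ∅
        · rw [hemp, sum_empty]; exact_mod_cast hd1
        · obtain ⟨T0, hT0⟩ := nonempty_iff_ne_empty.mpr hemp
          have hsubX : ∀ T ∈ (Kq t G).filter (fun T => u ∈ T), T ⊆ X := by
            intro T hT x hx
            rw [mem_filter, mem_Kq] at hT
            by_cases hxu : x = u
            · rw [hxu]; exact huX
            · exact hNu x (hT.1.1 hT.2 hx (fun h => hxu h.symm))
          have htX : t ≤ X.card := by
            have h4 := hsubX T0 hT0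
            rw [mem_filter, mem_Kq] at hT0
            rw [← hT0.1.2]; exact card_le_card h4
          have h4 : ∀ T ∈ (Kq t G).filter (fun T => u ∈ T), w t (circ G T) ≤ w t X.card := by
            intro T hT
            have h5 := hsubX T hT
            refine w_anti t _ _ (by omega) htX ?_
            rw [hXc]
            exact circ_ge hCL (by omega) fun x hx => (hXa x).mpr (h5 hx)
          have h5 : ∑ T ∈ (Kq t G).filter (fun T => u ∈ T), w t (circ G T) ≤
              ((dg G u).choose (t - 1) : ℚ) * w t X.card := by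
            refine (sum_le_card_nsmul _ _ _ h4).trans ?_
            rw [nsmul_eq_mul]
            have h6 := w_nonneg t X.card
            have h7 : (((Kq t G).filter (fun T => u ∈ T)).card : ℚ) ≤ (dg G u).choose (t - 1) := by
              exact_mod_cast card_cliques_at u t
            gcongr
          have h6 : t - 1 ≤ dg G u := by
            have h7 := card_cliques_at (G := G) u t
            have h8 : 0 < ((Kq t G).filter (fun T => u ∈ T)).card := card_pos.mpr ⟨T0, hT0⟩
            by_contra h9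
            rw [Nat.choose_eq_zero_of_lt (by omega)] at h7
            omega
          exact h5.trans_lt (small_degree _ _ t ht h6 (by omega))
      have h4 : ((Kq 2 (del G u)).card : ℚ) + (dg G u : ℚ) = n := by exact_mod_cast hsplit2
      have h5 := hih.1
      rw [h1]
      linarith
    refine ⟨hlt.le, ⟨fun h => absurd h hlt.ne, fun hgood => ?_⟩⟩
    exfalso
    obtain ⟨S, hXS, hS⟩ := exists_block hns
    rcases hgood S hS with ⟨v, hv⟩ | ⟨hcard, hclq⟩
    · obtain ⟨x, hx, y, hy, hxy⟩ := one_lt_card.mp (by omega : 1 < X.card)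
      have hx' := hXS hx
      have hy' := hXS hy
      rw [hv, Set.mem_singleton_iff] at hx' hy'
      exact hxy (hx'.trans hy'.symm)
    · have hSX : S ⊆ (X : Set V) := by
        intro y hy
        by_cases hyu : y = u
        · rw [hyu]; exact huX
        · exact hNu y (hclq (hXS huX) hy (fun h => hyu h.symm))
      have hSe : S = (X : Set V) := Set.Subset.antisymm hSX hXS
      subst hSe
      rw [Set.ncard_coe_finset] at hcard
      have hdge : X.card - 1 ≤ dg G u := by
        rw [← card_erase_of_mem huX]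
        unfold dg
        refine card_le_card fun y hy => ?_
        rw [mem_erase] at hy
        rw [mem_filter]
        exact ⟨mem_univ _, hclq huX hy.2 (fun h => hy.1 h.symm)⟩
      omega
  · -- split off a Hamiltonian piece
    push Not at hcase
    have hposa := posa haPL rfl hz ha2 (fun x hx => hCL.2.2 x hx z hz)
      (fun u hu => ⟨hcase u hu, hclosed u hu⟩)
    have hX : Closed G X z := by
      intro x hx hxz y hxy
      exact (hXa y).mp (hclosed x (hposa x ((hXa x).mpr hx) hxz) y hxy)
    have hKin : ∀ s, 2 ≤ s → (Kq s G).filter (fun T => ¬ T ⊆ X) = Kq s (cut G X) :=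
      fun s hs => (Kq_cut hX s hs).symm
    have hsplit2 : (Kin 2 G X).card + (Kq 2 (cut G X)).card = n := by
      rw [← hn, ← hKin 2 le_rfl]
      exact card_filter_add_card_filter_not _
    have hzX : z ∈ X := (hXa z).mp (List.mem_of_getLast? hz)
    have hx0X : x0 ∈ X := (hXa x0).mp (List.mem_of_head? hx0)
    have hne : (Kin 2 G X).Nonempty := by
      refine ⟨{x0, z}, ?_⟩
      rw [mem_Kin]
      refine ⟨⟨?_, card_pair hadj0.ne⟩, ?_⟩
      · rw [coe_pair, SimpleGraph.isClique_pair]; exact fun _ => hadj0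
      · intro y hy; rw [mem_insert, mem_singleton] at hy
        rcases hy with rfl | rfl
        · exact hx0X
        · exact hzX
    have hpos : 0 < (Kin 2 G X).card := card_pos.mpr hne
    obtain ⟨hih1, hih2⟩ := ih _ (by omega) (cut G X) rfl
    have hsum : Sg t G = (Kin t G X).card * w t X.card + Sg t (cut G X) := by
      have h1 : Sg t G = ∑ T ∈ Kin t G X, w t (circ G T) +
          ∑ T ∈ (Kq t G).filter (fun T => ¬ T ⊆ X), w t (circ G T) := by
        unfold Sg Kin; rw [sum_filter_add_sum_filter_not]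
      rw [h1, hKin t (by omega)]
      congr 1
      · rw [← nsmul_eq_mul, ← sum_const]
        refine sum_congr rfl fun T hT => ?_
        rw [mem_Kin] at hT
        rw [circ_in hX hCL hXa ht hT.1 hT.2]
      · unfold Sg
        refine sum_congr rfl fun T hT => ?_
        rw [mem_Kq] at hT
        rw [circ_out hX ht hT]
    have hn' : ((Kin 2 G X).card : ℚ) + (Kq 2 (cut G X)).card = n := by exact_mod_cast hsplit2
    have hgoodiff := allGood_cut hX h2X hns t
    by_cases htX : t ≤ X.card
    · have hCpos : (0 : ℚ) < X.card.choose t := by exact_mod_cast Nat.choose_pos htX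
      have hdens := density (G := G) X t ht
      have h1 : (Kin t G X).card * w t X.card ≤ (Kin 2 G X).card := by
        unfold w
        rw [← mul_div_assoc, div_le_iff₀ hCpos]
        exact_mod_cast hdens
      have h2 : (Kin t G X).card * w t X.card = (Kin 2 G X).card ↔ G.IsClique (X : Set V) := by
        unfold w
        rw [← mul_div_assoc, div_eq_iff hCpos.ne']
        constructor
        · intro h
          refine density_eq X t ht htX hne ?_
          exact_mod_cast h
        · intro h
          rw [Kin_of_clique X t h, Kin_of_clique X 2 h]; ring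
      refine ⟨by rw [hsum]; linarith, ?_⟩
      rw [hgoodiff, ← h2, ← hih2]
      constructor
      · intro h
        rw [hsum, ← hn'] at h
        refine ⟨⟨htX, ?_⟩, ?_⟩ <;> linarith
      · rintro ⟨⟨-, h3⟩, h4⟩
        rw [hsum, ← hn', h3, h4]
    · have h1 : (Kin t G X).card = 0 := by
        rw [card_eq_zero, eq_empty_iff_forall_notMem]
        intro T hT
        rw [mem_Kin] at hT
        have := card_le_card hT.2
        rw [hT.1.2] at this
        omega
      have hpos' : (0 : ℚ) < (Kin 2 G X).card := by exact_mod_cast hpos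
      rw [h1, Nat.cast_zero, zero_mul, zero_add] at hsum
      refine ⟨by rw [hsum]; linarith, ?_⟩
      rw [hgoodiff]
      constructor
      · intro h
        rw [hsum, ← hn'] at h
        linarith
      · rintro ⟨⟨h, -⟩, -⟩
        exact absurd h htX

end Pool.Agent.Q134.Circ
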