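import Mathlib

/-!
# Chromatic symmetric functions and the elementary basis

`csf G N` is the chromatic symmetric function `X_G` in the variables `x_0, …, x_{N-1}`. If the number
of variables is at least the number `n` of vertices, it has exactly one expansion
`∑ c_λ e_λ` over the partitions `λ` of `n`.
-/

set_option autoImplicit false

namespace Pool.Agent.Q134.Csf

open Finset MvPolynomial

open Classical in
/-- The chromatic symmetric function of `G` in `N` variables. -/
noncomputable def csf {V : Type*} [Fintype V] [DecidableEq V] (G : SimpleGraph V) (N : ℕ) :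
    MvPolynomial (Fin N) ℚ :=
  ∑ κ : V → Fin N, if ∀ u v, G.Adj u v → κ u ≠ κ v then ∏ v, X (κ v) else 0

/-- `c` is the family of the coefficients of the symmetric function `F` of degree `n` in the
elementary basis: `F = ∑ c_λ e_λ`. -/
def IsExpansion {n N : ℕ} (F : MvPolynomial (Fin N) ℚ) (c : n.Partition → ℚ) : Prop :=
  F = ∑ lam : n.Partition, c lam • esymmPart (Fin N) ℚ lam

/-- the shift by one -/
def succEmb (N : ℕ) : Fin N ↪ ℕ :=
  ⟨fun i => i.val + 1, fun i j h => Fin.ext (by have h' : i.val + 1 = j.val + 1 := h; omega)⟩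

lemma succEmb_apply {N : ℕ} (i : Fin N) : succEmb N i = i.val + 1 := rfl

/-- multiplicities of the parts `1, …, N` -/
noncomputable def mults {n : ℕ} (N : ℕ) (lam : n.Partition) : Fin N →₀ ℕ :=
  Finsupp.equivFunOnFinite.symm fun i => lam.parts.count (i.val + 1)

lemma mults_apply {n N : ℕ} (lam : n.Partition) (i : Fin N) :
    mults N lam i = lam.parts.count (i.val + 1) := rfl

lemma le_of_mem {n : ℕ} (lam : n.Partition) {a : ℕ} (h : a ∈ lam.parts) : a ≤ n := by
  rw [← lam.parts_sum]
  exact Multiset.le_sum_of_mem h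

lemma mults_injective {n N : ℕ} (hN : n ≤ N) : Function.Injective (mults (n := n) N) := by
  intro lam mu h
  ext a
  by_cases ha : 1 ≤ a ∧ a ≤ N
  · have h1 := DFunLike.congr_fun h (⟨a - 1, by omega⟩ : Fin N)
    rw [mults_apply, mults_apply] at h1
    have h2 : a - 1 + 1 = a := by omega
    simpa [h2] using h1
  · have h1 : ∀ nu : n.Partition, nu.parts.count a = 0 := by
      intro nu
      rw [Multiset.count_eq_zero]
      intro hmem
      have h2 := nu.parts_pos hmem
      have h3 := le_of_mem nu hmem
      omega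
    rw [h1, h1]

/-- every exponent of weight `n` comes from a partition -/
lemma exists_partition {n N : ℕ} (m : Fin N →₀ ℕ)
    (hm : ∑ i : Fin N, (i.val + 1) * m i = n) : ∃ lam : n.Partition, mults N lam = m := by
  refine ⟨⟨∑ i : Fin N, Multiset.replicate (m i) (i.val + 1), ?_, ?_⟩, ?_⟩
  · intro a ha
    rw [Multiset.mem_sum] at ha
    obtain ⟨i, _, hi⟩ := ha
    rw [Multiset.eq_of_mem_replicate hi]
    omega
  · rw [Multiset.sum_sum]
    rw [← hm]
    refine Finset.sum_congr rfl fun i _ => ?_
    rw [Multiset.sum_replicate, smul_eq_mul, mul_comm]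
  · ext i
    rw [mults_apply]
    simp only
    rw [Multiset.count_sum']
    rw [Finset.sum_eq_single i]
    · rw [Multiset.count_replicate_self]
    · intro j _ hj
      rw [Multiset.count_replicate, if_neg]
      intro h
      exact hj (Fin.ext (by omega))
    · intro h
      exact absurd (mem_univ _) h

lemma esymmPart_eq {n N : ℕ} (hN : n ≤ N) (lam : n.Partition) :
    esymmPart (Fin N) ℚ lam = ∏ i : Fin N, esymm (Fin N) ℚ (i.val + 1) ^ mults N lam i := by
  unfold esymmPart
  rw [Finset.prod_multiset_map_count]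
  have h1 : ∏ i : Fin N, esymm (Fin N) ℚ (i.val + 1) ^ mults N lam i =
      ∏ a ∈ (univ : Finset (Fin N)).map (succEmb N), esymm (Fin N) ℚ a ^ lam.parts.count a := by
    rw [Finset.prod_map]
    rfl
  rw [h1]
  refine Finset.prod_subset ?_ ?_
  · intro a ha
    rw [Multiset.mem_toFinset] at ha
    have h2 := lam.parts_pos ha
    have h3 := le_of_mem lam ha
    rw [Finset.mem_map]
    exact ⟨⟨a - 1, by omega⟩, mem_univ _, by rw [succEmb_apply]; simp only; omega⟩
  · intro a _ ha
    rw [Multiset.mem_toFinset] at ha
    rw [Multiset.count_eq_zero.mpr ha, pow_zero]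

lemma esymm_homog (N k : ℕ) : (esymm (Fin N) ℚ k).IsHomogeneous k := by
  unfold esymm
  refine IsHomogeneous.sum _ _ _ fun s hs => ?_
  have h := IsHomogeneous.prod s (fun i => (X i : MvPolynomial (Fin N) ℚ)) (fun _ => 1)
    (fun i _ => isHomogeneous_X _ _)
  rw [mem_powersetCard] at hs
  simpa [hs.2] using h

/-- the product of the elementary symmetric functions with exponents `m` -/
noncomputable def emon {N : ℕ} (m : Fin N →₀ ℕ) : MvPolynomial (Fin N) ℚ :=
  ∏ i : Fin N, esymm (Fin N) ℚ (i.val + 1) ^ m i

lemma emon_homog {N : ℕ} (m : Fin N →₀ ℕ) :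
    (emon m).IsHomogeneous (∑ i : Fin N, (i.val + 1) * m i) := by
  unfold emon
  exact IsHomogeneous.prod _ _ _ fun i _ => (esymm_homog N (i.val + 1)).pow (m i)

lemma aeval_monomial_eq {N : ℕ} (m : Fin N →₀ ℕ) (r : ℚ) :
    aeval (fun i : Fin N => esymm (Fin N) ℚ (i.val + 1)) (monomial m r) = r • emon m := by
  rw [aeval_monomial, emon, Finsupp.prod_fintype _ _ (fun i => pow_zero _), Algebra.smul_def]

/-- existence of the expansion -/
lemma exists_expansion {n N : ℕ} (hN : n ≤ N) (F : MvPolynomial (Fin N) ℚ) (hs : F.IsSymmetric)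
    (hF : F.IsHomogeneous n) : ∃ c : n.Partition → ℚ, IsExpansion F c := by
  obtain ⟨P, hP⟩ := (esymmAlgHom_fin_bijective ℚ N).2 ⟨F, hs⟩
  have hP' : aeval (fun i : Fin N => esymm (Fin N) ℚ (i.val + 1)) P = F := by
    rw [← esymmAlgHom_apply, hP]
  refine ⟨fun lam => coeff (mults N lam) P, ?_⟩
  unfold IsExpansion
  have h1 : F = ∑ m ∈ P.support, coeff m P • emon m := by
    rw [← hP']
    conv_lhs => rw [P.as_sum]
    rw [map_sum]
    exact Finset.sum_congr rfl fun m _ => aeval_monomial_eq m _
  have h2 : F = ∑ m ∈ P.support, if ∑ i : Fin N, (i.val + 1) * m i = n then coeff m P • emon m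
      else 0 := by
    rw [← homogeneousComponent_eq_self hF]
    conv_lhs => rw [h1]
    rw [map_sum]
    refine Finset.sum_congr rfl fun m _ => ?_
    rw [map_smul]
    rw [homogeneousComponent_of_mem (emon_homog m)]
    by_cases h : ∑ i : Fin N, (i.val + 1) * m i = n
    · rw [if_pos h, if_pos h.symm]
    · rw [if_neg h, if_neg (fun h' => h h'.symm), smul_zero]
  rw [h2]
  have h3 : ∑ lam : n.Partition, coeff (mults N lam) P • esymmPart (Fin N) ℚ lam =
      ∑ m ∈ (univ : Finset n.Partition).map ⟨mults N, mults_injective hN⟩, coeff m P • emon m := by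
    rw [Finset.sum_map]
    refine Finset.sum_congr rfl fun lam _ => ?_
    rw [esymmPart_eq hN]
    rfl
  rw [h3, ← Finset.sum_filter]
  refine Finset.sum_subset ?_ ?_
  · intro m hm
    rw [mem_filter] at hm
    obtain ⟨lam, hlam⟩ := exists_partition m hm.2
    rw [Finset.mem_map]
    exact ⟨lam, mem_univ _, hlam⟩
  · intro m hm hm'
    rw [Finset.mem_map] at hm
    obtain ⟨lam, _, hlam⟩ := hm
    rw [mem_filter, not_and] at hm'
    by_cases h : m ∈ P.support
    · exfalso
      refine hm' h ?_
      rw [← hlam]
      have h4 : ∑ i : Fin N, (i.val + 1) * mults N lam i =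
          ∑ a ∈ (univ : Finset (Fin N)).map (succEmb N), lam.parts.count a * a := by
        rw [Finset.sum_map]
        exact Finset.sum_congr rfl fun i _ => mul_comm _ _
      simp only [Function.Embedding.coeFn_mk]
      rw [h4]
      have h5 : ∑ a ∈ lam.parts.toFinset, lam.parts.count a * a = n := by
        have := lam.parts_sum
        rw [Finset.sum_multiset_count] at this
        simpa using this
      refine Eq.trans ?_ h5
      symm
      refine Finset.sum_subset ?_ ?_
      · intro a ha
        rw [Multiset.mem_toFinset] at ha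
        have h2 := lam.parts_pos ha
        have h3 := le_of_mem lam ha
        rw [Finset.mem_map]
        exact ⟨⟨a - 1, by omega⟩, mem_univ _, by rw [succEmb_apply]; simp only; omega⟩
      · intro a _ ha
        rw [Multiset.mem_toFinset] at ha
        rw [Multiset.count_eq_zero.mpr ha, zero_mul]
    · rw [notMem_support_iff.mp h, zero_smul]

/-- uniqueness of the expansion -/
lemma expansion_unique {n N : ℕ} (hN : n ≤ N) (F : MvPolynomial (Fin N) ℚ) (c c' : n.Partition → ℚ)
    (hc : IsExpansion F c) (hc' : IsExpansion F c') : c = c' := by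
  unfold IsExpansion at hc hc'
  have key : ∀ d : n.Partition → ℚ, ∑ lam : n.Partition, d lam • esymmPart (Fin N) ℚ lam =
      ((esymmAlgHom (Fin N) ℚ N) (∑ lam : n.Partition, monomial (mults N lam) (d lam))).val := by
    intro d
    rw [esymmAlgHom_apply, map_sum]
    refine Finset.sum_congr rfl fun lam _ => ?_
    rw [aeval_monomial_eq, esymmPart_eq hN]
    rfl
  have h1 : (∑ lam : n.Partition, monomial (mults N lam) (c lam) : MvPolynomial (Fin N) ℚ) =
      ∑ lam : n.Partition, monomial (mults N lam) (c' lam) := by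
    refine (esymmAlgHom_fin_bijective ℚ N).1 (Subtype.ext ?_)
    rw [← key, ← key, ← hc, ← hc']
  funext lam
  have h2 := congrArg (coeff (mults N lam)) h1
  have h3 : ∀ d : n.Partition → ℚ,
      coeff (mults N lam) (∑ mu : n.Partition, monomial (mults N mu) (d mu) : MvPolynomial (Fin N) ℚ)
        = d lam := by
    intro d
    rw [coeff_sum, Finset.sum_eq_single lam]
    · rw [coeff_monomial, if_pos rfl]
    · intro mu _ hmu
      rw [coeff_monomial, if_neg fun h => hmu (mults_injective hN h)]
    · intro h
      exact absurd (mem_univ _) h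
  rwa [h3, h3] at h2

variable {V : Type*} [Fintype V] [DecidableEq V]

lemma csf_symmetric (G : SimpleGraph V) (N : ℕ) : (csf G N).IsSymmetric := by
  classical
  intro e
  unfold csf
  rw [map_sum]
  refine Fintype.sum_equiv (Equiv.piCongrRight fun _ => e) _ _ fun κ => ?_
  have h : (∀ u v, G.Adj u v → (Equiv.piCongrRight fun _ => e) κ u ≠
      (Equiv.piCongrRight fun _ => e) κ v) ↔ ∀ u v, G.Adj u v → κ u ≠ κ v := by
    simp
  by_cases hk : ∀ u v, G.Adj u v → κ u ≠ κ v
  · rw [if_pos hk, if_pos (h.mpr hk), map_prod]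
    simp
  · rw [if_neg hk, if_neg (fun h' => hk (h.mp h')), map_zero]

lemma csf_homog (G : SimpleGraph V) (N : ℕ) : (csf G N).IsHomogeneous (Fintype.card V) := by
  classical
  unfold csf
  refine IsHomogeneous.sum _ _ _ fun κ _ => ?_
  split_ifs
  · have h := IsHomogeneous.prod (univ : Finset V) (fun v => (X (κ v) : MvPolynomial (Fin N) ℚ))
      (fun _ => 1) (fun i _ => isHomogeneous_X _ _)
    simpa using h
  · exact isHomogeneous_zero _ _ _

/-- **Theorem.** If the number of variables is at least the number of vertices, the chromatic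
symmetric function has exactly one expansion in the elementary basis. -/
theorem csf_existsUnique {n : ℕ} (G : SimpleGraph (Fin n)) {N : ℕ} (hN : n ≤ N) :
    ∃! c : n.Partition → ℚ, IsExpansion (csf G N) c := by
  have hh := csf_homog G N
  rw [Fintype.card_fin] at hh
  obtain ⟨c, hc⟩ := exists_expansion hN (csf G N) (csf_symmetric G N) hh
  exact ⟨c, hc, fun c' hc' => expansion_unique hN _ _ _ hc' hc⟩

end Pool.Agent.Q134.Csf
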