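import Pool.Agent.Q134.CPDefs

/-!
# Trees along a line

A tree on `0, …, n - 1` in which the parent of `j ≥ 1` is `par j < j`. An interval `[s, t)` is
connected as soon as `s ≤ par j` for all `j` strictly between. If every list of positive integers
with sum `n` can be rearranged such that all the resulting intervals are good, the tree has a connected
partition of every type. This is checked by running through all lists without ones.
-/

set_option autoImplicit false

namespace Pool.Agent.Q134.LT

open Finset Pool.Agent.Q134.CP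

/-- consecutive blocks of sizes `l`, the first one starting at `s`, are all good for the limits `lim`:
a block starting at `s` must end at or before `lim s` -/
def Good (lim : ℕ → ℕ) : ℕ → List ℕ → Prop
  | _, [] => True
  | s, a :: l => s + a ≤ lim s ∧ Good lim (s + a) l

lemma good_append {lim : ℕ → ℕ} : ∀ (l₁ l₂ : List ℕ) (s : ℕ),
    Good lim s (l₁ ++ l₂) ↔ Good lim s l₁ ∧ Good lim (s + l₁.sum) l₂
  | [], l₂, s => by simp [Good]
  | a :: l₁, l₂, s => by
    have h := good_append (lim := lim) l₁ l₂ (s + a)
    simp only [List.cons_append, Good, h, List.sum_cons, and_assoc, add_assoc]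

/-- Try to arrange the elements of `tried.reverse ++ rest`. -/
def arr (lim : ℕ → ℕ) : ℕ → ℕ → ℕ → List ℕ → List ℕ → Bool
  | 0, _, _, _, _ => false
  | _ + 1, _, _, tried, [] => tried.isEmpty
  | f + 1, s, last, tried, x :: rest =>
    ((!(Nat.beq x last)) && Nat.ble (s + x) (lim s) &&
      arr lim f (s + x) 0 [] (tried.reverse ++ rest)) ||
    arr lim f s x (x :: tried) rest

lemma arr_sound (lim : ℕ → ℕ) : ∀ (f s last : ℕ) (tried rest : List ℕ),
    arr lim f s last tried rest = true →
    ∃ l : List ℕ, l.Perm (tried.reverse ++ rest) ∧ Good lim s l := by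
  intro f
  induction f with
  | zero => intro s last tried rest h; simp [arr] at h
  | succ f ih =>
    intro s last tried rest h
    cases rest with
    | nil =>
      simp only [arr, List.isEmpty_iff] at h
      subst h
      exact ⟨[], by simp, trivial⟩
    | cons x rest =>
      simp only [arr, Bool.or_eq_true, Bool.and_eq_true, Nat.ble_eq] at h
      rcases h with ⟨⟨_, h1⟩, h2⟩ | h
      · obtain ⟨l, hl, hg⟩ := ih _ _ _ _ h2
        refine ⟨x :: l, ?_, h1, hg⟩
        have h3 : (x :: l).Perm (x :: (tried.reverse ++ rest)) := by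
          simpa using hl.cons x
        exact h3.trans List.perm_middle.symm
      · obtain ⟨l, hl, hg⟩ := ih _ _ _ _ h
        refine ⟨l, ?_, hg⟩
        simpa using hl

/-- run through all lists with sum `rem` and entries at least `mn` (nondecreasing), on top of `acc` -/
def allOK (lim : ℕ → ℕ) (F : ℕ) : ℕ → ℕ → ℕ → List ℕ → Bool
  | 0, _, _, _ => false
  | f + 1, rem, mn, acc =>
    if Nat.beq rem 0 then arr lim F 0 0 [] acc
    else if Nat.ble mn rem then
      allOK lim F f (rem - mn) mn (mn :: acc) && allOK lim F f rem (mn + 1) acc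
    else true

theorem allOK_sound (lim : ℕ → ℕ) (F : ℕ) : ∀ (f rem mn : ℕ) (acc : List ℕ), 1 ≤ mn →
    allOK lim F f rem mn acc = true →
    ∀ l : List ℕ, l.Pairwise (· ≤ ·) → (∀ x ∈ l, mn ≤ x) → l.sum = rem →
      arr lim F 0 0 [] (l.reverse ++ acc) = true := by
  intro f
  induction f with
  | zero => intro rem mn acc _ h; simp [allOK] at h
  | succ f ih =>
    intro rem mn acc hmn h l hl hlm hls
    rw [allOK] at h
    cases l with
    | nil =>
      simp only [List.sum_nil] at hls
      subst hls
      simpa using h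
    | cons a l =>
      have ha : mn ≤ a := hlm a (by simp)
      have hs : a + l.sum = rem := by simpa using hls
      have hr : Nat.beq rem 0 = false := by
        rw [Bool.eq_false_iff]
        intro h0
        have := Nat.eq_of_beq_eq_true h0
        omega
      rw [hr] at h
      simp only [Bool.false_eq_true, if_false] at h
      have hb : Nat.ble mn rem = true := by rw [Nat.ble_eq]; omega
      rw [if_pos hb, Bool.and_eq_true] at h
      rw [List.pairwise_cons] at hl
      by_cases he : a = mn
      · subst he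
        have := ih (rem - a) a (a :: acc) hmn h.1 l hl.2 (fun x hx => hl.1 x hx) (by omega)
        simpa using this
      · have hlt : mn + 1 ≤ a := by omega
        exact ih rem (mn + 1) acc (by omega) h.2 (a :: l) (List.pairwise_cons.mpr hl)
          (by
            intro x hx
            rcases List.mem_cons.mp hx with rfl | hx
            · exact hlt
            · exact hlt.trans (hl.1 x hx)) hls

/-- some rearrangement is good -/
def OK (lim : ℕ → ℕ) (L : List ℕ) : Prop := ∃ l : List ℕ, l.Perm L ∧ Good lim 0 l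

lemma OK.perm {lim : ℕ → ℕ} {L L' : List ℕ} (h : L.Perm L') : OK lim L → OK lim L' :=
  fun ⟨l, h1, h2⟩ => ⟨l, h1.trans h, h2⟩

/-- lists without ones -/
lemma ok_two (lim : ℕ → ℕ) (F f n : ℕ) (hc : allOK lim F f n 2 [] = true) (L : List ℕ)
    (h : ∀ x ∈ L, 2 ≤ x) (hsum : L.sum = n) : OK lim L := by
  have hp : (L.mergeSort (· ≤ ·)).Perm L := List.mergeSort_perm _ _
  have h1 := allOK_sound lim F f n 2 [] (by norm_num) hc (L.mergeSort (· ≤ ·))
    (by
      have := List.pairwise_mergeSort (le := fun a b : ℕ => decide (a ≤ b))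
        (by intro a b c; simp; omega) (by intro a b; simp; omega) L
      simpa using this)
    (fun x hx => h x (hp.mem_iff.mp hx)) (by rw [hp.sum_eq, hsum])
  obtain ⟨l, hl, hg⟩ := arr_sound _ _ _ _ _ _ h1
  refine ⟨l, ?_, hg⟩
  have h2 : l.Perm ((L.mergeSort (· ≤ ·)).reverse) := by simpa using hl
  exact h2.trans ((List.reverse_perm _).trans hp)

/-- a block of size `a + 1` can be cut into blocks of sizes `a` and `1` -/
lemma good_cut {lim : ℕ → ℕ} (hlim : ∀ s, s + 1 ≤ lim s) {l₁ l₂ : List ℕ} {a : ℕ}
    (h : Good lim 0 (l₁ ++ (a + 1) :: l₂)) : Good lim 0 (l₁ ++ a :: 1 :: l₂) := by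
  rw [good_append] at h ⊢
  refine ⟨h.1, ?_⟩
  have h2 := h.2
  simp only [Good] at h2 ⊢
  refine ⟨by omega, hlim _, ?_⟩
  have : 0 + l₁.sum + (a + 1) = 0 + l₁.sum + a + 1 := by ring
  rw [← this]; exact h2.2

lemma ok_cut {lim : ℕ → ℕ} (hlim : ∀ s, s + 1 ≤ lim s) {L : List ℕ} {a : ℕ}
    (h : OK lim ((a + 1) :: L)) : OK lim (a :: 1 :: L) := by
  obtain ⟨l, h1, h2⟩ := h
  have hmem : a + 1 ∈ l := h1.mem_iff.mpr (by simp)
  obtain ⟨l₁, l₂, rfl⟩ := List.mem_iff_append.mp hmem
  refine ⟨l₁ ++ a :: 1 :: l₂, ?_, good_cut hlim h2⟩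
  have h3 : ((a + 1) :: (l₁ ++ l₂)).Perm ((a + 1) :: L) := List.perm_middle.symm.trans h1
  have h4 : (l₁ ++ l₂).Perm L := (List.perm_cons _).mp h3
  have h5 : (l₁ ++ a :: 1 :: l₂).Perm (a :: (l₁ ++ 1 :: l₂)) := List.perm_middle
  have h6 : (l₁ ++ 1 :: l₂).Perm (1 :: (l₁ ++ l₂)) := List.perm_middle
  exact h5.trans ((h6.trans (h4.cons 1)).cons a)

lemma ok_all {lim : ℕ → ℕ} {F f n : ℕ} (hn : 2 ≤ n) (hlim : ∀ s, s + 1 ≤ lim s)
    (hc : allOK lim F f n 2 [] = true) : ∀ (k : ℕ) (L : List ℕ), L.length = k →
    (∀ x ∈ L, 1 ≤ x) → L.sum = n → OK lim L := by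
  intro k
  induction k using Nat.strong_induction_on with
  | _ k ih =>
  intro L hk hpos hsum
  by_cases h1 : 1 ∈ L
  · have hperm : L.Perm (1 :: L.erase 1) := List.perm_cons_erase h1
    have hs := hperm.sum_eq
    have hl := hperm.length_eq
    rw [List.sum_cons] at hs
    rw [List.length_cons] at hl
    cases he : L.erase 1 with
    | nil => rw [he] at hs; simp at hs; omega
    | cons a l =>
      rw [he] at hs hl hperm
      rw [List.sum_cons] at hs
      rw [List.length_cons] at hl
      have h2 : ∀ x ∈ a :: l, 1 ≤ x := by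
        intro x hx; rw [← he] at hx; exact hpos x (List.mem_of_mem_erase hx)
      have h3 : OK lim ((a + 1) :: l) := by
        refine ih (l.length + 1) (by omega) _ rfl ?_ ?_
        · intro x hx
          rw [List.mem_cons] at hx
          rcases hx with rfl | hx
          · omega
          · exact h2 x (List.mem_cons_of_mem _ hx)
        · rw [List.sum_cons]; omega
      exact OK.perm ((List.Perm.swap _ _ _).trans hperm.symm) (ok_cut hlim h3)
  · refine ok_two lim F f n hc L (fun x hx => ?_) hsum
    have h2 := hpos x hx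
    have h3 : x ≠ 1 := fun h => h1 (h ▸ hx)
    omega

/-! ### the tree -/

/-- The graph on `Fin n` in which `j ≥ 1` is joined to `par j`. -/
def tree (n : ℕ) (par : ℕ → ℕ) : SimpleGraph (Fin n) where
  Adj i j := i ≠ j ∧ ((i.val ≠ 0 ∧ par i.val = j.val) ∨ (j.val ≠ 0 ∧ par j.val = i.val))
  symm := ⟨fun _ _ h => ⟨h.1.symm, h.2.symm⟩⟩
  loopless := ⟨fun _ h => h.1 rfl⟩

instance (n : ℕ) (par : ℕ → ℕ) : DecidableRel (tree n par).Adj := fun i j =>
  inferInstanceAs (Decidable (i ≠ j ∧ ((i.val ≠ 0 ∧ par i.val = j.val) ∨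
    (j.val ≠ 0 ∧ par j.val = i.val))))

/-- positions from `s` to `t - 1` -/
def region (n s t : ℕ) : Finset (Fin n) := univ.filter fun v => s ≤ v.val ∧ v.val < t

lemma mem_region {n s t : ℕ} {v : Fin n} : v ∈ region n s t ↔ s ≤ v.val ∧ v.val < t := by
  unfold region; simp

lemma card_region (n s t : ℕ) (h : s ≤ t) (ht : t ≤ n) : (region n s t).card = t - s := by
  rw [← Nat.card_Ico]
  refine card_bij (fun v _ => v.val) ?_ ?_ ?_
  · intro v hv; rw [mem_region] at hv; rw [Finset.mem_Ico]; exact hv
  · intro v _ w _ hvw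
    exact Fin.ext hvw
  · intro j hj
    rw [Finset.mem_Ico] at hj
    refine ⟨⟨j, by omega⟩, ?_, by simp⟩
    rw [mem_region]; simpa using hj

lemma region_connected {n : ℕ} {par : ℕ → ℕ} (hlt : ∀ j, 1 ≤ j → par j < j) (s t : ℕ)
    (hst : s < t) (ht : t ≤ n) (hpar : ∀ j, s < j → j < t → s ≤ par j) :
    ((tree n par).induce (region n s t : Set (Fin n))).Connected := by
  have hsn : s < n := by omega
  have hs : (⟨s, hsn⟩ : Fin n) ∈ region n s t := by rw [mem_region]; simpa using hst
  have key : ∀ (m : ℕ) (v : Fin n) (hv : v ∈ region n s t), v.val = m →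
      ((tree n par).induce (region n s t : Set (Fin n))).Reachable ⟨v, hv⟩ ⟨⟨s, hsn⟩, hs⟩ := by
    intro m
    induction m using Nat.strong_induction_on with
    | _ m ih =>
    intro v hv hm
    have hv' := mem_region.mp hv
    by_cases hms : m = s
    · have h0 : v = ⟨s, hsn⟩ := Fin.ext (hm.trans hms)
      subst h0
      exact SimpleGraph.Reachable.refl _
    · have h1 : par m < m := hlt m (by omega)
      have h2 : s ≤ par m := hpar m (by omega) (by omega)
      have hpn : par m < n := by omega
      have hwr : (⟨par m, hpn⟩ : Fin n) ∈ region n s t := by rw [mem_region]; simp; omega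
      have h4 := ih (par m) h1 ⟨par m, hpn⟩ hwr rfl
      refine SimpleGraph.Reachable.trans (SimpleGraph.Adj.reachable ?_) h4
      show (tree n par).Adj v ⟨par m, hpn⟩
      refine ⟨fun h => ?_, Or.inl ⟨by omega, by rw [hm]⟩⟩
      have h5 := congrArg Fin.val h
      simp only at h5
      omega
  rw [SimpleGraph.connected_iff]
  refine ⟨?_, ⟨⟨_, hs⟩⟩⟩
  rintro ⟨v, hv⟩ ⟨w, hw⟩
  exact (key _ v hv rfl).trans (key _ w hw rfl).symm

lemma exists_part {n : ℕ} {par lim : ℕ → ℕ} (hlt : ∀ j, 1 ≤ j → par j < j)
    (hpl : ∀ s j, s < j → j < lim s → s ≤ par j) :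
    ∀ (l : List ℕ) (s : ℕ), (∀ x ∈ l, 1 ≤ x) → Good lim s l → s + l.sum ≤ n →
    ∃ P : Finpartition (region n s (s + l.sum)),
      (∀ B ∈ P.parts, ((tree n par).induce (B : Set (Fin n))).Connected) ∧
      P.parts.val.map Finset.card = (l : Multiset ℕ)
  | [], s, _, _, _ => by
    have h0 : region n s (s + ([] : List ℕ).sum) = ∅ := by
      ext v; rw [mem_region]; simp
    rw [h0]
    refine ⟨Finpartition.empty _, ?_, ?_⟩
    · intro B hB; exact absurd hB (by simp)
    · simp
  | a :: l, s, hpos, hgood, hle => by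
    rw [List.sum_cons] at hle
    have ha : 1 ≤ a := hpos a (by simp)
    obtain ⟨P, h1, h2⟩ := exists_part (n := n) hlt hpl l (s + a)
      (fun x hx => hpos x (List.mem_cons_of_mem _ hx)) hgood.2 (by omega)
    have hcard : (region n s (s + a)).card = a := by
      rw [card_region n s (s + a) (by omega) (by omega)]; omega
    have hne : region n s (s + a) ≠ ⊥ := by
      intro h
      rw [h] at hcard
      simp at hcard
      omega
    have hdis : Disjoint (region n (s + a) (s + a + l.sum)) (region n s (s + a)) := by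
      rw [Finset.disjoint_left]
      intro v h3 h4
      rw [mem_region] at h3 h4
      omega
    have hun : region n (s + a) (s + a + l.sum) ⊔ region n s (s + a) =
        region n s (s + (a :: l).sum) := by
      ext v
      rw [Finset.sup_eq_union, Finset.mem_union, mem_region, mem_region, mem_region, List.sum_cons]
      omega
    refine ⟨P.extend hne hdis hun, ?_, ?_⟩
    · intro B hB
      rw [Finpartition.extend_parts, Finset.mem_insert] at hB
      rcases hB with rfl | hB
      · exact region_connected hlt s (s + a) (by omega) (by omega)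
          (fun j hj hj' => hpl s j hj (lt_of_lt_of_le hj' hgood.1))
      · exact h1 B hB
    · have hnot : region n s (s + a) ∉ P.parts := by
        intro h
        have h3 := P.le h
        have h4 : region n s (s + a) ≤ ⊥ := hdis h3 le_rfl
        exact hne (le_bot_iff.mp h4)
      rw [Finpartition.extend_parts, Finset.insert_val_of_notMem hnot, Multiset.map_cons, h2, hcard]
      rfl

lemma region_univ (n : ℕ) : region n 0 n = univ := by
  ext v; rw [mem_region]; simp

/-- **Criterion.** -/
theorem cpet {n : ℕ} {par lim : ℕ → ℕ} {F f : ℕ} (hn : 2 ≤ n) (hlt : ∀ j, 1 ≤ j → par j < j)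
    (hpl : ∀ s j, s < j → j < lim s → s ≤ par j) (hlim : ∀ s, s + 1 ≤ lim s)
    (hc : allOK lim F f n 2 [] = true) : IsCPET (tree n par) := by
  intro lam
  obtain ⟨L, hL⟩ := Quot.exists_rep lam.parts
  have hL' : lam.parts = (L : Multiset ℕ) := hL.symm
  have hpos : ∀ x ∈ L, 1 ≤ x := by
    intro x hx
    exact lam.parts_pos (by rw [hL']; exact Multiset.mem_coe.mpr hx)
  have hsum : L.sum = n := by
    have h1 := lam.parts_sum
    rw [hL', Multiset.sum_coe] at h1
    simpa using h1
  obtain ⟨l, hl, hg⟩ := ok_all hn hlim hc _ L rfl hpos hsum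
  have hs : l.sum = n := by rw [hl.sum_eq, hsum]
  obtain ⟨P, h1, h2⟩ := exists_part (n := n) hlt hpl l 0 (fun x hx => hpos x (hl.mem_iff.mp hx)) hg
    (by omega)
  have hreg : region n 0 (0 + l.sum) = univ := by rw [hs, zero_add, region_univ]
  refine ⟨P.copy hreg, ?_, ?_⟩
  · intro B hB
    exact h1 B (by simpa using hB)
  · rw [hL', ← Multiset.coe_eq_coe.mpr hl]
    simpa using h2

theorem isTree {n : ℕ} {par : ℕ → ℕ} (hn : 1 ≤ n) (hlt : ∀ j, 1 ≤ j → par j < j)
    (hdeg : ∑ v, (tree n par).degree v = 2 * (n - 1)) : (tree n par).IsTree := by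
  rw [SimpleGraph.isTree_iff_connected_and_card]
  constructor
  · have h1 := region_connected (n := n) hlt 0 n (by omega) le_rfl (fun j _ _ => Nat.zero_le _)
    rw [region_univ, Finset.coe_univ] at h1
    exact (SimpleGraph.induceUnivIso (tree n par)).connected_iff.mp h1
  · have h1 : ∑ v, (tree n par).degree v = 2 * (tree n par).edgeFinset.card :=
      (tree n par).sum_degrees_eq_twice_card_edges
    have h3 : Nat.card (tree n par).edgeSet = (tree n par).edgeFinset.card := by
      rw [Nat.card_eq_fintype_card, SimpleGraph.edgeFinset_card]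
    rw [h3, Nat.card_eq_fintype_card, Fintype.card_fin]
    omega

end Pool.Agent.Q134.LT
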