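import Pool.Agent.Q134.CsfBasis
import Pool.Agent.Q134.LTree

/-!
# A specialisation of symmetric functions

Put `x = (1, ε, -1 - ε, 0, 0, …)` with `ε² = 0`. Then `e₁ = 0`, `e₂ = -1 - ε`, `e₃ = -ε` and `e_k = 0`
for `k ≥ 4`; hence for odd `n ≥ 3` the only `e_λ` with `|λ| = n` that does not vanish is
`e_(3, 2, …, 2)`.
-/

set_option autoImplicit false

namespace Pool.Agent.Q134.Csf

open Finset MvPolynomial DualNumber

/-- the point -/
noncomputable def pt (N : ℕ) (i : Fin N) : DualNumber ℚ :=
  if i.val = 0 then 1 else if i.val = 1 then ε else if i.val = 2 then -1 - ε else 0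

lemma esymm_zero_cons {R : Type*} [CommRing R] (s : Multiset R) (k : ℕ) :
    (0 ::ₘ s).esymm k = s.esymm k := by
  unfold Multiset.esymm
  cases k with
  | zero => simp
  | succ k =>
    rw [Multiset.powersetCard_cons, Multiset.map_add, Multiset.sum_add]
    simp

lemma esymm_replicate {R : Type*} [CommRing R] (s : Multiset R) (M k : ℕ) :
    (s + Multiset.replicate M 0).esymm k = s.esymm k := by
  induction M with
  | zero => simp
  | succ M ih =>
    rw [Multiset.replicate_succ, Multiset.add_cons, esymm_zero_cons, ih]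

lemma univ_map_pt (M : ℕ) : (univ : Finset (Fin (M + 3))).val.map (pt (M + 3)) =
    (1 ::ₘ ε ::ₘ {-1 - ε}) + Multiset.replicate M 0 := by
  have h : ∀ (K : ℕ) (f : Fin (K + 1) → DualNumber ℚ), (univ : Finset (Fin (K + 1))).val.map f =
      f 0 ::ₘ (univ : Finset (Fin K)).val.map (fun i => f i.succ) := by
    intro K f
    rw [Fin.univ_succ]
    simp [Function.comp_def]
  rw [h, h, h]
  have h0 : (univ : Finset (Fin M)).val.map (fun i => pt (M + 3) i.succ.succ.succ) =
      Multiset.replicate M 0 := by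
    have h1 : (fun i : Fin M => pt (M + 3) i.succ.succ.succ) = fun _ => 0 := by
      funext i
      unfold pt
      simp only [Fin.val_succ]
      rw [if_neg (by omega), if_neg (by omega), if_neg (by omega)]
    rw [h1, Multiset.map_const']
    simp
  rw [h0]
  have e0 : pt (M + 3) 0 = 1 := by unfold pt; simp
  have e1 : pt (M + 3) (Fin.succ 0) = ε := by unfold pt; simp
  have e2 : pt (M + 3) (Fin.succ (Fin.succ 0)) = -1 - ε := by
    have h2 : ((Fin.succ (Fin.succ 0) : Fin (M + 3))).val = 2 := rfl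
    unfold pt
    rw [h2]
    norm_num
  rw [e0, e1, e2]
  rw [Multiset.cons_add, Multiset.cons_add, Multiset.singleton_add]

lemma aeval_esymm {N : ℕ} (hN : 3 ≤ N) (k : ℕ) :
    aeval (pt N) (esymm (Fin N) ℚ k) = (1 ::ₘ ε ::ₘ {-1 - ε} : Multiset (DualNumber ℚ)).esymm k := by
  obtain ⟨M, rfl⟩ : ∃ M, N = M + 3 := ⟨N - 3, by omega⟩
  rw [aeval_esymm_eq_multiset_esymm, univ_map_pt, esymm_replicate]

lemma es1 : (1 ::ₘ ε ::ₘ {-1 - ε} : Multiset (DualNumber ℚ)).esymm 1 = 0 := by
  simp [Multiset.esymm, Multiset.powersetCard_one]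
  ring

lemma es2 : (1 ::ₘ ε ::ₘ {-1 - ε} : Multiset (DualNumber ℚ)).esymm 2 = -1 - ε := by
  have h1 : Multiset.powersetCard 2 ({-1 - ε} : Multiset (DualNumber ℚ)) = 0 :=
    Multiset.powersetCard_eq_empty 2 (by simp)
  have h2 : Multiset.powersetCard 1 ({-1 - ε} : Multiset (DualNumber ℚ)) = {{-1 - ε}} := by
    rw [Multiset.powersetCard_one]; simp
  rw [Multiset.esymm, show (2 : ℕ) = 1 + 1 from rfl, Multiset.powersetCard_cons,
    Multiset.powersetCard_cons, show (1 : ℕ) + 1 = 2 from rfl, h1, h2, Multiset.powersetCard_one]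
  simp [mul_sub]

lemma es3 : (1 ::ₘ ε ::ₘ {-1 - ε} : Multiset (DualNumber ℚ)).esymm 3 = -ε := by
  have h : (1 ::ₘ ε ::ₘ {-1 - ε} : Multiset (DualNumber ℚ)).card = 3 := by simp
  rw [← h, Multiset.esymm, Multiset.powersetCard_self]
  simp [mul_sub]

lemma es4 (k : ℕ) (hk : 4 ≤ k) :
    (1 ::ₘ ε ::ₘ {-1 - ε} : Multiset (DualNumber ℚ)).esymm k = 0 := by
  have h : (1 ::ₘ ε ::ₘ {-1 - ε} : Multiset (DualNumber ℚ)).card = 3 := by simp
  rw [Multiset.esymm, Multiset.powersetCard_eq_empty k (by omega)]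
  simp

/-- The partition `(3, 2, …, 2)` of `2 k + 3`. -/
def lam32 (k : ℕ) : (2 * k + 3).Partition where
  parts := 3 ::ₘ Multiset.replicate k 2
  parts_pos := by
    intro i hi
    rw [Multiset.mem_cons] at hi
    rcases hi with rfl | hi
    · norm_num
    · rw [Multiset.eq_of_mem_replicate hi]; norm_num
  parts_sum := by
    rw [Multiset.sum_cons, Multiset.sum_replicate, smul_eq_mul]
    ring

lemma sq_zero : (-ε : DualNumber ℚ) * -ε = 0 := by
  rw [neg_mul_neg, eps_mul_eps]

lemma aeval_esymmPart {N k : ℕ} (hN : 3 ≤ N) (lam : (2 * k + 3).Partition) (h : lam ≠ lam32 k) :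
    aeval (pt N) (esymmPart (Fin N) ℚ lam) = 0 := by
  unfold esymmPart
  rw [map_multiset_prod, Multiset.map_map]
  by_cases h1 : ∃ a ∈ lam.parts, a = 1 ∨ 4 ≤ a
  · obtain ⟨a, ha, h2⟩ := h1
    refine Multiset.prod_eq_zero ?_
    rw [Multiset.mem_map]
    refine ⟨a, ha, ?_⟩
    simp only [Function.comp_apply]
    rw [aeval_esymm hN]
    rcases h2 with rfl | h2
    · exact es1
    · exact es4 a h2
  · push Not at h1
    have h2 : ∀ a ∈ lam.parts, a = 3 ∨ a = 2 := by
      intro a ha
      have h3 := lam.parts_pos ha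
      have h4 := h1 a ha
      omega
    have h3 : lam.parts = Multiset.replicate (lam.parts.count 3) 3 +
        Multiset.replicate (lam.parts.count 2) 2 := by
      ext a
      rw [Multiset.count_add, Multiset.count_replicate, Multiset.count_replicate]
      by_cases ha3 : 3 = a
      · subst ha3; simp
      · by_cases ha2 : 2 = a
        · subst ha2; simp
        · rw [if_neg ha3, if_neg ha2, Multiset.count_eq_zero]
          intro hmem
          rcases h2 a hmem with h | h
          · exact ha3 h.symm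
          · exact ha2 h.symm
    have h4 := lam.parts_sum
    rw [h3, Multiset.sum_add, Multiset.sum_replicate, Multiset.sum_replicate, smul_eq_mul,
      smul_eq_mul] at h4
    rcases Nat.lt_or_ge (lam.parts.count 3) 2 with h5 | h5
    · exfalso
      have h6 : lam.parts.count 3 = 1 := by omega
      have h7 : lam.parts.count 2 = k := by omega
      apply h
      rw [Nat.Partition.ext_iff, h3, h6, h7]
      rfl
    · obtain ⟨m, hm⟩ : ∃ m, lam.parts.count 3 = m + 2 := ⟨_, (Nat.sub_add_cancel h5).symm⟩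
      rw [h3, hm, Multiset.replicate_add, show Multiset.replicate 2 3 = 3 ::ₘ 3 ::ₘ 0 from rfl,
        Multiset.map_add, Multiset.map_add, Multiset.prod_add, Multiset.prod_add]
      have h6 : (Multiset.map ((fun a => aeval (pt N) a) ∘ esymm (Fin N) ℚ)
          (3 ::ₘ 3 ::ₘ 0)).prod = 0 := by
        rw [Multiset.map_cons, Multiset.map_cons, Multiset.map_zero, Multiset.prod_cons,
          Multiset.prod_cons, Multiset.prod_zero, mul_one]
        simp only [Function.comp_apply]
        rw [aeval_esymm hN, es3, sq_zero]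
      have h7 := h6
      simp only [Function.comp_def] at h7 ⊢
      rw [h7, mul_zero, zero_mul]

lemma pow_eps (k : ℕ) : (-ε : DualNumber ℚ) * (-1 - ε) ^ k = (-1) ^ (k + 1) * ε := by
  induction k with
  | zero => simp
  | succ k ih =>
    rw [pow_succ, ← mul_assoc, ih]
    have h : (ε : DualNumber ℚ) * ε = 0 := eps_mul_eps
    linear_combination (-(-1) ^ (k + 1)) * h

lemma aeval_lam32 {N k : ℕ} (hN : 3 ≤ N) :
    aeval (pt N) (esymmPart (Fin N) ℚ (lam32 k)) = (-1) ^ (k + 1) * ε := by
  unfold esymmPart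
  rw [map_multiset_prod, Multiset.map_map]
  show (Multiset.map _ (3 ::ₘ Multiset.replicate k 2)).prod = _
  rw [Multiset.map_cons, Multiset.prod_cons, Multiset.map_replicate, Multiset.prod_replicate]
  simp only [Function.comp_apply]
  rw [aeval_esymm hN, aeval_esymm hN, es3, es2, pow_eps]

/-- the specialisation reads off the coefficient of `e_(3, 2, …, 2)` -/
theorem aeval_expansion {N k : ℕ} (hN : 3 ≤ N) (F : MvPolynomial (Fin N) ℚ)
    (c : (2 * k + 3).Partition → ℚ) (hc : IsExpansion F c) :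
    aeval (pt N) F = c (lam32 k) • ((-1) ^ (k + 1) * ε) := by
  unfold IsExpansion at hc
  rw [hc, map_sum, Finset.sum_eq_single (lam32 k)]
  · rw [map_smul, aeval_lam32 hN]
  · intro lam _ h
    rw [map_smul, aeval_esymmPart hN lam h, smul_zero]
  · intro h
    exact absurd (mem_univ _) h

end Pool.Agent.Q134.Csf
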