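import Pool.Agent.Q134.CsfEval

/-!
# The specialisation of the chromatic symmetric function of a tree

The sum over the proper colourings is computed by removing the last vertex again and again.
-/

set_option autoImplicit false

namespace Pool.Agent.Q134.Csf

open Finset MvPolynomial DualNumber

section sums

variable {R C : Type*} [CommRing R] [Fintype C] [DecidableEq C]

/-- proper colourings -/
def Pr (par : ℕ → ℕ) (n : ℕ) (κ : Fin n → C) : Prop :=
  ∀ i j : Fin n, j.val ≠ 0 → par j.val = i.val → κ j ≠ κ i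

open Classical in
/-- the sum over the proper colourings -/
noncomputable def Z (par : ℕ → ℕ) (n : ℕ) (W : ℕ → C → R) : R :=
  ∑ κ : Fin n → C, if Pr par n κ then ∏ v, W v.val (κ v) else 0

lemma pr_snoc {par : ℕ → ℕ} {n : ℕ} (hn : 1 ≤ n) (hlt : ∀ j, 1 ≤ j → par j < j) (κ : Fin n → C)
    (d : C) : Pr par (n + 1) (Fin.snoc κ d : Fin (n + 1) → C) ↔
      Pr par n κ ∧ d ≠ κ ⟨par n, hlt n hn⟩ := by
  constructor
  · intro h
    constructor
    · intro i j hj hij
      have := h i.castSucc j.castSucc (by simpa using hj) (by simpa using hij)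
      simpa using this
    · have := h (⟨par n, hlt n hn⟩ : Fin n).castSucc (Fin.last n) (by simp; omega) (by simp)
      rw [Fin.snoc_castSucc (α := fun _ => C), Fin.snoc_last (α := fun _ => C)] at this
      exact this
  · rintro ⟨h1, h2⟩ i j hj hij
    induction j using Fin.lastCases with
    | last =>
      simp only [Fin.val_last] at hij
      have hi : i = (⟨par n, hlt n hn⟩ : Fin n).castSucc := Fin.ext (by simp [hij])
      rw [hi, Fin.snoc_castSucc (α := fun _ => C), Fin.snoc_last (α := fun _ => C)]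
      exact h2
    | cast j =>
      simp only [Fin.val_castSucc] at hj hij
      have hi : i.val < n := by
        have := hlt j.val (by omega)
        have := j.2
        omega
      have hi' : i = (⟨i.val, hi⟩ : Fin n).castSucc := Fin.ext rfl
      rw [hi', Fin.snoc_castSucc (α := fun _ => C), Fin.snoc_castSucc (α := fun _ => C)]
      exact h1 ⟨i.val, hi⟩ j hj hij

lemma Z_succ {par : ℕ → ℕ} {n : ℕ} (hn : 1 ≤ n) (hlt : ∀ j, 1 ≤ j → par j < j) (W : ℕ → C → R) :
    Z par (n + 1) W = Z par n (fun v c => if v = par n then W v c * (∑ d, W n d - W n c)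
      else W v c) := by
  classical
  unfold Z
  rw [← (Fin.snocEquiv (fun _ => C)).sum_comp, Fintype.sum_prod_type, Finset.sum_comm]
  refine Finset.sum_congr rfl fun κ _ => ?_
  have hsn : ∀ d : C, (Fin.snocEquiv (fun _ => C)) (d, κ) = (Fin.snoc κ d : Fin (n + 1) → C) :=
    fun _ => rfl
  simp only [hsn]
  by_cases hκ : Pr par n κ
  · rw [if_pos hκ]
    have h1 : ∀ d : C, (if Pr par (n + 1) (Fin.snoc κ d : Fin (n + 1) → C) then
        ∏ v : Fin (n + 1), W v.val ((Fin.snoc κ d : Fin (n + 1) → C) v) else 0) =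
        (∏ v : Fin n, W v.val (κ v)) * (if d = κ ⟨par n, hlt n hn⟩ then 0 else W n d) := by
      intro d
      rw [Fin.prod_univ_castSucc]
      simp only [Fin.snoc_castSucc, Fin.snoc_last, Fin.val_castSucc, Fin.val_last]
      by_cases hd : d = κ ⟨par n, hlt n hn⟩
      · rw [if_pos hd, if_neg (fun h => ((pr_snoc hn hlt κ d).mp h).2 hd), mul_zero]
      · rw [if_neg hd, if_pos ((pr_snoc hn hlt κ d).mpr ⟨hκ, hd⟩)]
    rw [Finset.sum_congr rfl (fun d _ => h1 d), ← Finset.mul_sum]
    have h2 : ∑ d : C, (if d = κ ⟨par n, hlt n hn⟩ then 0 else W n d) =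
        ∑ d, W n d - W n (κ ⟨par n, hlt n hn⟩) := by
      rw [eq_sub_iff_add_eq]
      have h3 : W n (κ ⟨par n, hlt n hn⟩) =
          ∑ d : C, if d = κ ⟨par n, hlt n hn⟩ then W n d else 0 := by
        rw [Finset.sum_ite_eq' univ (κ ⟨par n, hlt n hn⟩) (fun d => W n d), if_pos (mem_univ _)]
      rw [h3, ← Finset.sum_add_distrib]
      refine Finset.sum_congr rfl fun d _ => ?_
      split_ifs <;> simp
    rw [h2]
    have h4 : ∏ v : Fin n, (if v.val = par n then W v.val (κ v) * (∑ d, W n d - W n (κ v))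
        else W v.val (κ v)) = ∏ v : Fin n, (W v.val (κ v) *
          (if v = ⟨par n, hlt n hn⟩ then (∑ d, W n d - W n (κ v)) else 1)) := by
      refine Finset.prod_congr rfl fun v _ => ?_
      by_cases hv : v = ⟨par n, hlt n hn⟩
      · rw [if_pos hv, if_pos (congrArg Fin.val hv)]
      · rw [if_neg hv, if_neg (fun h => hv (Fin.ext h)), mul_one]
    rw [h4, Finset.prod_mul_distrib]
    congr 1
    rw [Finset.prod_ite_eq' univ (⟨par n, hlt n hn⟩ : Fin n) (fun v => ∑ d, W n d - W n (κ v)),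
      if_pos (mem_univ _)]
  · rw [if_neg hκ]
    refine Finset.sum_eq_zero fun d _ => ?_
    rw [if_neg (fun h => hκ ((pr_snoc hn hlt κ d).mp h).1)]

omit [DecidableEq C] in
lemma Z_one (par : ℕ → ℕ) (W : ℕ → C → R) :
    Z par 1 W = ∑ d, W 0 d := by
  classical
  unfold Z
  have h : ∀ κ : Fin 1 → C, Pr par 1 κ := by
    intro κ i j hj
    have := j.2
    omega
  simp only [h, if_true]
  rw [← (Equiv.funUnique (Fin 1) C).symm.sum_comp]
  simp

end sums

/-- triples of integral dual numbers -/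
abbrev Tri := (ℤ × ℤ) × (ℤ × ℤ) × (ℤ × ℤ)

/-- addition -/
def addD (a b : ℤ × ℤ) : ℤ × ℤ := (a.1 + b.1, a.2 + b.2)
/-- multiplication -/
def mulD (a b : ℤ × ℤ) : ℤ × ℤ := (a.1 * b.1, a.1 * b.2 + a.2 * b.1)

/-- the dual number -/
noncomputable def toR (a : ℤ × ℤ) : DualNumber ℚ := (a.1 : DualNumber ℚ) + (a.2 : DualNumber ℚ) * ε

lemma toR_add (a b : ℤ × ℤ) : toR (addD a b) = toR a + toR b := by
  unfold toR addD
  push_cast
  ring

lemma toR_mul (a b : ℤ × ℤ) : toR (mulD a b) = toR a * toR b := by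
  unfold toR mulD
  push_cast
  have h : (ε : DualNumber ℚ) * ε = 0 := eps_mul_eps
  linear_combination (-(a.2 : DualNumber ℚ) * b.2) * h

/-- the weights given by a triple -/
noncomputable def tri (N : ℕ) (t : Tri) (c : Fin N) : DualNumber ℚ :=
  if c.val = 0 then toR t.1 else if c.val = 1 then toR t.2.1 else if c.val = 2 then toR t.2.2 else 0

lemma sum_tri {N : ℕ} (hN : 3 ≤ N) (t : Tri) :
    ∑ c, tri N t c = toR t.1 + toR t.2.1 + toR t.2.2 := by
  obtain ⟨M, rfl⟩ : ∃ M, N = M + 3 := ⟨N - 3, by omega⟩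
  rw [Fin.sum_univ_succ, Fin.sum_univ_succ, Fin.sum_univ_succ]
  have h0 : ∑ i : Fin M, tri (M + 3) t i.succ.succ.succ = 0 := by
    refine Finset.sum_eq_zero fun i _ => ?_
    unfold tri
    simp only [Fin.val_succ]
    rw [if_neg (by omega), if_neg (by omega), if_neg (by omega)]
  have e0 : tri (M + 3) t 0 = toR t.1 := by unfold tri; simp
  have e1 : tri (M + 3) t (Fin.succ 0) = toR t.2.1 := by unfold tri; simp
  have e2 : tri (M + 3) t (Fin.succ (Fin.succ 0)) = toR t.2.2 := by
    have h2 : ((Fin.succ (Fin.succ 0) : Fin (M + 3))).val = 2 := rfl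
    unfold tri
    rw [h2]
    norm_num
  rw [h0, e0, e1, e2]
  ring

/-- one step on triples -/
def stepT (t u : Tri) : Tri :=
  (mulD t.1 (addD u.2.1 u.2.2), mulD t.2.1 (addD u.1 u.2.2), mulD t.2.2 (addD u.1 u.2.1))

lemma tri_step {N : ℕ} (hN : 3 ≤ N) (t u : Tri) (c : Fin N) :
    tri N t c * (∑ d, tri N u d - tri N u c) = tri N (stepT t u) c := by
  rw [sum_tri hN]
  unfold tri stepT
  split_ifs
  · rw [toR_mul, toR_add]; ring
  · rw [toR_mul, toR_add]; ring
  · rw [toR_mul, toR_add]; ring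
  · simp

/-- remove the vertices `n, …, 1` -/
def run (par : ℕ → ℕ) : ℕ → List Tri → Tri
  | 0, l => l.getD 0 0
  | n + 1, l => run par n (l.set (par (n + 1)) (stepT (l.getD (par (n + 1)) 0) (l.getD (n + 1) 0)))

lemma getD_set_self (l : List Tri) (p : ℕ) (x : Tri) (h : p < l.length) :
    (l.set p x).getD p 0 = x := by
  rw [List.getD_eq_getElem _ _ (by rw [List.length_set]; exact h), List.getElem_set_self]

lemma Z_run {par : ℕ → ℕ} (hlt : ∀ j, 1 ≤ j → par j < j) {N : ℕ} (hN : 3 ≤ N) :
    ∀ (n : ℕ) (l : List Tri), n < l.length →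
    Z par (n + 1) (fun v => tri N (l.getD v 0)) =
      toR (run par n l).1 + toR (run par n l).2.1 + toR (run par n l).2.2 := by
  intro n
  induction n with
  | zero =>
    intro l _
    rw [zero_add, Z_one par, sum_tri hN]
    rfl
  | succ n ih =>
    intro l hl
    rw [Z_succ (by omega) hlt, run, ← ih _ (by rw [List.length_set]; omega)]
    have hp : par (n + 1) < l.length := by
      have := hlt (n + 1) (by omega)
      omega
    congr 1
    funext v c
    by_cases hv : v = par (n + 1)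
    · rw [if_pos hv, tri_step hN, hv, getD_set_self _ _ _ hp]
    · rw [if_neg hv]
      congr 1
      rw [List.getD_eq_getElem?_getD, List.getD_eq_getElem?_getD,
        List.getElem?_set_ne (fun h => hv h.symm)]

lemma proper_iff {par : ℕ → ℕ} {n : ℕ} (hlt : ∀ j, 1 ≤ j → par j < j) {C : Type*} (κ : Fin n → C) :
    (∀ u v, (LT.tree n par).Adj u v → κ u ≠ κ v) ↔ Pr par n κ := by
  constructor
  · intro h i j hj hij
    refine h j i ⟨?_, Or.inl ⟨hj, hij⟩⟩
    intro hji
    rw [hji] at hij hj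
    have := hlt i.val (by omega)
    omega
  · rintro h u v ⟨_, h1 | h1⟩
    · exact h v u h1.1 h1.2
    · exact (h u v h1.1 h1.2).symm

/-- the point in triple form -/
def pt3 : Tri := ((1, 0), (0, 1), (-1, -1))

lemma pt_eq (N : ℕ) : pt N = tri N pt3 := by
  funext i
  unfold pt tri pt3 toR
  split_ifs <;> simp [sub_eq_add_neg]

/-- **Theorem.** The coefficient of `e_(3, 2, …, 2)` in the chromatic symmetric function of a tree. -/
theorem coeff_tree {par : ℕ → ℕ} (hlt : ∀ j, 1 ≤ j → par j < j) {N k : ℕ} (hN : 3 ≤ N)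
    (c : (2 * k + 3).Partition → ℚ) (hc : IsExpansion (csf (LT.tree (2 * k + 3) par) N) c) (a : ℤ)
    (t : Tri) (ht : run par (2 * k + 2) (List.replicate (2 * k + 3) pt3) = t)
    (ha : addD t.1 (addD t.2.1 t.2.2) = (0, a)) :
    c (lam32 k) = (-1) ^ (k + 1) * a := by
  classical
  have h1 := aeval_expansion hN _ c hc
  have h2 : aeval (pt N) (csf (LT.tree (2 * k + 3) par) N) =
      Z par (2 * k + 3) (fun v => tri N ((List.replicate (2 * k + 3) pt3).getD v 0)) := by
    unfold csf Z
    rw [map_sum]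
    refine Finset.sum_congr rfl fun κ _ => ?_
    by_cases h : ∀ u v, (LT.tree (2 * k + 3) par).Adj u v → κ u ≠ κ v
    · rw [if_pos h, if_pos ((proper_iff hlt κ).mp h), map_prod]
      refine Finset.prod_congr rfl fun v _ => ?_
      have h0 : (List.replicate (2 * k + 3) pt3).getD v.val 0 = pt3 := by
        rw [List.getD_eq_getElem _ _ (by rw [List.length_replicate]; exact v.2),
          List.getElem_replicate]
      rw [aeval_X, pt_eq]
      simp only [h0]
    · rw [if_neg h, if_neg (fun h' => h ((proper_iff hlt κ).mpr h')), map_zero]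
  rw [h2, Z_run hlt hN _ _ (by rw [List.length_replicate]; omega), ht] at h1
  have h3 : toR t.1 + toR t.2.1 + toR t.2.2 = toR (0, a) := by
    rw [← ha, toR_add, toR_add]; ring
  rw [h3] at h1
  have h4 := congrArg TrivSqZeroExt.snd h1
  have h5 : TrivSqZeroExt.snd (toR (0, a)) = (a : ℚ) := by
    unfold toR
    simp
  have h6 : ((-1 : DualNumber ℚ)) ^ (k + 1) * ε = ((-1 : ℚ)) ^ (k + 1) • ε := by
    rw [Algebra.smul_def, map_pow, map_neg, map_one]
  rw [h5, h6] at h4
  simp only [TrivSqZeroExt.snd_smul, snd_eps, smul_eq_mul, mul_one] at h4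
  have h7 : ((-1 : ℚ)) ^ (k + 1) * (-1) ^ (k + 1) = 1 := by
    rw [← mul_pow]; norm_num
  rw [h4, mul_comm (c (lam32 k)), ← mul_assoc, h7, one_mul]

end Pool.Agent.Q134.Csf
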