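import Pool.Agent.Helper741.Exchange

/-!
# Short words in Coxeter groups
-/

set_option autoImplicit false

namespace Q134.Med

open Pool.Agent.Helper741

variable {B : Type*} {M : CoxeterMatrix B} {W : Type*} [Group W] (cs : CoxeterSystem M W)

/-- `s a = t b`, `s ≠ t`, `s a ≠ 1` forces `b = s`. -/
lemma cox_two_aux {s a t b : B} (h : cs.simple s * cs.simple a = cs.simple t * cs.simple b)
    (hst : cs.simple s ≠ cs.simple t) (h1 : cs.simple s * cs.simple a ≠ 1) :
    cs.simple b = cs.simple s := by
  have hl : cs.length (cs.simple s * cs.simple a) = 2 := by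
    have h2 := cs.length_mul_le (cs.simple s) (cs.simple a)
    have h3 := cs.length_mul_mod_two (cs.simple s) (cs.simple a)
    rw [cs.length_simple, cs.length_simple] at h2 h3
    have h4 : cs.length (cs.simple s * cs.simple a) ≠ 0 := by
      intro h5
      exact h1 (cs.length_eq_zero_iff.mp h5)
    omega
  have hw : cs.wordProd [s, a] = cs.simple s * cs.simple a := by
    simp [CoxeterSystem.wordProd]
  have htg : cs.simple t * (cs.simple s * cs.simple a) = cs.simple b := by
    rw [h]; simp
  obtain ⟨j, hj, hje⟩ := exchange cs [s, a] t (by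
    rw [hw, htg, hl, cs.length_simple]; norm_num)
  rw [hw, htg] at hje
  have hj2 : j = 0 ∨ j = 1 := by
    simp at hj; omega
  rcases hj2 with rfl | rfl
  · exfalso
    have h5 : cs.simple b = cs.simple a := by
      simpa [CoxeterSystem.wordProd] using hje
    apply hst
    rw [h5] at h
    exact mul_right_cancel h
  · simpa [CoxeterSystem.wordProd] using hje

/-- `s a = t b`, `s ≠ t`, `s a ≠ 1` forces `b = s` and `a = t`. -/
lemma cox_two {s a t b : B} (h : cs.simple s * cs.simple a = cs.simple t * cs.simple b)
    (hst : cs.simple s ≠ cs.simple t) (h1 : cs.simple s * cs.simple a ≠ 1) :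
    cs.simple a = cs.simple t ∧ cs.simple b = cs.simple s :=
  ⟨cox_two_aux cs h.symm hst.symm (h ▸ h1), cox_two_aux cs h hst h1⟩

/-- If `g` has length three and `s a a' = g = t b b'` with `s ≠ t`, then `b b' = s r`. -/
lemma cox_three_aux {s a a' t b b' : B}
    (h : cs.simple s * cs.simple a * cs.simple a' = cs.simple t * cs.simple b * cs.simple b')
    (hst : cs.simple s ≠ cs.simple t)
    (hl : cs.length (cs.simple s * cs.simple a * cs.simple a') = 3) :
    ∃ r : B, cs.simple b * cs.simple b' = cs.simple s * cs.simple r := by
  have hw : cs.wordProd [s, a, a'] = cs.simple s * cs.simple a * cs.simple a' := by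
    simp [CoxeterSystem.wordProd, mul_assoc]
  have htg : cs.simple t * (cs.simple s * cs.simple a * cs.simple a') =
      cs.simple b * cs.simple b' := by
    rw [h]; simp [mul_assoc]
  obtain ⟨j, hj, hje⟩ := exchange cs [s, a, a'] t (by
    rw [hw, htg, hl]
    have h2 := cs.length_mul_le (cs.simple b) (cs.simple b')
    rw [cs.length_simple, cs.length_simple] at h2
    omega)
  rw [hw, htg] at hje
  have hj2 : j = 0 ∨ j = 1 ∨ j = 2 := by
    simp at hj; omega
  rcases hj2 with rfl | rfl | rfl
  · exfalso
    have h5 : cs.simple b * cs.simple b' = cs.simple a * cs.simple a' := by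
      simpa [CoxeterSystem.wordProd] using hje
    apply hst
    rw [mul_assoc, mul_assoc, h5] at h
    exact mul_right_cancel h
  · exact ⟨a', by simpa [CoxeterSystem.wordProd] using hje⟩
  · exact ⟨a, by simpa [CoxeterSystem.wordProd] using hje⟩

/-- Two geodesics of length three `s a a' = t b b'` with `s ≠ t`, where `s` and `t` do not
commute: then `a = t` and `b = s`. -/
lemma cox_three {s a a' t b b' : B}
    (h : cs.simple s * cs.simple a * cs.simple a' = cs.simple t * cs.simple b * cs.simple b')
    (hst : cs.simple s ≠ cs.simple t)
    (hc : cs.simple s * cs.simple t ≠ cs.simple t * cs.simple s)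
    (hns : ∀ r : B, cs.simple s * cs.simple a * cs.simple a' ≠ cs.simple r) :
    cs.simple a = cs.simple t ∧ cs.simple b = cs.simple s := by
  have hl : cs.length (cs.simple s * cs.simple a * cs.simple a') = 3 := by
    have h2 := cs.length_mul_le (cs.simple s * cs.simple a) (cs.simple a')
    have h3 := cs.length_mul_mod_two (cs.simple s * cs.simple a) (cs.simple a')
    have h4 := cs.length_mul_le (cs.simple s) (cs.simple a)
    have h5 := cs.length_mul_mod_two (cs.simple s) (cs.simple a)
    rw [cs.length_simple] at h2 h3
    rw [cs.length_simple, cs.length_simple] at h4 h5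
    have h6 : cs.length (cs.simple s * cs.simple a * cs.simple a') ≠ 1 := by
      intro h7
      obtain ⟨r, hr⟩ := cs.length_eq_one_iff.mp h7
      exact hns r hr
    omega
  obtain ⟨r, hr⟩ := cox_three_aux cs h hst hl
  obtain ⟨r', hr'⟩ := cox_three_aux cs h.symm hst.symm (h ▸ hl)
  -- `g = t s r = s t r'`
  have e1 : cs.simple s * cs.simple a * cs.simple a' = cs.simple t * cs.simple s * cs.simple r := by
    rw [h, mul_assoc, hr, mul_assoc]
  have e2 : cs.simple s * cs.simple a * cs.simple a' = cs.simple s * cs.simple t * cs.simple r' := by
    rw [mul_assoc, hr', mul_assoc]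
  have e3 : cs.simple t * cs.simple s * cs.simple r = cs.simple s * cs.simple t * cs.simple r' :=
    e1.symm.trans e2
  -- apply exchange once more, on `t s r`
  have key : cs.simple r' = cs.simple s := by
    have hw : cs.wordProd [t, s, r] = cs.simple t * cs.simple s * cs.simple r := by
      simp [CoxeterSystem.wordProd, mul_assoc]
    have hsg : cs.simple s * (cs.simple t * cs.simple s * cs.simple r) =
        cs.simple t * cs.simple r' := by
      rw [e3]; simp [mul_assoc]
    obtain ⟨j, hj, hje⟩ := exchange cs [t, s, r] s (by
      rw [hw, hsg, ← e1, hl]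
      have h2 := cs.length_mul_le (cs.simple t) (cs.simple r')
      rw [cs.length_simple, cs.length_simple] at h2
      omega)
    rw [hw, hsg] at hje
    have hj2 : j = 0 ∨ j = 1 ∨ j = 2 := by
      simp at hj; omega
    rcases hj2 with rfl | rfl | rfl
    · exfalso
      have h5 : cs.simple t * cs.simple r' = cs.simple s * cs.simple r := by
        simpa [CoxeterSystem.wordProd] using hje
      apply hns r
      rw [e2, mul_assoc, h5]
      simp
    · exfalso
      have h5 : cs.simple t * cs.simple r' = cs.simple t * cs.simple r := by
        simpa [CoxeterSystem.wordProd] using hje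
      have h6 := mul_left_cancel h5
      rw [h6] at e3
      exact hc (mul_right_cancel e3).symm
    · have h5 : cs.simple t * cs.simple r' = cs.simple t * cs.simple s := by
        simpa [CoxeterSystem.wordProd] using hje
      exact mul_left_cancel h5
  have key2 : cs.simple r = cs.simple t := by
    have hw : cs.wordProd [s, t, r'] = cs.simple s * cs.simple t * cs.simple r' := by
      simp [CoxeterSystem.wordProd, mul_assoc]
    have hsg : cs.simple t * (cs.simple s * cs.simple t * cs.simple r') =
        cs.simple s * cs.simple r := by
      rw [← e3]; simp [mul_assoc]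
    obtain ⟨j, hj, hje⟩ := exchange cs [s, t, r'] t (by
      rw [hw, hsg, ← e2, hl]
      have h2 := cs.length_mul_le (cs.simple s) (cs.simple r)
      rw [cs.length_simple, cs.length_simple] at h2
      omega)
    rw [hw, hsg] at hje
    have hj2 : j = 0 ∨ j = 1 ∨ j = 2 := by
      simp at hj; omega
    rcases hj2 with rfl | rfl | rfl
    · exfalso
      have h5 : cs.simple s * cs.simple r = cs.simple t * cs.simple r' := by
        simpa [CoxeterSystem.wordProd] using hje
      apply hns r'
      rw [e1, mul_assoc, h5]
      simp
    · exfalso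
      have h5 : cs.simple s * cs.simple r = cs.simple s * cs.simple r' := by
        simpa [CoxeterSystem.wordProd] using hje
      have h6 := mul_left_cancel h5
      rw [h6] at e3
      exact hc (mul_right_cancel e3).symm
    · have h5 : cs.simple s * cs.simple r = cs.simple s * cs.simple t := by
        simpa [CoxeterSystem.wordProd] using hje
      exact mul_left_cancel h5
  -- now `a a' = t s` and `b b' = s t`
  rw [key] at hr'
  rw [key2] at hr
  have hts : cs.simple t * cs.simple s ≠ 1 := by
    intro h1
    apply hst
    have h2 := mul_eq_one_iff_eq_inv.mp h1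
    rw [cs.inv_simple] at h2
    exact h2.symm
  have hst1 : cs.simple s * cs.simple t ≠ 1 := by
    intro h1
    apply hst
    have h2 := mul_eq_one_iff_eq_inv.mp h1
    rw [cs.inv_simple] at h2
    exact h2
  constructor
  · by_contra hne
    obtain ⟨h5, h6⟩ := cox_two cs hr' hne (by rw [hr']; exact hts)
    -- `a' = t`, `s = a`
    rw [h5, ← h6] at hr'
    exact hc hr'
  · by_contra hne
    obtain ⟨h5, h6⟩ := cox_two cs hr hne (by rw [hr]; exact hst1)
    rw [h5, ← h6] at hr
    exact hc hr.symm

end Q134.Med
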