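import Mathlib

/-!
# Mediangle graphs, hyperplanes, monoliths, Cartesian products and Coxeter graphs
-/

set_option autoImplicit false

namespace Q134.Med

variable {V : Type*}

/-- `z` lies in the interval `I(x, y)`: `x, z, y` lie in one component and
`d(x, y) = d(x, z) + d(z, y)`. -/
def Btw (G : SimpleGraph V) (x z y : V) : Prop :=
  G.Reachable x z ∧ G.Reachable z y ∧ G.dist x y = G.dist x z + G.dist z y

/-- A vertex set `S` (and the subgraph induced on it) is convex if it contains the interval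
`I(x, y)` for all `x, y ∈ S`. -/
def IsConvex (G : SimpleGraph V) (S : Set V) : Prop :=
  ∀ x ∈ S, ∀ y ∈ S, ∀ z, Btw G x z y → z ∈ S

/-- A set `Y` is gated if it contains for each vertex `x` a vertex `y` lying in `I(x, z)` for all
`z ∈ Y`. -/
def IsGated (G : SimpleGraph V) (Y : Set V) : Prop :=
  ∀ x, ∃ y ∈ Y, ∀ z ∈ Y, Btw G x y z

/-- The map `c` describes a convex cycle of length `2k ≥ 4` in `G` with vertices
`c 0, c 1, …, c (2k - 1)` in cyclic order: an induced cycle whose vertex set is convex. -/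
structure IsConvexEvenCycle (G : SimpleGraph V) (k : ℕ) (c : ZMod (2 * k) → V) : Prop where
  two_le : 2 ≤ k
  injective : Function.Injective c
  adj_iff : ∀ i j, G.Adj (c i) (c j) ↔ (j = i + 1 ∨ i = j + 1)
  convex : IsConvex G (Set.range c)

/-- Mediangle graphs: the four axioms. -/
structure IsMediangle (G : SimpleGraph V) : Prop where
  connected : G.Connected
  /-- Axiom 1. -/
  triangle : ∀ o x y, G.dist o x = G.dist o y → G.dist x y = 1 →
    ∃ z, G.Adj x z ∧ G.Adj y z ∧ Btw G o z x ∧ Btw G o z y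
  /-- Axiom 2: no induced `K₄` minus an edge. -/
  noK4minus : ∀ a b c d, G.Adj a b → G.Adj a c → G.Adj a d → G.Adj b c → G.Adj b d → c ≠ d →
    G.Adj c d
  /-- Axiom 3. -/
  cycle : ∀ o x y z, x ≠ y → G.dist o x = G.dist o y → G.dist o z = G.dist o x + 1 →
    G.Adj x z → G.Adj y z →
    ∃ (k : ℕ) (c : ZMod (2 * k) → V), IsConvexEvenCycle G k c ∧ c (-1) = x ∧ c 0 = z ∧ c 1 = y ∧
      Btw G o (c k) x ∧ Btw G o (c k) y
  /-- Axiom 4: two different convex even cycles share at most one edge. -/
  share : ∀ (k : ℕ) (c : ZMod (2 * k) → V) (k' : ℕ) (c' : ZMod (2 * k') → V),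
    IsConvexEvenCycle G k c → IsConvexEvenCycle G k' c' → Set.range c ≠ Set.range c' →
    ∀ u v u' v', G.Adj u v → G.Adj u' v' →
      u ∈ Set.range c ∩ Set.range c' → v ∈ Set.range c ∩ Set.range c' →
      u' ∈ Set.range c ∩ Set.range c' → v' ∈ Set.range c ∩ Set.range c' → s(u, v) = s(u', v')

/-- The two rules generating the hyperplane relation on edges: edges of a common `3`-cycle are
related, and opposite edges of a convex even cycle are related. -/
inductive HypRel (G : SimpleGraph V) : Sym2 V → Sym2 V → Prop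
  | tri (a b c : V) (hab : G.Adj a b) (hbc : G.Adj b c) (hac : G.Adj a c) :
      HypRel G s(a, b) s(b, c)
  | opp (k : ℕ) (c : ZMod (2 * k) → V) (h : IsConvexEvenCycle G k c) (i : ZMod (2 * k)) :
      HypRel G s(c i, c (i + 1)) s(c (i + k), c (i + k + 1))

/-- The class of the edge `e` under the equivalence relation generated by the two rules. -/
def hypClass (G : SimpleGraph V) (e : Sym2 V) : Set (Sym2 V) :=
  {f | Relation.EqvGen (HypRel G) e f}

/-- A hyperplane is the class of some edge. -/
def IsHyperplane (G : SimpleGraph V) (J : Set (Sym2 V)) : Prop :=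
  ∃ e ∈ G.edgeSet, J = hypClass G e

/-- Two hyperplanes are transverse if an edge of the one and an edge of the other are
consecutive edges of a convex even cycle. -/
def Transverse (G : SimpleGraph V) (J₁ J₂ : Set (Sym2 V)) : Prop :=
  ∃ (k : ℕ) (c : ZMod (2 * k) → V), IsConvexEvenCycle G k c ∧ ∃ i,
    (s(c i, c (i + 1)) ∈ J₁ ∧ s(c (i + 1), c (i + 2)) ∈ J₂) ∨
    (s(c i, c (i + 1)) ∈ J₂ ∧ s(c (i + 1), c (i + 2)) ∈ J₁)

/-- `Y` is a monolith: it is gated, and any two different hyperplanes containing an edge of `Y`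
are transverse. -/
def IsMonolith (G : SimpleGraph V) (Y : Set V) : Prop :=
  IsGated G Y ∧ ∀ J₁ J₂, IsHyperplane G J₁ → IsHyperplane G J₂ →
    (∃ u ∈ Y, ∃ v ∈ Y, G.Adj u v ∧ s(u, v) ∈ J₁) → (∃ u ∈ Y, ∃ v ∈ Y, G.Adj u v ∧ s(u, v) ∈ J₂) →
    J₁ ≠ J₂ → Transverse G J₁ J₂

/-- The Cartesian product of a (possibly infinite) family of graphs: two vertices are adjacent
if they differ in exactly one coordinate and are adjacent there. -/
def cartProd {ι : Type*} {U : ι → Type*} (G : ∀ i, SimpleGraph (U i)) :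
    SimpleGraph (∀ i, U i) where
  Adj x y := ∃ i, (G i).Adj (x i) (y i) ∧ ∀ j, j ≠ i → x j = y j
  symm := ⟨by
    rintro x y ⟨i, h1, h2⟩
    exact ⟨i, h1.symm, fun j hj => (h2 j hj).symm⟩⟩
  loopless := ⟨by
    rintro x ⟨i, h1, _⟩
    exact (G i).irrefl h1⟩

/-- The Cayley graph of a Coxeter group with respect to its Coxeter generators. -/
def coxeterGraph {B W : Type*} [Group W] {M : CoxeterMatrix B} (cs : CoxeterSystem M W) :
    SimpleGraph W where
  Adj w w' := ∃ b, w' = w * cs.simple b
  symm := ⟨by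
    rintro w w' ⟨b, rfl⟩
    exact ⟨b, by simp⟩⟩
  loopless := ⟨by
    rintro w ⟨b, h⟩
    have h1 : cs.simple b = 1 := by simpa using h.symm
    have h2 := cs.length_simple b
    rw [h1, cs.length_one] at h2
    exact absurd h2 (by norm_num)⟩

/-- `G` is a complete graph or is isomorphic to the Cayley graph of a (finite or infinite) Coxeter
group. -/
def IsCompleteOrCoxeter.{u, v, w} {U : Type u} (G : SimpleGraph U) : Prop :=
  G = ⊤ ∨ ∃ (B : Type v) (W : Type w) (_ : Group W) (M : CoxeterMatrix B)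
    (cs : CoxeterSystem M W), Nonempty (G ≃g coxeterGraph cs)

end Q134.Med
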