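import Pool.Agent.Q134.MedDefs

/-!
# The chamber graph of the simplicial arrangement `A(7,1)`

`X` is the graph of the 32 chambers of the arrangement of the planes with normals
`x, y, z, x-y, x-z, y-z, x+y-z` in three-dimensional space.  We check that it is mediangle and that it is a
monolith of itself.
-/

set_option autoImplicit false

namespace Q134.Med

/-- The distance table, four bits per entry. -/
def T : ℕ := 0x123123412234234345345563456456710122323231233234544564545455676210132123423243434354534565467653210432145321543432654236543765412340123213453452342346545673456232310123245445612332354567645453212210143343545232434436765565443213210544326543215433276546543123423450134512345623467234534562345123410456234345123763456234521233434340122125655673434344565323245434510132165467623432354544321543256210432543765125432654323453456122340125673455612342345323445452312310167645645232334544343565434212210765565343212434334342123435655670122124345653434454332325465467610132132545443235432432165543765210432216543543234562345215673452340126523451234454532343267645612310154345423235654434343765565212210434343321254326543673215434326540143215432654354327643265432154310543243213456456723345123456234450123123445655676344342325453433410122123545467654532332165445423210132326543765456432432543543123210432145673456324562343451235412340123567645654354534343423243212310126765545454654454323321323232210176546543655435434324322143213210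

/-- The `i`-th vertex of the cycle with code `K`. -/
def vt (K : ℕ) (i : ℕ) : Fin 32 := ⟨(K >>> (5 * i)) % 32, Nat.mod_lt _ (by norm_num)⟩

/-- The convex 4-cycles. -/
def tab4 : List ℕ := [271488, 203874, 474474, 677424, 917238, 948024]

/-- The convex 6-cycles. -/
def tab6 : List ℕ := [139659296, 282535968, 347475009, 426494179, 322584740, 555293893, 462310696, 531487115, 832388557, 737140305, 970938003, 1005580121]

/-- The vertex sets of the convex cycles, as bit masks. -/
def masks : List ℕ :=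
  [785, 204, 52224, 3342336, 2294284288, 855638016, 119, 25859, 7182, 12849288, 1638960, 458976, 285745920, 205559808, 117497856, 3232104448, 1882718208, 3992977408]

/-- The hyperplanes. -/
def hyps : List (List (Fin 32 × Fin 32)) :=
  [[(5, 16), (7, 18), (12, 22), (15, 26), (13, 24), (9, 19)],
   [(1, 10), (8, 13), (19, 28), (21, 30), (18, 23), (3, 12)],
   [(0, 8), (4, 9), (16, 20), (17, 21), (23, 31), (22, 27), (11, 15), (10, 14)],
   [(0, 4), (8, 9), (24, 28), (25, 29), (27, 31), (22, 23), (3, 7), (2, 6)],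
   [(1, 2), (11, 12), (26, 27), (29, 30), (19, 20), (4, 5)],
   [(0, 1), (13, 14), (25, 26), (30, 31), (17, 18), (5, 6)],
   [(2, 3), (6, 7), (16, 17), (20, 21), (28, 29), (24, 25), (14, 15), (10, 11)]]

/-- The distance function. -/
def hd (i j : Fin 32) : ℕ := (T >>> (128 * i.val + 4 * j.val)) % 16

lemma hd_self : ∀ i, hd i i = 0 := by decide +kernel
lemma hd_symm : ∀ i j, hd i j = hd j i := by decide +kernel
lemma hd_zero : ∀ i j, hd i j = 0 → i = j := by decide +kernel
lemma hd_step : ∀ i k, hd i k = 1 → ∀ j, hd i j ≤ hd k j + 1 := by decide +kernel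
lemma hd_down : ∀ i j, i ≠ j → ∃ k, hd i k = 1 ∧ hd k j + 1 = hd i j := by decide +kernel

/-- The graph of chambers. -/
def X : SimpleGraph (Fin 32) where
  Adj i j := hd i j = 1
  symm := ⟨fun i j h => by
    show hd j i = 1
    rw [hd_symm]; exact h⟩
  loopless := ⟨fun i h => by
    have h1 : hd i i = 1 := h
    rw [hd_self] at h1
    exact absurd h1 (by norm_num)⟩

lemma X_adj (i j : Fin 32) : X.Adj i j ↔ hd i j = 1 := Iff.rfl

instance : DecidableRel X.Adj := fun i j => inferInstanceAs (Decidable (hd i j = 1))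

lemma exists_walk : ∀ (n : ℕ) (i j : Fin 32), hd i j = n → ∃ w : X.Walk i j, w.length = n := by
  intro n
  induction n with
  | zero =>
    intro i j h
    obtain rfl := hd_zero i j h
    exact ⟨SimpleGraph.Walk.nil, rfl⟩
  | succ n ih =>
    intro i j h
    have hij : i ≠ j := by
      rintro rfl
      rw [hd_self] at h
      omega
    obtain ⟨k, h1, h2⟩ := hd_down i j hij
    obtain ⟨w, hw⟩ := ih k j (by omega)
    refine ⟨SimpleGraph.Walk.cons (show X.Adj i k from h1) w, ?_⟩
    rw [SimpleGraph.Walk.length_cons, hw]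

lemma hd_le_length {i j : Fin 32} (w : X.Walk i j) : hd i j ≤ w.length := by
  induction w with
  | nil => rw [hd_self]; simp
  | cons h w ih =>
    have := hd_step _ _ h
    rename_i u v x
    have h1 := hd_step u v h x
    rw [SimpleGraph.Walk.length_cons]
    omega

lemma X_reachable (i j : Fin 32) : X.Reachable i j :=
  (exists_walk _ i j rfl).choose.reachable

lemma X_connected : X.Connected := ⟨fun i j => X_reachable i j⟩

lemma X_dist (i j : Fin 32) : X.dist i j = hd i j := by
  apply le_antisymm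
  · obtain ⟨w, hw⟩ := exists_walk _ i j rfl
    rw [← hw]
    exact SimpleGraph.dist_le w
  · obtain ⟨w, hw⟩ := (X_reachable i j).exists_walk_length_eq_dist
    rw [← hw]
    exact hd_le_length w

/-- The interval in terms of the distance table. -/
def In (x z y : Fin 32) : Prop := hd x y = hd x z + hd z y

instance (x z y : Fin 32) : Decidable (In x z y) :=
  inferInstanceAs (Decidable (hd x y = hd x z + hd z y))

lemma btw_iff (x z y : Fin 32) : Btw X x z y ↔ In x z y := by
  unfold Btw In
  rw [X_dist, X_dist, X_dist]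
  exact ⟨fun h => h.2.2, fun h => ⟨X_reachable _ _, X_reachable _ _, h⟩⟩


/-! ### General facts on convex even cycles -/

section general

variable {V : Type*} {G : SimpleGraph V}

lemma IsConvexEvenCycle.range_rot {k : ℕ} (c : ZMod (2 * k) → V) (r : ZMod (2 * k)) :
    Set.range (fun i => c (r + i)) = Set.range c := by
  ext v
  constructor
  · rintro ⟨i, rfl⟩
    exact ⟨r + i, rfl⟩
  · rintro ⟨i, rfl⟩
    exact ⟨i - r, by simp⟩

lemma IsConvexEvenCycle.range_refl {k : ℕ} (c : ZMod (2 * k) → V) (r : ZMod (2 * k)) :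
    Set.range (fun i => c (r - i)) = Set.range c := by
  ext v
  constructor
  · rintro ⟨i, rfl⟩
    exact ⟨r - i, rfl⟩
  · rintro ⟨i, rfl⟩
    exact ⟨r - i, by simp⟩

lemma IsConvexEvenCycle.rot {k : ℕ} {c : ZMod (2 * k) → V}
    (h : IsConvexEvenCycle G k c) (r : ZMod (2 * k)) :
    IsConvexEvenCycle G k (fun i => c (r + i)) where
  two_le := h.two_le
  injective := fun i j hij => add_left_cancel (h.injective hij)
  adj_iff := fun i j => by
    rw [h.adj_iff, add_assoc, add_assoc, add_right_inj, add_right_inj]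
  convex := by
    rw [IsConvexEvenCycle.range_rot]
    exact h.convex

lemma IsConvexEvenCycle.refl {k : ℕ} {c : ZMod (2 * k) → V}
    (h : IsConvexEvenCycle G k c) (r : ZMod (2 * k)) :
    IsConvexEvenCycle G k (fun i => c (r - i)) where
  two_le := h.two_le
  injective := fun i j hij => by
    have := h.injective hij
    exact sub_right_injective this
  adj_iff := fun i j => by
    rw [h.adj_iff]
    constructor
    · rintro (h1 | h1)
      · right
        linear_combination h1
      · left
        linear_combination h1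
    · rintro (h1 | h1)
      · right
        linear_combination h1
      · left
        linear_combination h1
  convex := by
    rw [IsConvexEvenCycle.range_refl]
    exact h.convex

lemma exists_step (hG : G.Connected) {x y : V} {m : ℕ} (hd : G.dist x y = m + 1) :
    ∃ v, G.Adj x v ∧ G.dist v y = m ∧ Btw G x v y := by
  obtain ⟨w, hw⟩ := hG.exists_walk_length_eq_dist x y
  rw [hd] at hw
  cases w with
  | nil => simp at hw
  | @cons _ v _ hadj w' =>
    rw [SimpleGraph.Walk.length_cons] at hw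
    have hlen : w'.length = m := by omega
    have h1 : G.dist v y ≤ m := by
      rw [← hlen]
      exact SimpleGraph.dist_le w'
    have h2 : G.dist x v = 1 := SimpleGraph.dist_eq_one_iff_adj.mpr hadj
    have h3 := hG.dist_triangle (u := x) (v := v) (w := y)
    have h4 : G.dist v y = m := by omega
    exact ⟨v, hadj, h4, hG.preconnected _ _, hG.preconnected _ _, by omega⟩

/-- Distances along a convex cycle: the indices differ by at most the distance. -/
lemma IsConvexEvenCycle.index_of_dist {k : ℕ} {c : ZMod (2 * k) → V} (hG : G.Connected)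
    (h : IsConvexEvenCycle G k c) : ∀ (m : ℕ) (i j : ZMod (2 * k)), G.dist (c i) (c j) = m →
      ∃ t : ℕ, t ≤ m ∧ (j = i + t ∨ j = i - t) := by
  intro m
  induction m with
  | zero =>
    intro i j hd
    have h1 : c i = c j := (hG.dist_eq_zero_iff).mp hd
    have h2 := h.injective h1
    exact ⟨0, le_rfl, Or.inl (by simp [h2])⟩
  | succ m ih =>
    intro i j hd
    obtain ⟨v, hadj, h4, hb⟩ := exists_step hG hd
    have hv : v ∈ Set.range c := h.convex (c i) ⟨i, rfl⟩ (c j) ⟨j, rfl⟩ v hb
    obtain ⟨i', rfl⟩ := hv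
    rw [h.adj_iff] at hadj
    obtain ⟨t, ht, ht2⟩ := ih i' j h4
    rcases hadj with h5 | h5
    · rcases ht2 with h6 | h6
      · exact ⟨t + 1, by omega, Or.inl (by rw [h6, h5]; push_cast; ring)⟩
      · rcases t with _ | t
        · exact ⟨1, by omega, Or.inl (by rw [h6, h5]; push_cast; ring)⟩
        · exact ⟨t, by omega, Or.inr (by rw [h6, h5]; push_cast; ring)⟩
    · have h7 : i' = i - 1 := by rw [h5]; ring
      rcases ht2 with h6 | h6
      · rcases t with _ | t
        · exact ⟨1, by omega, Or.inr (by rw [h6, h7]; push_cast; ring)⟩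
        · exact ⟨t, by omega, Or.inl (by rw [h6, h7]; push_cast; ring)⟩
      · exact ⟨t + 1, by omega, Or.inr (by rw [h6, h7]; push_cast; ring)⟩

lemma IsConvexEvenCycle.dist_le' {k : ℕ} {c : ZMod (2 * k) → V} (hG : G.Connected)
    (h : IsConvexEvenCycle G k c) (i : ZMod (2 * k)) (t : ℕ) : G.dist (c i) (c (i + t)) ≤ t := by
  induction t with
  | zero => simp
  | succ t ih =>
    have h1 : G.Adj (c (i + t)) (c (i + (t + 1 : ℕ))) := by
      rw [h.adj_iff]
      left
      push_cast
      ring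
    have h2 := SimpleGraph.dist_eq_one_iff_adj.mpr h1
    have h3 := hG.dist_triangle (u := c i) (v := c (i + t)) (w := c (i + (t + 1 : ℕ)))
    omega

lemma cast_ne {k a : ℕ} (h0 : 0 < a) (h1 : a < 2 * k) : (a : ZMod (2 * k)) ≠ 0 := by
  intro h
  rw [ZMod.natCast_eq_zero_iff] at h
  exact absurd (Nat.le_of_dvd h0 h) (by omega)

/-- A convex even cycle is isometric. -/
lemma IsConvexEvenCycle.dist_eq {k : ℕ} {c : ZMod (2 * k) → V} (hG : G.Connected)
    (h : IsConvexEvenCycle G k c) (i : ZMod (2 * k)) (t : ℕ) (ht : t ≤ k) :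
    G.dist (c i) (c (i + t)) = t := by
  have hk := h.two_le
  apply le_antisymm (h.dist_le' hG i t)
  by_contra hlt
  push Not at hlt
  obtain ⟨t', ht', h1⟩ := h.index_of_dist hG _ i (i + t) rfl
  have htt : t' < t := by omega
  rcases h1 with h1 | h1
  · have h2 : (t : ZMod (2 * k)) = t' := add_left_cancel h1
    have h3 : ((t - t' : ℕ) : ZMod (2 * k)) = 0 := by
      rw [Nat.cast_sub htt.le, h2, sub_self]
    exact cast_ne (by omega) (by omega) h3
  · have h3 : ((t + t' : ℕ) : ZMod (2 * k)) = 0 := by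
      push_cast
      linear_combination h1
    exact cast_ne (by omega) (by omega) h3

lemma IsConvexEvenCycle.dist_eq' {k : ℕ} {c : ZMod (2 * k) → V} (hG : G.Connected)
    (h : IsConvexEvenCycle G k c) (i : ZMod (2 * k)) (t : ℕ) (ht : t ≤ k) :
    G.dist (c i) (c (i - t)) = t := by
  have h1 := h.dist_eq hG (i - t) t ht
  rw [sub_add_cancel, SimpleGraph.dist_comm] at h1
  exact h1

lemma two_k_cast (k : ℕ) : (k : ZMod (2 * k)) + k = 0 := by
  have h1 : ((2 * k : ℕ) : ZMod (2 * k)) = 0 := ZMod.natCast_self _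
  push_cast at h1
  linear_combination h1

/-- A convex even cycle is the interval between two opposite vertices. -/
lemma IsConvexEvenCycle.range_eq {k : ℕ} {c : ZMod (2 * k) → V} (hG : G.Connected)
    (h : IsConvexEvenCycle G k c) (v : V) : v ∈ Set.range c ↔ Btw G (c 0) v (c k) := by
  have hk := h.two_le
  have : NeZero (2 * k) := ⟨by omega⟩
  constructor
  · rintro ⟨j, rfl⟩
    refine ⟨hG.preconnected _ _, hG.preconnected _ _, ?_⟩
    have h0 : G.dist (c 0) (c k) = k := by
      have := h.dist_eq hG 0 k le_rfl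
      rwa [zero_add] at this
    rw [h0]
    have hj : ((j.val : ℕ) : ZMod (2 * k)) = j := ZMod.natCast_zmod_val j
    have hlt := ZMod.val_lt j
    by_cases hle : j.val ≤ k
    · have h1 : G.dist (c 0) (c j) = j.val := by
        have := h.dist_eq hG 0 j.val hle
        rwa [zero_add, hj] at this
      have h2 : G.dist (c j) (c k) = k - j.val := by
        have := h.dist_eq hG j (k - j.val) (by omega)
        rw [Nat.cast_sub hle, hj] at this
        rwa [add_sub_cancel] at this
      rw [h1, h2]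
      omega
    · push Not at hle
      have e1 : ((2 * k - j.val : ℕ) : ZMod (2 * k)) = -j := by
        rw [Nat.cast_sub hlt.le, hj]
        have := two_k_cast k
        push_cast
        linear_combination this
      have h1 : G.dist (c 0) (c j) = 2 * k - j.val := by
        have := h.dist_eq' hG 0 (2 * k - j.val) (by omega)
        rwa [e1, sub_neg_eq_add, zero_add] at this
      have h2 : G.dist (c j) (c k) = j.val - k := by
        have := h.dist_eq' hG j (j.val - k) (by omega)
        rw [Nat.cast_sub hle.le, hj] at this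
        rwa [sub_sub_cancel] at this
      rw [h1, h2]
      omega
  · intro hb
    exact h.convex (c 0) ⟨0, rfl⟩ (c k) ⟨k, rfl⟩ v hb

end general

/-! ### The convex cycles of the tables -/

lemma good4 : ∀ K ∈ tab4, (∀ i j : Fin 4, vt K i = vt K j → i = j) ∧
    (∀ i j : Fin 4, hd (vt K i) (vt K j) = 1 ↔ (j = i + 1 ∨ i = j + 1)) ∧
    (∀ i j : Fin 4, ∀ w, In (vt K i) w (vt K j) → ∃ l : Fin 4, vt K l = w) := by decide +kernel

lemma good6 : ∀ K ∈ tab6, (∀ i j : Fin 6, vt K i = vt K j → i = j) ∧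
    (∀ i j : Fin 6, hd (vt K i) (vt K j) = 1 ↔ (j = i + 1 ∨ i = j + 1)) ∧
    (∀ i j : Fin 6, ∀ w, In (vt K i) w (vt K j) → ∃ l : Fin 6, vt K l = w) := by decide +kernel

/-- The 4-cycle with code `K`. -/
def c4 (K : ℕ) : ZMod (2 * 2) → Fin 32 := fun i : Fin 4 => vt K i

/-- The 6-cycle with code `K`. -/
def c6 (K : ℕ) : ZMod (2 * 3) → Fin 32 := fun i : Fin 6 => vt K i

lemma cyc4 (K : ℕ) (hK : K ∈ tab4) : IsConvexEvenCycle X 2 (c4 K) where
  two_le := le_rfl
  injective := fun i j h => (good4 K hK).1 i j h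
  adj_iff := fun i j => (good4 K hK).2.1 i j
  convex := by
    rintro _ ⟨i, rfl⟩ _ ⟨j, rfl⟩ w hw
    exact (good4 K hK).2.2 i j w ((btw_iff _ _ _).mp hw)

lemma cyc6 (K : ℕ) (hK : K ∈ tab6) : IsConvexEvenCycle X 3 (c6 K) where
  two_le := by norm_num
  injective := fun i j h => (good6 K hK).1 i j h
  adj_iff := fun i j => (good6 K hK).2.1 i j
  convex := by
    rintro _ ⟨i, rfl⟩ _ ⟨j, rfl⟩ w hw
    exact (good6 K hK).2.2 i j w ((btw_iff _ _ _).mp hw)

/-! ### Axiom 3 -/

lemma path_ok : ∀ z x, hd z x = 1 → ∀ y, hd z y = 1 → x ≠ y →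
    (∃ K ∈ tab4, ∃ r : Fin 4, vt K r = z ∧
      ((vt K (r - 1 : Fin 4) = x ∧ vt K (r + 1 : Fin 4) = y) ∨
        (vt K (r + 1 : Fin 4) = x ∧ vt K (r - 1 : Fin 4) = y)) ∧
      ∀ o, hd o z = hd o x + 1 → hd o x = hd o y →
        In o (vt K (r + 2 : Fin 4)) x ∧ In o (vt K (r + 2 : Fin 4)) y) ∨
    (∃ K ∈ tab6, ∃ r : Fin 6, vt K r = z ∧
      ((vt K (r - 1 : Fin 6) = x ∧ vt K (r + 1 : Fin 6) = y) ∨
        (vt K (r + 1 : Fin 6) = x ∧ vt K (r - 1 : Fin 6) = y)) ∧
      ∀ o, hd o z = hd o x + 1 → hd o x = hd o y →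
        In o (vt K (r + 3 : Fin 6)) x ∧ In o (vt K (r + 3 : Fin 6)) y) := by
  decide +kernel

lemma axiom3_of {k : ℕ} {c : ZMod (2 * k) → Fin 32} {o x y z : Fin 32}
    (h : IsConvexEvenCycle X k c) (r : ZMod (2 * k)) (e1 : c r = z)
    (e2 : (c (r - 1) = x ∧ c (r + 1) = y) ∨ (c (r + 1) = x ∧ c (r - 1) = y))
    (e3 : Btw X o (c (r + k)) x ∧ Btw X o (c (r + k)) y) :
    ∃ (k : ℕ) (c : ZMod (2 * k) → Fin 32), IsConvexEvenCycle X k c ∧ c (-1) = x ∧ c 0 = z ∧
      c 1 = y ∧ Btw X o (c k) x ∧ Btw X o (c k) y := by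
  rcases e2 with ⟨e6, e7⟩ | ⟨e6, e7⟩
  · refine ⟨k, fun i => c (r + i), h.rot _, ?_, ?_, e7, e3.1, e3.2⟩
    · show c (r + -1) = x
      rw [← sub_eq_add_neg]; exact e6
    · show c (r + 0) = z
      rw [add_zero]; exact e1
  · have h8 : r - (k : ZMod (2 * k)) = r + k := by
      have := two_k_cast k
      linear_combination -this
    refine ⟨k, fun i => c (r - i), h.refl _, ?_, ?_, e7, ?_, ?_⟩
    · show c (r - -1) = x
      rw [sub_neg_eq_add]; exact e6
    · show c (r - 0) = z
      rw [sub_zero]; exact e1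
    · show Btw X o (c (r - k)) x
      rw [h8]; exact e3.1
    · show Btw X o (c (r - k)) y
      rw [h8]; exact e3.2

lemma axiom3 (o x y z : Fin 32) (hxy : x ≠ y) (h1 : X.dist o x = X.dist o y)
    (h2 : X.dist o z = X.dist o x + 1) (h3 : X.Adj x z) (h4 : X.Adj y z) :
    ∃ (k : ℕ) (c : ZMod (2 * k) → Fin 32), IsConvexEvenCycle X k c ∧ c (-1) = x ∧ c 0 = z ∧
      c 1 = y ∧ Btw X o (c k) x ∧ Btw X o (c k) y := by
  simp only [X_dist] at h1 h2
  rcases path_ok z x h3.symm y h4.symm hxy with ⟨K, hK, r, e1, e2, e3⟩ | ⟨K, hK, r, e1, e2, e3⟩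
  · obtain ⟨e4, e5⟩ := e3 o h2 h1
    exact axiom3_of (cyc4 K hK) (show ZMod (2 * 2) from r) e1 e2
      ⟨(btw_iff _ _ _).mpr e4, (btw_iff _ _ _).mpr e5⟩
  · obtain ⟨e4, e5⟩ := e3 o h2 h1
    exact axiom3_of (cyc6 K hK) (show ZMod (2 * 3) from r) e1 e2
      ⟨(btw_iff _ _ _).mpr e4, (btw_iff _ _ _).mpr e5⟩

/-! ### Axiom 4 -/

lemma checkA : ∀ z p : Fin 32, z ≠ p →
    (∀ v, In z v p → (Finset.univ.filter fun w => hd v w = 1 ∧ In z w p).card = 2) →
    ∃ m ∈ masks, ∀ v : Fin 32, In z v p ↔ m.testBit v = true := by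
  decide +kernel

lemma checkB : ∀ m ∈ masks, ∀ m' ∈ masks, m ≠ m' →
    ∀ u : Fin 32, m.testBit u = true → m'.testBit u = true →
    ∀ v : Fin 32, m.testBit v = true → m'.testBit v = true → hd u v = 1 →
    ∀ w : Fin 32, m.testBit w = true → m'.testBit w = true → w = u ∨ w = v := by
  decide +kernel

/-- Each convex even cycle of `X` has its vertex set in the table. -/
lemma mask_of_cycle {k : ℕ} {c : ZMod (2 * k) → Fin 32} (h : IsConvexEvenCycle X k c) :
    ∃ m ∈ masks, ∀ v : Fin 32, v ∈ Set.range c ↔ m.testBit v = true := by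
  have hk := h.two_le
  have hr : ∀ v, v ∈ Set.range c ↔ In (c 0) v (c k) := fun v => by
    rw [h.range_eq X_connected, btw_iff]
  have hne : c 0 ≠ c k := by
    intro he
    have := h.injective he
    exact cast_ne (by omega) (by omega) this.symm
  obtain ⟨m, hm, hmv⟩ := checkA (c 0) (c k) hne (by
    intro v hv
    obtain ⟨i, rfl⟩ := (hr v).mpr hv
    have he : (Finset.univ.filter fun w => hd (c i) w = 1 ∧ In (c 0) w (c k)) =
        {c (i + 1), c (i - 1)} := by
      ext w
      rw [Finset.mem_filter, Finset.mem_insert, Finset.mem_singleton, ← hr]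
      constructor
      · rintro ⟨_, h1, j, rfl⟩
        have h2 : X.Adj (c i) (c j) := h1
        rw [h.adj_iff] at h2
        rcases h2 with h3 | h3
        · left; rw [h3]
        · right; rw [h3, add_sub_cancel_right]
      · rintro (rfl | rfl)
        · refine ⟨Finset.mem_univ _, ?_, ⟨_, rfl⟩⟩
          show X.Adj _ _
          rw [h.adj_iff]; left; rfl
        · refine ⟨Finset.mem_univ _, ?_, ⟨_, rfl⟩⟩
          show X.Adj _ _
          rw [h.adj_iff]; right; ring
    rw [he]
    apply Finset.card_pair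
    intro h4
    have h5 := h.injective h4
    have h6 : ((2 : ℕ) : ZMod (2 * k)) = 0 := by
      push_cast
      linear_combination h5
    exact cast_ne (by norm_num) (by omega) h6)
  exact ⟨m, hm, fun v => (hr v).trans (hmv v)⟩

lemma axiom4 (k : ℕ) (c : ZMod (2 * k) → Fin 32) (k' : ℕ) (c' : ZMod (2 * k') → Fin 32)
    (h : IsConvexEvenCycle X k c) (h' : IsConvexEvenCycle X k' c')
    (hne : Set.range c ≠ Set.range c') (u v u' v' : Fin 32) (huv : X.Adj u v)
    (huv' : X.Adj u' v') (hu : u ∈ Set.range c ∩ Set.range c')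
    (hv : v ∈ Set.range c ∩ Set.range c') (hu' : u' ∈ Set.range c ∩ Set.range c')
    (hv' : v' ∈ Set.range c ∩ Set.range c') : s(u, v) = s(u', v') := by
  obtain ⟨m, hm, hmv⟩ := mask_of_cycle h
  obtain ⟨m', hm', hmv'⟩ := mask_of_cycle h'
  have hmm : m ≠ m' := by
    rintro rfl
    apply hne
    ext w
    rw [hmv, hmv']
  have key := checkB m hm m' hm' hmm u ((hmv u).mp hu.1) ((hmv' u).mp hu.2) v
    ((hmv v).mp hv.1) ((hmv' v).mp hv.2) huv
  have k1 := key u' ((hmv u').mp hu'.1) ((hmv' u').mp hu'.2)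
  have k2 := key v' ((hmv v').mp hv'.1) ((hmv' v').mp hv'.2)
  have hne' : u' ≠ v' := huv'.ne
  rcases k1 with rfl | rfl <;> rcases k2 with rfl | rfl
  · exact absurd rfl hne'
  · rfl
  · exact Sym2.eq_swap
  · exact absurd rfl hne'

/-! ### `X` is mediangle -/

lemma checkTri : ∀ x y, hd x y = 1 → ∀ o, hd o x ≠ hd o y := by decide +kernel

theorem X_mediangle : IsMediangle X where
  connected := X_connected
  triangle := by
    intro o x y h1 h2
    simp only [X_dist] at h1 h2
    exact absurd h1 (checkTri x y h2 o)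
  noK4minus := by
    intro a b c d hab hac _ hbc _ _
    exfalso
    have hac' : hd a c = 1 := hac
    have hab' : hd a b = 1 := hab
    exact checkTri b c hbc a (by rw [hac', hab'])
  cycle := axiom3
  share := axiom4

/-! ### The hyperplanes of `X` -/

lemma hyp_step : ∀ L ∈ hyps, L.IsChain (fun e f =>
    (∃ K ∈ tab4, ∃ r : Fin 4, s(vt K r, vt K (r + 1 : Fin 4)) = s(e.1, e.2) ∧
      s(vt K (r + 2 : Fin 4), vt K (r + 2 + 1 : Fin 4)) = s(f.1, f.2)) ∨
    (∃ K ∈ tab6, ∃ r : Fin 6, s(vt K r, vt K (r + 1 : Fin 6)) = s(e.1, e.2) ∧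
      s(vt K (r + 3 : Fin 6), vt K (r + 3 + 1 : Fin 6)) = s(f.1, f.2))) := by
  decide +kernel

/-- `{u, v}` is one of the edges in the list. -/
def InL (L : List (Fin 32 × Fin 32)) (u v : Fin 32) : Prop := ∃ e ∈ L, s(u, v) = s(e.1, e.2)

instance (L : List (Fin 32 × Fin 32)) (u v : Fin 32) : Decidable (InL L u v) :=
  inferInstanceAs (Decidable (∃ e ∈ L, s(u, v) = s(e.1, e.2)))

lemma hyp_cover : ∀ u v, hd u v = 1 → ∃ L ∈ hyps, InL L u v := by decide +kernel

lemma hyp_trans : ∀ L ∈ hyps, ∀ L' ∈ hyps, L ≠ L' →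
    (∃ K ∈ tab4, ∃ r : Fin 4,
      (InL L (vt K r) (vt K (r + 1 : Fin 4)) ∧
        InL L' (vt K (r + 1 : Fin 4)) (vt K (r + 2 : Fin 4))) ∨
      (InL L' (vt K r) (vt K (r + 1 : Fin 4)) ∧
        InL L (vt K (r + 1 : Fin 4)) (vt K (r + 2 : Fin 4)))) ∨
    (∃ K ∈ tab6, ∃ r : Fin 6,
      (InL L (vt K r) (vt K (r + 1 : Fin 6)) ∧
        InL L' (vt K (r + 1 : Fin 6)) (vt K (r + 2 : Fin 6))) ∨
      (InL L' (vt K r) (vt K (r + 1 : Fin 6)) ∧
        InL L (vt K (r + 1 : Fin 6)) (vt K (r + 2 : Fin 6)))) := by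
  decide +kernel

/-- The equivalence relation generated by the hyperplane rules, on pairs. -/
def HR (e f : Fin 32 × Fin 32) : Prop :=
  Relation.EqvGen (HypRel X) s(e.1, e.2) s(f.1, f.2)

lemma HR_refl (e : Fin 32 × Fin 32) : HR e e := Relation.EqvGen.refl _
lemma HR_symm {e f : Fin 32 × Fin 32} (h : HR e f) : HR f e := Relation.EqvGen.symm _ _ h
lemma HR_trans {e f g : Fin 32 × Fin 32} (h : HR e f) (h' : HR f g) : HR e g :=
  Relation.EqvGen.trans _ _ _ h h'

instance : Trans HR HR HR := ⟨HR_trans⟩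

instance : Std.Symm HR := ⟨fun _ _ => HR_symm⟩

lemma hyp_rel {L : List (Fin 32 × Fin 32)} (hL : L ∈ hyps) {e f : Fin 32 × Fin 32} (he : e ∈ L)
    (hf : f ∈ L) : HR e f := by
  have h1 : L.IsChain HR := by
    refine (hyp_step L hL).imp ?_
    rintro e f (⟨K, hK, r, h2, h3⟩ | ⟨K, hK, r, h2, h3⟩)
    · show Relation.EqvGen (HypRel X) s(e.1, e.2) s(f.1, f.2)
      rw [← h2, ← h3]
      exact Relation.EqvGen.rel _ _ (HypRel.opp 2 (c4 K) (cyc4 K hK) (show ZMod (2 * 2) from r))
    · show Relation.EqvGen (HypRel X) s(e.1, e.2) s(f.1, f.2)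
      rw [← h2, ← h3]
      exact Relation.EqvGen.rel _ _ (HypRel.opp 3 (c6 K) (cyc6 K hK) (show ZMod (2 * 3) from r))
  have h2 : L.Pairwise HR := List.isChain_iff_pairwise.mp h1
  exact h2.forall_of_forall (fun x _ => HR_refl x) he hf

lemma hyp_class {J : Set (Sym2 (Fin 32))} (hJ : IsHyperplane X J) :
    ∃ L ∈ hyps, (∀ u v, InL L u v → s(u, v) ∈ J) ∧
      ∀ u v, InL L u v → J = hypClass X s(u, v) := by
  obtain ⟨e, he, rfl⟩ := hJ
  induction e using Sym2.ind with
  | _ u v =>
    obtain ⟨L, hL, e, heL, hee⟩ := hyp_cover u v he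
    refine ⟨L, hL, ?_, ?_⟩
    · rintro u' v' ⟨f, hf, hff⟩
      show Relation.EqvGen (HypRel X) s(u, v) s(u', v')
      rw [hee, hff]
      exact hyp_rel hL heL hf
    · rintro u' v' ⟨f, hf, hff⟩
      rw [hee, hff]
      ext g
      constructor
      · intro hg
        exact Relation.EqvGen.trans _ _ _ (hyp_rel hL hf heL) hg
      · intro hg
        exact Relation.EqvGen.trans _ _ _ (hyp_rel hL heL hf) hg

lemma hyps_nonempty : ∀ L ∈ hyps, ∃ e, e ∈ L := by
  intro L hL
  have : ∀ L ∈ hyps, L ≠ [] := by decide +kernel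
  exact List.exists_mem_of_ne_nil L (this L hL)

theorem X_monolith : IsMonolith X Set.univ := by
  refine ⟨fun x => ⟨x, Set.mem_univ _, fun z _ => ?_⟩, ?_⟩
  · exact ⟨X_reachable _ _, X_reachable _ _, by simp⟩
  · intro J₁ J₂ h1 h2 _ _ hne
    obtain ⟨L, hL, hLJ, hLc⟩ := hyp_class h1
    obtain ⟨L', hL', hLJ', hLc'⟩ := hyp_class h2
    have hLL : L ≠ L' := by
      rintro rfl
      obtain ⟨e, he⟩ := hyps_nonempty L hL
      apply hne
      rw [hLc e.1 e.2 ⟨e, he, rfl⟩, hLc' e.1 e.2 ⟨e, he, rfl⟩]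
    rcases hyp_trans L hL L' hL' hLL with ⟨K, hK, r, h3⟩ | ⟨K, hK, r, h3⟩
    · refine ⟨2, c4 K, cyc4 K hK, (show ZMod (2 * 2) from r), ?_⟩
      rcases h3 with ⟨h4, h5⟩ | ⟨h4, h5⟩
      · exact Or.inl ⟨hLJ _ _ h4, hLJ' _ _ h5⟩
      · exact Or.inr ⟨hLJ' _ _ h4, hLJ _ _ h5⟩
    · refine ⟨3, c6 K, cyc6 K hK, (show ZMod (2 * 3) from r), ?_⟩
      rcases h3 with ⟨h4, h5⟩ | ⟨h4, h5⟩
      · exact Or.inl ⟨hLJ _ _ h4, hLJ' _ _ h5⟩
      · exact Or.inr ⟨hLJ' _ _ h4, hLJ _ _ h5⟩

end Q134.Med
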