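import Mathlib

set_option autoImplicit false

/-!
# Projections of link diagrams as 4-valent combinatorial maps on the sphere

A connected 4-valent plane graph with at least one vertex is given by the finite set of its darts
(half-edges), the permutation `rot` (next dart around the same vertex, all its cycles have length
four) and the fixed point free involution `rev` (the other half of the edge).  Vertices, edges and
faces (regions) are the cycles of `rot`, `rev` and `rot * rev`, and Euler's formula says that the
surface is the sphere.
-/

namespace Q134.ND

/-- The set of the cycles (orbits) of a permutation. -/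
abbrev Orb {D : Type} (π : Equiv.Perm D) : Type := Quotient (Equiv.Perm.SameCycle.setoid π)

/-- The projection of a non-split link diagram with at least one crossing. -/
structure Diagram (D : Type) where
  /-- the next dart around the crossing -/
  rot : Equiv.Perm D
  /-- the other half of the edge -/
  rev : Equiv.Perm D
  rot_four : ∀ d, rot (rot (rot (rot d))) = d
  rot_two : ∀ d, rot (rot d) ≠ d
  rev_rev : ∀ d, rev (rev d) = d
  rev_ne : ∀ d, rev d ≠ d
  /-- the graph is connected (the diagram is non-split) -/
  conn : ∀ d e, Relation.ReflTransGen (fun a b => b = rot a ∨ b = rev a) d e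
  /-- Euler's formula for the sphere -/
  euler : Nat.card (Orb rot) + Nat.card (Orb (rot * rev)) = Nat.card (Orb rev) + 2

variable {D : Type} (M : Diagram D)

/-- The crossings. -/
abbrev Diagram.Crossing : Type := Orb M.rot

/-- The edges (strands between crossings). -/
abbrev Diagram.Edge : Type := Orb M.rev

/-- The regions. -/
abbrev Diagram.Region : Type := Orb (M.rot * M.rev)

/-- The crossing at which the dart `d` starts. -/
def Diagram.vert (d : D) : M.Crossing := Quotient.mk _ d

/-- The edge of the dart `d`. -/
def Diagram.edge (d : D) : M.Edge := Quotient.mk _ d

/-- The region on one side of the dart `d`; the region on the other side is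
`M.region (M.rev d)`. -/
def Diagram.region (d : D) : M.Region := Quotient.mk _ d

/-- The dual graph `Γ(D)` (without multiplicities of edges): two different regions are adjacent if
they are the two sides of an edge. -/
def Diagram.dual : SimpleGraph M.Region where
  Adj f g := f ≠ g ∧ ∃ d, M.region d = f ∧ M.region (M.rev d) = g
  symm := ⟨by
    rintro f g ⟨h, d, h1, h2⟩
    exact ⟨h.symm, M.rev d, h2, by rw [M.rev_rev]; exact h1⟩⟩
  loopless := ⟨fun f h => h.1 rfl⟩

/-- `v` is a cut vertex of the 4-valent graph: two darts `d`, `e` starting at other crossings cannot
be joined by a walk that avoids `v` (one step of a walk goes to another dart at the same crossing,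
or along an edge). -/
def Diagram.CutVertex (v : M.Crossing) : Prop :=
  ∃ d e : D, M.vert d ≠ v ∧ M.vert e ≠ v ∧
    ¬ Relation.ReflTransGen (fun a b => M.vert b ≠ v ∧ (M.vert a = M.vert b ∨ b = M.rev a)) d e

/-- The diagram is reduced: no crossing is a cut vertex. -/
def Diagram.Reduced : Prop := ∀ v : M.Crossing, ¬ M.CutVertex v

/-- `S` is a non-separating independent set of the dual graph. -/
def Diagram.NonSeparatingIndependent (S : Set M.Region) : Prop :=
  (∀ f ∈ S, ∀ g ∈ S, ¬ M.dual.Adj f g) ∧ (M.dual.induce Sᶜ).Connected

end Q134.ND
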