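import Pool.Agent.Q134.NDHom

set_option autoImplicit false

/-!
# Exactness: mod 2 cycles of a plane graph are boundaries of sets of regions
-/

namespace Q134.ND

open Finset

variable {D : Type} (M : Diagram D)

theorem fun_add_self {X : Type} (f : X → ZMod 2) : f + f = 0 := by
  funext x
  exact CharTwo.add_self_eq_zero _

/-- The coboundary: a set of regions goes to the set of the edges between it and its
complement. -/
def cob : (M.Region → ZMod 2) →ₗ[ZMod 2] (M.Edge → ZMod 2) where
  toFun b := Quotient.lift (fun d => b (M.region d) + b (M.region (M.rev d))) (by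
    intro d e h
    have h1 : M.edge d = M.edge e := Quotient.sound h
    rcases (edge_iff M).1 h1 with rfl | rfl
    · rfl
    · show b (M.region d) + b (M.region (M.rev d)) =
        b (M.region (M.rev d)) + b (M.region (M.rev (M.rev d)))
      rw [M.rev_rev, add_comm])
  map_add' b b' := by
    funext x
    induction x using Quotient.inductionOn with
    | h d =>
      show (b + b') (M.region d) + (b + b') (M.region (M.rev d)) =
        (b (M.region d) + b (M.region (M.rev d))) + (b' (M.region d) + b' (M.region (M.rev d)))
      simp only [Pi.add_apply]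
      ring
  map_smul' r b := by
    funext x
    induction x using Quotient.inductionOn with
    | h d =>
      show (r • b) (M.region d) + (r • b) (M.region (M.rev d)) =
        r • (b (M.region d) + b (M.region (M.rev d)))
      simp only [Pi.smul_apply, smul_add]

theorem cob_apply (b : M.Region → ZMod 2) (d : D) :
    cob M b (M.edge d) = b (M.region d) + b (M.region (M.rev d)) := rfl

section Fin

variable [Fintype D]

open Classical in
/-- The boundary of a set of edges: the set of the crossings of odd degree. -/
noncomputable def bdr : (M.Edge → ZMod 2) →ₗ[ZMod 2] (M.Crossing → ZMod 2) where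
  toFun c w := ∑ e : D, if M.vert e = w then c (M.edge e) else 0
  map_add' c c' := by
    funext w
    simp only [Pi.add_apply]
    rw [← Finset.sum_add_distrib]
    apply Finset.sum_congr rfl
    intro e _
    split_ifs <;> simp
  map_smul' r c := by
    funext w
    simp only [Pi.smul_apply, RingHom.id_apply, smul_eq_mul]
    rw [Finset.mul_sum]
    apply Finset.sum_congr rfl
    intro e _
    split_ifs <;> simp

open Classical in
theorem bdr_apply (c : M.Edge → ZMod 2) (w : M.Crossing) :
    bdr M c w = ∑ e : D, if M.vert e = w then c (M.edge e) else 0 := rfl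

theorem bdr_cob (b : M.Region → ZMod 2) : bdr M (cob M b) = 0 := by
  classical
  funext w
  rw [bdr_apply]
  simp only [cob_apply, ← region_rot]
  have h1 : ∑ e : D, (if M.vert e = w then b (M.region e) + b (M.region (M.rot e)) else 0) =
      ∑ e : D, (if M.vert e = w then b (M.region e) else 0) +
      ∑ e : D, (if M.vert (M.rot e) = w then b (M.region (M.rot e)) else 0) := by
    rw [← Finset.sum_add_distrib]
    apply Finset.sum_congr rfl
    intro e _
    rw [vert_rot]
    split_ifs <;> simp
  rw [h1, Equiv.sum_comp M.rot (fun e => if M.vert e = w then b (M.region e) else 0),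
    CharTwo.add_self_eq_zero]
  rfl

open Classical in
theorem bdr_single (d : D) : bdr M (Pi.single (M.edge d) 1) =
    Pi.single (M.vert d) 1 + Pi.single (M.vert (M.rev d)) 1 := by
  funext w
  rw [bdr_apply]
  have h1 : ∀ e : D, (if M.vert e = w then (Pi.single (M.edge d) (1 : ZMod 2) : M.Edge → ZMod 2)
      (M.edge e) else 0) = if e ∈ ({d, M.rev d} : Finset D) then
        (if M.vert e = w then (1 : ZMod 2) else 0) else 0 := by
    intro e
    have h2 : e ∈ ({d, M.rev d} : Finset D) ↔ M.edge e = M.edge d := by
      rw [mem_insert, mem_singleton, ← edge_iff]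
      exact ⟨fun h => h.symm, fun h => h.symm⟩
    by_cases h3 : M.edge e = M.edge d
    · rw [if_pos (h2.2 h3), h3, Pi.single_eq_same]
    · rw [if_neg (fun h => h3 (h2.1 h)), Pi.single_eq_of_ne h3]
      simp
  rw [Finset.sum_congr rfl (fun e _ => h1 e), Finset.sum_ite_mem, Finset.univ_inter,
    Finset.sum_pair (fun h => M.rev_ne _ h.symm), Pi.add_apply, Pi.single_apply, Pi.single_apply]
  congr 1
  · by_cases h : M.vert d = w
    · rw [if_pos h, if_pos h.symm]
    · rw [if_neg h, if_neg (fun h' => h h'.symm)]
  · by_cases h : M.vert (M.rev d) = w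
    · rw [if_pos h, if_pos h.symm]
    · rw [if_neg h, if_neg (fun h' => h h'.symm)]

open Classical in
theorem pair_mem_range (d e : D) :
    (Pi.single (M.vert d) 1 + Pi.single (M.vert e) 1 : M.Crossing → ZMod 2) ∈
      LinearMap.range (bdr M) := by
  have h := M.conn d e
  induction h with
  | refl =>
    rw [fun_add_self]
    exact zero_mem _
  | tail hab hbc ih =>
    rename_i b c
    rcases hbc with rfl | rfl
    · rw [vert_rot]
      exact ih
    · have h1 : bdr M (Pi.single (M.edge b) 1) ∈ LinearMap.range (bdr M) := ⟨_, rfl⟩
      rw [bdr_single] at h1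
      have h2 := add_mem ih h1
      have h3 : (Pi.single (M.vert d) 1 + Pi.single (M.vert b) 1 +
          (Pi.single (M.vert b) 1 + Pi.single (M.vert (M.rev b)) 1) : M.Crossing → ZMod 2) =
          Pi.single (M.vert d) 1 + Pi.single (M.vert (M.rev b)) 1 := by
        rw [add_assoc, ← add_assoc (Pi.single (M.vert b) 1 : M.Crossing → ZMod 2),
          fun_add_self, zero_add]
      rw [h3] at h2
      exact h2

theorem rank_bdr [Nonempty D] :
    Nat.card M.Crossing ≤ Module.finrank (ZMod 2) (LinearMap.range (bdr M)) + 1 := by
  classical
  obtain ⟨d₀⟩ := ‹Nonempty D›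
  set W : Submodule (ZMod 2) (M.Crossing → ZMod 2) :=
    Submodule.span (ZMod 2) {Pi.single (M.vert d₀) 1} with hW
  have htop : LinearMap.range (bdr M) ⊔ W = ⊤ := by
    rw [eq_top_iff]
    intro h _
    have h1 : h = ∑ w : M.Crossing, h w • (Pi.single w (1 : ZMod 2) : M.Crossing → ZMod 2) := by
      funext x
      rw [Finset.sum_apply]
      simp [Pi.single_apply]
    rw [h1]
    apply Submodule.sum_mem
    intro w _
    apply Submodule.smul_mem
    induction w using Quotient.inductionOn with
    | h d =>
      have h2 := pair_mem_range M d d₀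
      have h3 : (Pi.single (M.vert d₀) 1 : M.Crossing → ZMod 2) ∈ W :=
        Submodule.subset_span rfl
      have h4 := Submodule.add_mem_sup h2 h3
      rw [add_assoc, fun_add_self, add_zero] at h4
      exact h4
  have h1 := Submodule.finrank_add_le_finrank_add_finrank (LinearMap.range (bdr M)) W
  rw [htop, finrank_top, Module.finrank_fintype_fun_eq_card] at h1
  have h2 : Module.finrank (ZMod 2) W ≤ 1 := by
    refine (finrank_span_le_card _).trans ?_
    simp
  rw [Nat.card_eq_fintype_card]
  omega

omit [Fintype D] in
theorem ker_cob [Finite D] [Nonempty D] :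
    Module.finrank (ZMod 2) (LinearMap.ker (cob M)) ≤ 1 := by
  classical
  have h1 : LinearMap.ker (cob M) ≤ Submodule.span (ZMod 2) {(fun _ => 1 : M.Region → ZMod 2)} := by
    intro b hb
    rw [LinearMap.mem_ker] at hb
    have h2 : ∀ d, b (M.region (M.rev d)) = b (M.region d) := by
      intro d
      have h3 := congrFun hb (M.edge d)
      rw [cob_apply] at h3
      have h4 : b (M.region d) + b (M.region (M.rev d)) = 0 := h3
      exact (CharTwo.add_eq_zero.1 h4).symm
    have h3 : ∀ d e, b (M.region d) = b (M.region e) := by
      intro d e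
      have h := M.conn d e
      induction h with
      | refl => rfl
      | tail hab hbc ih =>
        rename_i x y
        rw [ih]
        rcases hbc with rfl | rfl
        · rw [region_rot, h2]
        · rw [h2]
    obtain ⟨d₀⟩ := ‹Nonempty D›
    rw [Submodule.mem_span_singleton]
    refine ⟨b (M.region d₀), ?_⟩
    funext f
    induction f using Quotient.inductionOn with
    | h d =>
      show b (M.region d₀) * 1 = b (M.region d)
      rw [mul_one, h3 d₀ d]
  refine (Submodule.finrank_mono h1).trans ((finrank_span_le_card _).trans ?_)
  simp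

/-- Every mod 2 cycle is the coboundary of a set of regions. -/
theorem exact [Nonempty D] (c : M.Edge → ZMod 2) (hc : bdr M c = 0) : ∃ b, cob M b = c := by
  classical
  have hle : LinearMap.range (cob M) ≤ LinearMap.ker (bdr M) := by
    rintro _ ⟨b, rfl⟩
    exact bdr_cob M b
  have h1 := LinearMap.finrank_range_add_finrank_ker (cob M)
  have h2 := LinearMap.finrank_range_add_finrank_ker (bdr M)
  rw [Module.finrank_fintype_fun_eq_card, ← Nat.card_eq_fintype_card] at h1 h2
  have h3 := ker_cob M
  have h4 := rank_bdr M
  have h5 := M.euler
  have heq : LinearMap.range (cob M) = LinearMap.ker (bdr M) := by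
    apply Submodule.eq_of_le_of_finrank_le hle
    simp only [Diagram.Edge, Diagram.Crossing, Diagram.Region] at *
    omega
  have h6 : c ∈ LinearMap.ker (bdr M) := hc
  rw [← heq] at h6
  exact h6

/-- The checkerboard colouring. -/
theorem checkerboard [Nonempty D] :
    ∃ b : M.Region → ZMod 2, ∀ d, b (M.region d) + b (M.region (M.rev d)) = 1 := by
  classical
  obtain ⟨b, hb⟩ := exact M (fun _ => 1) (by
    funext w
    rw [bdr_apply]
    induction w using Quotient.inductionOn with
    | h d =>
      show ∑ e : D, (if M.vert e = M.vert d then (1 : ZMod 2) else 0) = 0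
      rw [Finset.sum_boole]
      have h1 := fiber_vert M d
      have h2 : (univ.filter (fun e => M.vert e = M.vert d)).card = 4 := by
        rw [← h1]
        congr 1
        ext e
        simp only [mem_filter, mem_univ, true_and]
        exact ⟨fun h => h.symm, fun h => h.symm⟩
      rw [h2]
      rfl)
  refine ⟨b, fun d => ?_⟩
  rw [← cob_apply, hb]

end Fin

end Q134.ND
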