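import Pool.Agent.Q134.NDDefs

set_option autoImplicit false

/-!
# Exactness: mod 2 cycles of a plane graph are boundaries of sets of regions
-/

namespace Q134.ND

open Finset

variable {D : Type} (M : Diagram D)

theorem vert_eq {d e : D} : M.vert d = M.vert e ↔ Equiv.Perm.SameCycle M.rot d e :=
  ⟨fun h => Quotient.exact h, fun h => Quotient.sound h⟩

theorem edge_eq {d e : D} : M.edge d = M.edge e ↔ Equiv.Perm.SameCycle M.rev d e :=
  ⟨fun h => Quotient.exact h, fun h => Quotient.sound h⟩

theorem region_eq {d e : D} :
    M.region d = M.region e ↔ Equiv.Perm.SameCycle (M.rot * M.rev) d e :=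
  ⟨fun h => Quotient.exact h, fun h => Quotient.sound h⟩

theorem vert_rot (d : D) : M.vert (M.rot d) = M.vert d := by
  rw [vert_eq, Equiv.Perm.sameCycle_apply_left]

theorem edge_rev (d : D) : M.edge (M.rev d) = M.edge d := by
  rw [edge_eq, Equiv.Perm.sameCycle_apply_left]

theorem region_phi (d : D) : M.region (M.rot (M.rev d)) = M.region d := by
  rw [region_eq]
  exact Equiv.Perm.sameCycle_apply_left.2 (Equiv.Perm.SameCycle.refl _ _)

theorem region_rot (d : D) : M.region (M.rot d) = M.region (M.rev d) := by
  have h := region_phi M (M.rev d)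
  rw [M.rev_rev] at h
  exact h

theorem vert_iff {d e : D} : M.vert d = M.vert e ↔
    e = d ∨ e = M.rot d ∨ e = M.rot (M.rot d) ∨ e = M.rot (M.rot (M.rot d)) := by
  constructor
  · intro h
    rw [vert_eq] at h
    obtain ⟨i, hi⟩ := h
    have h4 : M.rot ^ 4 = 1 := by
      ext d
      simp only [pow_succ, pow_zero, one_mul, Equiv.Perm.mul_apply, Equiv.Perm.one_apply]
      exact M.rot_four d
    have h4' : M.rot ^ (4 : ℤ) = 1 := by exact_mod_cast h4
    have e1 : M.rot ^ i = M.rot ^ (i % 4) := by
      conv_lhs => rw [← Int.emod_add_mul_ediv i 4]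
      rw [zpow_add, zpow_mul, h4', one_zpow, mul_one]
    rw [e1] at hi
    have h5 : i % 4 = 0 ∨ i % 4 = 1 ∨ i % 4 = 2 ∨ i % 4 = 3 := by omega
    rcases h5 with h | h | h | h <;> rw [h] at hi
    · left
      simpa using hi.symm
    · right; left
      simpa using hi.symm
    · right; right; left
      rw [← hi, show (2 : ℤ) = ((2 : ℕ) : ℤ) from rfl, zpow_natCast, pow_two]
      rfl
    · right; right; right
      rw [← hi, show (3 : ℤ) = ((3 : ℕ) : ℤ) from rfl, zpow_natCast, pow_succ, pow_two]
      rfl
  · rintro (rfl | rfl | rfl | rfl) <;> simp only [vert_rot]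

theorem edge_iff {d e : D} : M.edge d = M.edge e ↔ e = d ∨ e = M.rev d := by
  constructor
  · intro h
    rw [edge_eq] at h
    obtain ⟨i, hi⟩ := h
    have h2 : M.rev ^ 2 = 1 := by
      ext d
      simp only [pow_succ, pow_zero, one_mul, Equiv.Perm.mul_apply, Equiv.Perm.one_apply]
      exact M.rev_rev d
    have h2' : M.rev ^ (2 : ℤ) = 1 := by exact_mod_cast h2
    have e1 : M.rev ^ i = M.rev ^ (i % 2) := by
      conv_lhs => rw [← Int.emod_add_mul_ediv i 2]
      rw [zpow_add, zpow_mul, h2', one_zpow, mul_one]
    rw [e1] at hi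
    rcases Int.emod_two_eq_zero_or_one i with h | h <;> rw [h] at hi
    · left
      simpa using hi.symm
    · right
      simpa using hi.symm
  · rintro (rfl | rfl)
    · rfl
    · rw [edge_rev]

theorem rot_ne (d : D) : M.rot d ≠ d := by
  intro h
  apply M.rot_two d
  rw [h, h]

theorem rot_three (d : D) : M.rot (M.rot (M.rot d)) ≠ d := by
  intro h
  have h1 := M.rot_four d
  rw [h] at h1
  exact rot_ne M d h1

section Fin

variable [Fintype D]

open Classical in
theorem fiber_vert (d : D) : (univ.filter (fun e => M.vert d = M.vert e)).card = 4 := by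
  have h : univ.filter (fun e => M.vert d = M.vert e) =
      {d, M.rot d, M.rot (M.rot d), M.rot (M.rot (M.rot d))} := by
    ext e
    simp only [mem_filter, mem_univ, true_and, mem_insert, mem_singleton]
    exact vert_iff M
  rw [h, card_insert_of_notMem, card_insert_of_notMem, card_insert_of_notMem, card_singleton]
  · simp only [mem_singleton]
    exact fun h => rot_ne M _ h.symm
  · simp only [mem_insert, mem_singleton, not_or]
    exact ⟨fun h => rot_ne M _ h.symm, fun h => M.rot_two _ h.symm⟩
  · simp only [mem_insert, mem_singleton, not_or]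
    exact ⟨fun h => rot_ne M _ h.symm, fun h => M.rot_two _ h.symm, fun h => rot_three M _ h.symm⟩

open Classical in
theorem fiber_edge (d : D) : (univ.filter (fun e => M.edge d = M.edge e)).card = 2 := by
  have h : univ.filter (fun e => M.edge d = M.edge e) = {d, M.rev d} := by
    ext e
    simp only [mem_filter, mem_univ, true_and, mem_insert, mem_singleton]
    exact edge_iff M
  rw [h, card_pair]
  exact fun h => M.rev_ne _ h.symm

theorem card_darts_vert : Fintype.card D = 4 * Nat.card M.Crossing := by
  classical
  rw [Nat.card_eq_fintype_card, ← Finset.card_univ,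
    Finset.card_eq_sum_card_fiberwise (f := M.vert) (t := univ) (by simp)]
  rw [Finset.sum_const_nat (m := 4), Finset.card_univ, mul_comm]
  intro w _
  induction w using Quotient.inductionOn with
  | h d =>
    rw [← fiber_vert M d]
    congr 1
    ext e
    simp only [mem_filter, mem_univ, true_and]
    exact ⟨fun h => h.symm, fun h => h.symm⟩

theorem card_darts_edge : Fintype.card D = 2 * Nat.card M.Edge := by
  classical
  rw [Nat.card_eq_fintype_card, ← Finset.card_univ,
    Finset.card_eq_sum_card_fiberwise (f := M.edge) (t := univ) (by simp)]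
  rw [Finset.sum_const_nat (m := 2), Finset.card_univ, mul_comm]
  intro w _
  induction w using Quotient.inductionOn with
  | h d =>
    rw [← fiber_edge M d]
    congr 1
    ext e
    simp only [mem_filter, mem_univ, true_and]
    exact ⟨fun h => h.symm, fun h => h.symm⟩

theorem card_region : Nat.card M.Region = Nat.card M.Crossing + 2 := by
  have h1 := card_darts_vert M
  have h2 := card_darts_edge M
  have h3 := M.euler
  have h4 : Nat.card M.Edge = 2 * Nat.card M.Crossing := by omega
  simp only [Diagram.Edge, Diagram.Crossing, Diagram.Region] at *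
  omega

end Fin

end Q134.ND
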