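import Pool.Agent.Q134.NDOpp

set_option autoImplicit false

/-!
# Counting: linearly large independent non-separating sets of regions
-/

namespace Q134.ND

open Finset

variable {D : Type} (M : Diagram D)

section Fin

variable [Fintype D]

theorem region_of_curl {z y : D} (hz : M.rot (M.rev z) = z) (h : M.region z = M.region y) :
    z = y := by
  rw [region_eq] at h
  exact h.eq_of_left hz

open Classical in
/-- The darts of the curls: the regions with one side. -/
noncomputable def curls : Finset D := univ.filter (fun z => M.rot (M.rev z) = z)

theorem mem_curls {z : D} : z ∈ curls M ↔ M.rot (M.rev z) = z := by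
  classical
  simp [curls]

theorem curls_good [Nonempty D] :
    M.NonSeparatingIndependent {f | ∃ z ∈ curls M, M.region z = f} := by
  have key : ∀ d, (∃ z ∈ curls M, M.region z = M.region d) → M.rot (M.rev d) = d := by
    rintro d ⟨z, hz, h⟩
    rw [mem_curls] at hz
    have := region_of_curl M hz h
    rw [← this]
    exact hz
  apply criterion
  · intro d hd hd'
    have h1 := key d hd
    have h2 := key _ hd'
    rw [M.rev_rev] at h2
    apply M.rot_two d
    rw [h2, h1]
  · intro d hd
    exact Or.inl (key d hd)

theorem curls_card : {f | ∃ z ∈ curls M, M.region z = f}.ncard = (curls M).card := by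
  classical
  have h : {f | ∃ z ∈ curls M, M.region z = f} = (((curls M).image M.region : Finset _) :
      Set M.Region) := by
    ext f
    simp
  rw [h, Set.ncard_coe_finset, Finset.card_image_of_injOn]
  intro z hz y _ hzy
  exact region_of_curl M ((mem_curls M).1 hz) hzy

open Classical in
/-- The number of sides of a region. -/
noncomputable def sides (f : M.Region) : Finset D := univ.filter (fun d => M.region d = f)

open Classical in
/-- The small regions that do not meet a crossing with a curl. -/
noncomputable def small : Finset M.Region :=
  univ.filter (fun f => (sides M f).card ≤ 8 ∧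
    ∀ x, M.region x = f → ∀ z ∈ curls M, M.vert z ≠ M.vert x)

theorem mem_sides {f : M.Region} {d : D} : d ∈ sides M f ↔ M.region d = f := by
  classical
  simp [sides]

theorem mem_small {f : M.Region} : f ∈ small M ↔ (sides M f).card ≤ 8 ∧
    ∀ x, M.region x = f → ∀ z ∈ curls M, M.vert z ≠ M.vert x := by
  classical
  simp [small]

/-- A set of pairwise non-conflicting small regions is good. -/
theorem small_good [Nonempty D] (hred : M.Reduced) (S : Finset M.Region) (hS : S ⊆ small M)
    (hc : ∀ d e, M.region d ∈ S → M.region e ∈ S → M.vert d = M.vert e →
      M.region d = M.region e) :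
    M.NonSeparatingIndependent (S : Set M.Region) := by
  apply criterion
  · intro d hd hd'
    rw [Finset.mem_coe] at hd hd'
    rw [← region_rot] at hd'
    have h1 := hc d (M.rot d) hd hd' (vert_rot M d).symm
    rw [region_rot] at h1
    exact region_rev_ne M d h1
  · intro d hd
    right
    intro hd'
    rw [Finset.mem_coe] at hd hd'
    have h1 := hc d _ hd hd' (by rw [vert_rot, vert_rot])
    have h2 := (mem_small M).1 (hS hd)
    refine opposite M d (hred _) ?_ h1.symm
    intro y hy hk
    exact h2.2 d rfl y ((mem_curls M).2 hk) hy

/-- The number of small regions. -/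
theorem small_card (hm : 18 * (curls M).card < Nat.card M.Crossing) :
    Nat.card M.Crossing ≤ 3 * (small M).card := by
  classical
  set n := Nat.card M.Crossing with hn
  have hF : Fintype.card M.Region = n + 2 := by
    rw [← Nat.card_eq_fintype_card, card_region]
  -- the big regions
  let A : Finset M.Region := univ.filter (fun f => ¬ (sides M f).card ≤ 8)
  let B : Finset M.Region := univ.filter
    (fun f => ∃ x, M.region x = f ∧ ∃ z ∈ curls M, M.vert z = M.vert x)
  have hcover : (univ : Finset M.Region) ⊆ small M ∪ (A ∪ B) := by
    intro f _
    rw [mem_union, mem_union]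
    by_cases h1 : (sides M f).card ≤ 8
    · by_cases h2 : ∃ x, M.region x = f ∧ ∃ z ∈ curls M, M.vert z = M.vert x
      · exact Or.inr (Or.inr (by simpa [B] using h2))
      · left
        rw [mem_small]
        refine ⟨h1, fun x hx z hz h3 => h2 ⟨x, hx, z, hz, h3⟩⟩
    · exact Or.inr (Or.inl (by simpa [A] using h1))
  have h1 : n + 2 ≤ (small M).card + (A.card + B.card) := by
    rw [← hF, ← Finset.card_univ]
    exact (Finset.card_le_card hcover).trans ((Finset.card_union_le _ _).trans
      (Nat.add_le_add_left (Finset.card_union_le _ _) _))
  have hA : 9 * A.card ≤ 4 * n := by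
    have h2 : ∑ f : M.Region, (sides M f).card = 4 * n := by
      rw [hn, ← card_darts_vert, ← Finset.card_univ,
        Finset.card_eq_sum_card_fiberwise (f := M.region) (t := univ) (by simp)]
      rfl
    rw [← h2]
    calc 9 * A.card = ∑ f ∈ A, 9 := by rw [Finset.sum_const, smul_eq_mul, mul_comm]
      _ ≤ ∑ f ∈ A, (sides M f).card := by
          apply Finset.sum_le_sum
          intro f hf
          simp only [A, mem_filter, mem_univ, true_and] at hf
          omega
      _ ≤ ∑ f : M.Region, (sides M f).card :=
          Finset.sum_le_sum_of_subset (Finset.subset_univ _)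
  have hB : B.card ≤ 4 * (curls M).card := by
    have h2 : B ⊆ ((curls M).biUnion (fun z => univ.filter (fun x => M.vert z = M.vert x))).image
        M.region := by
      intro f hf
      simp only [B, mem_filter, mem_univ, true_and] at hf
      obtain ⟨x, hx, z, hz, h3⟩ := hf
      rw [mem_image]
      refine ⟨x, ?_, hx⟩
      rw [mem_biUnion]
      exact ⟨z, hz, by simpa using h3⟩
    refine (Finset.card_le_card h2).trans (Finset.card_image_le.trans
      (Finset.card_biUnion_le.trans ?_))
    rw [Finset.sum_const_nat (m := 4), mul_comm]
    intro z _
    exact fiber_vert M z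
  omega

open Classical in
/-- A maximal set of pairwise non-conflicting small regions. -/
theorem greedy : ∃ S : Finset M.Region, S ⊆ small M ∧
    (∀ d e, M.region d ∈ S → M.region e ∈ S → M.vert d = M.vert e → M.region d = M.region e) ∧
    (small M).card ≤ 32 * S.card := by
  let P : Finset M.Region → Prop := fun S => ∀ d e, M.region d ∈ S → M.region e ∈ S →
    M.vert d = M.vert e → M.region d = M.region e
  have hne : ((small M).powerset.filter P).Nonempty := by
    refine ⟨∅, ?_⟩
    rw [mem_filter]
    exact ⟨Finset.empty_mem_powerset _, fun d e h => absurd h (Finset.notMem_empty _)⟩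
  obtain ⟨S, hS, hmax⟩ := Finset.exists_max_image _ Finset.card hne
  rw [mem_filter, mem_powerset] at hS
  refine ⟨S, hS.1, hS.2, ?_⟩
  have hcov : small M ⊆ S.biUnion (fun f => (sides M f).biUnion (fun d =>
      (univ.filter (fun e => M.vert d = M.vert e)).image M.region)) := by
    intro g hg
    by_contra hcon
    have hno : ∀ d e, M.region d ∈ S → M.vert d = M.vert e → M.region e ≠ g := by
      intro d e hd hde he
      apply hcon
      rw [mem_biUnion]
      refine ⟨M.region d, hd, ?_⟩
      rw [mem_biUnion]
      refine ⟨d, (mem_sides M).2 rfl, ?_⟩
      rw [mem_image]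
      exact ⟨e, by simpa using hde, he⟩
    have hgS : g ∉ S := by
      intro h
      induction g using Quotient.inductionOn with
      | h d => exact hno d d h rfl rfl
    have h3 : insert g S ∈ (small M).powerset.filter P := by
      rw [mem_filter, mem_powerset]
      refine ⟨Finset.insert_subset hg hS.1, ?_⟩
      intro d e hd he hde
      rw [mem_insert] at hd he
      rcases hd with hd | hd
      · rcases he with he | he
        · rw [hd, he]
        · exact absurd hd (hno e d he hde.symm)
      · rcases he with he | he
        · exact absurd he (hno d e hd hde)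
        · exact hS.2 d e hd he hde
    have h4 := hmax _ h3
    rw [Finset.card_insert_of_notMem hgS] at h4
    omega
  refine (Finset.card_le_card hcov).trans (Finset.card_biUnion_le.trans ?_)
  calc ∑ f ∈ S, ((sides M f).biUnion (fun d =>
      (univ.filter (fun e => M.vert d = M.vert e)).image M.region)).card
      ≤ ∑ f ∈ S, 32 := by
        apply Finset.sum_le_sum
        intro f hf
        refine Finset.card_biUnion_le.trans ?_
        calc ∑ d ∈ sides M f, ((univ.filter (fun e => M.vert d = M.vert e)).image M.region).card
            ≤ ∑ d ∈ sides M f, 4 := by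
              apply Finset.sum_le_sum
              intro d _
              exact Finset.card_image_le.trans (fiber_vert M d).le
          _ ≤ 32 := by
              rw [Finset.sum_const, smul_eq_mul]
              have := ((mem_small M).1 (hS.1 hf)).1
              omega
    _ = 32 * S.card := by rw [Finset.sum_const, smul_eq_mul, mul_comm]

theorem main [Nonempty D] (hred : M.Reduced) : ∃ S : Set M.Region,
    M.NonSeparatingIndependent S ∧ Nat.card M.Crossing ≤ 96 * S.ncard := by
  by_cases hm : 18 * (curls M).card < Nat.card M.Crossing
  · obtain ⟨S, h1, h2, h3⟩ := greedy M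
    refine ⟨S, small_good M hred S h1 h2, ?_⟩
    rw [Set.ncard_coe_finset]
    have := small_card M hm
    omega
  · refine ⟨_, curls_good M, ?_⟩
    rw [curls_card]
    omega

end Fin

end Q134.ND
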