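import Pool.Agent.Q134.NDExact

set_option autoImplicit false

/-!
# Opposite corners at a crossing lie in different regions; a criterion for non-separating sets
-/

namespace Q134.ND

open Finset

variable {D : Type} (M : Diagram D)

section Fin

variable [Fintype D]

open Classical in
theorem avoid_chain (v : M.Crossing) {a b : D} (ha : M.vert a ≠ v)
    (h : Relation.ReflTransGen (fun a b => M.vert b ≠ v ∧ (M.vert a = M.vert b ∨ b = M.rev a))
      a b) :
    M.vert b ≠ v ∧ ∃ c : M.Edge → ZMod 2, (∀ y, M.vert y = v → c (M.edge y) = 0) ∧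
      bdr M c = Pi.single (M.vert a) 1 + Pi.single (M.vert b) 1 := by
  induction h with
  | refl =>
    refine ⟨ha, 0, fun y _ => rfl, ?_⟩
    rw [fun_add_self, map_zero]
  | tail hab hbc ih =>
    rename_i x y
    obtain ⟨hx, c, hc1, hc2⟩ := ih
    obtain ⟨hy, h1 | h1⟩ := hbc
    · exact ⟨hy, c, hc1, by rw [hc2, h1]⟩
    · refine ⟨hy, c + Pi.single (M.edge x) 1, ?_, ?_⟩
      · intro z hz
        rw [Pi.add_apply, hc1 z hz, zero_add, Pi.single_eq_of_ne]
        intro h2
        rcases (edge_iff M).1 h2.symm with rfl | rfl
        · exact hx hz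
        · exact hy (h1 ▸ hz)
      · rw [map_add, hc2, bdr_single, h1]
        rw [add_assoc, ← add_assoc (Pi.single (M.vert x) 1 : M.Crossing → ZMod 2),
          fun_add_self, zero_add]

/-- The regions of the consecutive corners at a crossing are different. -/
theorem region_rev_ne [Nonempty D] (d : D) : M.region d ≠ M.region (M.rev d) := by
  obtain ⟨b, hb⟩ := checkerboard M
  intro h
  have h1 := hb d
  rw [← h, CharTwo.add_self_eq_zero] at h1
  exact zero_ne_one h1

/-- Without curls at `v` there are no loops at `v`. -/
theorem no_loop [Nonempty D] (x : D)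
    (hk : ∀ y, M.vert y = M.vert x → M.rot (M.rev y) ≠ y) :
    M.vert (M.rev x) ≠ M.vert x := by
  obtain ⟨b, hb⟩ := checkerboard M
  intro h
  rcases (vert_iff M).1 h.symm with h1 | h1 | h1 | h1
  · exact M.rev_ne x h1
  · apply hk (M.rot x) (vert_rot M x)
    rw [← h1, M.rev_rev]
    exact h1.symm
  · have e1 := hb x
    have e2 := hb (M.rot x)
    rw [region_rot, ← region_rot M (M.rot x), ← h1, CharTwo.add_self_eq_zero] at e2
    exact zero_ne_one e2
  · apply hk x rfl
    rw [h1, M.rot_four]

/-- Opposite corners at a crossing without curl, which is not a cut vertex, lie in different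
regions. -/
theorem opposite [Nonempty D] (x : D) (hcut : ¬ M.CutVertex (M.vert x))
    (hk : ∀ y, M.vert y = M.vert x → M.rot (M.rev y) ≠ y) :
    M.region (M.rot (M.rot x)) ≠ M.region x := by
  classical
  have hv2 : M.vert (M.rot (M.rot x)) = M.vert x := by rw [vert_rot, vert_rot]
  have h1 : M.vert (M.rev x) ≠ M.vert x := no_loop M x hk
  have h2 : M.vert (M.rev (M.rot (M.rot x))) ≠ M.vert x := by
    have := no_loop M (M.rot (M.rot x)) (by rw [hv2]; exact hk)
    rwa [hv2] at this
  have hpath : Relation.ReflTransGen (fun a b => M.vert b ≠ M.vert x ∧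
      (M.vert a = M.vert b ∨ b = M.rev a)) (M.rev x) (M.rev (M.rot (M.rot x))) := by
    by_contra hcon
    exact hcut ⟨_, _, h1, h2, hcon⟩
  obtain ⟨-, c, hc1, hc2⟩ := avoid_chain M (M.vert x) h1 hpath
  obtain ⟨b, hb⟩ := exact M (c + Pi.single (M.edge x) 1 +
      Pi.single (M.edge (M.rot (M.rot x))) 1) (by
    rw [map_add, map_add, hc2, bdr_single, bdr_single, hv2]
    generalize (Pi.single (M.vert x) 1 : M.Crossing → ZMod 2) = p
    generalize (Pi.single (M.vert (M.rev x)) 1 : M.Crossing → ZMod 2) = q
    generalize (Pi.single (M.vert (M.rev (M.rot (M.rot x)))) 1 : M.Crossing → ZMod 2) = r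
    have : q + r + (p + q) + (p + r) = (q + q) + (r + r) + (p + p) := by abel
    rw [this, fun_add_self q, fun_add_self r, fun_add_self p, add_zero, add_zero])
  have e1 := congrFun hb (M.edge x)
  have e2 := congrFun hb (M.edge (M.rot x))
  rw [cob_apply, Pi.add_apply, Pi.add_apply, hc1 x rfl, Pi.single_eq_same, Pi.single_eq_of_ne]
    at e1
  · rw [cob_apply, Pi.add_apply, Pi.add_apply, hc1 (M.rot x) (vert_rot M x), Pi.single_eq_of_ne,
      Pi.single_eq_of_ne, ← region_rot M (M.rot x), region_rot M x] at e2
    · intro h3
      rw [h3] at e2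
      have e3 : b (M.region x) + b (M.region (M.rev x)) = 0 := by
        rw [add_comm, e2]
        rfl
      rw [e1] at e3
      revert e3
      decide
    · intro h3
      rcases (edge_iff M).1 h3 with h4 | h4
      · exact rot_ne M _ h4
      · have h5 := no_loop M (M.rot x) (by rw [vert_rot]; exact hk)
        rw [← h4, vert_rot, vert_rot] at h5
        exact h5 rfl
    · intro h3
      rcases (edge_iff M).1 h3.symm with h4 | h4
      · exact rot_ne M _ h4
      · rw [← h4, vert_rot] at h1
        exact h1 rfl
  · intro h3
    rcases (edge_iff M).1 h3 with h4 | h4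
    · exact M.rot_two _ h4
    · rw [← h4, hv2] at h1
      exact h1 rfl

end Fin

/-! ### The criterion -/

/-- `f` and `g` are joined by a path of the dual graph that avoids `S`. -/
def Link (S : Set M.Region) (f g : M.Region) : Prop :=
  ∃ (hf : f ∈ Sᶜ) (hg : g ∈ Sᶜ), (M.dual.induce Sᶜ).Reachable ⟨f, hf⟩ ⟨g, hg⟩

theorem Link.refl {S : Set M.Region} {f : M.Region} (h : f ∉ S) : Link M S f f :=
  ⟨h, h, SimpleGraph.Reachable.refl _⟩

theorem Link.symm {S : Set M.Region} {f g : M.Region} (h : Link M S f g) : Link M S g f := by
  obtain ⟨h1, h2, h3⟩ := h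
  exact ⟨h2, h1, h3.symm⟩

theorem Link.trans {S : Set M.Region} {f g k : M.Region} (h : Link M S f g) (h' : Link M S g k) :
    Link M S f k := by
  obtain ⟨h1, h2, h3⟩ := h
  obtain ⟨h4, h5, h6⟩ := h'
  exact ⟨h1, h5, h3.trans h6⟩

theorem link_rev {S : Set M.Region} {d : D} (h1 : M.region d ∉ S) (h2 : M.region (M.rev d) ∉ S) :
    Link M S (M.region d) (M.region (M.rev d)) := by
  by_cases h : M.region d = M.region (M.rev d)
  · rw [← h]
    exact Link.refl M h1
  · refine ⟨h1, h2, SimpleGraph.Adj.reachable ?_⟩
    exact ⟨h, d, rfl, rfl⟩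

theorem link_rot {S : Set M.Region} {d : D} (h1 : M.region d ∉ S) (h2 : M.region (M.rot d) ∉ S) :
    Link M S (M.region d) (M.region (M.rot d)) := by
  rw [region_rot] at *
  exact link_rev M h1 h2

/-- A criterion for a set of regions to be independent and non-separating. -/
theorem criterion [Finite D] [Nonempty D] (S : Set M.Region)
    (h1 : ∀ d, M.region d ∈ S → M.region (M.rev d) ∉ S)
    (h2 : ∀ d, M.region d ∈ S → M.rot (M.rev d) = d ∨ M.region (M.rot (M.rot d)) ∉ S) :
    M.NonSeparatingIndependent S := by
  classical
  refine ⟨?_, ?_⟩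
  · rintro f hf g hg ⟨-, d, rfl, rfl⟩
    exact h1 d hf hg
  have step : ∀ x, M.region x ∈ S →
      Link M S (M.region (M.rev x)) (M.region (M.rev (M.rot (M.rev x)))) := by
    intro x hx
    have hx' : M.region (M.rot (M.rev x)) ∈ S := by rw [region_phi]; exact hx
    rcases h2 _ hx' with h3 | h3
    · have h4 : M.rot (M.rev x) = x := by
        have h5 : M.rev (M.rot (M.rev x)) = M.rev x := by
          apply M.rot.injective
          exact h3
        have h6 := congrArg M.rev h5
        rwa [M.rev_rev, M.rev_rev] at h6
      rw [h4]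
      exact Link.refl M (h1 x hx)
    · set u := M.rev x with hu
      have g1 : M.region u ∉ S := h1 x hx
      have g2 : M.region (M.rot (M.rot u)) ∉ S := by
        rw [region_rot]
        exact h1 _ hx'
      have l1 : Link M S (M.region (M.rot (M.rot (M.rot u)))) (M.region u) := by
        have := link_rot M (S := S) (d := M.rot (M.rot (M.rot u))) h3 (by rw [M.rot_four]; exact g1)
        rwa [M.rot_four] at this
      have l2 : Link M S (M.region (M.rot (M.rot u))) (M.region (M.rot (M.rot (M.rot u)))) :=
        link_rot M g2 h3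
      have l3 := (Link.trans M l2 l1).symm
      rw [region_rot M (M.rot u)] at l3
      exact l3
  have steps : ∀ (n : ℕ) (x : D), M.region x ∈ S →
      Link M S (M.region (M.rev x)) (M.region (M.rev (((M.rot * M.rev) ^ n) x))) := by
    intro n
    induction n with
    | zero =>
      intro x hx
      exact Link.refl M (h1 x hx)
    | succ n ih =>
      intro x hx
      have h3 := ih x hx
      have h4 : M.region (((M.rot * M.rev) ^ n) x) = M.region x := by
        rw [region_eq]
        exact (Equiv.Perm.sameCycle_pow_left).2 (Equiv.Perm.SameCycle.refl _ _)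
      have h5 := step (((M.rot * M.rev) ^ n) x) (by rw [h4]; exact hx)
      rw [pow_succ', Equiv.Perm.mul_apply]
      exact Link.trans M h3 h5
  have hall : ∀ x y, M.region x ∈ S → M.region x = M.region y →
      Link M S (M.region (M.rev x)) (M.region (M.rev y)) := by
    intro x y hx hxy
    rw [region_eq] at hxy
    obtain ⟨n, -, hn⟩ := hxy.exists_pow_eq'
    rw [← hn]
    exact steps n x hx
  let rep : D → M.Region := fun d => if M.region d ∈ S then M.region (M.rev d) else M.region d
  have hrep : ∀ d, rep d ∉ S := by
    intro d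
    simp only [rep]
    split_ifs with h
    · exact h1 d h
    · exact h
  have hrev : ∀ b, Link M S (rep b) (rep (M.rev b)) := by
    intro b
    by_cases hb : M.region b ∈ S
    · have : rep b = rep (M.rev b) := by
        simp only [rep]
        rw [if_pos hb, if_neg (h1 b hb)]
      rw [← this]
      exact Link.refl M (hrep b)
    · by_cases hb' : M.region (M.rev b) ∈ S
      · have : rep b = rep (M.rev b) := by
          simp only [rep]
          rw [if_neg hb, if_pos hb', M.rev_rev]
        rw [← this]
        exact Link.refl M (hrep b)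
      · simp only [rep]
        rw [if_neg hb, if_neg hb']
        exact link_rev M hb hb'
  have hconn : ∀ d e, Link M S (rep d) (rep e) := by
    intro d e
    have h := M.conn d e
    induction h with
    | refl => exact Link.refl M (hrep d)
    | tail hab hbc ih =>
      rename_i x y
      refine Link.trans M ih ?_
      rcases hbc with rfl | rfl
      · by_cases hx : M.region (M.rev x) ∈ S
        · have hx0 : M.region x ∉ S := by
            have := h1 _ hx
            rwa [M.rev_rev] at this
          have h3 := hall (M.rev x) (M.rot x) hx (region_rot M x).symm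
          simp only [rep]
          rw [if_neg hx0, region_rot, if_pos hx]
          rwa [M.rev_rev] at h3
        · have h3 := hrev x
          have h4 : rep (M.rev x) = rep (M.rot x) := by
            simp only [rep]
            rw [if_neg hx, region_rot, if_neg hx]
          rwa [h4] at h3
      · exact hrev x
  have hne : Nonempty (Sᶜ : Set M.Region) := by
    obtain ⟨d⟩ := ‹Nonempty D›
    exact ⟨⟨rep d, hrep d⟩⟩
  rw [SimpleGraph.connected_iff]
  refine ⟨?_, hne⟩
  rintro ⟨f, hf⟩ ⟨g, hg⟩
  induction f using Quotient.inductionOn with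
  | h d =>
    induction g using Quotient.inductionOn with
    | h e =>
      obtain ⟨h3, h4, h5⟩ := hconn d e
      have e1 : rep d = M.region d := if_neg hf
      have e2 : rep e = M.region e := if_neg hg
      have : (⟨rep d, h3⟩ : (Sᶜ : Set M.Region)) = ⟨M.region d, hf⟩ := Subtype.ext e1
      have h6 : (⟨rep e, h4⟩ : (Sᶜ : Set M.Region)) = ⟨M.region e, hg⟩ := Subtype.ext e2
      rw [this, h6] at h5
      exact h5

end Q134.ND
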