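import Mathlib

/-!
# Sparse path-pairable graphs of large diameter: the graph

Three hubs `0, 1, 2`; `b` pendant vertices at hub `0` and `b` at hub `1`; `r` relays, joined to all
three hubs; the binary tree of depth `D`, whose leaves are joined to the hubs `0` and `1`; hub `2` is
joined to the hubs `0` and `1`.
-/

set_option autoImplicit false

namespace Pool.Agent.Q134.PD

open Finset

/-- `G` is path-pairable: for every perfect pairing `{s i, t i}` of the vertices there are pairwise
edge-disjoint paths joining `s i` to `t i`. -/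
def PathPairable {V : Type} (G : SimpleGraph V) : Prop :=
  ∀ (k : ℕ) (s t : Fin k → V), Function.Bijective (Sum.elim s t) →
    ∃ p : (i : Fin k) → G.Walk (s i) (t i), (∀ i, (p i).IsPath) ∧
      ∀ i j, i ≠ j → ∀ e ∈ (p i).edges, e ∉ (p j).edges

/-- vertices of the binary tree of depth `D` -/
abbrev TV (D : ℕ) : Type := {l : List Bool // l.length ≤ D}

noncomputable instance (D : ℕ) : Fintype (TV D) := (List.finite_length_le Bool D).fintype

/-- the vertices -/
inductive Vx (D b r : ℕ) : Type
  | hub : Fin 3 → Vx D b r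
  | pend : Fin 2 → Fin b → Vx D b r
  | rel : Fin r → Vx D b r
  | tr : TV D → Vx D b r

variable {D b r : ℕ}

open Vx

/-- the vertices as a sum -/
def sumEquiv (D b r : ℕ) : Vx D b r ≃ Fin 3 ⊕ (Fin 2 × Fin b) ⊕ Fin r ⊕ TV D where
  toFun v := match v with
    | hub c => Sum.inl c
    | pend j i => Sum.inr (Sum.inl (j, i))
    | rel q => Sum.inr (Sum.inr (Sum.inl q))
    | tr l => Sum.inr (Sum.inr (Sum.inr l))
  invFun x := match x with
    | Sum.inl c => hub c
    | Sum.inr (Sum.inl (j, i)) => pend j i
    | Sum.inr (Sum.inr (Sum.inl q)) => rel q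
    | Sum.inr (Sum.inr (Sum.inr l)) => tr l
  left_inv v := by cases v <;> rfl
  right_inv x := by rcases x with c | ⟨j, i⟩ | q | l <;> rfl

noncomputable instance : Fintype (Vx D b r) := Fintype.ofEquiv _ (sumEquiv D b r).symm

noncomputable instance : DecidableEq (Vx D b r) := Classical.decEq _

instance : Nonempty (Vx D b r) := ⟨hub 0⟩

lemma card_vx : Fintype.card (Vx D b r) = 3 + (2 * b + (r + Fintype.card (TV D))) := by
  rw [Fintype.card_congr (sumEquiv D b r)]
  simp

/-- the oriented edges -/
def Ad : Vx D b r → Vx D b r → Prop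
  | hub c, hub c' => c = 2 ∧ c' ≠ 2
  | hub c, pend j _ => c.val = j.val
  | hub _, rel _ => True
  | hub c, tr l => l.1.length = D ∧ c ≠ 2
  | tr l, tr l' => ∃ x : Bool, l'.1 = x :: l.1
  | _, _ => False

/-- the graph -/
def G (D b r : ℕ) : SimpleGraph (Vx D b r) := SimpleGraph.fromRel Ad

lemma adj_of {u v : Vx D b r} (hne : u ≠ v) (h : Ad u v) : (G D b r).Adj u v := ⟨hne, Or.inl h⟩

lemma adj_hub (c : Fin 3) (h : c ≠ 2) : (G D b r).Adj (hub 2) (hub c) :=
  adj_of (by intro h'; exact h (Vx.hub.inj h').symm) ⟨rfl, h⟩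

lemma adj_pend (j : Fin 2) (i : Fin b) (c : Fin 3) (h : c.val = j.val) :
    (G D b r).Adj (hub c) (pend j i) := adj_of (by simp) h

lemma adj_rel (c : Fin 3) (q : Fin r) : (G D b r).Adj (hub c) (rel q) := adj_of (by simp) trivial

lemma adj_leaf (c : Fin 3) (l : TV D) (hl : l.1.length = D) (hc : c ≠ 2) :
    (G D b r).Adj (hub c) (tr l) := adj_of (by simp) ⟨hl, hc⟩

lemma adj_tree (l l' : TV D) (x : Bool) (h : l'.1 = x :: l.1) : (G D b r).Adj (tr l) (tr l') := by
  refine adj_of ?_ ⟨x, h⟩
  intro h'
  have h1 := Vx.tr.inj h'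
  rw [← h1] at h
  have := congrArg List.length h
  simp at this

/-! ### distance -/

/-- level -/
def lev : Vx D b r → ℕ
  | tr l => l.1.length
  | _ => D + 1

lemma lev_ad {u v : Vx D b r} (h : Ad u v) : lev v ≤ lev u + 1 ∧ lev u ≤ lev v + 1 := by
  cases u <;> cases v <;> simp only [Ad, lev] at h ⊢ <;> try omega
  · rename_i l l'
    obtain ⟨x, hx⟩ := h
    rw [hx, List.length_cons]
    omega

lemma lev_adj {u v : Vx D b r} (h : (G D b r).Adj u v) : lev v ≤ lev u + 1 := by
  rcases h.2 with h | h
  · exact (lev_ad h).1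
  · exact (lev_ad h).2

lemma lev_walk {u v : Vx D b r} (p : (G D b r).Walk u v) : lev v ≤ lev u + p.length := by
  induction p with
  | nil => simp
  | cons h p ih =>
    have := lev_adj h
    rw [SimpleGraph.Walk.length_cons]
    omega

lemma reach_tree : ∀ (m : ℕ) (l : TV D), D - l.1.length = m →
    (G D b r).Reachable (tr l) (hub 0) := by
  intro m
  induction m with
  | zero =>
    intro l hl
    have h1 : l.1.length = D := by have := l.2; omega
    exact (adj_leaf 0 l h1 (by decide)).symm.reachable
  | succ m ih =>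
    intro l hl
    have h1 : (true :: l.1).length ≤ D := by rw [List.length_cons]; omega
    exact (adj_tree l ⟨true :: l.1, h1⟩ true rfl).reachable.trans
      (ih ⟨true :: l.1, h1⟩ (by simp only [List.length_cons]; omega))

lemma reach (v : Vx D b r) : (G D b r).Reachable v (hub 0) := by
  cases v with
  | hub c =>
    by_cases h : c = 2
    · subst h; exact (adj_hub 0 (by decide)).reachable
    · by_cases h0 : c = 0
      · subst h0; exact SimpleGraph.Reachable.refl _
      · exact (adj_hub c h).symm.reachable.trans (adj_hub 0 (by decide)).reachable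
  | pend j i =>
    have h1 : (G D b r).Adj (hub j.castSucc) (pend j i) := adj_pend j i _ rfl
    refine h1.symm.reachable.trans ?_
    by_cases h0 : j.castSucc = (0 : Fin 3)
    · rw [h0]
    · have h2 : j.castSucc ≠ (2 : Fin 3) := by
        intro h
        have := congrArg Fin.val h
        simp at this
        omega
      exact (adj_hub _ h2).symm.reachable.trans (adj_hub 0 (by decide)).reachable
  | rel q => exact (adj_rel 0 q).symm.reachable
  | tr l => exact reach_tree _ l rfl

lemma connected : (G D b r).Connected := by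
  rw [SimpleGraph.connected_iff]
  exact ⟨fun u v => (reach u).trans (reach v).symm, ⟨hub 0⟩⟩

theorem diam_ge : D + 1 ≤ (G D b r).diam := by
  have h1 : D + 1 ≤ (G D b r).dist (tr ⟨[], by simp⟩) (hub 0) := by
    obtain ⟨p, hp⟩ := (connected (D := D) (b := b) (r := r)).exists_walk_length_eq_dist
      (tr ⟨[], by simp⟩) (hub 0)
    have := lev_walk p
    rw [hp] at this
    simpa [lev] using this
  refine h1.trans (SimpleGraph.dist_le_diam ?_)
  exact SimpleGraph.connected_iff_ediam_ne_top.mp connected

/-! ### number of edges -/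

/-- the edges are covered by this map -/
def cover : Fin 3 ⊕ (Fin 2 × Fin b) ⊕ (Fin 3 × Fin r) ⊕ (Fin 2 × TV D) ⊕ TV D → Sym2 (Vx D b r)
  | Sum.inl c => s(hub 2, hub c)
  | Sum.inr (Sum.inl (j, i)) => s(hub j.castSucc, pend j i)
  | Sum.inr (Sum.inr (Sum.inl (c, q))) => s(hub c, rel q)
  | Sum.inr (Sum.inr (Sum.inr (Sum.inl (j, l)))) => s(hub j.castSucc, tr l)
  | Sum.inr (Sum.inr (Sum.inr (Sum.inr l))) => s(tr ⟨l.1.tail, by
      have := l.2; rw [List.length_tail]; omega⟩, tr l)

lemma cover_ad {u v : Vx D b r} (h : Ad u v) : ∃ x, cover x = s(u, v) := by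
  cases u with
  | hub c =>
    cases v with
    | hub c' =>
      obtain ⟨rfl, _⟩ := h
      exact ⟨Sum.inl c', rfl⟩
    | pend j i =>
      have h1 : c = j.castSucc := Fin.ext h
      subst h1
      exact ⟨Sum.inr (Sum.inl (j, i)), rfl⟩
    | rel q => exact ⟨Sum.inr (Sum.inr (Sum.inl (c, q))), rfl⟩
    | tr l =>
      have h1 : c.val < 2 := by
        have h2 : c ≠ 2 := h.2
        have h3 : c.val ≠ 2 := fun h => h2 (Fin.ext h)
        omega
      refine ⟨Sum.inr (Sum.inr (Sum.inr (Sum.inl (⟨c.val, h1⟩, l)))), ?_⟩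
      rfl
  | pend j i => cases v <;> exact absurd h (by simp [Ad])
  | rel q => cases v <;> exact absurd h (by simp [Ad])
  | tr l =>
    cases v with
    | tr l' =>
      obtain ⟨x, hx⟩ := h
      refine ⟨Sum.inr (Sum.inr (Sum.inr (Sum.inr l'))), ?_⟩
      have h1 : (⟨l'.1.tail, by have := l'.2; rw [List.length_tail]; omega⟩ : TV D) = l :=
        Subtype.ext (by simp [hx])
      show s(tr _, tr l') = s(tr l, tr l')
      rw [h1]
    | hub c => exact absurd h (by simp [Ad])
    | pend j i => exact absurd h (by simp [Ad])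
    | rel q => exact absurd h (by simp [Ad])

theorem card_edges : (G D b r).edgeSet.ncard ≤ 3 + (2 * b + (3 * r + (2 * Fintype.card (TV D) +
    Fintype.card (TV D)))) := by
  classical
  have h1 : (G D b r).edgeSet ⊆ Set.range (cover (D := D) (b := b) (r := r)) := by
    intro e he
    induction e with
    | _ u v =>
      rw [SimpleGraph.mem_edgeSet] at he
      rcases he.2 with h | h
      · exact cover_ad h
      · obtain ⟨x, hx⟩ := cover_ad h
        exact ⟨x, by rw [hx, Sym2.eq_swap]⟩
  refine (Set.ncard_le_ncard h1 (Set.toFinite _)).trans ?_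
  have h2 : (Set.range (cover (D := D) (b := b) (r := r))).ncard ≤
      Nat.card (Fin 3 ⊕ (Fin 2 × Fin b) ⊕ (Fin 3 × Fin r) ⊕ (Fin 2 × TV D) ⊕ TV D) := by
    rw [← Set.image_univ, ← Set.ncard_univ]
    exact Set.ncard_image_le (Set.toFinite _)
  refine h2.trans ?_
  rw [Nat.card_eq_fintype_card]
  simp

end Pool.Agent.Q134.PD
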