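import Pool.Agent.Q134.PDGraph

/-!
# Sparse path-pairable graphs of large diameter: the routing
-/

set_option autoImplicit false

namespace Pool.Agent.Q134.PD

open Finset Vx

/-- Every element of `P` gets one element of `R2`, or one of `R1` and one of `R0`, and no element is
used twice. -/
lemma assign {α β : Type} [DecidableEq α] [DecidableEq β] (P : Finset α) (R0 R1 R2 : Finset β)
    (h01 : Disjoint R0 R1) (h02 : Disjoint R0 R2) (h12 : Disjoint R1 R2)
    (h1 : P.card ≤ R2.card + R1.card) (h0 : P.card ≤ R2.card + R0.card) :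
    ∃ Us : α → β → Prop, (∀ v v' q, Us v q → Us v' q → v = v') ∧
      ∀ v ∈ P, (∃ q ∈ R2, Us v q) ∨ (∃ q ∈ R1, ∃ q' ∈ R0, Us v q ∧ Us v q') := by
  obtain ⟨A, hA, hAc⟩ := Finset.exists_subset_card_eq (s := P) (n := min P.card R2.card)
    (min_le_left _ _)
  have hBc : (P \ A).card = P.card - min P.card R2.card := by
    rw [card_sdiff_of_subset hA, hAc]
  obtain ⟨f2⟩ : Nonempty (A ↪ R2) := by
    rw [Function.Embedding.nonempty_iff_card_le, Fintype.card_coe, Fintype.card_coe, hAc]
    exact min_le_right _ _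
  obtain ⟨f1⟩ : Nonempty ((P \ A : Finset α) ↪ R1) := by
    rw [Function.Embedding.nonempty_iff_card_le, Fintype.card_coe, Fintype.card_coe, hBc]
    omega
  obtain ⟨f0⟩ : Nonempty ((P \ A : Finset α) ↪ R0) := by
    rw [Function.Embedding.nonempty_iff_card_le, Fintype.card_coe, Fintype.card_coe, hBc]
    omega
  refine ⟨fun v q => (∃ h : v ∈ A, (f2 ⟨v, h⟩ : β) = q) ∨ (∃ h : v ∈ P \ A, (f1 ⟨v, h⟩ : β) = q) ∨
    (∃ h : v ∈ P \ A, (f0 ⟨v, h⟩ : β) = q), ?_, ?_⟩
  · have d01 : ∀ q, q ∈ R0 → q ∈ R1 → False := fun q h h' => Finset.disjoint_left.mp h01 h h'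
    have d02 : ∀ q, q ∈ R0 → q ∈ R2 → False := fun q h h' => Finset.disjoint_left.mp h02 h h'
    have d12 : ∀ q, q ∈ R1 → q ∈ R2 → False := fun q h h' => Finset.disjoint_left.mp h12 h h'
    rintro v v' q (⟨h, e⟩ | ⟨h, e⟩ | ⟨h, e⟩) (⟨h', e'⟩ | ⟨h', e'⟩ | ⟨h', e'⟩)
    · have := f2.injective (Subtype.ext (e.trans e'.symm))
      exact Subtype.mk.inj this
    · exact (d12 q (e' ▸ (f1 ⟨v', h'⟩).2) (e ▸ (f2 ⟨v, h⟩).2)).elim
    · exact (d02 q (e' ▸ (f0 ⟨v', h'⟩).2) (e ▸ (f2 ⟨v, h⟩).2)).elim
    · exact (d12 q (e ▸ (f1 ⟨v, h⟩).2) (e' ▸ (f2 ⟨v', h'⟩).2)).elim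
    · have := f1.injective (Subtype.ext (e.trans e'.symm))
      exact Subtype.mk.inj this
    · exact (d01 q (e' ▸ (f0 ⟨v', h'⟩).2) (e ▸ (f1 ⟨v, h⟩).2)).elim
    · exact (d02 q (e ▸ (f0 ⟨v, h⟩).2) (e' ▸ (f2 ⟨v', h'⟩).2)).elim
    · exact (d01 q (e ▸ (f0 ⟨v, h⟩).2) (e' ▸ (f1 ⟨v', h'⟩).2)).elim
    · have := f0.injective (Subtype.ext (e.trans e'.symm))
      exact Subtype.mk.inj this
  · intro v hv
    by_cases h : v ∈ A
    · exact Or.inl ⟨_, (f2 ⟨v, h⟩).2, Or.inl ⟨h, rfl⟩⟩
    · have h' : v ∈ P \ A := mem_sdiff.mpr ⟨hv, h⟩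
      exact Or.inr ⟨_, (f1 ⟨v, h'⟩).2, _, (f0 ⟨v, h'⟩).2, Or.inr (Or.inl ⟨h', rfl⟩),
        Or.inr (Or.inr ⟨h', rfl⟩)⟩

/-- the inner vertex of the tree whose path passes from the parent of `l` to `l` -/
def recv : List Bool → Option (List Bool)
  | [] => none
  | false :: l => some l
  | true :: l => recv l

variable {D b r k : ℕ}

/-- the basic exits -/
def e0 : Vx D b r → Fin 3
  | hub c => c
  | pend j _ => j.castSucc
  | rel _ => 2
  | tr l => if l.1.length = D then 0 else 1

/-- the exit hub -/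
def ex (M : Vx D b r → Vx D b r) (v : Vx D b r) : Fin 3 := if e0 v = 2 then e0 (M v) else e0 v

/-- the owners of the oriented edges -/
def Od (idx : Vx D b r → Fin k) (M : Vx D b r → Vx D b r) (Us : Vx D b r → Fin r → Prop) :
    Vx D b r → Vx D b r → Fin k → Prop
  | hub c, hub c', i => c = 2 ∧ c' ≠ 2 ∧ i = idx (hub 2)
  | hub _, pend j x, i => i = idx (pend j x)
  | hub c, rel q, i => (c = ex M (rel q) ∧ i = idx (rel q)) ∨
      (c ≠ ex M (rel q) ∧ ∃ v, Us v q ∧ i = idx v)
  | hub c, tr l, i => (c = 0 ∧ i = idx (tr l)) ∨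
      (c ≠ 0 ∧ ∃ l0 : TV D, recv l.1 = some l0.1 ∧ i = idx (tr l0))
  | tr l, tr l', i => (∃ x, l'.1 = x :: l.1) ∧ ∃ l0 : TV D, recv l'.1 = some l0.1 ∧ i = idx (tr l0)
  | _, _, _ => False

variable {idx : Vx D b r → Fin k} {M : Vx D b r → Vx D b r} {Us : Vx D b r → Fin r → Prop}

lemma od_unique (hUs : ∀ v v' q, Us v q → Us v' q → v = v') {u v : Vx D b r} {i j : Fin k}
    (h : Od idx M Us u v i) (h' : Od idx M Us u v j) : i = j := by
  have hr : ∀ l : List Bool, (∃ l0 : TV D, recv l = some l0.1 ∧ i = idx (tr l0)) →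
      (∃ l0 : TV D, recv l = some l0.1 ∧ j = idx (tr l0)) → i = j := by
    rintro l ⟨l0, h1, rfl⟩ ⟨l1, h2, rfl⟩
    rw [h1] at h2
    rw [Subtype.ext (Option.some.inj h2)]
  cases u with
  | hub c =>
    cases v with
    | hub c' => exact h.2.2.trans h'.2.2.symm
    | pend j' x => exact (show i = _ from h).trans (show j = _ from h').symm
    | rel q =>
      rcases h with ⟨h1, h2⟩ | ⟨h1, v, h2, h3⟩ <;> rcases h' with ⟨h1', h2'⟩ | ⟨h1', v', h2', h3'⟩
      · rw [h2, h2']
      · exact absurd h1 h1'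
      · exact absurd h1' h1
      · rw [h3, h3', hUs v v' q h2 h2']
    | tr l =>
      rcases h with ⟨h1, h2⟩ | ⟨h1, h2⟩ <;> rcases h' with ⟨h1', h2'⟩ | ⟨h1', h2'⟩
      · rw [h2, h2']
      · exact absurd h1 h1'
      · exact absurd h1' h1
      · exact hr _ h2 h2'
  | pend j' x => cases v <;> exact absurd h (by simp [Od])
  | rel q => cases v <;> exact absurd h (by simp [Od])
  | tr l =>
    cases v with
    | tr l' => exact hr _ h.2 h'.2
    | hub c => exact absurd h (by simp [Od])
    | pend j' x => exact absurd h (by simp [Od])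
    | rel q => exact absurd h (by simp [Od])

lemma od_asymm {u v : Vx D b r} {i j : Fin k} (h : Od idx M Us u v i) (h' : Od idx M Us v u j) :
    False := by
  cases u with
  | hub c =>
    cases v with
    | hub c' => exact h.2.1 h'.1
    | pend j' x => exact h'
    | rel q => exact h'
    | tr l => exact h'
  | pend j' x => cases v <;> exact absurd h (by simp [Od])
  | rel q => cases v <;> exact absurd h (by simp [Od])
  | tr l =>
    cases v with
    | tr l' =>
      obtain ⟨⟨x, hx⟩, _⟩ := h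
      obtain ⟨⟨y, hy⟩, _⟩ := h'
      rw [hx] at hy
      have := congrArg List.length hy
      simp at this
      omega
    | hub c => exact absurd h (by simp [Od])
    | pend j' x => exact absurd h (by simp [Od])
    | rel q => exact absurd h (by simp [Od])

/-- `i` owns the edge `e` -/
def OE (idx : Vx D b r → Fin k) (M : Vx D b r → Vx D b r) (Us : Vx D b r → Fin r → Prop)
    (e : Sym2 (Vx D b r)) (i : Fin k) : Prop := ∃ u v, e = s(u, v) ∧ Od idx M Us u v i

lemma oe_unique (hUs : ∀ v v' q, Us v q → Us v' q → v = v') {e : Sym2 (Vx D b r)} {i j : Fin k}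
    (h : OE idx M Us e i) (h' : OE idx M Us e j) : i = j := by
  obtain ⟨u, v, rfl, h1⟩ := h
  obtain ⟨u', v', h2, h3⟩ := h'
  rw [Sym2.eq_iff] at h2
  rcases h2 with ⟨rfl, rfl⟩ | ⟨rfl, rfl⟩
  · exact od_unique hUs h1 h3
  · exact (od_asymm h1 h3).elim

/-- there is a walk all of whose edges are owned by `i` -/
def Rt (idx : Vx D b r → Fin k) (M : Vx D b r → Vx D b r) (Us : Vx D b r → Fin r → Prop)
    (i : Fin k) (u v : Vx D b r) : Prop := ∃ p : (G D b r).Walk u v, ∀ e ∈ p.edges, OE idx M Us e i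

lemma Rt.refl (i : Fin k) (u : Vx D b r) : Rt idx M Us i u u :=
  ⟨SimpleGraph.Walk.nil, by simp⟩

lemma Rt.trans {i : Fin k} {u v w : Vx D b r} : Rt idx M Us i u v → Rt idx M Us i v w →
    Rt idx M Us i u w := by
  rintro ⟨p, hp⟩ ⟨q, hq⟩
  refine ⟨p.append q, fun e he => ?_⟩
  rw [SimpleGraph.Walk.edges_append, List.mem_append] at he
  exact he.elim (hp e) (hq e)

lemma Rt.symm {i : Fin k} {u v : Vx D b r} : Rt idx M Us i u v → Rt idx M Us i v u := by
  rintro ⟨p, hp⟩
  refine ⟨p.reverse, fun e he => ?_⟩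
  rw [SimpleGraph.Walk.edges_reverse, List.mem_reverse] at he
  exact hp e he

lemma Rt.single {i : Fin k} {u v : Vx D b r} (h : (G D b r).Adj u v) (ho : Od idx M Us u v i) :
    Rt idx M Us i u v := by
  refine ⟨SimpleGraph.Walk.cons h SimpleGraph.Walk.nil, fun e he => ?_⟩
  simp only [SimpleGraph.Walk.edges_cons, SimpleGraph.Walk.edges_nil, List.mem_singleton] at he
  exact ⟨u, v, he, ho⟩

lemma down (l0 : TV D) : ∀ (m : ℕ) (l : TV D), D - l.1.length = m → recv l.1 = some l0.1 →
    Rt idx M Us (idx (tr l0)) (tr l) (hub 1) := by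
  intro m
  induction m with
  | zero =>
    intro l hl hr
    have h1 : l.1.length = D := by have := l.2; omega
    exact (Rt.single (adj_leaf 1 l h1 (by decide)) (Or.inr ⟨by decide, l0, hr, rfl⟩)).symm
  | succ m ih =>
    intro l hl hr
    have h1 : (true :: l.1).length ≤ D := by rw [List.length_cons]; omega
    exact (Rt.single (adj_tree l ⟨true :: l.1, h1⟩ true rfl) ⟨⟨true, rfl⟩, l0, hr, rfl⟩).trans
      (ih ⟨true :: l.1, h1⟩ (by simp only [List.length_cons]; omega) hr)

lemma fin3_cases (c : Fin 3) : c = 0 ∨ c = 1 ∨ c = 2 := by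
  revert c; decide

lemma exit_walk (v : Vx D b r) : Rt idx M Us (idx v) v (hub (ex M v)) := by
  cases v with
  | hub c =>
    by_cases hc : c = 2
    · subst hc
      have h1 : ex M (hub 2 : Vx D b r) = e0 (M (hub 2)) := if_pos rfl
      rw [h1]
      rcases fin3_cases (e0 (M (hub 2 : Vx D b r))) with h | h | h
      · rw [h]
        exact Rt.single (adj_hub 0 (by decide)) ⟨rfl, by decide, rfl⟩
      · rw [h]
        exact Rt.single (adj_hub 1 (by decide)) ⟨rfl, by decide, rfl⟩
      · rw [h]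
        exact Rt.refl _ _
    · have h1 : ex M (hub c : Vx D b r) = c := if_neg hc
      rw [h1]
      exact Rt.refl _ _
  | pend j i =>
    have h1 : ex M (pend j i : Vx D b r) = j.castSucc := by
      refine if_neg ?_
      intro h
      have := congrArg Fin.val h
      simp [e0] at this
      omega
    rw [h1]
    exact (Rt.single (adj_pend j i _ rfl) rfl).symm
  | rel q => exact (Rt.single (adj_rel _ q) (Or.inl ⟨rfl, rfl⟩)).symm
  | tr l =>
    by_cases hl : l.1.length = D
    · have h0 : e0 (tr l : Vx D b r) = 0 := if_pos hl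
      have h1 : ex M (tr l : Vx D b r) = 0 := by
        unfold ex
        rw [h0]
        rfl
      rw [h1]
      exact (Rt.single (adj_leaf 0 l hl (by decide)) (Or.inl ⟨rfl, rfl⟩)).symm
    · have h0 : e0 (tr l : Vx D b r) = 1 := if_neg hl
      have h1 : ex M (tr l : Vx D b r) = 1 := by
        unfold ex
        rw [h0]
        rfl
      rw [h1]
      have h2 : (false :: l.1).length ≤ D := by
        have := l.2
        rw [List.length_cons]; omega
      exact (Rt.single (adj_tree l ⟨false :: l.1, h2⟩ false rfl)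
        ⟨⟨false, rfl⟩, l, rfl, rfl⟩).trans (down l _ ⟨false :: l.1, h2⟩ rfl rfl)

lemma card_e0 (c : Fin 3) (hc : c ≠ 2) :
    (univ.filter fun v : Vx D b r => e0 v = c).card ≤ b + Fintype.card (TV D) + 1 := by
  classical
  have h1 : (univ.filter fun v : Vx D b r => e0 v = c) ⊆
      univ.image (fun x : Fin b ⊕ TV D ⊕ Unit => match x with
        | Sum.inl i => pend ⟨c.val, by
            have : c.val ≠ 2 := fun h => hc (Fin.ext h)
            omega⟩ i
        | Sum.inr (Sum.inl l) => tr l
        | Sum.inr (Sum.inr _) => hub c) := by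
    intro v hv
    rw [mem_filter] at hv
    rw [mem_image]
    cases v with
    | hub c' =>
      exact ⟨Sum.inr (Sum.inr ()), mem_univ _, congrArg hub (show c = c' from hv.2.symm)⟩
    | pend j i =>
      refine ⟨Sum.inl i, mem_univ _, ?_⟩
      have h2 : j.castSucc = c := hv.2
      have h3 : j.val = c.val := by rw [← h2]; rfl
      show pend _ i = pend j i
      congr 1
      exact Fin.ext h3.symm
    | rel q => exact absurd hv.2.symm hc
    | tr l => exact ⟨Sum.inr (Sum.inl l), mem_univ _, rfl⟩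
  refine (card_le_card h1).trans (card_image_le.trans ?_)
  simp [add_assoc]

/-- **Theorem.** The graph is path-pairable as soon as there are enough relays. -/
theorem pathPairable (hr : b + Fintype.card (TV D) + 1 ≤ r) : PathPairable (G D b r) := by
  classical
  intro k s t hb
  let e : Fin k ⊕ Fin k ≃ Vx D b r := Equiv.ofBijective _ hb
  obtain ⟨idx, hidx⟩ : ∃ idx : Vx D b r → Fin k, ∀ v, idx v = Sum.elim id id (e.symm v) :=
    ⟨_, fun _ => rfl⟩
  obtain ⟨M, hM⟩ : ∃ M : Vx D b r → Vx D b r, ∀ v, M v = e (Sum.swap (e.symm v)) :=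
    ⟨_, fun _ => rfl⟩
  have es : ∀ i, e.symm (s i) = Sum.inl i := fun i => by
    rw [Equiv.symm_apply_eq]; rfl
  have et : ∀ i, e.symm (t i) = Sum.inr i := fun i => by
    rw [Equiv.symm_apply_eq]; rfl
  have is : ∀ i, idx (s i) = i := fun i => by rw [hidx, es]; rfl
  have it : ∀ i, idx (t i) = i := fun i => by rw [hidx, et]; rfl
  have ms : ∀ i, M (s i) = t i := fun i => by rw [hM, es]; rfl
  have mt : ∀ i, M (t i) = s i := fun i => by rw [hM, et]; rfl
  have mm : ∀ v, M (M v) = v := fun v => by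
    rw [hM (M v), hM v, Equiv.symm_apply_apply, Sum.swap_swap, Equiv.apply_symm_apply]
  have minj : Function.Injective M := fun u v h => by rw [← mm u, h, mm]
  -- the counting
  let P : Finset (Vx D b r) := univ.filter fun v => e0 v = 0 ∧ e0 (M v) = 1
  let R : Fin 3 → Finset (Fin r) := fun c => univ.filter fun q => ex M (rel q) = c
  have hexr : ∀ q, ex M (rel q : Vx D b r) = e0 (M (rel q)) := fun q => if_pos rfl
  have hdis : ∀ c c', c ≠ c' → Disjoint (R c) (R c') := by
    intro c c' hcc
    rw [Finset.disjoint_left]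
    intro q h h'
    exact hcc ((mem_filter.mp h).2.symm.trans (mem_filter.mp h').2)
  have hsum : (R 0).card + (R 1).card + (R 2).card = r := by
    have h1 : (R 0 ∪ R 1 ∪ R 2) = univ := by
      ext q
      simp only [R, mem_union, mem_filter, mem_univ, true_and, iff_true]
      rcases fin3_cases (ex M (rel q : Vx D b r)) with h | h | h <;> simp [h]
    have h2 : (R 0 ∪ R 1 ∪ R 2).card = r := by rw [h1, card_univ, Fintype.card_fin]
    rw [card_union_of_disjoint, card_union_of_disjoint (hdis 0 1 (by decide))] at h2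
    · exact h2
    · rw [disjoint_union_left]
      exact ⟨hdis 0 2 (by decide), hdis 1 2 (by decide)⟩
  have hrinj : Function.Injective (fun q : Fin r => M (rel q : Vx D b r)) := fun q q' h =>
    Vx.rel.inj (minj h)
  have hc0 : P.card + (R 0).card ≤ r := by
    have h1 : (P ∪ (R 0).image (fun q => M (rel q))) ⊆ univ.filter fun v => e0 v = 0 := by
      intro v hv
      rw [mem_union] at hv
      rw [mem_filter]
      rcases hv with hv | hv
      · exact ⟨mem_univ _, (mem_filter.mp hv).2.1⟩
      · obtain ⟨q, hq, rfl⟩ := mem_image.mp hv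
        exact ⟨mem_univ _, (hexr q).symm.trans (mem_filter.mp hq).2⟩
    have h2 : Disjoint P ((R 0).image (fun q => M (rel q))) := by
      rw [Finset.disjoint_left]
      intro v hv hv'
      obtain ⟨q, hq, rfl⟩ := mem_image.mp hv'
      have h3 := (mem_filter.mp hv).2.2
      rw [mm] at h3
      exact absurd (show (2 : Fin 3) = 1 from h3) (by decide)
    have h3 := card_le_card h1
    rw [card_union_of_disjoint h2, card_image_of_injective _ hrinj] at h3
    have h4 := card_e0 (D := D) (b := b) (r := r) 0 (by decide)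
    omega
  have hc1 : P.card + (R 1).card ≤ r := by
    have h1 : (P.image M ∪ (R 1).image (fun q => M (rel q))) ⊆ univ.filter fun v => e0 v = 1 := by
      intro v hv
      rw [mem_union] at hv
      rw [mem_filter]
      rcases hv with hv | hv
      · obtain ⟨u, hu, rfl⟩ := mem_image.mp hv
        exact ⟨mem_univ _, (mem_filter.mp hu).2.2⟩
      · obtain ⟨q, hq, rfl⟩ := mem_image.mp hv
        exact ⟨mem_univ _, (hexr q).symm.trans (mem_filter.mp hq).2⟩
    have h2 : Disjoint (P.image M) ((R 1).image (fun q => M (rel q))) := by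
      rw [Finset.disjoint_left]
      intro v hv hv'
      obtain ⟨u, hu, hu'⟩ := mem_image.mp hv
      obtain ⟨q, hq, rfl⟩ := mem_image.mp hv'
      have h3 := (mem_filter.mp hu).2.1
      rw [minj hu'] at h3
      exact absurd (show (2 : Fin 3) = 0 from h3) (by decide)
    have h3 := card_le_card h1
    rw [card_union_of_disjoint h2, card_image_of_injective _ hrinj,
      card_image_of_injective _ minj] at h3
    have h4 := card_e0 (D := D) (b := b) (r := r) 1 (by decide)
    omega
  obtain ⟨Us, hUs, hU⟩ := assign P (R 0) (R 1) (R 2) (hdis 0 1 (by decide)) (hdis 0 2 (by decide))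
    (hdis 1 2 (by decide)) (by omega) (by omega)
  -- the passes
  have pass : ∀ v ∈ P, Rt idx M Us (idx v) (hub 0) (hub 1) := by
    intro v hv
    have step : ∀ (q : Fin r) (c c' : Fin 3), Us v q → c ≠ ex M (rel q) → c' ≠ ex M (rel q) →
        Rt idx M Us (idx v) (hub c) (hub c') := by
      intro q c c' hu h h'
      exact (Rt.single (adj_rel c q) (Or.inr ⟨h, v, hu, rfl⟩)).trans
        (Rt.single (adj_rel c' q) (Or.inr ⟨h', v, hu, rfl⟩)).symm
    rcases hU v hv with ⟨q, hq, hu⟩ | ⟨q, hq, q', hq', hu, hu'⟩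
    · have h1 : ex M (rel q : Vx D b r) = 2 := (mem_filter.mp hq).2
      exact step q 0 1 hu (by rw [h1]; decide) (by rw [h1]; decide)
    · have h1 : ex M (rel q : Vx D b r) = 1 := (mem_filter.mp hq).2
      have h2 : ex M (rel q' : Vx D b r) = 0 := (mem_filter.mp hq').2
      exact (step q 0 2 hu (by rw [h1]; decide) (by rw [h1]; decide)).trans
        (step q' 2 1 hu' (by rw [h2]; decide) (by rw [h2]; decide))
  -- the routes
  have route : ∀ i, Rt idx M Us i (s i) (t i) := by
    intro i
    have h1 := exit_walk (idx := idx) (M := M) (Us := Us) (s i)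
    have h2 := exit_walk (idx := idx) (M := M) (Us := Us) (t i)
    rw [is] at h1
    rw [it] at h2
    refine h1.trans (Rt.trans ?_ h2.symm)
    unfold ex
    rw [ms, mt]
    rcases fin3_cases (e0 (s i)) with hs | hs | hs <;> rcases fin3_cases (e0 (t i)) with ht | ht | ht
      <;> rw [hs, ht]
    · exact Rt.refl _ _
    · have h3 : s i ∈ P := mem_filter.mpr ⟨mem_univ _, hs, by rw [ms]; exact ht⟩
      have h4 := pass _ h3
      rw [is] at h4
      exact h4
    · exact Rt.refl _ _
    · have h3 : t i ∈ P := mem_filter.mpr ⟨mem_univ _, ht, by rw [mt]; exact hs⟩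
      have h4 := pass _ h3
      rw [it] at h4
      exact h4.symm
    · exact Rt.refl _ _
    · exact Rt.refl _ _
    · exact Rt.refl _ _
    · exact Rt.refl _ _
    · exact Rt.refl _ _
  choose p hp using route
  refine ⟨fun i => (p i).bypass, fun i => (p i).bypass_isPath, ?_⟩
  intro i j hij e' he he'
  exact hij (oe_unique hUs (hp i e' (SimpleGraph.Walk.edges_bypass_subset_edges _ he))
    (hp j e' (SimpleGraph.Walk.edges_bypass_subset_edges _ he')))

end Pool.Agent.Q134.PD
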