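import Mathlib
import Pool.Agent.W126.SplitMain
import Pool.Agent.Q134.PathPair

set_option autoImplicit false
set_option linter.unusedSectionVars false

/-!
Paths in graphs without short cycles: a path surplus over the treewidth.
-/

namespace Pool.Agent.Q134.PT

open Finset Pool.Agent.W126.Split
open Pool.Agent.Q134.PP (trunc sing_conn)

variable {V : Type} [Fintype V] [DecidableEq V] {G : SimpleGraph V}

/-- the list is a path in `S` -/
def IsP (G : SimpleGraph V) (S : Finset V) (l : List V) : Prop :=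
  l.Nodup ∧ l.IsChain G.Adj ∧ ∀ x ∈ l, x ∈ S

/-- all paths in `S` have at most `h` vertices -/
def PL (G : SimpleGraph V) (S : Finset V) (h : ℕ) : Prop := ∀ l, IsP G S l → l.length ≤ h

/-- `K₃` is a minor of the subgraph induced by `X` -/
def HasTri (G : SimpleGraph V) (X : Finset V) : Prop :=
  ∃ B : Fin 3 → Set V, (∀ i, B i ⊆ X) ∧ (∀ i, (G.induce (B i)).Connected) ∧
    (∀ i j, i ≠ j → Disjoint (B i) (B j)) ∧ ∀ i j, i ≠ j → ∃ u ∈ B i, ∃ v ∈ B j, G.Adj u v

lemma list_conn (l : List V) (hne : l ≠ []) (hl : l.IsChain G.Adj) :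
    (G.induce {x | x ∈ l}).Connected := by
  induction l with
  | nil => exact absurd rfl hne
  | cons a l ih =>
    cases l with
    | nil =>
      have : {x | x ∈ [a]} = {a} := by ext x; simp
      rw [this]
      exact sing_conn G a
    | cons b l =>
      rw [List.isChain_cons_cons] at hl
      have h1 := ih (by simp) hl.2
      have h2 := SimpleGraph.induce_union_connected (G := G)
        (SimpleGraph.induce_pair_connected_of_adj hl.1).preconnected h1.preconnected
        ⟨b, Or.inr rfl, by simp⟩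
      have : {x | x ∈ a :: b :: l} = {a, b} ∪ {x | x ∈ b :: l} := by
        ext x
        simp only [List.mem_cons, Set.mem_ofPred_eq, Set.mem_union, Set.mem_insert_iff,
          Set.mem_singleton_iff]
        tauto
      rw [this]
      exact h2

lemma tri_of_three {X : Finset V} (A B C : Set V) (hA : A ⊆ X) (hB : B ⊆ X) (hC : C ⊆ X)
    (cA : (G.induce A).Connected) (cB : (G.induce B).Connected) (cC : (G.induce C).Connected)
    (dAB : Disjoint A B) (dAC : Disjoint A C) (dBC : Disjoint B C)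
    (eAB : ∃ u ∈ A, ∃ v ∈ B, G.Adj u v) (eAC : ∃ u ∈ A, ∃ v ∈ C, G.Adj u v)
    (eBC : ∃ u ∈ B, ∃ v ∈ C, G.Adj u v) : HasTri G X := by
  have sy : ∀ {A B : Set V}, (∃ u ∈ A, ∃ v ∈ B, G.Adj u v) → ∃ u ∈ B, ∃ v ∈ A, G.Adj u v := by
    rintro A B ⟨u, hu, v, hv, h⟩
    exact ⟨v, hv, u, hu, h.symm⟩
  refine ⟨![A, B, C], ?_, ?_, ?_, ?_⟩
  · intro i
    fin_cases i
    · exact hA
    · exact hB
    · exact hC
  · intro i
    fin_cases i
    · exact cA
    · exact cB
    · exact cC
  · intro i j hij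
    fin_cases i <;> fin_cases j
    · exact absurd rfl hij
    · exact dAB
    · exact dAC
    · exact dAB.symm
    · exact absurd rfl hij
    · exact dBC
    · exact dAC.symm
    · exact dBC.symm
    · exact absurd rfl hij
  · intro i j hij
    fin_cases i <;> fin_cases j
    · exact absurd rfl hij
    · exact eAB
    · exact eAC
    · exact sy eAB
    · exact absurd rfl hij
    · exact eBC
    · exact sy eAC
    · exact sy eBC
    · exact absurd rfl hij

lemma cyc_tri {X : Finset V} {a b : V} {l : List V} (hnd : (a :: b :: l).Nodup)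
    (hc : (a :: b :: l).IsChain G.Adj) (hx : ∃ c ∈ l, G.Adj a c) (hX : ∀ x ∈ a :: b :: l, x ∈ X) :
    HasTri G X := by
  obtain ⟨c, hcl, hac⟩ := hx
  have hl : l ≠ [] := List.ne_nil_of_mem hcl
  rw [List.isChain_cons_cons] at hc
  obtain ⟨d, l', rfl⟩ := List.exists_cons_of_ne_nil hl
  have h2 := hc.2
  rw [List.isChain_cons_cons] at h2
  rw [List.nodup_cons, List.nodup_cons] at hnd
  refine tri_of_three {a} {b} {x | x ∈ d :: l'} ?_ ?_ ?_ (sing_conn G a) (sing_conn G b)
    (list_conn _ (by simp) h2.2) ?_ ?_ ?_ ⟨a, rfl, b, rfl, hc.1⟩ ⟨a, rfl, c, hcl, hac⟩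
    ⟨b, rfl, d, by simp, h2.1⟩
  · rintro x rfl
    exact hX _ (by simp)
  · rintro x rfl
    exact hX _ (by simp)
  · intro x hx
    exact hX _ (by
      simp only [Set.mem_ofPred_eq] at hx
      exact List.mem_cons_of_mem _ (List.mem_cons_of_mem _ hx))
  · rw [Set.disjoint_singleton]
    rintro rfl
    exact hnd.1 (by simp)
  · rw [Set.disjoint_singleton_left]
    exact fun h => hnd.1 (List.mem_cons_of_mem _ h)
  · rw [Set.disjoint_singleton_left]
    exact fun h => hnd.2.1 h

/-! ### Components and connections -/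

/-- a component of the subgraph induced by `D` -/
def IsComp (G : SimpleGraph V) (D K : Finset V) : Prop := ∃ x ∈ D, K = comp G D x

lemma comp_eq {D : Finset V} {x y : V} (hx : x ∈ D) (hy : y ∈ comp G D x) :
    comp G D y = comp G D x := by
  apply Subset.antisymm
  · exact comp_subset (closed_comp D x) hy
  · apply comp_subset (closed_comp D y)
    rw [mem_comp] at hy ⊢
    obtain ⟨_, p, hp⟩ := hy
    refine ⟨hx, p.reverse, ?_⟩
    intro z hz
    rw [SimpleGraph.Walk.support_reverse, List.mem_reverse] at hz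
    exact hp z hz

lemma IsComp.disj {D K K' : Finset V} (h : IsComp G D K) (h' : IsComp G D K') (hne : K ≠ K') :
    Disjoint K K' := by
  obtain ⟨x, hx, rfl⟩ := h
  obtain ⟨y, hy, rfl⟩ := h'
  rw [Finset.disjoint_left]
  intro z hz hz'
  exact hne ((comp_eq hx hz).symm.trans (comp_eq hy hz'))

lemma IsComp.sub {D K : Finset V} (h : IsComp G D K) : K ⊆ D := by
  obtain ⟨x, hx, rfl⟩ := h
  exact (closed_comp D x).1

lemma IsComp.conn {D K : Finset V} (h : IsComp G D K) : Conn G K := by
  obtain ⟨x, hx, rfl⟩ := h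
  exact conn_comp D x

/-- the vertex `a` has a neighbour in `K` -/
def Att (G : SimpleGraph V) (K : Finset V) (a : V) : Prop := ∃ y ∈ K, G.Adj a y

/-- a connection from `a` to `b`: an edge, or a path through the component `K` -/
def Cn (G : SimpleGraph V) (D : Finset V) (a b : V) (K : Finset V) (A : List V) : Prop :=
  A.Nodup ∧ (∀ x ∈ A, x ∈ K) ∧ (a :: (A ++ [b])).IsChain G.Adj ∧
    ((K = ∅ ∧ A = []) ∨ (IsComp G D K ∧ Att G K a ∧ Att G K b ∧ A ≠ []))

/-- `a` and `b` are adjacent or attached to the same component -/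
def F (G : SimpleGraph V) (D : Finset V) (a b : V) : Prop :=
  G.Adj a b ∨ ∃ K, IsComp G D K ∧ Att G K a ∧ Att G K b

lemma F.symm {D : Finset V} {a b : V} (h : F G D a b) : F G D b a := by
  rcases h with h | ⟨K, h1, h2, h3⟩
  · exact Or.inl h.symm
  · exact Or.inr ⟨K, h1, h3, h2⟩

lemma exists_link {K : Finset V} (hK : Conn G K) {a b : V} (ha : Att G K a) (hb : Att G K b) :
    ∃ A : List V, A ≠ [] ∧ A.Nodup ∧ (∀ x ∈ A, x ∈ K) ∧ (a :: (A ++ [b])).IsChain G.Adj := by
  obtain ⟨y, hy, hay⟩ := ha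
  obtain ⟨z, hz, hbz⟩ := hb
  obtain ⟨p, hp⟩ := hK y hy z hz
  refine ⟨p.bypass.support, SimpleGraph.Walk.support_ne_nil _, (p.bypass_isPath).support_nodup,
    fun x hx => hp x (p.support_bypass_subset_support hx), ?_⟩
  have h1 := ((SimpleGraph.Walk.cons hay p.bypass).concat hbz.symm).isChain_adj_support
  rw [SimpleGraph.Walk.support_concat, SimpleGraph.Walk.support_cons] at h1
  simpa using h1

lemma F.exists_cn {D : Finset V} {a b : V} (h : F G D a b) : ∃ K A, Cn G D a b K A := by
  rcases h with h | ⟨K, h1, h2, h3⟩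
  · refine ⟨∅, [], List.nodup_nil, by simp, ?_, Or.inl ⟨rfl, rfl⟩⟩
    simpa using h
  · obtain ⟨A, g1, g2, g3, g4⟩ := exists_link h1.conn h2 h3
    exact ⟨K, A, g2, g3, g4, Or.inr ⟨h1, h2, h3, g1⟩⟩

lemma rev_piece {a b : V} {l : List V} (h : (b :: (l ++ [a])).IsChain G.Adj) :
    (a :: (l.reverse ++ [b])).IsChain G.Adj := by
  have h1 : (b :: (l ++ [a])).reverse.IsChain G.Adj := by
    rw [List.isChain_reverse]
    exact h.imp (fun _ _ h => h.symm)
  simpa using h1

lemma Cn.adj {D K : Finset V} {a b : V} (h : Cn G D a b K []) : G.Adj a b := by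
  have := h.2.2.1
  simpa using this

lemma Cn.mem_D {D K : Finset V} {A : List V} {a b : V} (h : Cn G D a b K A) :
    ∀ x ∈ A, x ∈ D := by
  intro x hx
  rcases h.2.2.2 with ⟨-, h1⟩ | ⟨h1, -⟩
  · subst h1; simp at hx
  · exact h1.sub (h.2.1 x hx)

lemma Cn.disj {D K K' : Finset V} {A A' : List V} {a b a' b' : V} (h : Cn G D a b K A)
    (h' : Cn G D a' b' K' A')
    (hne : IsComp G D K → Att G K a → Att G K b → Att G K a' → Att G K b' → False) :
    ∀ x ∈ A, x ∉ A' := by
  intro x hx hx'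
  rcases h.2.2.2 with ⟨-, h1⟩ | ⟨h1, h2, h3, -⟩
  · subst h1; simp at hx
  rcases h'.2.2.2 with ⟨-, h1'⟩ | ⟨h1', h2', h3', -⟩
  · subst h1'; simp at hx'
  by_cases hK : K = K'
  · subst hK
    exact hne h1 h2 h3 h2' h3'
  · exact Finset.disjoint_left.1 (h1.disj h1' hK) (h.2.1 x hx) (h'.2.1 x hx')

/-! ### Longer paths -/

section

variable {S : Finset V} {P : List V} (hP : IsP G S P) (hmax : PL G S P.length)

include hP hmax

lemma improve {l E : List V} (hp : l.Perm (P ++ E)) (hc : l.IsChain G.Adj) (hE : E.Nodup)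
    (hED : ∀ x ∈ E, x ∈ S \ P.toFinset) (hne : E ≠ []) : False := by
  have h1 : IsP G S l := by
    refine ⟨?_, hc, ?_⟩
    · rw [hp.nodup_iff, List.nodup_append']
      refine ⟨hP.1, hE, ?_⟩
      intro x hx hx'
      have := hED x hx'
      rw [mem_sdiff, List.mem_toFinset] at this
      exact this.2 hx
    · intro x hx
      rw [hp.mem_iff, List.mem_append] at hx
      rcases hx with hx | hx
      · exact hP.2.2 x hx
      · exact (mem_sdiff.1 (hED x hx)).1
  have h2 := hmax l h1
  rw [hp.length_eq, List.length_append] at h2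
  have h3 : 0 < E.length := List.length_pos_of_ne_nil hne
  omega

lemma noCons {l0 l1 : List V} {a b : V} (hPe : P = l0 ++ a :: b :: l1) {K : Finset V}
    (hK : IsComp G (S \ P.toFinset) K) (ha : Att G K a) (hb : Att G K b) : False := by
  obtain ⟨A, g1, g2, g3, g4⟩ := exists_link hK.conn ha hb
  have hc := hP.2.1
  rw [hPe, List.isChain_split, List.isChain_cons_cons] at hc
  refine improve hP hmax (l := l0 ++ a :: (A ++ b :: l1)) (E := A) ?_ ?_ g2
    (fun x hx => hK.sub (g3 x hx)) g1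
  · rw [hPe, List.perm_iff_count]
    intro x
    simp only [List.count_append, List.count_cons]
    omega
  · rw [List.isChain_split, List.isChain_cons_split]
    exact ⟨hc.1, g4, hc.2.2⟩

lemma no1 (hgood : ∀ X ⊆ S, X.card ≤ 8 → ¬ HasTri G X) {l0 l1 l2 : List V} {a1 b1 a2 b2 : V}
    (hPe : P = l0 ++ a1 :: b1 :: (l1 ++ a2 :: b2 :: l2))
    (h1 : F G (S \ P.toFinset) a1 a2) (h2 : F G (S \ P.toFinset) b1 b2) : False := by
  obtain ⟨K, A, hA⟩ := h1.exists_cn
  obtain ⟨L, B, hB⟩ := h2.exists_cn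
  have hc := hP.2.1
  have hnd := hP.1
  have hmem := hP.2.2
  rw [hPe] at hc hnd hmem
  rw [List.isChain_split, List.isChain_cons_cons, List.isChain_cons_split,
    List.isChain_cons_cons] at hc
  obtain ⟨c1, c2, c3, c4, c5⟩ := hc
  by_cases hAB : A ++ B = []
  · rw [List.append_eq_nil_iff] at hAB
    obtain ⟨rfl, rfl⟩ := hAB
    have e1 := hA.adj
    have e2 := hB.adj
    have hnd' : [a1, b1, b2, a2].Nodup := by
      have h3 : [a1, b1, a2, b2].Sublist (l0 ++ a1 :: b1 :: (l1 ++ a2 :: b2 :: l2)) := by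
        refine List.Sublist.trans ?_ (List.sublist_append_right _ _)
        refine List.Sublist.cons_cons _ (List.Sublist.cons_cons _ ?_)
        refine List.Sublist.trans ?_ (List.sublist_append_right _ _)
        exact List.Sublist.cons_cons _ (List.Sublist.cons_cons _ (List.nil_sublist _))
      have h4 := h3.nodup hnd
      have h5 : [a1, b1, b2, a2].Perm [a1, b1, a2, b2] := by
        refine List.Perm.cons _ (List.Perm.cons _ (List.Perm.swap _ _ _))
      exact h5.nodup_iff.2 h4
    refine hgood ({a1, b1, b2, a2} : Finset V) ?_ ?_ (cyc_tri (a := a1) (b := b1) (l := [b2, a2])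
      hnd' ?_ ⟨a2, by simp, e1⟩ ?_)
    · intro x hx
      apply hmem
      simp only [mem_insert, mem_singleton] at hx
      simp only [List.mem_append, List.mem_cons]
      tauto
    · refine (card_insert_le _ _).trans ?_
      refine Nat.succ_le_succ ((card_insert_le _ _).trans ?_)
      refine Nat.succ_le_succ ((card_insert_le _ _).trans ?_)
      simp
    · simp only [List.isChain_cons_cons, List.IsChain.singleton, and_true]
      exact ⟨c2, e2, c4.symm⟩
    · intro x hx
      simp only [List.mem_cons, List.not_mem_nil, or_false] at hx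
      simp only [mem_insert, mem_singleton]
      exact hx
  · have hnc1 := @noCons V _ _ G S P hP hmax l0 (l1 ++ a2 :: b2 :: l2) a1 b1 hPe
    refine improve hP hmax (l := l0 ++ a1 :: (A ++ a2 :: (l1.reverse ++ b1 :: (B ++ b2 :: l2))))
      (E := A ++ B) ?_ ?_ ?_ ?_ hAB
    · rw [hPe, List.perm_iff_count]
      intro x
      simp only [List.count_append, List.count_cons, List.count_reverse]
      omega
    · exact List.isChain_split.2 ⟨c1, List.isChain_cons_split.2 ⟨hA.2.2.1,
        List.isChain_cons_split.2 ⟨rev_piece c3, List.isChain_cons_split.2 ⟨hB.2.2.1, c5⟩⟩⟩⟩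
    · rw [List.nodup_append']
      refine ⟨hA.1, hB.1, ?_⟩
      intro x hx hx'
      exact hA.disj hB (fun g1 g2 g3 g4 g5 => hnc1 g1 g2 g4) x hx hx'
    · intro x hx
      rw [List.mem_append] at hx
      rcases hx with hx | hx
      · exact hA.mem_D x hx
      · exact hB.mem_D x hx

lemma no7 (hgood : ∀ X ⊆ S, X.card ≤ 8 → ¬ HasTri G X) {l0 l1 l2 l3 l4 : List V}
    {a1 b1 a2 b2 a3 b3 a4 b4 : V}
    (hPe : P = l0 ++ a1 :: b1 :: (l1 ++ a2 :: b2 :: (l2 ++ a3 :: b3 :: (l3 ++ a4 :: b4 :: l4))))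
    (h1 : F G (S \ P.toFinset) a1 a3) (h2 : F G (S \ P.toFinset) b1 b2)
    (h3 : F G (S \ P.toFinset) a2 a4) (h4 : F G (S \ P.toFinset) b3 b4) : False := by
  obtain ⟨K1, A1, hA1⟩ := h1.exists_cn
  obtain ⟨K2, A2, hA2⟩ := h2.symm.exists_cn
  obtain ⟨K3, A3, hA3⟩ := h3.exists_cn
  obtain ⟨K4, A4, hA4⟩ := h4.exists_cn
  have hc := hP.2.1
  have hnd := hP.1
  have hmem := hP.2.2
  rw [hPe] at hc hnd hmem
  obtain ⟨c1, hc⟩ := List.isChain_split.1 hc
  obtain ⟨c2, hc⟩ := List.isChain_cons_cons.1 hc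
  obtain ⟨c3, hc⟩ := List.isChain_cons_split.1 hc
  obtain ⟨c4, hc⟩ := List.isChain_cons_cons.1 hc
  obtain ⟨c5, hc⟩ := List.isChain_cons_split.1 hc
  obtain ⟨c6, hc⟩ := List.isChain_cons_cons.1 hc
  obtain ⟨c7, hc⟩ := List.isChain_cons_split.1 hc
  obtain ⟨c8, c9⟩ := List.isChain_cons_cons.1 hc
  by_cases hE : A1 ++ A2 ++ A3 ++ A4 = []
  · simp only [List.append_eq_nil_iff] at hE
    obtain ⟨⟨⟨rfl, rfl⟩, rfl⟩, rfl⟩ := hE
    have e1 := hA1.adj
    have e2 := hA2.adj
    have e3 := hA3.adj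
    have e4 := hA4.adj
    have hsub : [a1, b1, a2, b2, a3, b3, a4, b4].Sublist
        (l0 ++ a1 :: b1 :: (l1 ++ a2 :: b2 :: (l2 ++ a3 :: b3 :: (l3 ++ a4 :: b4 :: l4)))) := by
      refine List.Sublist.trans ?_ (List.sublist_append_right _ _)
      refine List.Sublist.cons_cons _ (List.Sublist.cons_cons _ ?_)
      refine List.Sublist.trans ?_ (List.sublist_append_right _ _)
      refine List.Sublist.cons_cons _ (List.Sublist.cons_cons _ ?_)
      refine List.Sublist.trans ?_ (List.sublist_append_right _ _)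
      refine List.Sublist.cons_cons _ (List.Sublist.cons_cons _ ?_)
      refine List.Sublist.trans ?_ (List.sublist_append_right _ _)
      exact List.Sublist.cons_cons _ (List.Sublist.cons_cons _ (List.nil_sublist _))
    have hperm : [a1, b1, b2, a2, a4, b4, b3, a3].Perm [a1, b1, a2, b2, a3, b3, a4, b4] := by
      rw [List.perm_iff_count]
      intro x
      simp only [List.count_cons, List.count_nil]
      omega
    have hnd' : [a1, b1, b2, a2, a4, b4, b3, a3].Nodup := hperm.nodup_iff.2 (hsub.nodup hnd)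
    refine hgood ([a1, b1, b2, a2, a4, b4, b3, a3].toFinset) ?_ ?_ (cyc_tri (a := a1) (b := b1)
      (l := [b2, a2, a4, b4, b3, a3]) hnd' ?_ ⟨a3, by simp, e1⟩ ?_)
    · intro x hx
      rw [List.mem_toFinset, hperm.mem_iff] at hx
      exact hmem x (hsub.subset hx)
    · exact (List.toFinset_card_le _).trans (by simp)
    · simp only [List.isChain_cons_cons, List.IsChain.singleton, and_true]
      exact ⟨c2, e2.symm, c4.symm, e3, c8, e4.symm, c6.symm⟩
    · intro x hx
      rw [List.mem_toFinset]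
      exact hx
  · have n1 := @noCons V _ _ G S P hP hmax l0 _ a1 b1 hPe
    have n2 := @noCons V _ _ G S P hP hmax (l0 ++ a1 :: b1 :: l1) _ a2 b2 (by
      rw [hPe]; simp only [List.append_assoc, List.cons_append]; rfl)
    have n3 := @noCons V _ _ G S P hP hmax (l0 ++ a1 :: b1 :: (l1 ++ a2 :: b2 :: l2)) _ a3 b3 (by
      rw [hPe]; simp only [List.append_assoc, List.cons_append]; rfl)
    have n4 := @noCons V _ _ G S P hP hmax
      (l0 ++ a1 :: b1 :: (l1 ++ a2 :: b2 :: (l2 ++ a3 :: b3 :: l3))) _ a4 b4 (by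
      rw [hPe]; simp only [List.append_assoc, List.cons_append]; rfl)
    have m12 := @no1 V _ _ G S P hP hmax hgood l0 l1 _ a1 b1 a2 b2 hPe
    have m24 := @no1 V _ _ G S P hP hmax hgood (l0 ++ a1 :: b1 :: l1) (l2 ++ a3 :: b3 :: l3) _
      a2 b2 a4 b4 (by rw [hPe]; simp only [List.append_assoc, List.cons_append]; rfl)
    have d12 := hA1.disj hA2 (fun g1 g2 g3 g4 g5 => n1 g1 g2 g5)
    have d13 := hA1.disj hA3 (fun g1 g2 g3 g4 g5 => m12 (Or.inr ⟨_, g1, g2, g4⟩) h2)
    have d14 := hA1.disj hA4 (fun g1 g2 g3 g4 g5 => n3 g1 g3 g4)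
    have d23 := hA2.disj hA3 (fun g1 g2 g3 g4 g5 => n2 g1 g4 g2)
    have d24 := hA2.disj hA4 (fun g1 g2 g3 g4 g5 => m24 h3 (Or.inr ⟨_, g1, g2, g5⟩))
    have d34 := hA3.disj hA4 (fun g1 g2 g3 g4 g5 => n4 g1 g3 g5)
    refine improve hP hmax (l := l0 ++ a1 :: (A1 ++ a3 :: (l2.reverse ++ b2 :: (A2 ++
      b1 :: (l1 ++ a2 :: (A3 ++ a4 :: (l3.reverse ++ b3 :: (A4 ++ b4 :: l4)))))))) 
      (E := A1 ++ A2 ++ A3 ++ A4) ?_ ?_ ?_ ?_ hE
    · rw [hPe, List.perm_iff_count]
      intro x
      simp only [List.count_append, List.count_cons, List.count_reverse]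
      omega
    · exact List.isChain_split.2 ⟨c1, List.isChain_cons_split.2 ⟨hA1.2.2.1,
        List.isChain_cons_split.2 ⟨rev_piece c5, List.isChain_cons_split.2 ⟨hA2.2.2.1,
        List.isChain_cons_split.2 ⟨c3, List.isChain_cons_split.2 ⟨hA3.2.2.1,
        List.isChain_cons_split.2 ⟨rev_piece c7, List.isChain_cons_split.2 ⟨hA4.2.2.1, c9⟩⟩⟩⟩⟩⟩⟩⟩
    · simp only [List.nodup_append']
      refine ⟨⟨⟨hA1.1, hA2.1, ?_⟩, hA3.1, ?_⟩, hA4.1, ?_⟩
      · intro x hx hx'
        exact d12 x hx hx'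
      · intro x hx hx'
        rw [List.mem_append] at hx
        rcases hx with hx | hx
        · exact d13 x hx hx'
        · exact d23 x hx hx'
      · intro x hx hx'
        simp only [List.mem_append] at hx
        rcases hx with (hx | hx) | hx
        · exact d14 x hx hx'
        · exact d24 x hx hx'
        · exact d34 x hx hx'
    · intro x hx
      simp only [List.mem_append] at hx
      rcases hx with ((hx | hx) | hx) | hx
      · exact hA1.mem_D x hx
      · exact hA2.mem_D x hx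
      · exact hA3.mem_D x hx
      · exact hA4.mem_D x hx

end

end Pool.Agent.Q134.PT
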