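import Mathlib
import Pool.Agent.Q134.PTPath

set_option autoImplicit false
set_option linter.unusedSectionVars false

/-!
A short cycle in a graph of minimum degree at least three and small treewidth.
-/

namespace Pool.Agent.Q134.PT

open Finset Pool.Agent.W126.Split
open Pool.Agent.Q134.PP (trunc sing_conn)

variable {V : Type} [Fintype V] [DecidableEq V] {G : SimpleGraph V}

open Classical in
/-- the neighbours of `x` in `A` -/
noncomputable def nb (G : SimpleGraph V) (A : Finset V) (x : V) : Finset V :=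
  A.filter (fun y => G.Adj x y)

lemma mem_nb {A : Finset V} {x y : V} : y ∈ nb G A x ↔ y ∈ A ∧ G.Adj x y := by
  classical
  unfold nb
  rw [mem_filter]

open Classical in
/-- the ordered pairs of adjacent vertices in `A` -/
noncomputable def ed (G : SimpleGraph V) (A : Finset V) : Finset (V × V) :=
  (A ×ˢ A).filter (fun p => G.Adj p.1 p.2)

lemma mem_ed {A : Finset V} {p : V × V} : p ∈ ed G A ↔ p.1 ∈ A ∧ p.2 ∈ A ∧ G.Adj p.1 p.2 := by
  classical
  unfold ed
  rw [mem_filter, mem_product, and_assoc]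

lemma sum_nb_le {A : Finset V} : ∑ x ∈ A, (nb G A x).card ≤ (ed G A).card := by
  classical
  rw [card_eq_sum_card_fiberwise (f := Prod.fst) (t := A) (s := ed G A)
    (fun p hp => (mem_ed.1 hp).1)]
  apply sum_le_sum
  intro x hx
  refine card_le_card_of_injOn (fun y => (x, y)) ?_ ?_
  · intro y hy
    rw [mem_coe, mem_nb] at hy
    rw [mem_coe, mem_filter, mem_ed]
    exact ⟨⟨hx, hy.1, hy.2⟩, rfl⟩
  · intro y _ z _ h
    exact (Prod.mk.inj h).2

/-- the small dense region -/
theorem exists_region {S : Finset V} {b : ℕ} (h : Bw G S b) (hS : S.Nonempty)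
    (hdeg : ∀ x ∈ S, 3 ≤ (nb G S x).card) :
    ∃ A ⊆ S, A.Nonempty ∧ A.card ≤ 22 * b ∧ 12 * A.card ≤ 5 * (ed G A).card := by
  classical
  by_cases hsmall : S.card < 5 * b
  · refine ⟨S, Subset.refl _, hS, by omega, ?_⟩
    have h1 := sum_nb_le (G := G) (A := S)
    have h2 : S.card * 3 ≤ ∑ x ∈ S, (nb G S x).card := by
      rw [← smul_eq_mul]
      exact card_nsmul_le_sum _ _ _ hdeg
    omega
  let bd : Finset V → Finset V := fun S1 => (S \ S1).filter (fun y => ∃ x ∈ S1, G.Adj x y)
  have hbd : ∀ S1 y, y ∈ bd S1 ↔ (y ∈ S ∧ y ∉ S1) ∧ ∃ x ∈ S1, G.Adj x y := by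
    intro S1 y
    simp only [bd, mem_filter, mem_sdiff]
  let Fam : Finset (Finset V) := S.powerset.filter (fun S1 => 5 * b ≤ S1.card ∧
    (bd S1).card ≤ 2 * b)
  have hFam : ∀ S1, S1 ∈ Fam ↔ S1 ⊆ S ∧ 5 * b ≤ S1.card ∧ (bd S1).card ≤ 2 * b := by
    intro S1
    simp only [Fam, mem_filter, mem_powerset]
  have hne : Fam.Nonempty := by
    refine ⟨S, (hFam S).2 ⟨Subset.refl _, by omega, ?_⟩⟩
    have : bd S = ∅ := by
      rw [eq_empty_iff_forall_notMem]
      intro y hy
      rw [hbd] at hy
      exact hy.1.2 hy.1.1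
    rw [this]
    simp
  obtain ⟨S1, hS1, hmin⟩ := exists_min_image Fam card hne
  obtain ⟨h1, h2, h3⟩ := (hFam S1).1 hS1
  have h4 : S1.card < 20 * b := by
    by_contra hlarge
    push Not at hlarge
    obtain ⟨Z, G1, G2, hZ, hu, hd, hno, e1, e2⟩ := exists_sep h h1 (by omega)
    rw [Finset.disjoint_left] at hd
    -- one side
    have step : ∀ G1 G2 : Finset V, G1 ∪ G2 = S \ Z → (∀ x, x ∈ G1 → x ∉ G2) →
        (∀ u ∈ G1, ∀ v ∈ G2, ¬ G.Adj u v) → S1.card ≤ 4 * (S1 ∩ G1).card →
        S1.card ≤ 4 * (S1 ∩ G2).card → (bd S1 ∩ G1).card ≤ b → False := by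
      intro G1 G2 hu hd hno e1 e2 hc
      have g1 : S1 ∩ G1 ∈ Fam := by
        refine (hFam _).2 ⟨inter_subset_left.trans h1, by omega, ?_⟩
        have g2 : bd (S1 ∩ G1) ⊆ (bd S1 ∩ G1) ∪ Z := by
          intro y hy
          rw [hbd] at hy
          obtain ⟨⟨hyS, hyn⟩, x, hx, hxy⟩ := hy
          rw [mem_inter] at hx
          by_cases hyZ : y ∈ Z
          · exact mem_union_right _ hyZ
          · have g3 : y ∈ G1 ∪ G2 := by
              rw [hu, mem_sdiff]
              exact ⟨hyS, hyZ⟩
            rcases mem_union.1 g3 with g3 | g3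
            · refine mem_union_left _ (mem_inter.2 ⟨?_, g3⟩)
              rw [hbd]
              exact ⟨⟨hyS, fun hy1 => hyn (mem_inter.2 ⟨hy1, g3⟩)⟩, x, hx.1, hxy⟩
            · exact absurd hxy (hno x hx.2 y g3)
        have g4 := card_le_card g2
        have g5 := card_union_le (bd S1 ∩ G1) Z
        omega
      have g6 := hmin _ g1
      have g7 : (S1 ∩ G1).card + (S1 ∩ G2).card ≤ S1.card := by
        rw [← card_union_of_disjoint]
        · exact card_le_card (union_subset inter_subset_left inter_subset_left)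
        · rw [Finset.disjoint_left]
          intro x hx hx'
          exact hd x (mem_inter.1 hx).2 (mem_inter.1 hx').2
      by_cases hb : b = 0
      · -- then `S1` is empty, but all sets are small
        have : 0 < S1.card := by
          by_contra h0
          obtain ⟨ι, hι, T, bag, hT, hsub, hcov, -, -, hcard⟩ := h
          obtain ⟨x, hx⟩ := hS
          obtain ⟨i, hi⟩ := hcov x hx
          have := hcard i
          have h5 : 0 < (bag i).card := card_pos.2 ⟨x, hi⟩
          omega
        omega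
      · omega
    have hsum : (bd S1 ∩ G1).card + (bd S1 ∩ G2).card ≤ (bd S1).card := by
      rw [← card_union_of_disjoint]
      · exact card_le_card (union_subset inter_subset_left inter_subset_left)
      · rw [Finset.disjoint_left]
        intro x hx hx'
        exact hd (mem_inter.1 hx).2 (mem_inter.1 hx').2
    by_cases hc : (bd S1 ∩ G1).card ≤ b
    · exact step G1 G2 hu (fun x hx => hd hx) hno e1 e2 hc
    · exact step G2 G1 (by rw [union_comm]; exact hu) (fun x hx hx' => hd hx' hx)
        (fun u hu v hv h => hno v hv u hu h.symm) e2 e1 (by omega)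
  have hdis : Disjoint S1 (bd S1) := by
    rw [Finset.disjoint_left]
    intro x hx hx'
    rw [hbd] at hx'
    exact hx'.1.2 hx
  refine ⟨S1 ∪ bd S1, union_subset h1 (fun y hy => ((hbd _ _).1 hy).1.1), ?_, ?_, ?_⟩
  · by_contra hcon
    rw [not_nonempty_iff_eq_empty] at hcon
    have g1 : S1.card = 0 := by
      rw [card_eq_zero]
      exact subset_empty.1 (hcon ▸ subset_union_left)
    have : 5 * b = 0 := by omega
    obtain ⟨ι, hι, T, bag, hT, hsub, hcov, -, -, hcard⟩ := h
    obtain ⟨x, hx⟩ := hS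
    obtain ⟨i, hi⟩ := hcov x hx
    have := hcard i
    have h5 : 0 < (bag i).card := card_pos.2 ⟨x, hi⟩
    omega
  · rw [card_union_of_disjoint hdis]
    omega
  · have g1 := sum_nb_le (G := G) (A := S1 ∪ bd S1)
    rw [sum_union hdis] at g1
    have g2 : S1.card * 3 ≤ ∑ x ∈ S1, (nb G (S1 ∪ bd S1) x).card := by
      rw [← smul_eq_mul]
      refine card_nsmul_le_sum _ _ _ (fun x hx => (hdeg x (h1 hx)).trans (card_le_card ?_))
      intro y hy
      rw [mem_nb] at hy ⊢
      refine ⟨?_, hy.2⟩
      by_cases hy1 : y ∈ S1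
      · exact mem_union_left _ hy1
      · refine mem_union_right _ ?_
        rw [hbd]
        exact ⟨⟨hy.1, hy1⟩, x, hx, hy.2⟩
    have g3 : (bd S1).card * 1 ≤ ∑ x ∈ bd S1, (nb G (S1 ∪ bd S1) x).card := by
      rw [← smul_eq_mul]
      refine card_nsmul_le_sum _ _ _ (fun y hy => ?_)
      rw [hbd] at hy
      obtain ⟨-, x, hx, hxy⟩ := hy
      exact card_pos.2 ⟨x, mem_nb.2 ⟨mem_union_left _ hx, hxy.symm⟩⟩
    rw [card_union_of_disjoint hdis]
    omega

/-! ### Short cycles -/

lemma tri_edge {X Qa Qb : Finset V} {v y z a b : V} (hQa : (G.induce (Qa : Set V)).Connected)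
    (hQb : (G.induce (Qb : Set V)).Connected) (hva : v ∈ Qa) (hvb : v ∈ Qb) (ha : a ∈ Qa)
    (hb : b ∈ Qb) (hya : G.Adj y a) (hzb : G.Adj z b) (hyz : G.Adj y z)
    (hy : y ∉ Qa ∪ Qb) (hz : z ∉ Qa ∪ Qb) (hX : insert y (insert z (Qa ∪ Qb)) ⊆ X) :
    HasTri G X := by
  have hc := SimpleGraph.induce_union_connected (G := G) hQa.preconnected hQb.preconnected
    ⟨v, hva, hvb⟩
  refine tri_of_three {y} {z} ((Qa : Set V) ∪ Qb) ?_ ?_ ?_ (sing_conn G y) (sing_conn G z) hc
    ?_ ?_ ?_ ⟨y, rfl, z, rfl, hyz⟩ ⟨y, rfl, a, Or.inl ha, hya⟩ ⟨z, rfl, b, Or.inr hb, hzb⟩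
  · rintro x rfl
    exact hX (by simp)
  · rintro x rfl
    exact hX (by simp)
  · intro x hx
    exact hX (mem_insert_of_mem (mem_insert_of_mem (mem_union.2 hx)))
  · rw [Set.disjoint_singleton]
    exact hyz.ne
  · rw [Set.disjoint_singleton_left]
    exact fun h => hy (mem_union.2 h)
  · rw [Set.disjoint_singleton_left]
    exact fun h => hz (mem_union.2 h)

lemma tri_two {X Qa Qb : Finset V} {v y a b : V} (hQa : (G.induce (Qa : Set V)).Connected)
    (hQb : (G.induce (Qb : Set V)).Connected) (hva : v ∈ Qa) (hvb : v ∈ Qb) (ha : a ∈ Qa)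
    (hb : b ∈ Qb) (hab : a ≠ b) (hya : G.Adj y a) (hyb : G.Adj y b)
    (hy : y ∉ Qa ∪ Qb) (hX : insert y (Qa ∪ Qb) ⊆ X) :
    HasTri G X := by
  have hc := SimpleGraph.induce_union_connected (G := G) hQa.preconnected hQb.preconnected
    ⟨v, hva, hvb⟩
  obtain ⟨Y, h1, h2, h3, w, hw, z, hz, hwz⟩ := trunc G ((Qa : Set V) ∪ Qb) {b} hc
    (a := a) (b := b) (Or.inl ha) (by simpa using hab) (Or.inr hb) rfl
  rw [Set.mem_singleton_iff] at hz
  subst hz
  have hYs : Y ⊆ ((Qa : Set V) ∪ Qb) := fun x hx => (h1 hx).1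
  refine tri_of_three {y} {z} Y ?_ ?_ ?_ (sing_conn G y) (sing_conn G z) h3
    ?_ ?_ ?_ ⟨y, rfl, z, rfl, hyb⟩ ⟨y, rfl, a, h2, hya⟩ ⟨z, rfl, w, hw, hwz.symm⟩
  · rintro x rfl
    exact hX (by simp)
  · rintro x rfl
    exact hX (by simp [hb])
  · intro x hx
    exact hX (mem_insert_of_mem (mem_union.2 (hYs hx)))
  · rw [Set.disjoint_singleton]
    rintro rfl
    exact hy (mem_union_right _ hb)
  · rw [Set.disjoint_singleton_left]
    exact fun h => hy (mem_union.2 (hYs h))
  · rw [Set.disjoint_singleton_left]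
    exact fun h => (h1 h).2 rfl

/-- a dense set contains a short cycle -/
theorem exists_short {A : Finset V} {R : ℕ} (hne : A.Nonempty)
    (hA : 12 * A.card ≤ 5 * (ed G A).card) (hR : 5 ^ R * A.card < 6 ^ R) :
    ∃ X ⊆ A, X.card ≤ 2 * R + 2 ∧ HasTri G X := by
  classical
  by_contra hcon
  push Not at hcon
  -- a minimal dense subset
  let Fam : Finset (Finset V) := A.powerset.filter (fun U => U.Nonempty ∧
    12 * U.card ≤ 5 * (ed G U).card)
  have hFam : ∀ U, U ∈ Fam ↔ U ⊆ A ∧ U.Nonempty ∧ 12 * U.card ≤ 5 * (ed G U).card := by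
    intro U
    simp only [Fam, mem_filter, mem_powerset]
  obtain ⟨U, hU, hmin⟩ := exists_min_image Fam card ⟨A, (hFam A).2 ⟨Subset.refl _, hne, hA⟩⟩
  obtain ⟨hUA, hUne, hUd⟩ := (hFam U).1 hU
  obtain ⟨v, hv⟩ := hUne
  have hsp : ∀ W ⊆ U, W.Nonempty → W ≠ U → 5 * (ed G (U \ W)).card + 12 * W.card <
      5 * (ed G U).card := by
    intro W hW hWne hWU
    by_contra hc
    push Not at hc
    have h1 : (U \ W).Nonempty := by
      rw [sdiff_nonempty]
      intro h
      exact hWU (Subset.antisymm hW h)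
    have h2 : (U \ W).card + W.card = U.card := card_sdiff_add_card_eq_card hW
    have h3 : 0 < W.card := card_pos.2 hWne
    have h4 := hmin (U \ W) ((hFam _).2 ⟨sdiff_subset.trans hUA, h1, by omega⟩)
    omega
  -- the balls
  let nx : Finset V → Finset V := fun B => B ∪ U.filter (fun y => ∃ x ∈ B, G.Adj x y)
  have key : ∀ r ≤ R, ∃ B ⊆ U, v ∈ B ∧ (∀ x ∈ B, ∃ Q ⊆ B, v ∈ Q ∧ x ∈ Q ∧
      (G.induce (Q : Set V)).Connected ∧ Q.card ≤ r + 1) ∧
      (ed G B).card + 2 ≤ 2 * B.card ∧ 6 ^ r ≤ 5 ^ r * B.card := by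
    intro r
    induction r with
    | zero =>
      intro _
      refine ⟨{v}, by simpa using hv, by simp, ?_, ?_, by simp⟩
      · intro x hx
        rw [mem_singleton] at hx
        subst hx
        refine ⟨{x}, Subset.refl _, by simp, by simp, ?_, by simp⟩
        rw [coe_singleton]
        exact sing_conn G x
      · have : ed G {v} = ∅ := by
          rw [eq_empty_iff_forall_notMem]
          intro p hp
          rw [mem_ed, mem_singleton, mem_singleton] at hp
          obtain ⟨h1, h2, h3⟩ := hp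
          rw [h1, h2] at h3
          exact G.loopless.irrefl _ h3
        rw [this]
        simp
    | succ r ih =>
      intro hr
      obtain ⟨B, hBU, hvB, hQ, hB1, hB2⟩ := ih (by omega)
      have hBne : B ≠ U := by
        rintro rfl
        omega
      let N : Finset V := (U \ B).filter (fun y => ∃ x ∈ B, G.Adj x y)
      have hN : ∀ y, y ∈ N ↔ (y ∈ U ∧ y ∉ B) ∧ ∃ x ∈ B, G.Adj x y := by
        intro y
        simp only [N, mem_filter, mem_sdiff]
      have hNB : Disjoint B N := by
        rw [Finset.disjoint_left]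
        intro y hy hy'
        exact ((hN y).1 hy').1.2 hy
      have hcardX : ∀ (Qa Qb : Finset V), Qa.card ≤ r + 1 → Qb.card ≤ r + 1 →
          (Qa ∪ Qb).card ≤ 2 * r + 2 := by
        intro Qa Qb h1 h2
        have := card_union_le Qa Qb
        omega
      -- no adjacent vertices in `N`
      have hN1 : ∀ y ∈ N, ∀ z ∈ N, ¬ G.Adj y z := by
        intro y hy z hz hyz
        obtain ⟨⟨hyU, hyB⟩, a, ha, hay⟩ := (hN y).1 hy
        obtain ⟨⟨hzU, hzB⟩, b, hb, hbz⟩ := (hN z).1 hz
        obtain ⟨Qa, q1, q2, q3, q4, q5⟩ := hQ a ha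
        obtain ⟨Qb, p1, p2, p3, p4, p5⟩ := hQ b hb
        have hsub : Qa ∪ Qb ⊆ B := union_subset q1 p1
        refine hcon (insert y (insert z (Qa ∪ Qb))) ?_ ?_ (tri_edge q4 p4 q2 p2 q3 p3 hay.symm
          hbz.symm hyz (fun h => hyB (hsub h)) (fun h => hzB (hsub h)) (Subset.refl _))
        · refine insert_subset (hUA hyU) (insert_subset (hUA hzU) ?_)
          exact hsub.trans (hBU.trans hUA)
        · have h1 := card_insert_le y (insert z (Qa ∪ Qb))
          have h2 := card_insert_le z (Qa ∪ Qb)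
          have h3 := hcardX Qa Qb q5 p5
          omega
      have hN2 : ∀ y ∈ N, ∀ a ∈ B, ∀ b ∈ B, G.Adj y a → G.Adj y b → a = b := by
        intro y hy a ha b hb hya hyb
        by_contra hab
        obtain ⟨⟨hyU, hyB⟩, -⟩ := (hN y).1 hy
        obtain ⟨Qa, q1, q2, q3, q4, q5⟩ := hQ a ha
        obtain ⟨Qb, p1, p2, p3, p4, p5⟩ := hQ b hb
        have hsub : Qa ∪ Qb ⊆ B := union_subset q1 p1
        refine hcon (insert y (Qa ∪ Qb)) ?_ ?_ (tri_two q4 p4 q2 p2 q3 p3 hab hya hyb
          (fun h => hyB (hsub h)) (Subset.refl _))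
        · exact insert_subset (hUA hyU) (hsub.trans (hBU.trans hUA))
        · have h1 := card_insert_le y (Qa ∪ Qb)
          have h3 := hcardX Qa Qb q5 p5
          omega
      choose! par hpar hpar' using fun y (hy : y ∈ N) => ((hN y).1 hy).2
      have e1 : ed G (B ∪ N) ⊆ ed G B ∪ N.image (fun y => (y, par y)) ∪
          N.image (fun y => (par y, y)) := by
        rintro ⟨x, y⟩ hxy
        rw [mem_ed] at hxy
        obtain ⟨hx, hy, hadj⟩ := hxy
        simp only at hx hy hadj
        rw [mem_union] at hx hy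
        simp only [mem_union, mem_image]
        rcases hx with hx | hx <;> rcases hy with hy | hy
        · exact Or.inl (Or.inl (mem_ed.2 ⟨hx, hy, hadj⟩))
        · refine Or.inr ⟨y, hy, ?_⟩
          rw [hN2 y hy _ (hpar y hy) x hx (hpar' y hy).symm hadj.symm]
        · refine Or.inl (Or.inr ⟨x, hx, ?_⟩)
          rw [hN2 x hx _ (hpar x hx) y hy (hpar' x hx).symm hadj]
        · exact absurd hadj (hN1 x hx y hy)
      have e2 : (ed G (B ∪ N)).card ≤ (ed G B).card + N.card + N.card := by
        refine (card_le_card e1).trans ((card_union_le _ _).trans ?_)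
        exact Nat.add_le_add ((card_union_le _ _).trans (Nat.add_le_add_left card_image_le _))
          card_image_le
      have e3 : (B ∪ N).card = B.card + N.card := card_union_of_disjoint hNB
      have e4 : (ed G U).card ≤ (ed G (U \ B)).card + (ed G (B ∪ N)).card := by
        refine le_trans (card_le_card ?_) (card_union_le _ _)
        rintro ⟨x, y⟩ hxy
        rw [mem_ed] at hxy
        obtain ⟨hx, hy, hadj⟩ := hxy
        simp only at hx hy hadj
        rw [mem_union, mem_ed, mem_ed]
        by_cases hxB : x ∈ B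
        · right
          refine ⟨mem_union_left _ hxB, ?_, hadj⟩
          by_cases hyB : y ∈ B
          · exact mem_union_left _ hyB
          · exact mem_union_right _ ((hN y).2 ⟨⟨hy, hyB⟩, x, hxB, hadj⟩)
        · by_cases hyB : y ∈ B
          · right
            exact ⟨mem_union_right _ ((hN x).2 ⟨⟨hx, hxB⟩, y, hyB, hadj.symm⟩),
              mem_union_left _ hyB, hadj⟩
          · left
            exact ⟨mem_sdiff.2 ⟨hx, hxB⟩, mem_sdiff.2 ⟨hy, hyB⟩, hadj⟩
      have e5 := hsp B hBU ⟨v, hvB⟩ hBne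
      refine ⟨B ∪ N, union_subset hBU (fun y hy => ((hN y).1 hy).1.1), mem_union_left _ hvB,
        ?_, by omega, ?_⟩
      · intro x hx
        rcases mem_union.1 hx with hx | hx
        · obtain ⟨Q, q1, q2, q3, q4, q5⟩ := hQ x hx
          exact ⟨Q, q1.trans subset_union_left, q2, q3, q4, by omega⟩
        · obtain ⟨Q, q1, q2, q3, q4, q5⟩ := hQ (par x) (hpar x hx)
          refine ⟨insert x Q, insert_subset (mem_union_right _ hx) (q1.trans subset_union_left),
            mem_insert_of_mem q2, mem_insert_self _ _, ?_, ?_⟩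
          · have h1 := SimpleGraph.induce_union_connected (G := G) q4.preconnected
              (SimpleGraph.induce_pair_connected_of_adj (hpar' x hx)).preconnected
              ⟨par x, q3, Or.inl rfl⟩
            have h2 : ((insert x Q : Finset V) : Set V) = (Q : Set V) ∪ {par x, x} := by
              ext z
              simp only [coe_insert, Set.mem_insert_iff, mem_coe, Set.mem_union,
                Set.mem_singleton_iff]
              constructor
              · rintro (rfl | h)
                · exact Or.inr (Or.inr rfl)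
                · exact Or.inl h
              · rintro (h | rfl | rfl)
                · exact Or.inr h
                · exact Or.inr q3
                · exact Or.inl rfl
            rw [h2]
            exact h1
          · exact (card_insert_le _ _).trans (by omega)
      · have e6 : 6 * B.card ≤ 5 * (B ∪ N).card := by omega
        calc 6 ^ (r + 1) = 6 ^ r * 6 := pow_succ _ _
          _ ≤ 5 ^ r * B.card * 6 := Nat.mul_le_mul_right _ hB2
          _ = 5 ^ r * (6 * B.card) := by ring
          _ ≤ 5 ^ r * (5 * (B ∪ N).card) := Nat.mul_le_mul_left _ e6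
          _ = 5 ^ (r + 1) * (B ∪ N).card := by ring
  obtain ⟨B, hBU, -, -, -, hB⟩ := key R le_rfl
  have h1 : B.card ≤ A.card := card_le_card (hBU.trans hUA)
  have h2 := Nat.mul_le_mul_left (5 ^ R) h1
  omega

end Pool.Agent.Q134.PT
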