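import Mathlib
import Pool.Agent.Q134.PTRegion
import Pool.Agent.Q134.CTMain

set_option autoImplicit false
set_option linter.unusedSectionVars false

/-!
A graph of large treewidth contains a cycle whose removal does not lower the treewidth much.
-/

namespace Pool.Agent.Q134.PT

open Finset Pool.Agent.W126.Split
open Pool.Agent.Q134.CT (bw_attach)

variable {V : Type} [Fintype V] [DecidableEq V] {G : SimpleGraph V}

lemma Bw.of_le {G' : SimpleGraph V} {S : Finset V} {k : ℕ} (h : Bw G' S k)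
    (hle : ∀ u ∈ S, ∀ v ∈ S, G.Adj u v → G'.Adj u v) : Bw G S k := by
  obtain ⟨ι, hι, T, bag, hT, hsub, hcov, hedge, hconn, hcard⟩ := h
  exact ⟨ι, hι, T, bag, hT, hsub, hcov, fun u hu v hv huv => hedge u hu v hv (hle u hu v hv huv),
    hconn, hcard⟩

/-- contracting an edge does not increase the treewidth -/
theorem bw_contract {G' : SimpleGraph V} {S : Finset V} {k : ℕ} {v a : V} (h : Bw G S k)
    (ha : a ∈ S) (hv : v ∈ S) (hva : G.Adj v a)
    (hG' : ∀ x ∈ S.erase v, ∀ y ∈ S.erase v, G'.Adj x y →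
      G.Adj x y ∨ (x = a ∧ G.Adj v y) ∨ (y = a ∧ G.Adj v x)) : Bw G' (S.erase v) k := by
  obtain ⟨ι, hι, T, bag, hT, hsub, hcov, hedge, hconn, hcard⟩ := h
  let bag' : ι → Finset V := fun i => if v ∈ bag i then insert a ((bag i).erase v) else bag i
  have m1 : ∀ i x, x ≠ v → x ∈ bag i → x ∈ bag' i := by
    intro i x hx h
    by_cases hvi : v ∈ bag i
    · simp only [bag', if_pos hvi]
      exact mem_insert_of_mem (mem_erase.2 ⟨hx, h⟩)
    · simp only [bag', if_neg hvi]
      exact h
  have m2 : ∀ i, v ∈ bag i → a ∈ bag' i := by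
    intro i hvi
    simp only [bag', if_pos hvi]
    exact mem_insert_self _ _
  have m3 : ∀ i x, x ∈ bag' i → x ≠ v ∧ (x ∈ bag i ∨ (x = a ∧ v ∈ bag i)) := by
    intro i x hx
    by_cases hvi : v ∈ bag i
    · simp only [bag', if_pos hvi, mem_insert, mem_erase] at hx
      rcases hx with rfl | hx
      · exact ⟨hva.ne', Or.inr ⟨rfl, hvi⟩⟩
      · exact ⟨hx.1, Or.inl hx.2⟩
    · simp only [bag', if_neg hvi] at hx
      refine ⟨?_, Or.inl hx⟩
      rintro rfl
      exact hvi hx
  have hav : a ≠ v := hva.ne'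
  refine ⟨ι, hι, T, bag', hT, ?_, ?_, ?_, ?_, ?_⟩
  · intro i x hx
    obtain ⟨h1, h2⟩ := m3 i x hx
    rw [mem_erase]
    refine ⟨h1, ?_⟩
    rcases h2 with h2 | ⟨rfl, -⟩
    · exact hsub i h2
    · exact ha
  · intro x hx
    rw [mem_erase] at hx
    obtain ⟨i, hi⟩ := hcov x hx.2
    exact ⟨i, m1 i x hx.1 hi⟩
  · intro x hx y hy hxy
    have h1 := hG' x hx y hy hxy
    rw [mem_erase] at hx hy
    rcases h1 with h1 | ⟨rfl, h1⟩ | ⟨rfl, h1⟩
    · obtain ⟨i, hi, hi'⟩ := hedge x hx.2 y hy.2 h1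
      exact ⟨i, m1 i x hx.1 hi, m1 i y hy.1 hi'⟩
    · obtain ⟨i, hi, hi'⟩ := hedge v hv y hy.2 h1
      exact ⟨i, m2 i hi, m1 i y hy.1 hi'⟩
    · obtain ⟨i, hi, hi'⟩ := hedge v hv x hx.2 h1
      exact ⟨i, m1 i x hx.1 hi', m2 i hi⟩
  · intro x i j hi hj
    obtain ⟨hxv, hi⟩ := m3 i x hi
    obtain ⟨-, hj⟩ := m3 j x hj
    have w1 : ∀ i j, x ∈ bag i → x ∈ bag j → ∃ p : T.Walk i j, ∀ y ∈ p.support, x ∈ bag' y := by
      intro i j hi hj
      obtain ⟨p, hp⟩ := hconn x i j hi hj
      exact ⟨p, fun y hy => m1 y x hxv (hp y hy)⟩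
    have w2 : x = a → ∀ i j, v ∈ bag i → v ∈ bag j →
        ∃ p : T.Walk i j, ∀ y ∈ p.support, x ∈ bag' y := by
      rintro rfl i j hi hj
      obtain ⟨p, hp⟩ := hconn v i j hi hj
      exact ⟨p, fun y hy => m2 y (hp y hy)⟩
    obtain ⟨l, hl1, hl2⟩ := hedge v hv a ha hva
    rcases hi with hi | ⟨hxa, hi⟩ <;> rcases hj with hj | ⟨hxa', hj⟩
    · exact w1 i j hi hj
    · obtain ⟨p, hp⟩ := w1 i l hi (hxa' ▸ hl2)
      obtain ⟨q, hq⟩ := w2 hxa' l j hl1 hj
      refine ⟨p.append q, fun y hy => ?_⟩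
      rw [SimpleGraph.Walk.mem_support_append_iff] at hy
      rcases hy with hy | hy
      · exact hp y hy
      · exact hq y hy
    · obtain ⟨p, hp⟩ := w2 hxa i l hi hl1
      obtain ⟨q, hq⟩ := w1 l j (hxa ▸ hl2) hj
      refine ⟨p.append q, fun y hy => ?_⟩
      rw [SimpleGraph.Walk.mem_support_append_iff] at hy
      rcases hy with hy | hy
      · exact hp y hy
      · exact hq y hy
    · exact w2 hxa i j hi hj
  · intro i
    by_cases hvi : v ∈ bag i
    · simp only [bag', if_pos hvi]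
      have h1 := card_insert_le a ((bag i).erase v)
      have h2 := card_erase_of_mem hvi
      have h3 : 0 < (bag i).card := card_pos.2 ⟨v, hvi⟩
      have h4 := hcard i
      omega
    · simp only [bag', if_neg hvi]
      exact hcard i

lemma bw_simp' {S : Finset V} {v : V} (hv : v ∉ S) {k : ℕ} (hk : 3 ≤ k) (h : Bw G S k)
    (hK : (∀ u ∈ S, ¬ G.Adj v u) ∨ (∃ a ∈ S, ∀ u ∈ S, G.Adj v u → u = a) ∨
      (∃ a ∈ S, ∃ b ∈ S, G.Adj a b ∧ ∀ u ∈ S, G.Adj v u → u = a ∨ u = b)) :
    Bw G (insert v S) k := by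
  obtain ⟨ι, hι, T, bag, hT, hsub, hcov, hedge, hconn, hcard⟩ := h
  rcases hK with hK | ⟨a, ha, hK⟩ | ⟨a, ha, b, hb, hab, hK⟩
  · obtain ⟨i⟩ := hT.connected.nonempty
    exact bw_attach hv hT hsub hcov hedge hconn hcard i ∅ (empty_subset _)
      (by simp; omega) (fun u hu h => absurd h (hK u hu))
  · obtain ⟨i, hi⟩ := hcov a ha
    exact bw_attach hv hT hsub hcov hedge hconn hcard i {a} (singleton_subset_iff.2 hi)
      (by simp; omega) (fun u hu h => mem_singleton.2 (hK u hu h))
  · obtain ⟨i, hi, hi'⟩ := hedge a ha b hb hab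
    refine bw_attach hv hT hsub hcov hedge hconn hcard i {a, b} ?_ ?_ ?_
    · intro x hx
      rcases mem_insert.1 hx with rfl | hx
      · exact hi
      · rw [mem_singleton.1 hx]; exact hi'
    · have := card_le_two (a := a) (b := b)
      omega
    · intro u hu h
      rcases hK u hu h with rfl | rfl <;> simp

/-- the graph with an additional edge -/
def addE (G : SimpleGraph V) (a b : V) : SimpleGraph V where
  Adj x y := G.Adj x y ∨ (x ≠ y ∧ ((x = a ∧ y = b) ∨ (x = b ∧ y = a)))
  symm := ⟨by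
    rintro x y (h | ⟨h1, h2 | h2⟩)
    · exact Or.inl h.symm
    · exact Or.inr ⟨h1.symm, Or.inr ⟨h2.2, h2.1⟩⟩
    · exact Or.inr ⟨h1.symm, Or.inl ⟨h2.2, h2.1⟩⟩⟩
  loopless := ⟨by
    rintro x (h | ⟨h, -⟩)
    · exact G.loopless.irrefl x h
    · exact h rfl⟩

lemma HasTri.of_le {G' : SimpleGraph V} {X : Finset V} (h : HasTri G' X)
    (hle : ∀ u ∈ X, ∀ v ∈ X, G'.Adj u v → G.Adj u v) : HasTri G X := by
  obtain ⟨B, h1, h2, h3, h4⟩ := h
  refine ⟨B, h1, ?_, h3, ?_⟩
  · intro i
    refine (h2 i).mono ?_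
    intro x y hxy
    exact hle x.1 (h1 i x.2) y.1 (h1 i y.2) hxy
  · intro i j hij
    obtain ⟨u, hu, v, hv, huv⟩ := h4 i j hij
    exact ⟨u, hu, v, hv, hle u (h1 i hu) v (h1 j hv) huv⟩

lemma HasTri.subdiv {X : Finset V} {a b v : V} (h : HasTri (addE G a b) X) (hv : v ∉ X)
    (hva : G.Adj v a) (hvb : G.Adj v b) : HasTri G (insert v X) := by
  classical
  obtain ⟨B, h1, h2, h3, h4⟩ := h
  let B' : Fin 3 → Set V := fun i => if a ∈ B i then insert v (B i) else B i
  have hB : ∀ i, B i ⊆ B' i := by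
    intro i
    by_cases ha : a ∈ B i
    · simp only [B', if_pos ha]
      exact Set.subset_insert _ _
    · simp only [B', if_neg ha]
      exact Set.Subset.refl _
  have hB' : ∀ i, B' i ⊆ insert v (B i) := by
    intro i
    by_cases ha : a ∈ B i
    · simp only [B', if_pos ha]
      exact Set.Subset.refl _
    · simp only [B', if_neg ha]
      exact Set.subset_insert _ _
  have hvB : ∀ i, v ∉ B i := fun i h => hv (h1 i h)
  have hv' : ∀ i, v ∈ B' i → a ∈ B i := by
    intro i hi
    by_contra ha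
    simp only [B', if_neg ha] at hi
    exact hvB i hi
  have hv'' : ∀ i, a ∈ B i → v ∈ B' i := by
    intro i ha
    simp only [B', if_pos ha]
    exact Set.mem_insert _ _
  refine ⟨B', ?_, ?_, ?_, ?_⟩
  · intro i x hx
    rw [coe_insert]
    rcases hB' i hx with rfl | h
    · exact Set.mem_insert _ _
    · exact Set.mem_insert_of_mem _ (h1 i h)
  · intro i
    have hne := (h2 i).nonempty
    obtain ⟨⟨c, hc⟩⟩ := hne
    have step : ∀ x y : B i, ((addE G a b).induce (B i)).Adj x y →
        (G.induce (B' i)).Reachable ⟨x.1, hB i x.2⟩ ⟨y.1, hB i y.2⟩ := by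
      rintro ⟨x, hx⟩ ⟨y, hy⟩ hxy
      have hxy' : G.Adj x y ∨ (x ≠ y ∧ ((x = a ∧ y = b) ∨ (x = b ∧ y = a))) := hxy
      rcases hxy' with hxy' | ⟨-, ⟨rfl, rfl⟩ | ⟨rfl, rfl⟩⟩
      · exact SimpleGraph.Adj.reachable (G := G.induce (B' i)) (u := ⟨x, hB i hx⟩)
          (v := ⟨y, hB i hy⟩) hxy'
      · have e1 : (G.induce (B' i)).Adj ⟨x, hB i hx⟩ ⟨v, hv'' i hx⟩ := hva.symm
        have e2 : (G.induce (B' i)).Adj ⟨v, hv'' i hx⟩ ⟨y, hB i hy⟩ := hvb
        exact e1.reachable.trans e2.reachable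
      · have e1 : (G.induce (B' i)).Adj ⟨x, hB i hx⟩ ⟨v, hv'' i hy⟩ := hvb.symm
        have e2 : (G.induce (B' i)).Adj ⟨v, hv'' i hy⟩ ⟨y, hB i hy⟩ := hva
        exact e1.reachable.trans e2.reachable
    have walk : ∀ {x y : B i} (p : ((addE G a b).induce (B i)).Walk x y),
        (G.induce (B' i)).Reachable ⟨x.1, hB i x.2⟩ ⟨y.1, hB i y.2⟩ := by
      intro x y p
      induction p with
      | nil => exact SimpleGraph.Reachable.refl _
      | cons h p ih => exact (step _ _ h).trans ih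
    have toC : ∀ x : B' i, (G.induce (B' i)).Reachable ⟨c, hB i hc⟩ x := by
      rintro ⟨x, hx⟩
      rcases hB' i hx with rfl | hx'
      · have ha := hv' i hx
        obtain ⟨p⟩ := (h2 i).preconnected ⟨c, hc⟩ ⟨a, ha⟩
        have e1 : (G.induce (B' i)).Adj ⟨a, hB i ha⟩ ⟨x, hx⟩ := hva.symm
        exact (walk p).trans e1.reachable
      · obtain ⟨p⟩ := (h2 i).preconnected ⟨c, hc⟩ ⟨x, hx'⟩
        exact walk p
    have : Nonempty (B' i) := ⟨⟨c, hB i hc⟩⟩
    refine SimpleGraph.Connected.mk ?_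
    intro x y
    exact (toC x).symm.trans (toC y)
  · intro i j hij
    rw [Set.disjoint_left]
    intro x hx hx'
    have hd := Set.disjoint_left.1 (h3 i j hij)
    rcases hB' i hx with rfl | hxi
    · exact hd (hv' i hx) (hv' j hx')
    · rcases hB' j hx' with rfl | hxj
      · exact hvB i hxi
      · exact hd hxi hxj
  · intro i j hij
    obtain ⟨u, hu, w, hw, huw⟩ := h4 i j hij
    have huw' : G.Adj u w ∨ (u ≠ w ∧ ((u = a ∧ w = b) ∨ (u = b ∧ w = a))) := huw
    rcases huw' with h | ⟨-, ⟨rfl, rfl⟩ | ⟨rfl, rfl⟩⟩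
    · exact ⟨u, hB i hu, w, hB j hw, h⟩
    · exact ⟨v, hv'' i hu, w, hB j hw, hvb⟩
    · exact ⟨u, hB i hu, v, hv'' j hw, hvb.symm⟩

/-- the cheap cycle -/
theorem cheap {w R : ℕ} (hw : 3 ≤ w) (hR : 5 ^ R * (22 * (w + 1)) < 6 ^ R) :
    ∀ n, ∀ (G : SimpleGraph V) (S : Finset V), S.card = n → ¬ Bw G S w →
      ∃ X ⊆ S, HasTri G X ∧ ∀ k, k + (2 * R + 2) ≤ w → ¬ Bw G (S \ X) k := by
  classical
  intro n
  induction n using Nat.strong_induction_on with
  | _ n ih =>
    intro G S hSn hS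
    by_cases h1 : ∃ v ∈ S, ¬ Bw G (S.erase v) w
    · obtain ⟨v, hv, h1⟩ := h1
      obtain ⟨X, hX, hX2, hX3⟩ := ih _ (by rw [← hSn]; exact card_lt_card (erase_ssubset hv)) G
        (S.erase v) rfl h1
      refine ⟨X, hX.trans (erase_subset _ _), hX2, fun k hk h => hX3 k hk (h.mono ?_ le_rfl)⟩
      exact sdiff_subset_sdiff (erase_subset _ _) (Subset.refl _)
    push Not at h1
    have hne : S.Nonempty := by
      rw [nonempty_iff_ne_empty]
      rintro rfl
      exact hS ((bw_card ∅).mono (Subset.refl _) (by simp))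
    by_cases h2 : ∃ v ∈ S, (nb G S v).card < 3
    · obtain ⟨v, hv, hvn⟩ := h2
      have hnv : v ∉ S.erase v := notMem_erase v S
      have hins : insert v (S.erase v) = S := insert_erase hv
      have hnbe : ∀ u ∈ S.erase v, G.Adj v u → u ∈ nb G S v := fun u hu h =>
        mem_nb.2 ⟨mem_of_mem_erase hu, h⟩
      have hnb' : ∀ u ∈ nb G S v, u ∈ S.erase v := by
        intro u hu
        rw [mem_nb] at hu
        exact mem_erase.2 ⟨hu.2.ne', hu.1⟩
      have hcontra : ¬ ((∀ u ∈ S.erase v, ¬ G.Adj v u) ∨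
          (∃ a ∈ S.erase v, ∀ u ∈ S.erase v, G.Adj v u → u = a) ∨
          (∃ a ∈ S.erase v, ∃ b ∈ S.erase v, G.Adj a b ∧
            ∀ u ∈ S.erase v, G.Adj v u → u = a ∨ u = b)) := by
        intro h
        apply hS
        have := bw_simp' hnv hw (h1 v hv) h
        rwa [hins] at this
      push Not at hcontra
      obtain ⟨c0, c1, c2⟩ := hcontra
      -- two neighbours
      have hcard : (nb G S v).card = 2 := by
        by_contra hc
        have h3 : (nb G S v).card = 0 ∨ (nb G S v).card = 1 := by omega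
        rcases h3 with h3 | h3
        · rw [card_eq_zero] at h3
          obtain ⟨u, hu, huv⟩ := c0
          have := hnbe u hu huv
          rw [h3] at this
          exact absurd this (notMem_empty u)
        · rw [card_eq_one] at h3
          obtain ⟨a, ha⟩ := h3
          obtain ⟨u, hu, huv, hua⟩ := c1 a (hnb' a (by rw [ha]; simp))
          have := hnbe u hu huv
          rw [ha, mem_singleton] at this
          exact hua this
      obtain ⟨a, b, hab, hnbab⟩ := card_eq_two.1 hcard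
      have haN : a ∈ nb G S v := by rw [hnbab]; simp
      have hbN : b ∈ nb G S v := by rw [hnbab]; simp
      have haS := hnb' a haN
      have hbS := hnb' b hbN
      have hva : G.Adj v a := (mem_nb.1 haN).2
      have hvb : G.Adj v b := (mem_nb.1 hbN).2
      have honly : ∀ u ∈ S.erase v, G.Adj v u → u = a ∨ u = b := by
        intro u hu huv
        have := hnbe u hu huv
        rw [hnbab, mem_insert, mem_singleton] at this
        exact this
      have hnadj : ¬ G.Adj a b := by
        intro h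
        obtain ⟨u, hu, huv, h3, h4⟩ := c2 a haS b hbS h
        rcases honly u hu huv with h5 | h5
        · exact h3 h5
        · exact h4 h5
      have hG' : ¬ Bw (addE G a b) (S.erase v) w := by
        intro h
        apply hS
        obtain ⟨ι, hι, T, bag, hT, hsub, hcov, hedge, hconn, hbc⟩ := h
        obtain ⟨i, hi, hi'⟩ := hedge a haS b hbS (Or.inr ⟨hab, Or.inl ⟨rfl, rfl⟩⟩)
        have h5 := bw_attach (G := G) hnv hT hsub hcov
          (fun x hx y hy hxy => hedge x hx y hy (Or.inl hxy)) hconn hbc i {a, b} (by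
            intro x hx
            rcases mem_insert.1 hx with rfl | hx
            · exact hi
            · rw [mem_singleton.1 hx]; exact hi') (by
            have := card_le_two (a := a) (b := b)
            omega) (by
            intro u hu huv
            rcases honly u hu huv with rfl | rfl <;> simp)
        rwa [hins] at h5
      obtain ⟨X, hX, hX2, hX3⟩ := ih _ (by rw [← hSn]; exact card_lt_card (erase_ssubset hv))
        (addE G a b) (S.erase v) rfl hG'
      have hvX : v ∉ X := fun h => hnv (hX h)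
      have hXS : X ⊆ S := hX.trans (erase_subset _ _)
      by_cases hboth : a ∈ X ∧ b ∈ X
      · refine ⟨insert v X, insert_subset hv hXS, hX2.subdiv hvX hva hvb, ?_⟩
        intro k hk h
        apply hX3 k hk
        have e1 : S \ insert v X = (S.erase v) \ X := by
          ext x
          simp only [mem_sdiff, mem_insert, mem_erase]
          tauto
        rw [e1] at h
        refine Bw.of_le h ?_
        rintro x hx y hy (hxy | ⟨-, ⟨rfl, rfl⟩ | ⟨rfl, rfl⟩⟩)
        · exact hxy
        · exact absurd hboth.1 (mem_sdiff.1 hx).2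
        · exact absurd hboth.1 (mem_sdiff.1 hy).2
      · refine ⟨X, hXS, hX2.of_le ?_, ?_⟩
        · rintro x hx y hy (hxy | ⟨-, ⟨rfl, rfl⟩ | ⟨rfl, rfl⟩⟩)
          · exact hxy
          · exact absurd ⟨hx, hy⟩ hboth
          · exact absurd ⟨hy, hx⟩ hboth
        · intro k hk h
          apply hX3 k hk
          have e1 : (S \ X).erase v = (S.erase v) \ X := by
            ext x
            simp only [mem_sdiff, mem_erase]
            tauto
          by_cases haX : a ∈ X
          · have h3 : Bw G (S.erase v \ X) k := h.mono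
              (sdiff_subset_sdiff (erase_subset _ _) (Subset.refl _)) le_rfl
            refine Bw.of_le h3 ?_
            rintro x hx y hy (hxy | ⟨-, ⟨rfl, rfl⟩ | ⟨rfl, rfl⟩⟩)
            · exact hxy
            · exact absurd haX (mem_sdiff.1 hx).2
            · exact absurd haX (mem_sdiff.1 hy).2
          · rw [← e1]
            refine bw_contract h (mem_sdiff.2 ⟨mem_of_mem_erase haS, haX⟩)
              (mem_sdiff.2 ⟨hv, hvX⟩) hva ?_
            rintro x hx y hy (hxy | ⟨-, ⟨rfl, rfl⟩ | ⟨rfl, rfl⟩⟩)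
            · exact Or.inl hxy
            · exact Or.inr (Or.inl ⟨rfl, hvb⟩)
            · exact Or.inr (Or.inr ⟨rfl, hvb⟩)
    · push Not at h2
      obtain ⟨v, hv⟩ := hne
      have h3 : Bw G S (w + 1) := by
        have h4 := (h1 v hv).add {v}
        rw [card_singleton] at h4
        refine h4.mono ?_ le_rfl
        intro x hx
        by_cases hxv : x = v
        · exact mem_union_right _ (by simp [hxv])
        · exact mem_union_left _ (mem_erase.2 ⟨hxv, hx⟩)
      obtain ⟨A, hA, hA1, hA2, hA3⟩ := exists_region h3 ⟨v, hv⟩ h2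
      obtain ⟨X, hX, hX1, hX2⟩ := exists_short hA1 hA3
        (lt_of_le_of_lt (Nat.mul_le_mul_left _ hA2) hR)
      refine ⟨X, hX.trans hA, hX2, fun k hk h => hS ?_⟩
      have h4 := h.add X
      rw [sdiff_union_of_subset (hX.trans hA)] at h4
      exact h4.mono (Subset.refl _) (by omega)

end Pool.Agent.Q134.PT
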