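import Mathlib
import Pool.Agent.TH507.Defs

set_option autoImplicit false

namespace Pool.Agent.Q134.PT

open Pool.Agent.TH507.Host (tw IsMinor)

/-- `H` with a new vertex `none` whose only neighbour is `v`. -/
def pendant {W : Type} (H : SimpleGraph W) (v : W) : SimpleGraph (Option W) where
  Adj x y :=
    match x, y with
    | some a, some b => H.Adj a b
    | some a, none => a = v
    | none, some b => b = v
    | none, none => False
  symm := ⟨by
    rintro (_ | a) (_ | b) h
    · exact h
    · exact h
    · exact h
    · exact h.symm⟩
  loopless := ⟨by
    rintro (_ | a) h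
    · exact h
    · exact H.loopless.irrefl a h⟩

/-- `G` is planar: it has a straight-line drawing in the plane, with distinct points as vertices, in
which no vertex lies on an edge it is not an end of, and edges without common end are disjoint. -/
def Planar {V : Type} (G : SimpleGraph V) : Prop :=
  ∃ p : V → ℝ × ℝ, Function.Injective p ∧
    (∀ u v w, G.Adj u v → w ≠ u → w ≠ v → p w ∉ segment ℝ (p u) (p v)) ∧
    ∀ u v x y, G.Adj u v → G.Adj x y → u ≠ x → u ≠ y → v ≠ x → v ≠ y →
      Disjoint (segment ℝ (p u) (p v)) (segment ℝ (p x) (p y))

/-- `k = f(H)`: the least number `k` such that every finite graph of tree-width at least `k`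
contains `H` as a minor. -/
def IsThreshold {W : Type} (H : SimpleGraph W) (k : ℕ) : Prop :=
  IsLeast {k : ℕ | ∀ (V : Type) [Finite V] (G : SimpleGraph V), k ≤ tw G → IsMinor H G} k

end Pool.Agent.Q134.PT
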