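import Mathlib
import Pool.Agent.W126.SplitMain
import Pool.Agent.Q134.PTPath

set_option autoImplicit false
set_option linter.unusedSectionVars false

/-!
Tree decompositions with prescribed bags.
-/

namespace Pool.Agent.Q134.PT

open Finset Pool.Agent.W126.Split

variable {V : Type} [Fintype V] [DecidableEq V] {G : SimpleGraph V}

/-- a tree decomposition of the subgraph induced by `S` with all bags of size at most `k`, in which
every set with the property `C` is contained in a bag -/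
def RB (G : SimpleGraph V) (S : Finset V) (k : ℕ) (C : Finset V → Prop) : Prop :=
  ∃ (ι : Type) (_ : Fintype ι) (T : SimpleGraph ι) (bag : ι → Finset V),
    T.IsTree ∧ (∀ i, bag i ⊆ S) ∧ (∀ v ∈ S, ∃ i, v ∈ bag i) ∧
    (∀ u ∈ S, ∀ v ∈ S, G.Adj u v → ∃ i, u ∈ bag i ∧ v ∈ bag i) ∧
    (∀ v, ∀ i j, v ∈ bag i → v ∈ bag j → ∃ p : T.Walk i j, ∀ x ∈ p.support, v ∈ bag x) ∧
    (∀ i, (bag i).card ≤ k) ∧ ∀ X, C X → ∃ i, X ⊆ bag i

lemma RB.bw {S : Finset V} {k : ℕ} {C : Finset V → Prop} (h : RB G S k C) : Bw G S k := by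
  obtain ⟨ι, hι, T, bag, h1, h2, h3, h4, h5, h6, -⟩ := h
  exact ⟨ι, hι, T, bag, h1, h2, h3, h4, h5, h6⟩

lemma Bw.rb {S : Finset V} {k : ℕ} (h : Bw G S k) : RB G S k (fun _ => False) := by
  obtain ⟨ι, hι, T, bag, h1, h2, h3, h4, h5, h6⟩ := h
  exact ⟨ι, hι, T, bag, h1, h2, h3, h4, h5, h6, fun _ h => h.elim⟩

lemma bot_isTree : (⊥ : SimpleGraph Unit).IsTree := by
  rw [SimpleGraph.isTree_iff_connected_and_card]
  refine ⟨?_, by simp⟩
  refine SimpleGraph.Connected.mk ?_
  intro x y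
  exact SimpleGraph.Reachable.refl _

/-- attaching a piece -/
theorem RB.attach {S K N : Finset V} {k k' : ℕ} {C : Finset V → Prop} (h : RB G S k C)
    (hK : Bw G K k') (hd : Disjoint S K) (hN : C N) (hNS : N ⊆ S)
    (hadj : ∀ u ∈ S, ∀ y ∈ K, G.Adj u y → u ∈ N) (hk : k' + N.card ≤ k) :
    RB G (S ∪ K) k C := by
  obtain ⟨ι, hι, T, bag, hT, hsub, hcov, hedge, hconn, hcard, hC⟩ := h
  obtain ⟨κ, hκ, T', bag', hT', hsub', hcov', hedge', hconn', hcard'⟩ := hK
  obtain ⟨a, ha⟩ := hC N hN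
  obtain ⟨b⟩ := hT'.connected.nonempty
  have hdis : ∀ v i j, v ∈ bag i → v ∈ bag' j → False := fun v i j h1 h2 =>
    (Finset.disjoint_left.1 hd) (hsub i h1) (hsub' j h2)
  -- walks in the second part
  have hw2 : ∀ v i j, v ∈ bag' i ∪ N → v ∈ bag' j ∪ N → ∃ p : T'.Walk i j,
      ∀ x ∈ p.support, v ∈ bag' x ∪ N := by
    intro v i j hi hj
    by_cases hv : v ∈ N
    · obtain ⟨p⟩ := hT'.connected.preconnected i j
      exact ⟨p, fun x _ => mem_union_right _ hv⟩
    · obtain ⟨p, hp⟩ := hconn' v i j ((mem_union.1 hi).resolve_right hv)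
        ((mem_union.1 hj).resolve_right hv)
      exact ⟨p, fun x hx => mem_union_left _ (hp x hx)⟩
  refine ⟨ι ⊕ κ, inferInstance, glue T T' a b, Sum.elim bag (fun j => bag' j ∪ N),
    glue_isTree hT hT', ?_, ?_, ?_, ?_, ?_, ?_⟩
  · rintro (i | i)
    · exact (hsub i).trans subset_union_left
    · exact union_subset ((hsub' i).trans subset_union_right) (hNS.trans subset_union_left)
  · intro v hv
    rcases mem_union.1 hv with h | h
    · obtain ⟨i, hi⟩ := hcov v h
      exact ⟨Sum.inl i, hi⟩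
    · obtain ⟨i, hi⟩ := hcov' v h
      exact ⟨Sum.inr i, mem_union_left _ hi⟩
  · intro u hu v hv huv
    rcases mem_union.1 hu with h1 | h1 <;> rcases mem_union.1 hv with h2 | h2
    · obtain ⟨i, hi⟩ := hedge u h1 v h2 huv
      exact ⟨Sum.inl i, hi⟩
    · obtain ⟨i, hi⟩ := hcov' v h2
      exact ⟨Sum.inr i, mem_union_right _ (hadj u h1 v h2 huv), mem_union_left _ hi⟩
    · obtain ⟨i, hi⟩ := hcov' u h1
      exact ⟨Sum.inr i, mem_union_left _ hi, mem_union_right _ (hadj v h2 u h1 huv.symm)⟩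
    · obtain ⟨i, hi⟩ := hedge' u h1 v h2 huv
      exact ⟨Sum.inr i, mem_union_left _ hi.1, mem_union_left _ hi.2⟩
  · rintro v (i | i) (j | j) hi hj
    · obtain ⟨p, hp⟩ := hconn v i j hi hj
      obtain ⟨q, hq⟩ := walk_inl (T' := T') (a := a) (b := b) p
      refine ⟨q, fun x hx => ?_⟩
      obtain ⟨y, hy, rfl⟩ := hq x hx
      exact hp y hy
    · have hv : v ∈ N := (mem_union.1 hj).resolve_left (fun h => hdis v i j hi h)
      obtain ⟨p, hp⟩ := hconn v i a hi (ha hv)
      obtain ⟨q, hq⟩ := walk_inl (T' := T') (a := a) (b := b) p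
      obtain ⟨p', hp'⟩ := hw2 v b j (mem_union_right _ hv) (mem_union_right _ hv)
      obtain ⟨q', hq'⟩ := walk_inr (T := T) (a := a) (b := b) p'
      have hadj : (glue T T' a b).Adj (Sum.inl a) (Sum.inr b) := ⟨rfl, rfl⟩
      refine ⟨q.append (SimpleGraph.Walk.cons hadj q'), fun x hx => ?_⟩
      rw [SimpleGraph.Walk.mem_support_append_iff, SimpleGraph.Walk.support_cons,
        List.mem_cons] at hx
      rcases hx with hx | rfl | hx
      · obtain ⟨y, hy, rfl⟩ := hq x hx
        exact hp y hy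
      · exact ha hv
      · obtain ⟨y, hy, rfl⟩ := hq' x hx
        exact hp' y hy
    · have hv : v ∈ N := (mem_union.1 hi).resolve_left (fun h => hdis v j i hj h)
      obtain ⟨p, hp⟩ := hconn v a j (ha hv) hj
      obtain ⟨q, hq⟩ := walk_inl (T' := T') (a := a) (b := b) p
      obtain ⟨p', hp'⟩ := hw2 v i b (mem_union_right _ hv) (mem_union_right _ hv)
      obtain ⟨q', hq'⟩ := walk_inr (T := T) (a := a) (b := b) p'
      have hadj : (glue T T' a b).Adj (Sum.inr b) (Sum.inl a) := ⟨rfl, rfl⟩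
      refine ⟨q'.append (SimpleGraph.Walk.cons hadj q), fun x hx => ?_⟩
      rw [SimpleGraph.Walk.mem_support_append_iff, SimpleGraph.Walk.support_cons,
        List.mem_cons] at hx
      rcases hx with hx | rfl | hx
      · obtain ⟨y, hy, rfl⟩ := hq' x hx
        exact hp' y hy
      · exact mem_union_right _ hv
      · obtain ⟨y, hy, rfl⟩ := hq x hx
        exact hp y hy
    · obtain ⟨p, hp⟩ := hw2 v i j hi hj
      obtain ⟨q, hq⟩ := walk_inr (T := T) (a := a) (b := b) p
      refine ⟨q, fun x hx => ?_⟩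
      obtain ⟨y, hy, rfl⟩ := hq x hx
      exact hp y hy
  · rintro (i | i)
    · exact hcard i
    · exact (card_union_le _ _).trans ((Nat.add_le_add_right (hcard' i) _).trans hk)
  · intro X hX
    obtain ⟨i, hi⟩ := hC X hX
    exact ⟨Sum.inl i, hi⟩

/-- two bags -/
theorem rb_two {P A B : Finset V} {k : ℕ} (hA : A ⊆ P) (hB : B ⊆ P) (hd : Disjoint A B)
    (hno : ∀ a ∈ A, ∀ b ∈ B, ¬ G.Adj a b) (h1 : (P \ A).card ≤ k) (h2 : (P \ B).card ≤ k) :
    RB G P k (fun X => X ⊆ P \ A ∨ X ⊆ P \ B) := by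
  have hdis := Finset.disjoint_left.1 hd
  refine ⟨Unit ⊕ Unit, inferInstance, glue ⊥ ⊥ () (), Sum.elim (fun _ => P \ A) (fun _ => P \ B),
    glue_isTree bot_isTree bot_isTree, ?_, ?_, ?_, ?_, ?_, ?_⟩
  · rintro (i | i)
    · exact sdiff_subset
    · exact sdiff_subset
  · intro v hv
    by_cases h : v ∈ A
    · exact ⟨Sum.inr (), mem_sdiff.2 ⟨hv, hdis h⟩⟩
    · exact ⟨Sum.inl (), mem_sdiff.2 ⟨hv, h⟩⟩
  · intro u hu v hv huv
    by_cases h : u ∈ A
    · refine ⟨Sum.inr (), mem_sdiff.2 ⟨hu, hdis h⟩, mem_sdiff.2 ⟨hv, fun h' => ?_⟩⟩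
      exact hno u h v h' huv
    · by_cases h' : v ∈ A
      · refine ⟨Sum.inr (), mem_sdiff.2 ⟨hu, fun h'' => ?_⟩, mem_sdiff.2 ⟨hv, hdis h'⟩⟩
        exact hno v h' u h'' huv.symm
      · exact ⟨Sum.inl (), mem_sdiff.2 ⟨hu, h⟩, mem_sdiff.2 ⟨hv, h'⟩⟩
  · have a1 : (glue (⊥ : SimpleGraph Unit) (⊥ : SimpleGraph Unit) () ()).Adj
        (Sum.inl ()) (Sum.inr ()) := ⟨rfl, rfl⟩
    rintro v (i | i) (j | j) hi hj
    · exact ⟨SimpleGraph.Walk.nil.copy rfl rfl, fun x hx => by
        have : x = Sum.inl i := by simpa using hx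
        rw [this]; exact hi⟩
    · refine ⟨SimpleGraph.Walk.cons a1 SimpleGraph.Walk.nil, fun x hx => ?_⟩
      simp only [SimpleGraph.Walk.support_cons, SimpleGraph.Walk.support_nil, List.mem_cons,
        List.not_mem_nil, or_false] at hx
      rcases hx with rfl | rfl
      · exact hi
      · exact hj
    · refine ⟨SimpleGraph.Walk.cons a1.symm SimpleGraph.Walk.nil, fun x hx => ?_⟩
      simp only [SimpleGraph.Walk.support_cons, SimpleGraph.Walk.support_nil, List.mem_cons,
        List.not_mem_nil, or_false] at hx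
      rcases hx with rfl | rfl
      · exact hi
      · exact hj
    · exact ⟨SimpleGraph.Walk.nil.copy rfl rfl, fun x hx => by
        have : x = Sum.inr i := by simpa using hx
        rw [this]; exact hi⟩
  · rintro (i | i)
    · exact h1
    · exact h2
  · rintro X (hX | hX)
    · exact ⟨Sum.inl (), hX⟩
    · exact ⟨Sum.inr (), hX⟩

/-- assembling -/
theorem bw_assemble {S P A B : Finset V} {k : ℕ} (hPS : P ⊆ S) (hA : A ⊆ P) (hB : B ⊆ P)
    (hd : Disjoint A B) (hno : ∀ a ∈ A, ∀ b ∈ B, ¬ F G (S \ P) a b)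
    (h1 : (P \ A).card ≤ k) (h2 : (P \ B).card ≤ k)
    (hK : ∀ K, IsComp G (S \ P) K → ∀ N : Finset V, (∀ x, x ∈ N ↔ x ∈ P ∧ Att G K x) →
      ∃ k', Bw G K k' ∧ k' + N.card ≤ k) : Bw G S k := by
  classical
  have key : ∀ n, ∀ D : Finset V, D.card = n → Closed G (S \ P) D →
      RB G (P ∪ D) k (fun X => X ⊆ P \ A ∨ X ⊆ P \ B) := by
    intro n
    induction n using Nat.strong_induction_on with
    | _ n ih =>
      intro D hDn hD
      rcases D.eq_empty_or_nonempty with rfl | ⟨x, hx⟩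
      · rw [union_empty]
        exact rb_two hA hB hd (fun a ha b hb h => hno a ha b hb (Or.inl h)) h1 h2
      · have hxD := hD.1 hx
        have hKD : comp G (S \ P) x ⊆ D := comp_subset hD hx
        have hcl := closed_comp (G := G) (S \ P) x
        have hlt : (D \ comp G (S \ P) x).card < n := by
          rw [← hDn]
          exact card_lt_card (sdiff_ssubset hKD ⟨x, mem_comp_self hxD⟩)
        have h3 := ih _ hlt (D \ comp G (S \ P) x) rfl (hD.sdiff hcl)
        have hcomp : IsComp G (S \ P) (comp G (S \ P) x) := ⟨x, hxD, rfl⟩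
        obtain ⟨k', hk1, hk2⟩ := hK _ hcomp (P.filter (fun a => Att G (comp G (S \ P) x) a))
          (fun y => mem_filter)
        have hCN : P.filter (fun a => Att G (comp G (S \ P) x) a) ⊆ P \ A ∨
            P.filter (fun a => Att G (comp G (S \ P) x) a) ⊆ P \ B := by
          by_contra hcon
          push Not at hcon
          obtain ⟨hc1, hc2⟩ := hcon
          rw [Finset.not_subset] at hc1 hc2
          obtain ⟨u, hu, hu'⟩ := hc1
          obtain ⟨v, hv, hv'⟩ := hc2
          rw [mem_filter] at hu hv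
          rw [mem_sdiff, not_and, not_not] at hu' hv'
          exact hno u (hu' hu.1) v (hv' hv.1) (Or.inr ⟨_, hcomp, hu.2, hv.2⟩)
        have h4 := h3.attach hk1 (by
          rw [Finset.disjoint_union_left]
          refine ⟨?_, disjoint_sdiff_self_left⟩
          rw [Finset.disjoint_left]
          intro y hy hy'
          exact (mem_sdiff.1 (hcl.1 hy')).2 hy) hCN
          ((filter_subset _ _).trans subset_union_left) (by
            intro u hu y hy huy
            rw [mem_union] at hu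
            rcases hu with hu | hu
            · exact mem_filter.2 ⟨hu, y, hy, huy⟩
            · exfalso
              rw [mem_sdiff] at hu
              exact hu.2 (hcl.2 y hy u (hD.1 hu.1) huy.symm)) hk2
        have h5 : P ∪ D \ comp G (S \ P) x ∪ comp G (S \ P) x = P ∪ D := by
          rw [union_assoc, sdiff_union_of_subset hKD]
        rw [h5] at h4
        exact h4
  have h3 := (key _ (S \ P) rfl (closed_self _)).bw
  rwa [union_sdiff_of_subset hPS] at h3

end Pool.Agent.Q134.PT
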