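import Mathlib

set_option autoImplicit false

/-!
A pair of relations on an ordered set without a certain pattern: a bipartite hole.
-/

namespace Pool.Agent.Q134.PT

open Finset

/-- `A` is to the left of `B` and there is no related pair -/
def Hole (L : ℕ → ℕ → Prop) (A B : Finset ℕ) : Prop :=
  (∀ x ∈ A, ∀ y ∈ B, x < y ∧ ¬ L x y)

lemma many_large {L : ℕ → ℕ → Prop} [DecidableRel L] {U W : Finset ℕ} {s : ℕ}
    (hUW : ∀ x ∈ U, ∀ y ∈ W, x < y) (hU : 2 * s ≤ U.card) (hW : s * s + s ≤ W.card)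
    (hno : ∀ A ⊆ U, ∀ B ⊆ W, A.card = s → B.card = s → ¬ Hole L A B) :
    s ≤ (U.filter (fun p => s ≤ (W.filter (fun y => L p y)).card)).card := by
  by_contra hcon
  push Not at hcon
  have h1 := card_filter_add_card_filter_not (s := U)
    (fun p => s ≤ (W.filter (fun y => L p y)).card)
  obtain ⟨A, hA, hAc⟩ := exists_subset_card_eq (s := U.filter
    (fun p => ¬ s ≤ (W.filter (fun y => L p y)).card)) (n := s) (by omega)
  have h2 : (A.biUnion (fun p => W.filter (fun y => L p y))).card ≤ s * s := by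
    refine (card_biUnion_le_card_mul _ _ s ?_).trans (by rw [hAc])
    intro p hp
    have := (mem_filter.1 (hA hp)).2
    omega
  have h3 : s ≤ (W \ A.biUnion (fun p => W.filter (fun y => L p y))).card := by
    have := le_card_sdiff (A.biUnion (fun p => W.filter (fun y => L p y))) W
    omega
  obtain ⟨B, hB, hBc⟩ := exists_subset_card_eq h3
  refine hno A (hA.trans (filter_subset _ _)) B (hB.trans sdiff_subset) hAc hBc ?_
  intro x hx y hy
  have hyW := mem_sdiff.1 (hB hy)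
  refine ⟨hUW x (mem_filter.1 (hA hx)).1 y hyW.1, fun hxy => hyW.2 ?_⟩
  exact mem_biUnion.2 ⟨x, hx, mem_filter.2 ⟨hyW.1, hxy⟩⟩

theorem exists_hole {L R : ℕ → ℕ → Prop} {s m : ℕ} (hm : 2 * (s * s) + 6 * s ≤ m)
    (h7 : ∀ a b c d, a < b → b < c → c < d → d < m → R a b → L a c → L b d → R c d → False) :
    ∃ A ⊆ range m, ∃ B ⊆ range m, A.card = s ∧ B.card = s ∧ (Hole L A B ∨ Hole R A B) := by
  classical
  by_contra hcon
  push Not at hcon
  have hnoL : ∀ A ⊆ range m, ∀ B ⊆ range m, A.card = s → B.card = s → ¬ Hole L A B :=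
    fun A hA B hB h1 h2 => (hcon A hA B hB h1 h2).1
  have hnoR : ∀ A ⊆ range m, ∀ B ⊆ range m, A.card = s → B.card = s → ¬ Hole R A B :=
    fun A hA B hB h1 h2 => (hcon A hA B hB h1 h2).2
  set n := s * s + s with hn
  have hblock : ∀ a b : ℕ, a ≤ b → b ≤ m → Ico a b ⊆ range m := by
    intro a b _ hb x hx
    rw [mem_Ico] at hx
    rw [mem_range]
    omega
  have hlt : ∀ a b c d : ℕ, b ≤ c → ∀ x ∈ Ico a b, ∀ y ∈ Ico c d, x < y := by
    intro a b c d hbc x hx y hy
    rw [mem_Ico] at hx hy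
    omega
  have hm' : 4 * s + n + n ≤ m := by omega
  have b1 : Ico 0 (2 * s) ⊆ range m := hblock _ _ (by omega) (by omega)
  have b2 : Ico (2 * s) (4 * s) ⊆ range m := hblock _ _ (by omega) (by omega)
  have b3 : Ico (4 * s) (4 * s + n) ⊆ range m := hblock _ _ (by omega) (by omega)
  have b4 : Ico (4 * s + n) (4 * s + n + n) ⊆ range m := hblock _ _ (by omega) (by omega)
  have l1 := many_large (L := L) (U := Ico 0 (2 * s)) (W := Ico (4 * s) (4 * s + n)) (s := s)
    (hlt _ _ _ _ (by omega)) (by rw [Nat.card_Ico]; omega) (by rw [Nat.card_Ico]; omega)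
    (fun A hA B hB => hnoL A (hA.trans b1) B (hB.trans b3))
  have l2 := many_large (L := L) (U := Ico (2 * s) (4 * s)) (W := Ico (4 * s + n) (4 * s + n + n))
    (s := s) (hlt _ _ _ _ (by omega)) (by rw [Nat.card_Ico]; omega) (by rw [Nat.card_Ico]; omega)
    (fun A hA B hB => hnoL A (hA.trans b2) B (hB.trans b4))
  have key : ∀ X Y : Finset ℕ, X ⊆ range m → Y ⊆ range m → s ≤ X.card → s ≤ Y.card →
      (∀ x ∈ X, ∀ y ∈ Y, x < y) → ∃ x ∈ X, ∃ y ∈ Y, R x y := by
    intro X Y hX hY hXc hYc hXY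
    obtain ⟨A, hA, hAc⟩ := exists_subset_card_eq hXc
    obtain ⟨B, hB, hBc⟩ := exists_subset_card_eq hYc
    have h1 := hnoR A (hA.trans hX) B (hB.trans hY) hAc hBc
    unfold Hole at h1
    push Not at h1
    obtain ⟨x, hx, y, hy, h2⟩ := h1
    exact ⟨x, hA hx, y, hB hy, h2 (hXY x (hA hx) y (hB hy))⟩
  obtain ⟨p, hp, q, hq, hpq⟩ := key _ _ ((filter_subset _ _).trans b1)
    ((filter_subset _ _).trans b2) l1 l2 (fun x hx y hy =>
      hlt 0 (2 * s) (2 * s) (4 * s) le_rfl x (mem_filter.1 hx).1 y (mem_filter.1 hy).1)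
  rw [mem_filter] at hp hq
  obtain ⟨y, hy, z, hz, hyz⟩ := key _ _ ((filter_subset _ _).trans b3)
    ((filter_subset _ _).trans b4) hp.2 hq.2 (fun x hx y hy =>
      hlt (4 * s) (4 * s + n) (4 * s + n) (4 * s + n + n) le_rfl x (mem_filter.1 hx).1 y
        (mem_filter.1 hy).1)
  rw [mem_filter, mem_Ico] at hy hz
  have hp1 := mem_Ico.1 hp.1
  have hq1 := mem_Ico.1 hq.1
  exact h7 p q y z (by omega) (by omega) (by omega) (by omega) hpq hy.2 hz.2 hyz

end Pool.Agent.Q134.PT
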