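import Mathlib
import Pool.Agent.TH507.Host
import Pool.Agent.Q134.CTHost

set_option autoImplicit false

/-!
A graph of treewidth at least `9 s` without `s` disjoint models of `K₃`.
-/

namespace Pool.Agent.Q134.PT

open Finset Pool.Agent.TH507.RG
open Pool.Agent.Q134.CT (tri dense exists_list0)

open Pool.Agent.TH507.Host in
/-- The host graph. -/
theorem exists_host : ∃ s : ℕ, 1 ≤ s ∧ ∃ G : SimpleGraph (Fin (s * 36)),
    ¬ IsMinor (tri s) G ∧ ∀ w, w < 9 * s → ¬ TwLE G w := by
  classical
  set T := 4 * 36 * 119 ^ 36 with hT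
  set s := 37 * (T + 1) with hs
  have hs1 : 1 ≤ s := by omega
  obtain ⟨φ, hφ1, hφ2⟩ := exists_list0 hs1 (t := 36) (by norm_num)
  refine ⟨s, hs1, gr φ, ?_, ?_⟩
  · rintro ⟨B, h1, h2, h3⟩
    let B' : Fin s → Fin 3 → Finset (Fin (s * 36)) := fun a w => (B (a, w)).toFinset
    have hB' : ∀ a w, ((B' a w : Finset (Fin (s * 36))) : Set (Fin (s * 36))) = B (a, w) :=
      fun a w => Set.coe_toFinset _
    let U : Fin s → Finset (Fin (s * 36)) := fun a => univ.biUnion (B' a)
    have hne : ∀ a, (U a).Nonempty := by
      intro a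
      obtain ⟨⟨x, hx⟩⟩ := (h1 (a, 0)).nonempty
      exact ⟨x, mem_biUnion.2 ⟨0, mem_univ _, Set.mem_toFinset.2 hx⟩⟩
    have hdis : ∀ a a' : Fin s, a ≠ a' → Disjoint (U a) (U a') := by
      intro a a' haa
      rw [Finset.disjoint_left]
      intro x hx hx'
      rw [mem_biUnion] at hx hx'
      obtain ⟨w, -, hw⟩ := hx
      obtain ⟨w', -, hw'⟩ := hx'
      have hne : (a, w) ≠ (a', w') := fun h => haa (Prod.mk.inj h).1
      exact Set.disjoint_left.1 (h2 _ _ hne) (Set.mem_toFinset.1 hw) (Set.mem_toFinset.1 hw')
    have hdense : ∀ a, (U a).card ≤ 36 → U a ∈ dense 36 φ := by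
      intro a ha
      obtain ⟨E, hE1, hE2⟩ := count_model (G := gr φ) (P := Fin 3) (B' a)
        (fun w => by rw [hB']; exact h1 _)
        (fun w w' hww => by
          rw [← Finset.disjoint_coe, hB', hB']
          exact h2 _ _ (fun h => hww (Prod.mk.inj h).2))
        (fun p => p) (fun p => p + 1)
        (by decide) (by decide)
        (fun p => by
          have hp : ∀ p : Fin 3, p ≠ p + 1 := by decide
          have hadj : (tri s).Adj (a, p) (a, p + 1) := ⟨rfl, hp p⟩
          obtain ⟨u, hu, v, hv, huv⟩ := h3 _ _ hadj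
          exact ⟨u, Set.mem_toFinset.2 hu, v, Set.mem_toFinset.2 hv, huv⟩)
      have hE3 := card_edges_le φ (U a) E hE1
      rw [dense, mem_filter]
      refine ⟨mem_univ _, ⟨card_pos.2 (hne a), ha⟩, ?_⟩
      rw [Fintype.card_fin] at hE2
      have : (U a).card ≤ E.card := by
        have := hE2
        simp only [U]
        omega
      omega
    have hUinj : Function.Injective U := by
      intro a a' h
      by_contra hne'
      have := hdis a a' hne'
      rw [h, disjoint_self_iff_empty] at this
      exact (hne a').ne_empty this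
    -- the small and the large sets
    have hsmall : ((univ : Finset (Fin s)).filter (fun a => (U a).card ≤ 36)).card < T := by
      refine lt_of_le_of_lt ?_ hφ2
      refine card_le_card_of_injOn U ?_ (hUinj.injOn)
      intro a ha
      exact hdense a (mem_filter.1 (mem_coe.1 ha)).2
    have hlarge : 37 * ((univ : Finset (Fin s)).filter (fun a => ¬ (U a).card ≤ 36)).card ≤
        s * 36 := by
      calc 37 * ((univ : Finset (Fin s)).filter (fun a => ¬ (U a).card ≤ 36)).card
          = ∑ a ∈ (univ : Finset (Fin s)).filter (fun a => ¬ (U a).card ≤ 36), 37 := by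
            rw [sum_const, smul_eq_mul, mul_comm]
        _ ≤ ∑ a ∈ (univ : Finset (Fin s)).filter (fun a => ¬ (U a).card ≤ 36), (U a).card := by
            apply sum_le_sum
            intro a ha
            have := (mem_filter.1 ha).2
            omega
        _ ≤ ∑ a, (U a).card := sum_le_sum_of_subset (subset_univ _)
        _ = (univ.biUnion U).card := (card_biUnion (fun a _ a' _ h => hdis a a' h)).symm
        _ ≤ s * 36 := by
            refine (card_le_univ _).trans ?_
            rw [Fintype.card_fin]
    have htot := card_filter_add_card_filter_not (s := (univ : Finset (Fin s)))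
      (fun a => (U a).card ≤ 36)
    rw [card_univ, Fintype.card_fin] at htot
    omega
  · intro w hw
    refine not_twLE (G := gr φ) (w := w) ?_ ?_
    · intro A B hd hA hB
      rw [Fintype.card_fin] at hA hB
      obtain ⟨i, hi⟩ := hφ1 A B hd hA hB
      rw [mem_union, mem_product, mem_product] at hi
      rcases hi with hi | hi
      · refine ⟨_, hi.1, _, hi.2, ?_, i, Or.inl rfl⟩
        intro h
        exact Finset.disjoint_left.1 hd hi.1 (h ▸ hi.2)
      · refine ⟨_, hi.2, _, hi.1, ?_, i, Or.inr rfl⟩
        intro h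
        exact Finset.disjoint_left.1 hd hi.2 (h ▸ hi.1)
    · rw [Fintype.card_fin]
      omega


end Pool.Agent.Q134.PT
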