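import Mathlib
import Pool.Agent.Q134.PTPath
import Pool.Agent.Q134.PTHole

set_option autoImplicit false
set_option linter.unusedSectionVars false

/-!
A bipartite hole on a longest path.
-/

namespace Pool.Agent.Q134.PT

open Finset Pool.Agent.W126.Split

lemma cut1 {V : Type} {l : List V} {i : ℕ} {a b : V} (h1 : l[i]? = some a)
    (h2 : l[i + 1]? = some b) : l = l.take i ++ a :: b :: l.drop (i + 2) := by
  obtain ⟨g1, rfl⟩ := List.getElem?_eq_some_iff.1 h1
  obtain ⟨g2, rfl⟩ := List.getElem?_eq_some_iff.1 h2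
  conv_lhs => rw [← List.take_append_drop i l, List.drop_eq_getElem_cons g1,
    List.drop_eq_getElem_cons g2]

lemma drop_get {V : Type} {l : List V} {i j : ℕ} {a : V} (hij : i + 2 ≤ j)
    (h : l[j]? = some a) : (l.drop (i + 2))[j - (i + 2)]? = some a := by
  rw [List.getElem?_drop]
  have : i + 2 + (j - (i + 2)) = j := by omega
  rw [this]
  exact h

lemma drop_get' {V : Type} {l : List V} {i j : ℕ} {a : V} (hij : i + 2 ≤ j)
    (h : l[j + 1]? = some a) : (l.drop (i + 2))[j - (i + 2) + 1]? = some a := by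
  rw [List.getElem?_drop]
  have : i + 2 + (j - (i + 2) + 1) = j + 1 := by omega
  rw [this]
  exact h

lemma cut4 {V : Type} {l : List V} {i1 i2 i3 i4 : ℕ} {a1 b1 a2 b2 a3 b3 a4 b4 : V}
    (h12 : i1 + 2 ≤ i2) (h23 : i2 + 2 ≤ i3) (h34 : i3 + 2 ≤ i4)
    (ha1 : l[i1]? = some a1) (hb1 : l[i1 + 1]? = some b1)
    (ha2 : l[i2]? = some a2) (hb2 : l[i2 + 1]? = some b2)
    (ha3 : l[i3]? = some a3) (hb3 : l[i3 + 1]? = some b3)
    (ha4 : l[i4]? = some a4) (hb4 : l[i4 + 1]? = some b4) :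
    ∃ l0 l1 l2 l3 l4, l = l0 ++ a1 :: b1 :: (l1 ++ a2 :: b2 :: (l2 ++ a3 :: b3 ::
      (l3 ++ a4 :: b4 :: l4))) := by
  have e1 := cut1 ha1 hb1
  have e2 := cut1 (drop_get h12 ha2) (drop_get' h12 hb2)
  have e3 := cut1 (drop_get (i := i2 - (i1 + 2)) (j := i3 - (i1 + 2)) (by omega)
    (drop_get (by omega) ha3)) (drop_get' (i := i2 - (i1 + 2)) (j := i3 - (i1 + 2)) (by omega)
    (drop_get' (by omega) hb3))
  have e4 := cut1 (drop_get (i := i3 - (i1 + 2) - (i2 - (i1 + 2) + 2))
      (j := i4 - (i1 + 2) - (i2 - (i1 + 2) + 2)) (by omega)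
    (drop_get (i := i2 - (i1 + 2)) (j := i4 - (i1 + 2)) (by omega) (drop_get (by omega) ha4)))
    (drop_get' (i := i3 - (i1 + 2) - (i2 - (i1 + 2) + 2))
      (j := i4 - (i1 + 2) - (i2 - (i1 + 2) + 2)) (by omega)
    (drop_get' (i := i2 - (i1 + 2)) (j := i4 - (i1 + 2)) (by omega) (drop_get' (by omega) hb4)))
  exact ⟨_, _, _, _, _, by rw [← e4, ← e3, ← e2, ← e1]⟩

variable {V : Type} [Fintype V] [DecidableEq V] {G : SimpleGraph V}

theorem vertex_hole {S : Finset V} {P : List V} (hP : IsP G S P) (hmax : PL G S P.length)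
    (hgood : ∀ X ⊆ S, X.card ≤ 8 → ¬ HasTri G X) {s : ℕ}
    (hs : 2 * (2 * (s * s) + 6 * s) ≤ P.length) :
    ∃ A B : Finset V, A ⊆ P.toFinset ∧ B ⊆ P.toFinset ∧ A.card = s ∧ B.card = s ∧
      Disjoint A B ∧ ∀ a ∈ A, ∀ b ∈ B, ¬ F G (S \ P.toFinset) a b := by
  classical
  by_cases hP0 : P = []
  · subst hP0
    have : s = 0 := by
      simp only [List.length_nil] at hs
      omega
    subst this
    exact ⟨∅, ∅, by simp, by simp, by simp, by simp, by simp, by simp⟩
  obtain ⟨x0, -⟩ := List.exists_mem_of_ne_nil P hP0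
  let p : ℕ → V := fun i => P.getD i x0
  have hp : ∀ i, i < P.length → P[i]? = some (p i) := by
    intro i hi
    simp only [p, List.getD_eq_getElem?_getD, List.getElem?_eq_getElem hi, Option.getD_some]
  have hinj : ∀ i j, i < P.length → j < P.length → p i = p j → i = j := by
    intro i j hi hj hij
    refine (List.getElem?_inj hi hP.1).1 ?_
    rw [hp i hi, hp j hj, hij]
  have hpm : ∀ i, i < P.length → p i ∈ P.toFinset := by
    intro i hi
    rw [List.mem_toFinset]
    exact List.mem_of_getElem? (hp i hi)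
  obtain ⟨A, hA, B, hB, hAc, hBc, hAB⟩ := exists_hole
    (L := fun i j => F G (S \ P.toFinset) (p (2 * i)) (p (2 * j)))
    (R := fun i j => F G (S \ P.toFinset) (p (2 * i + 1)) (p (2 * j + 1)))
    (s := s) (m := P.length / 2) (by omega) (by
      intro a b c d hab hbc hcd hd h1 h2 h3 h4
      obtain ⟨l0, l1, l2, l3, l4, hl⟩ := cut4 (l := P) (i1 := 2 * a) (i2 := 2 * b) (i3 := 2 * c)
        (i4 := 2 * d) (by omega) (by omega) (by omega) (hp _ (by omega)) (hp _ (by omega))
        (hp _ (by omega)) (hp _ (by omega)) (hp _ (by omega)) (hp _ (by omega))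
        (hp _ (by omega)) (hp _ (by omega))
      exact no7 hP hmax hgood hl h2 h1 h3 h4)
  -- the two cases are the same
  have key : ∀ f : ℕ → ℕ, (∀ i, i < P.length / 2 → f i < P.length) →
      (∀ i j, f i = f j → i = j) →
      Hole (fun i j => F G (S \ P.toFinset) (p (f i)) (p (f j))) A B →
      ∃ A B : Finset V, A ⊆ P.toFinset ∧ B ⊆ P.toFinset ∧ A.card = s ∧ B.card = s ∧
        Disjoint A B ∧ ∀ a ∈ A, ∀ b ∈ B, ¬ F G (S \ P.toFinset) a b := by
    intro f hf hfi hH
    have hAm : ∀ i ∈ A, f i < P.length := fun i hi => hf i (mem_range.1 (hA hi))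
    have hBm : ∀ i ∈ B, f i < P.length := fun i hi => hf i (mem_range.1 (hB hi))
    refine ⟨A.image (fun i => p (f i)), B.image (fun i => p (f i)), ?_, ?_, ?_, ?_, ?_, ?_⟩
    · intro x hx
      obtain ⟨i, hi, rfl⟩ := mem_image.1 hx
      exact hpm _ (hAm i hi)
    · intro x hx
      obtain ⟨i, hi, rfl⟩ := mem_image.1 hx
      exact hpm _ (hBm i hi)
    · rw [card_image_of_injOn, hAc]
      intro i hi j hj hij
      exact hfi _ _ (hinj _ _ (hAm i hi) (hAm j hj) hij)
    · rw [card_image_of_injOn, hBc]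
      intro i hi j hj hij
      exact hfi _ _ (hinj _ _ (hBm i hi) (hBm j hj) hij)
    · rw [Finset.disjoint_left]
      intro x hx hx'
      obtain ⟨i, hi, rfl⟩ := mem_image.1 hx
      obtain ⟨j, hj, hij⟩ := mem_image.1 hx'
      have h1 := hfi _ _ (hinj _ _ (hBm j hj) (hAm i hi) hij)
      have h2 := (hH i hi j hj).1
      omega
    · intro a ha b hb
      obtain ⟨i, hi, rfl⟩ := mem_image.1 ha
      obtain ⟨j, hj, rfl⟩ := mem_image.1 hb
      exact (hH i hi j hj).2
  rcases hAB with h | h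
  · exact key (fun i => 2 * i) (fun i hi => by omega) (fun i j h => by omega) h
  · exact key (fun i => 2 * i + 1) (fun i hi => by omega) (fun i j h => by omega) h

end Pool.Agent.Q134.PT
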