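import Mathlib
import Pool.Agent.Q134.PTVertex
import Pool.Agent.Q134.PTGlue

set_option autoImplicit false
set_option linter.unusedSectionVars false

/-!
The path surplus.
-/

namespace Pool.Agent.Q134.PT

open Finset Pool.Agent.W126.Split

variable {V : Type} [Fintype V] [DecidableEq V] {G : SimpleGraph V}

lemma IsP.length_le {S : Finset V} {l : List V} (h : IsP G S l) : l.length ≤ S.card := by
  rw [← List.toFinset_card_of_nodup h.1]
  apply card_le_card
  intro x hx
  exact h.2.2 x (List.mem_toFinset.1 hx)

lemma exists_longest (G : SimpleGraph V) (S : Finset V) :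
    ∃ P, IsP G S P ∧ PL G S P.length := by
  classical
  have h0 : ∃ l, IsP G S l ∧ l.length = 0 := ⟨[], ⟨List.nodup_nil, List.IsChain.nil, by simp⟩, rfl⟩
  obtain ⟨P, hP, hPl⟩ := Nat.findGreatest_spec (P := fun n => ∃ l, IsP G S l ∧ l.length = n)
    (Nat.zero_le S.card) h0
  refine ⟨P, hP, fun l hl => ?_⟩
  rw [hPl]
  exact Nat.le_findGreatest hl.length_le ⟨l, hl, rfl⟩

lemma reach {K : Finset V} (Q : List V) : ∀ {y z : V} (p : G.Walk y z),
    (∀ x ∈ p.support, x ∈ K) → z ∈ Q →
    ∃ l : List V, ∃ z' ∈ Q, IsP G K (l ++ [z']) ∧ (l ++ [z']).head? = some y ∧ ∀ x ∈ l, x ∉ Q := by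
  intro y z p
  induction p with
  | nil =>
    intro hK hz
    exact ⟨[], _, hz, ⟨by simp, by simp, by simpa using hK⟩, by simp, by simp⟩
  | @cons u c z h p ih =>
    intro hK hz
    have hu : u ∈ K := hK u (by simp)
    by_cases huQ : u ∈ Q
    · exact ⟨[], u, huQ, ⟨by simp, by simp, by simpa using hu⟩, by simp, by simp⟩
    · obtain ⟨l, z', hz', h1, h2, h3⟩ := ih (fun x hx => hK x (by simp [hx])) hz
      by_cases hul : u ∈ l
      · obtain ⟨l1, l2, rfl⟩ := List.append_of_mem hul
        refine ⟨u :: l2, z', hz', ⟨?_, ?_, ?_⟩, by simp, ?_⟩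
        · have := h1.1
          rw [List.append_assoc] at this
          exact (List.nodup_append'.1 this).2.1
        · have := h1.2.1
          rw [List.append_assoc] at this
          exact this.right_of_append
        · intro x hx
          apply h1.2.2 x
          rw [List.append_assoc]
          exact List.mem_append_right _ hx
        · intro x hx
          exact h3 x (List.mem_append_right _ hx)
      · refine ⟨u :: l, z', hz', ⟨?_, ?_, ?_⟩, by simp, ?_⟩
        · rw [List.cons_append, List.nodup_cons]
          refine ⟨?_, h1.1⟩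
          rw [List.mem_append, List.mem_singleton]
          rintro (h' | rfl)
          · exact hul h'
          · exact huQ hz'
        · rw [List.cons_append, List.isChain_cons]
          refine ⟨?_, h1.2.1⟩
          intro x hx
          rw [h2, Option.mem_some_iff] at hx
          rw [← hx]
          exact h
        · intro x hx
          rw [List.cons_append, List.mem_cons] at hx
          rcases hx with rfl | hx
          · exact hu
          · exact h1.2.2 x hx
        · intro x hx
          rw [List.mem_cons] at hx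
          rcases hx with rfl | hx
          · exact huQ
          · exact h3 x hx

lemma halfpath {K : Finset V} (hK : Conn G K) {Q : List V} (hQ : IsP G K Q) (hQne : Q ≠ [])
    {y : V} (hy : y ∈ K) : ∃ l : List V, IsP G K (y :: l) ∧ Q.length + 1 ≤ 2 * (l.length + 1) := by
  obtain ⟨z, hz⟩ := List.exists_mem_of_ne_nil Q hQne
  obtain ⟨p, hp⟩ := hK y hy z (hQ.2.2 z hz)
  obtain ⟨l, z', hz', h1, h2, h3⟩ := reach Q p hp hz
  obtain ⟨Q1, Q2, rfl⟩ := List.append_of_mem hz'
  have hQ1 := hQ.1
  have hQ2 := hQ.2.1
  have hQ3 := hQ.2.2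
  -- both continuations
  have c1 : IsP G K (l ++ z' :: Q2) := by
    refine ⟨?_, ?_, ?_⟩
    · rw [List.nodup_append']
      refine ⟨(List.nodup_append'.1 h1.1).1, (List.nodup_append'.1 hQ1).2.1, ?_⟩
      intro x hx hx'
      exact h3 x hx (List.mem_append_right _ hx')
    · exact List.isChain_split.2 ⟨h1.2.1, hQ2.right_of_append⟩
    · intro x hx
      rw [List.mem_append] at hx
      rcases hx with hx | hx
      · exact h1.2.2 x (List.mem_append_left _ hx)
      · exact hQ3 x (List.mem_append_right _ hx)
  have c2 : IsP G K (l ++ z' :: Q1.reverse) := by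
    have e1 : (Q1 ++ [z']).IsChain G.Adj := (List.isChain_split.1 hQ2).1
    have e2 : (z' :: Q1.reverse).IsChain G.Adj := by
      have e3 : (Q1 ++ [z']).reverse.IsChain G.Adj := by
        rw [List.isChain_reverse]
        exact e1.imp (fun _ _ h => h.symm)
      simpa using e3
    have e4 : (z' :: Q1.reverse).Nodup := by
      have e5 : (Q1 ++ [z']).Nodup := by
        refine hQ1.sublist ?_
        exact List.Sublist.append_left (List.Sublist.cons_cons _ (List.nil_sublist _)) _
      have e6 := List.nodup_reverse.2 e5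
      simpa using e6
    refine ⟨?_, List.isChain_split.2 ⟨h1.2.1, e2⟩, ?_⟩
    · rw [List.nodup_append']
      refine ⟨(List.nodup_append'.1 h1.1).1, e4, ?_⟩
      intro x hx hx'
      apply h3 x hx
      rw [List.mem_cons, List.mem_reverse] at hx'
      rcases hx' with rfl | hx'
      · simp
      · exact List.mem_append_left _ hx'
    · intro x hx
      rw [List.mem_append, List.mem_cons, List.mem_reverse] at hx
      rcases hx with hx | rfl | hx
      · exact h1.2.2 x (List.mem_append_left _ hx)
      · exact hQ3 _ (by simp)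
      · exact hQ3 x (List.mem_append_left _ hx)
  have key : ∀ R : List V, IsP G K (l ++ z' :: R) → ∃ l', IsP G K (y :: l') ∧
      l'.length + 1 = l.length + 1 + R.length := by
    intro R hR
    cases l with
    | nil =>
      simp only [List.nil_append, List.head?_cons, Option.some.injEq] at h2
      subst h2
      exact ⟨R, hR, by simp; omega⟩
    | cons a l =>
      simp only [List.cons_append, List.head?_cons, Option.some.injEq] at h2
      subst h2
      exact ⟨l ++ z' :: R, hR, by simp; omega⟩
  obtain ⟨l1, g1, g2⟩ := key Q2 c1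
  obtain ⟨l2, g3, g4⟩ := key Q1.reverse c2
  rw [List.length_reverse] at g4
  have hlen : (Q1 ++ z' :: Q2).length = Q1.length + Q2.length + 1 := by
    simp; omega
  by_cases hc : Q1.length ≤ Q2.length
  · exact ⟨l1, g1, by omega⟩
  · exact ⟨l2, g3, by omega⟩

section

variable {S : Finset V} {P : List V} (hP : IsP G S P) (hmax : PL G S P.length)

include hP hmax

lemma pos_bound {K : Finset V} (hK : IsComp G (S \ P.toFinset) K) {Q : List V}
    (hQ : IsP G K Q) (hQne : Q ≠ []) {P1 P2 : List V} {a : V} (hPe : P = P1 ++ a :: P2)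
    (ha : Att G K a) : Q.length + 1 ≤ 2 * P1.length ∧ Q.length + 1 ≤ 2 * P2.length := by
  obtain ⟨y, hy, hay⟩ := ha
  obtain ⟨l, h1, h2⟩ := halfpath hK.conn hQ hQne hy
  have hc := hP.2.1
  have hnd := hP.1
  have hmem := hP.2.2
  have hKP : ∀ x ∈ y :: l, x ∉ P ∧ x ∈ S := by
    intro x hx
    have := hK.sub (h1.2.2 x hx)
    rw [mem_sdiff, List.mem_toFinset] at this
    exact ⟨this.2, this.1⟩
  rw [hPe] at hc hnd hmem
  have hlen : P.length = P1.length + P2.length + 1 := by
    rw [hPe]; simp; omega
  obtain ⟨c1, c2⟩ := List.isChain_split.1 hc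
  have n1 := List.nodup_append'.1 hnd
  constructor
  · have h3 : IsP G S ((y :: l).reverse ++ a :: P2) := by
      refine ⟨?_, ?_, ?_⟩
      · rw [List.nodup_append', List.nodup_reverse]
        refine ⟨h1.1, n1.2.1, ?_⟩
        intro x hx hx'
        rw [List.mem_reverse] at hx
        apply (hKP x hx).1
        rw [hPe]
        exact List.mem_append_right _ hx'
      · refine List.isChain_split.2 ⟨?_, c2⟩
        have h4 : (a :: y :: l).reverse.IsChain G.Adj := by
          rw [List.isChain_reverse]
          exact (List.isChain_cons_cons.2 ⟨hay, h1.2.1⟩).imp (fun _ _ h => h.symm)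
        rw [List.reverse_cons] at h4
        exact h4
      · intro x hx
        rw [List.mem_append, List.mem_reverse] at hx
        rcases hx with hx | hx
        · exact (hKP x hx).2
        · exact hmem x (List.mem_append_right _ hx)
    have h5 := hmax _ h3
    simp only [List.length_append, List.length_reverse, List.length_cons] at h5
    omega
  · have h3 : IsP G S (P1 ++ a :: y :: l) := by
      refine ⟨?_, ?_, ?_⟩
      · have h4 : (P1 ++ [a]).Nodup := hnd.sublist
          (List.Sublist.append_left (List.Sublist.cons_cons _ (List.nil_sublist _)) _)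
        have h5 : (P1 ++ [a] ++ y :: l).Nodup := by
          rw [List.nodup_append']
          refine ⟨h4, h1.1, ?_⟩
          intro x hx hx'
          apply (hKP x hx').1
          rw [hPe]
          rw [List.mem_append, List.mem_singleton] at hx
          rcases hx with hx | rfl
          · exact List.mem_append_left _ hx
          · simp
        simpa using h5
      · exact List.isChain_split.2 ⟨c1, List.isChain_cons_cons.2 ⟨hay, h1.2.1⟩⟩
      · intro x hx
        rw [List.mem_append, List.mem_cons] at hx
        rcases hx with hx | rfl | hx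
        · exact hmem x (List.mem_append_left _ hx)
        · exact hmem _ (by simp)
        · exact (hKP x hx).2
    have h5 := hmax _ h3
    simp only [List.length_append, List.length_cons] at h5
    omega

lemma count_bound {K : Finset V} (hK : IsComp G (S \ P.toFinset) K) {Q : List V}
    (hQ : IsP G K Q) (hQne : Q ≠ []) {N : Finset V}
    (hN : ∀ x, x ∈ N ↔ x ∈ P.toFinset ∧ Att G K x) : Q.length + 2 * N.card ≤ P.length := by
  classical
  by_cases hP0 : N = ∅
  · subst hP0
    have h1 : IsP G S Q := ⟨hQ.1, hQ.2.1, fun x hx => (mem_sdiff.1 (hK.sub (hQ.2.2 x hx))).1⟩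
    have := hmax Q h1
    simpa using this
  obtain ⟨x0, hx0⟩ := nonempty_iff_ne_empty.2 hP0
  let p : ℕ → V := fun i => P.getD i x0
  have hp : ∀ i, i < P.length → P[i]? = some (p i) := by
    intro i hi
    simp only [p, List.getD_eq_getElem?_getD, List.getElem?_eq_getElem hi, Option.getD_some]
  set T := (range P.length).filter (fun i => Att G K (p i)) with hT
  have hNT : N.card ≤ T.card := by
    have h1 : N ⊆ T.image p := by
      intro x hx
      obtain ⟨h2, h3⟩ := (hN x).1 hx
      rw [List.mem_toFinset] at h2
      obtain ⟨i, hi, rfl⟩ := List.getElem_of_mem h2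
      have h4 := hp i hi
      rw [List.getElem?_eq_getElem hi, Option.some.injEq] at h4
      refine mem_image.2 ⟨i, mem_filter.2 ⟨mem_range.2 hi, ?_⟩, h4.symm⟩
      rw [← h4]
      exact h3
    exact (card_le_card h1).trans card_image_le
  have hb : ∀ i ∈ T, i < P.length ∧ Q.length + 1 ≤ 2 * i ∧
      Q.length + 1 ≤ 2 * (P.length - (i + 1)) := by
    intro i hi
    rw [hT, mem_filter, mem_range] at hi
    have h1 := hp i hi.1
    obtain ⟨g1, g2⟩ := List.getElem?_eq_some_iff.1 h1
    have h2 : P = P.take i ++ p i :: P.drop (i + 1) := by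
      conv_lhs => rw [← List.take_append_drop i P, List.drop_eq_getElem_cons g1, g2]
    have h3 := pos_bound hP hmax hK hQ hQne h2 hi.2
    rw [List.length_take, List.length_drop, min_eq_left hi.1.le] at h3
    exact ⟨hi.1, h3⟩
  have hcons : ∀ i ∈ T, i + 1 ∉ T := by
    intro i hi hi'
    rw [hT, mem_filter, mem_range] at hi hi'
    exact noCons hP hmax (cut1 (hp i hi.1) (hp (i + 1) hi'.1)) hK hi.2 hi'.2
  have hTne : T.Nonempty := by
    rw [← card_pos]
    have : 0 < N.card := card_pos.2 ⟨x0, hx0⟩
    omega
  obtain ⟨i0, hi0⟩ := hTne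
  have hi0' := hb i0 hi0
  have hdis : Disjoint T (T.map (addRightEmbedding 1)) := by
    rw [Finset.disjoint_left]
    intro i hi hi'
    rw [mem_map] at hi'
    obtain ⟨j, hj, rfl⟩ := hi'
    exact hcons j hj hi
  have hsub : T ∪ T.map (addRightEmbedding 1) ⊆
      Icc ((Q.length + 2) / 2) (P.length - (Q.length + 2) / 2) := by
    intro i hi
    rw [mem_union, mem_map] at hi
    rw [mem_Icc]
    rcases hi with hi | ⟨j, hj, rfl⟩
    · have := hb i hi
      omega
    · have := hb j hj
      simp only [addRightEmbedding_apply]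
      omega
  have h1 := card_le_card hsub
  rw [card_union_of_disjoint hdis, card_map, Nat.card_Icc] at h1
  omega

end

/-- the threshold for holes -/
def hh (s : ℕ) : ℕ := 2 * (2 * (s * s) + 6 * s)

/-- the bound for the bags -/
def bt (s h : ℕ) : ℕ := min h (max (h - s) ((h + hh s) / 2))

lemma bt_mono {s h h' : ℕ} (hh' : h ≤ h') : bt s h ≤ bt s h' := by
  unfold bt
  rcases le_total h (max (h - s) ((h + hh s) / 2)) with h1 | h1 <;>
  rcases le_total h' (max (h' - s) ((h' + hh s) / 2)) with h2 | h2 <;>
  rcases le_total (h - s) ((h + hh s) / 2) with h3 | h3 <;>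
  rcases le_total (h' - s) ((h' + hh s) / 2) with h4 | h4 <;>
  simp only [min_eq_left, min_eq_right, max_eq_left, max_eq_right, h1, h2, h3, h4] at h1 h2 ⊢ <;>
  omega

lemma bt_step {s m n h : ℕ} (hm : m + 2 * n ≤ h) : bt s m + n ≤ bt s h := by
  unfold bt
  rcases le_total m (max (m - s) ((m + hh s) / 2)) with h1 | h1 <;>
  rcases le_total h (max (h - s) ((h + hh s) / 2)) with h2 | h2 <;>
  rcases le_total (m - s) ((m + hh s) / 2) with h3 | h3 <;>
  rcases le_total (h - s) ((h + hh s) / 2) with h4 | h4 <;>
  simp only [min_eq_left, min_eq_right, max_eq_left, max_eq_right, h1, h2, h3, h4] at h1 h2 ⊢ <;>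
  omega

theorem path_bw (s : ℕ) : ∀ n, ∀ S : Finset V, S.card = n →
    (0 < s → ∀ X ⊆ S, X.card ≤ 8 → ¬ HasTri G X) → ∀ h, PL G S h → Bw G S (bt s h) := by
  intro n
  induction n using Nat.strong_induction_on with
  | _ n ih =>
    intro S hSn hgood h hh1
    obtain ⟨P, hP, hmax⟩ := exists_longest G S
    refine Bw.mono ?_ (Subset.refl S) (bt_mono (hh1 P hP))
    rcases S.eq_empty_or_nonempty with rfl | ⟨x, hx⟩
    · exact (bw_card (G := G) ∅).mono (Subset.refl _) (by simp)
    have hPne : P ≠ [] := by
      rintro rfl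
      have := hmax [x] ⟨by simp, by simp, by simpa using hx⟩
      simp at this
    have hPS : P.toFinset ⊆ S := fun y hy => hP.2.2 y (List.mem_toFinset.1 hy)
    have hPc : P.toFinset.card = P.length := List.toFinset_card_of_nodup hP.1
    have hex : ∃ σ : ℕ, ∃ A B : Finset V, A ⊆ P.toFinset ∧ B ⊆ P.toFinset ∧ A.card = σ ∧
        B.card = σ ∧ Disjoint A B ∧ (∀ a ∈ A, ∀ b ∈ B, ¬ F G (S \ P.toFinset) a b) ∧
        P.length - σ ≤ bt s P.length := by
      by_cases hc : P.length ≤ hh s ∨ s = 0
      · refine ⟨0, ∅, ∅, empty_subset _, empty_subset _, rfl, rfl, disjoint_empty_left _,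
          by simp, ?_⟩
        unfold bt
        rw [le_min_iff, le_max_iff]
        exact ⟨by omega, by omega⟩
      · push Not at hc
        obtain ⟨hc, hs0⟩ := hc
        obtain ⟨A, B, h1, h2, h3, h4, h5, h6⟩ := vertex_hole hP hmax
          (hgood (Nat.pos_of_ne_zero hs0)) (s := s) (by
          unfold hh at hc; omega)
        refine ⟨s, A, B, h1, h2, h3, h4, h5, h6, ?_⟩
        unfold bt
        rw [le_min_iff, le_max_iff]
        exact ⟨by omega, Or.inl le_rfl⟩
    obtain ⟨σ, A, B, hA, hB, hAc, hBc, hAB, hno, hσ⟩ := hex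
    refine bw_assemble hPS hA hB hAB hno ?_ ?_ ?_
    · rw [card_sdiff_of_subset hA, hPc, hAc]
      exact hσ
    · rw [card_sdiff_of_subset hB, hPc, hBc]
      exact hσ
    · intro K hK N hN
      have hKS : K ⊆ S := hK.sub.trans sdiff_subset
      obtain ⟨Q, hQ, hQmax⟩ := exists_longest G K
      have hKne : ∃ y, y ∈ K := by
        obtain ⟨y, hy, rfl⟩ := hK
        exact ⟨y, mem_comp_self hy⟩
      obtain ⟨y, hy⟩ := hKne
      have hQne : Q ≠ [] := by
        rintro rfl
        have := hQmax [y] ⟨by simp, by simp, by simpa using hy⟩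
        simp at this
      have hlt : K.card < n := by
        rw [← hSn]
        apply card_lt_card
        refine ⟨hKS, fun hsub => ?_⟩
        obtain ⟨z, hz⟩ := List.exists_mem_of_ne_nil P hPne
        have h1 := hK.sub (hsub (hP.2.2 z hz))
        rw [mem_sdiff, List.mem_toFinset] at h1
        exact h1.2 hz
      refine ⟨bt s Q.length, ih _ hlt K rfl (fun hs X hX => hgood hs X (hX.trans hKS)) _ hQmax, ?_⟩
      exact bt_step (count_bound hP hmax hK hQ hQne hN)

end Pool.Agent.Q134.PT
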