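import Mathlib
import Pool.Agent.Q134.PTDefs
import Pool.Agent.Q134.PTHost
import Pool.Agent.Q134.PTCheap
import Pool.Agent.Q134.PTSurplus

set_option autoImplicit false
set_option linter.unusedSectionVars false

/-!
Disjoint triangles and a long path.
-/

namespace Pool.Agent.Q134.PT

open Finset Pool.Agent.W126.Split Pool.Agent.TH507.Host
open Pool.Agent.Q134.CT (tri)
open Pool.Agent.Q134.PP (sing_conn)

/-- the disjoint union of `c` triangles and a path with `i` vertices -/
def cp (c i : ℕ) : SimpleGraph ((Fin c × Fin 3) ⊕ Fin i) where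
  Adj x y :=
    match x, y with
    | Sum.inl a, Sum.inl b => a.1 = b.1 ∧ a.2 ≠ b.2
    | Sum.inr a, Sum.inr b => (a : ℕ) + 1 = b ∨ (b : ℕ) + 1 = a
    | _, _ => False
  symm := ⟨by
    rintro (a | a) (b | b) h
    · exact ⟨h.1.symm, h.2.symm⟩
    · exact h
    · exact h
    · exact h.symm⟩
  loopless := ⟨by
    rintro (a | a) h
    · exact h.2 rfl
    · rcases h with h | h <;> omega⟩

section

variable {V : Type} [Fintype V] [DecidableEq V]

/-- after the removal of `d` disjoint sets with a model of `K₃` the property `Q` holds -/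
def Pk (G : SimpleGraph V) : ℕ → Finset V → (Finset V → Prop) → Prop
  | 0, S, Q => Q S
  | d + 1, S, Q => ∃ X ⊆ S, HasTri G X ∧ Pk G d (S \ X) Q

variable {G : SimpleGraph V}

lemma Pk.sub {d : ℕ} : ∀ {S : Finset V} {Q : Finset V → Prop}, Pk G d S Q →
    Pk G d S (fun S' => S' ⊆ S ∧ Q S') := by
  induction d with
  | zero => intro S Q h; exact ⟨Subset.refl _, h⟩
  | succ d ih =>
    rintro S Q ⟨X, hX, hX2, h⟩
    refine ⟨X, hX, hX2, ?_⟩
    have h1 := ih h
    -- monotonicity
    have mono : ∀ {d : ℕ} {S : Finset V} {Q Q' : Finset V → Prop}, (∀ S', Q S' → Q' S') →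
        Pk G d S Q → Pk G d S Q' := by
      intro d
      induction d with
      | zero => intro S Q Q' hQ h; exact hQ S h
      | succ d ih =>
        rintro S Q Q' hQ ⟨X, hX, hX2, h⟩
        exact ⟨X, hX, hX2, ih hQ h⟩
    exact mono (fun S' hS' => ⟨hS'.1.trans sdiff_subset, hS'.2⟩) h1

lemma Pk.mono {d : ℕ} : ∀ {S : Finset V} {Q Q' : Finset V → Prop}, (∀ S', Q S' → Q' S') →
    Pk G d S Q → Pk G d S Q' := by
  induction d with
  | zero => intro S Q Q' hQ h; exact hQ S h
  | succ d ih =>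
    rintro S Q Q' hQ ⟨X, hX, hX2, h⟩
    exact ⟨X, hX, hX2, ih hQ h⟩

lemma Pk.family {d : ℕ} : ∀ {S : Finset V} {Q : Finset V → Prop}, Pk G d S Q →
    ∃ (X : Fin d → Finset V) (S' : Finset V), (∀ i, X i ⊆ S) ∧ (∀ i, HasTri G (X i)) ∧
      (∀ i j, i ≠ j → Disjoint (X i) (X j)) ∧ S' ⊆ S ∧ (∀ i, Disjoint (X i) S') ∧ Q S' := by
  induction d with
  | zero =>
    intro S Q h
    exact ⟨fun i => i.elim0, S, fun i => i.elim0, fun i => i.elim0, fun i => i.elim0,
      Subset.refl _, fun i => i.elim0, h⟩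
  | succ d ih =>
    rintro S Q ⟨X, hX, hX2, h⟩
    obtain ⟨Y, S', h1, h2, h3, h4, h5, h6⟩ := ih h
    have hd : ∀ Z : Finset V, Z ⊆ S \ X → Disjoint X Z := fun Z hZ =>
      disjoint_sdiff.mono_right hZ
    refine ⟨Fin.cons X Y, S', ?_, ?_, ?_, h4.trans sdiff_subset, ?_, h6⟩
    · intro i
      refine Fin.cases ?_ (fun i => ?_) i
      · exact hX
      · exact (h1 i).trans sdiff_subset
    · intro i
      refine Fin.cases ?_ (fun i => ?_) i
      · exact hX2
      · exact h2 i
    · intro i j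
      refine Fin.cases ?_ (fun i => ?_) i <;> refine Fin.cases ?_ (fun j => ?_) j
      · intro h; exact absurd rfl h
      · intro _
        simp only [Fin.cons_zero, Fin.cons_succ]
        exact hd _ (h1 j)
      · intro _
        simp only [Fin.cons_zero, Fin.cons_succ]
        exact (hd _ (h1 i)).symm
      · intro hij
        simp only [Fin.cons_succ]
        exact h3 i j (fun h => hij (by rw [h]))
    · intro i
      refine Fin.cases ?_ (fun i => ?_) i
      · simp only [Fin.cons_zero]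
        exact hd _ h4
      · simp only [Fin.cons_succ]
        exact h5 i

/-- many cheap cycles -/
lemma cheap_many {w R : ℕ} (hR : 5 ^ R * (22 * (w + 1)) < 6 ^ R) : ∀ d, ∀ w' ≤ w,
    3 + d * (2 * R + 2) ≤ w' → ∀ S : Finset V, ¬ Bw G S w' →
      Pk G d S (fun S' => ¬ Bw G S' (w' - d * (2 * R + 2))) := by
  intro d
  induction d with
  | zero => intro w' _ _ S hS; simpa [Pk] using hS
  | succ d ih =>
    intro w' hw hd S hS
    have h0 : (d + 1) * (2 * R + 2) = d * (2 * R + 2) + (2 * R + 2) := by ring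
    rw [h0] at hd ⊢
    obtain ⟨X, hX, hX2, hX3⟩ := cheap (w := w') (R := R) (by omega)
      (lt_of_le_of_lt (Nat.mul_le_mul_left _ (by omega)) hR) _ G S rfl hS
    refine ⟨X, hX, hX2, ?_⟩
    have h1 := ih (w' - (2 * R + 2)) (by omega) (by omega) (S \ X) (hX3 _ (by omega))
    have h2 : w' - (d * (2 * R + 2) + (2 * R + 2)) = w' - (2 * R + 2) - d * (2 * R + 2) := by
      omega
    rw [h2]
    exact h1

lemma exists_path_of {S : Finset V} {j : ℕ} (h : ¬ PL G S (j - 1)) :
    ∃ l, IsP G S l ∧ l.length = j := by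
  unfold PL at h
  push Not at h
  obtain ⟨l, hl, hj⟩ := h
  refine ⟨l.take j, ⟨hl.1.sublist (List.take_sublist _ _), hl.2.1.take j,
    fun x hx => hl.2.2 x (List.mem_of_mem_take hx)⟩, ?_⟩
  rw [List.length_take]
  omega

theorem main_claim {c j R s : ℕ} (hs : c * (2 * R + 2) ≤ s) (hs1 : 1 ≤ s)
    (hR : 5 ^ R * (22 * (j + 8 * c + 1)) < 6 ^ R) (hj : hh s + 2 * s ≤ j) :
    ∀ d ≤ c, ∀ S : Finset V, ¬ Bw G S (j + 8 * d) →
      Pk G d S (fun S' => ∃ l, IsP G S' l ∧ l.length = j) := by
  have hh1 : 16 ≤ hh s := by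
    unfold hh
    nlinarith
  intro d
  induction d with
  | zero =>
    intro _ S hS
    apply exists_path_of
    intro h
    apply hS
    refine (path_bw 0 _ S rfl (fun h => absurd h (lt_irrefl 0)) _ h).mono (Subset.refl _) ?_
    unfold bt
    exact (min_le_left _ _).trans (by omega)
  | succ d ih =>
    intro hd S hS
    by_cases hgood : ∀ X ⊆ S, X.card ≤ 8 → ¬ HasTri G X
    · have h0 : (d + 1) * (2 * R + 2) ≤ s := (Nat.mul_le_mul_right _ hd).trans hs
      have h1 := (cheap_many hR (d + 1) (j + 8 * (d + 1)) (by omega) (by omega) S hS).sub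
      refine Pk.mono ?_ h1
      rintro S' ⟨hS'1, hS'2⟩
      apply exists_path_of
      intro h
      apply hS'2
      refine (path_bw s _ S' rfl (fun _ X hX => hgood X (hX.trans hS'1)) _ h).mono
        (Subset.refl _) ?_
      unfold bt
      refine (min_le_right _ _).trans (max_le ?_ ?_)
      · omega
      · omega
    · push Not at hgood
      obtain ⟨X, hX, hX1, hX2⟩ := hgood
      refine ⟨X, hX, hX2, ih (by omega) (S \ X) (fun h => hS ?_)⟩
      have h4 := h.add X
      rw [sdiff_union_of_subset hX] at h4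
      exact h4.mono (Subset.refl _) (by omega)

theorem minor_of_pk {c j : ℕ} (h : Pk G c univ (fun S' => ∃ l, IsP G S' l ∧ l.length = j)) :
    IsMinor (cp c j) G := by
  obtain ⟨X, S', -, h2, h3, -, h5, l, hl, hlj⟩ := h.family
  choose B hB1 hB2 hB3 hB4 using h2
  subst hlj
  have hdX : ∀ i i' a a', i ≠ i' → Disjoint (B i a) (B i' a') := by
    intro i i' a a' hii
    rw [Set.disjoint_left]
    intro x hx hx'
    exact Finset.disjoint_left.1 (h3 i i' hii) (hB1 i a hx) (hB1 i' a' hx')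
  have hdl : ∀ i a (k : Fin l.length), Disjoint (B i a) ({l[k]} : Set V) := by
    intro i a k
    rw [Set.disjoint_singleton_right]
    intro hx
    exact Finset.disjoint_left.1 (h5 i) (hB1 i a hx) (hl.2.2 _ (List.getElem_mem _))
  let M : (Fin c × Fin 3) ⊕ Fin l.length → Set V := fun x =>
    match x with
    | Sum.inl a => B a.1 a.2
    | Sum.inr k => {l[k]}
  refine ⟨M, ?_, ?_, ?_⟩
  · rintro (⟨i, a⟩ | k)
    · exact hB2 i a
    · exact sing_conn G _
  · rintro (⟨i, a⟩ | k) (⟨i', a'⟩ | k') hne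
    · by_cases hii : i = i'
      · subst hii
        exact hB3 i a a' (fun h => hne (by rw [h]))
      · exact hdX i i' a a' hii
    · exact hdl i a k'
    · exact (hdl i' a' k).symm
    · show Disjoint ({l[k]} : Set V) {l[k']}
      rw [Set.disjoint_singleton]
      intro h
      apply hne
      have h1 : (k : ℕ) = k' := by
        have := hl.1.getElem_inj_iff (i := k) (j := k') (hi := k.2) (hj := k'.2)
        exact this.1 h
      rw [Fin.ext h1]
  · have step : ∀ k k' : Fin l.length, (k : ℕ) + 1 = k' → G.Adj l[k] l[k'] := by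
      intro k k' hkk
      have h1 := List.isChain_iff_getElem.1 hl.2.1 k (by omega)
      have h2 : l[(k : ℕ) + 1]'(by omega) = l[k'] := by
        simp only [hkk, Fin.getElem_fin]
      rw [h2] at h1
      exact h1
    rintro (⟨i, a⟩ | k) (⟨i', a'⟩ | k') hadj
    · obtain ⟨h6, h7⟩ := hadj
      simp only at h6 h7
      subst h6
      exact hB4 i a a' h7
    · exact hadj.elim
    · exact hadj.elim
    · rcases hadj with h6 | h6
      · exact ⟨_, rfl, _, rfl, step k k' h6⟩
      · exact ⟨_, rfl, _, rfl, (step k' k h6).symm⟩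

end

/-- choice of the numbers -/
lemma exists_numbers (c : ℕ) (hc : 1 ≤ c) : ∃ R s j : ℕ, c * (2 * R + 2) ≤ s ∧ 1 ≤ s ∧
    5 ^ R * (22 * (j + 8 * c + 1)) < 6 ^ R ∧ hh s + 2 * s ≤ j := by
  set D : ℝ := 22 * (16 * c ^ 2 + 36 * c + 1) * 2 with hD
  have hD0 : 0 < D := by positivity
  have h1 := tendsto_pow_const_div_const_pow_of_one_lt 2 (r := (6 / 5 : ℝ)) (by norm_num)
  have h2 := h1.eventually_lt_const (u := 1 / D) (by positivity)
  obtain ⟨n, hn, hn1⟩ := (h2.and (Filter.eventually_ge_atTop 1)).exists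
  obtain ⟨R, rfl⟩ : ∃ R, n = R + 1 := ⟨n - 1, by omega⟩
  refine ⟨R, c * (2 * R + 2), hh (c * (2 * R + 2)) + 2 * (c * (2 * R + 2)), le_rfl, ?_, ?_,
    le_rfl⟩
  · have : 0 < c * (2 * R + 2) := by positivity
    omega
  · rw [div_lt_div_iff₀ (by positivity) hD0, one_mul] at hn
    have h3 : (5 : ℝ) ^ R * (22 * ((hh (c * (2 * R + 2)) + 2 * (c * (2 * R + 2)) + 8 * c + 1 : ℕ)
        : ℝ)) < 6 ^ R := by
      have e1 : ((hh (c * (2 * R + 2)) + 2 * (c * (2 * R + 2)) + 8 * c + 1 : ℕ) : ℝ) ≤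
          (16 * c ^ 2 + 36 * c + 1) * ((R + 1 : ℕ) : ℝ) ^ 2 := by
        have e2 : hh (c * (2 * R + 2)) + 2 * (c * (2 * R + 2)) + 8 * c + 1 ≤
            (16 * c ^ 2 + 36 * c + 1) * (R + 1) ^ 2 := by
          unfold hh
          have e3 : 1 ≤ (R + 1) ^ 2 := Nat.one_le_pow _ _ (by omega)
          have e4 : R + 1 ≤ (R + 1) ^ 2 := by nlinarith
          have e5 : 28 * c * (R + 1) ≤ 28 * c * (R + 1) ^ 2 := Nat.mul_le_mul_left _ e4
          have e6 : (8 * c + 1) * 1 ≤ (8 * c + 1) * (R + 1) ^ 2 := Nat.mul_le_mul_left _ e3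
          calc 2 * (2 * (c * (2 * R + 2) * (c * (2 * R + 2))) + 6 * (c * (2 * R + 2))) +
              2 * (c * (2 * R + 2)) + 8 * c + 1
              = 16 * c ^ 2 * (R + 1) ^ 2 + 28 * c * (R + 1) + (8 * c + 1) * 1 := by ring
            _ ≤ 16 * c ^ 2 * (R + 1) ^ 2 + 28 * c * (R + 1) ^ 2 + (8 * c + 1) * (R + 1) ^ 2 := by
                omega
            _ = (16 * c ^ 2 + 36 * c + 1) * (R + 1) ^ 2 := by ring
        calc ((hh (c * (2 * R + 2)) + 2 * (c * (2 * R + 2)) + 8 * c + 1 : ℕ) : ℝ)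
            ≤ (((16 * c ^ 2 + 36 * c + 1) * (R + 1) ^ 2 : ℕ) : ℝ) := by exact_mod_cast e2
          _ = _ := by push_cast; ring
      have e7 : (6 / 5 : ℝ) ^ (R + 1) = 6 ^ R / 5 ^ R * (6 / 5) := by
        rw [pow_succ, div_pow]
      rw [e7, hD] at hn
      have e8 : (0 : ℝ) < 5 ^ R := by positivity
      have e9 : (5 : ℝ) ^ R * (6 ^ R / 5 ^ R * (6 / 5)) = 6 ^ R * (6 / 5) := by
        field_simp
      have e10 : (5 : ℝ) ^ R * (((R + 1 : ℕ) : ℝ) ^ 2 * (22 * (16 * c ^ 2 + 36 * c + 1) * 2)) <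
          6 ^ R * (6 / 5) := by
        rw [← e9]
        exact mul_lt_mul_of_pos_left hn e8
      have e11 : (5 : ℝ) ^ R * (22 * ((hh (c * (2 * R + 2)) + 2 * (c * (2 * R + 2)) + 8 * c + 1 :
          ℕ) : ℝ)) ≤ 5 ^ R * (22 * ((16 * c ^ 2 + 36 * c + 1) * ((R + 1 : ℕ) : ℝ) ^ 2)) := by
        gcongr
      have e12 : (0 : ℝ) < 6 ^ R := by positivity
      nlinarith
    exact_mod_cast h3

/-- The graphs `G` of treewidth at least `k` all contain `H`. -/
def Forces {W : Type} (H : SimpleGraph W) (k : ℕ) : Prop :=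
  ∀ (V : Type) [Finite V] (G : SimpleGraph V), k ≤ tw G → IsMinor H G

/-- Upper bound for a large number of vertices on the path, lower bound for the triangles. -/
theorem bounds : ∃ c j : ℕ, 1 ≤ j ∧ Forces (cp c j) (j + 8 * c) ∧
    ∀ k, Forces (tri c) k → 8 * c + 2 ≤ k := by
  classical
  obtain ⟨c, hc, G0, hG1, hG2⟩ := exists_host
  obtain ⟨R, s, j, h1, h2, h3, h4⟩ := exists_numbers c hc
  refine ⟨c, j, by omega, ?_, ?_⟩
  · intro V _ G hG
    have : Fintype V := Fintype.ofFinite V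
    apply minor_of_pk
    refine main_claim h1 h2 h3 h4 c le_rfl univ (fun hb => ?_)
    obtain ⟨k, T, bag, g1, g2, g3, g4, g5⟩ := td_of_bw hb
    have e3 : TwLE G (j + 8 * c - 1) := ⟨k, T, bag, g1, g2, g3, g4,
      fun i => (g5 i).trans (by omega)⟩
    have e4 : tw G ≤ j + 8 * c - 1 := Nat.sInf_le e3
    omega
  · intro k hk
    by_contra hlt
    apply hG1
    apply hk
    have h5 : ¬ tw G0 < 9 * c := fun h => hG2 _ h (exists_twLE G0)
    omega

/-! ### The chain of graphs -/

lemma minor_sub {V : Type} {G : SimpleGraph V} {c i j : ℕ} (hij : i ≤ j)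
    (h : IsMinor (cp c j) G) : IsMinor (cp c i) G := by
  obtain ⟨B, h1, h2, h3⟩ := h
  refine ⟨fun x => B (Sum.map id (Fin.castLE hij) x), fun x => h1 _, ?_, ?_⟩
  · intro x y hxy
    apply h2
    intro h
    apply hxy
    have hinj : Function.Injective (Sum.map (id : Fin c × Fin 3 → Fin c × Fin 3)
        (Fin.castLE hij)) := Sum.map_injective.2 ⟨Function.injective_id,
          Fin.castLE_injective hij⟩
    exact hinj h
  · rintro (a | a) (b | b) hab
    · exact h3 _ _ hab
    · exact hab.elim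
    · exact hab.elim
    · exact h3 (Sum.inr (Fin.castLE hij a)) (Sum.inr (Fin.castLE hij b)) hab

lemma minor_tri {V : Type} {G : SimpleGraph V} {c i : ℕ} (h : IsMinor (cp c i) G) :
    IsMinor (tri c) G := by
  obtain ⟨B, h1, h2, h3⟩ := h
  refine ⟨fun x => B (Sum.inl x), fun x => h1 _, ?_, ?_⟩
  · intro x y hxy
    exact h2 _ _ (fun h => hxy (Sum.inl.inj h))
  · intro x y hxy
    exact h3 (Sum.inl x) (Sum.inl y) hxy

/-- adding a pendant vertex at the end of the path -/
lemma minor_pendant {V : Type} {G : SimpleGraph V} {c i : ℕ} :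
    IsMinor (pendant (cp c (i + 1)) (Sum.inr (Fin.last i))) G ↔ IsMinor (cp c (i + 2)) G := by
  let f : Option ((Fin c × Fin 3) ⊕ Fin (i + 1)) → (Fin c × Fin 3) ⊕ Fin (i + 2) := fun x =>
    match x with
    | none => Sum.inr (Fin.last (i + 1))
    | some (Sum.inl a) => Sum.inl a
    | some (Sum.inr k) => Sum.inr k.castSucc
  let g : (Fin c × Fin 3) ⊕ Fin (i + 2) → Option ((Fin c × Fin 3) ⊕ Fin (i + 1)) := fun x =>
    match x with
    | Sum.inl a => some (Sum.inl a)
    | Sum.inr k => if h : (k : ℕ) < i + 1 then some (Sum.inr ⟨k, h⟩) else none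
  have gf : ∀ x, g (f x) = x := by
    rintro (_ | a | k)
    · exact dif_neg (by simp)
    · rfl
    · exact dif_pos k.2
  have fg : ∀ x, f (g x) = x := by
    rintro (a | k)
    · rfl
    · by_cases h : (k : ℕ) < i + 1
      · have e1 : g (Sum.inr k) = some (Sum.inr ⟨k, h⟩) := dif_pos h
        rw [e1]
        rfl
      · have : k = Fin.last (i + 1) := by
          apply Fin.ext
          have := k.2
          simp only [Fin.val_last]
          omega
        subst this
        simp [f, g]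
  have hf : ∀ x y, (pendant (cp c (i + 1)) (Sum.inr (Fin.last i))).Adj x y →
      (cp c (i + 2)).Adj (f x) (f y) := by
    rintro (_ | a | k) (_ | b | l) h
    · exact h.elim
    · exact absurd h (by show ¬ (Sum.inl b = Sum.inr (Fin.last i)); simp)
    · have h' : (Sum.inr l : (Fin c × Fin 3) ⊕ Fin (i + 1)) = Sum.inr (Fin.last i) := h
      have h'' := Sum.inr.inj h'
      subst h''
      right
      simp
    · exact absurd h (by show ¬ (Sum.inl a = Sum.inr (Fin.last i)); simp)
    · exact h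
    · exact h
    · have h' : (Sum.inr k : (Fin c × Fin 3) ⊕ Fin (i + 1)) = Sum.inr (Fin.last i) := h
      have h'' := Sum.inr.inj h'
      subst h''
      left
      simp
    · exact h
    · exact h
  have hg : ∀ x y, (cp c (i + 2)).Adj x y →
      (pendant (cp c (i + 1)) (Sum.inr (Fin.last i))).Adj (g x) (g y) := by
    have key : ∀ k l : Fin (i + 2), (k : ℕ) + 1 = l →
        (pendant (cp c (i + 1)) (Sum.inr (Fin.last i))).Adj (g (Sum.inr k)) (g (Sum.inr l)) := by
      intro k l hkl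
      have hk : (k : ℕ) < i + 1 := by omega
      have e1 : g (Sum.inr k) = some (Sum.inr ⟨k, hk⟩) := dif_pos hk
      by_cases hl : (l : ℕ) < i + 1
      · have e2 : g (Sum.inr l) = some (Sum.inr ⟨l, hl⟩) := dif_pos hl
        rw [e1, e2]
        exact Or.inl hkl
      · have e2 : g (Sum.inr l) = none := dif_neg hl
        rw [e1, e2]
        show (Sum.inr ⟨k, hk⟩ : (Fin c × Fin 3) ⊕ Fin (i + 1)) = Sum.inr (Fin.last i)
        congr 1
        apply Fin.ext
        simp only [Fin.val_last]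
        omega
    rintro (a | k) (b | l) h
    · exact h
    · exact h.elim
    · exact h.elim
    · rcases h with h | h
      · exact key k l h
      · exact (key l k h).symm
  constructor
  · rintro ⟨B, h1, h2, h3⟩
    refine ⟨fun x => B (g x), fun x => h1 _, fun x y hxy => h2 _ _ (fun h => hxy ?_),
      fun x y hxy => h3 _ _ (hg x y hxy)⟩
    rw [← fg x, h, fg y]
  · rintro ⟨B, h1, h2, h3⟩
    refine ⟨fun x => B (f x), fun x => h1 _, fun x y hxy => h2 _ _ (fun h => hxy ?_),
      fun x y hxy => h3 _ _ (hf x y hxy)⟩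
    rw [← gf x, h, gf y]

end Pool.Agent.Q134.PT
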