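import Mathlib
import Pool.Agent.Q134.PTMain

set_option autoImplicit false

/-!
The disjoint union of triangles and a path is planar.
-/

namespace Pool.Agent.Q134.PT

/-- the drawing of the triangles and of the path -/
def draw {c i : ℕ} : (Fin c × Fin 3) ⊕ Fin i → ℝ × ℝ
  | Sum.inl x => (2 * (x.1 : ℝ) + ![0, 1, 0] x.2, ![0, 0, 1] x.2)
  | Sum.inr k => (-1 - (k : ℝ), 0)

theorem draw_fst {c i : ℕ} (x : Fin c × Fin 3) :
    draw (i := i) (Sum.inl x) ∈ {z : ℝ × ℝ | 2 * (x.1 : ℝ) ≤ z.1 ∧ z.1 ≤ 2 * (x.1 : ℝ) + 1} := by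
  obtain ⟨i, j⟩ := x
  fin_cases j <;> simp [draw]

theorem strip_convex (a b : ℝ) : Convex ℝ {z : ℝ × ℝ | a ≤ z.1 ∧ z.1 ≤ b} := by
  intro x hx y hy s t hs ht hst
  have h1 : (s • x + t • y).1 = s * x.1 + t * y.1 := by simp
  show a ≤ (s • x + t • y).1 ∧ (s • x + t • y).1 ≤ b
  have e1 := mul_le_mul_of_nonneg_left hx.1 hs
  have e2 := mul_le_mul_of_nonneg_left hy.1 ht
  have e3 := mul_le_mul_of_nonneg_left hx.2 hs
  have e4 := mul_le_mul_of_nonneg_left hy.2 ht
  have e5 : t = 1 - s := by linarith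
  subst e5
  rw [h1]
  constructor
  · linarith
  · linarith

theorem strip_disj {c : ℕ} {i k : Fin c} (hik : i ≠ k) {z : ℝ × ℝ}
    (h1 : 2 * (i : ℝ) ≤ z.1 ∧ z.1 ≤ 2 * (i : ℝ) + 1)
    (h2 : 2 * (k : ℝ) ≤ z.1 ∧ z.1 ≤ 2 * (k : ℝ) + 1) : False := by
  have h3 : (i : ℕ) ≠ k := fun h => hik (Fin.ext h)
  rcases lt_or_gt_of_ne h3 with h | h
  · have : ((i : ℕ) : ℝ) + 1 ≤ (k : ℕ) := by exact_mod_cast h
    linarith [h1.2, h2.1]
  · have : ((k : ℕ) : ℝ) + 1 ≤ (i : ℕ) := by exact_mod_cast h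
    linarith [h1.1, h2.2]

/-- an edge of the path -/
theorem path_seg {c i : ℕ} {k l : Fin i} (h : (k : ℕ) + 1 = l) {z : ℝ × ℝ}
    (hz : z ∈ segment ℝ (draw (c := c) (Sum.inr k)) (draw (c := c) (Sum.inr l)) ∨
      z ∈ segment ℝ (draw (c := c) (Sum.inr l)) (draw (c := c) (Sum.inr k))) :
    -1 - (l : ℝ) ≤ z.1 ∧ z.1 ≤ -1 - (k : ℝ) := by
  have h1 : ((k : ℕ) : ℝ) + 1 = (l : ℕ) := by exact_mod_cast h
  have hk : draw (c := c) (Sum.inr k) ∈ {z : ℝ × ℝ | -1 - (l : ℝ) ≤ z.1 ∧ z.1 ≤ -1 - (k : ℝ)} := by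
    show -1 - (l : ℝ) ≤ -1 - (k : ℝ) ∧ -1 - (k : ℝ) ≤ -1 - (k : ℝ)
    constructor <;> linarith
  have hl : draw (c := c) (Sum.inr l) ∈ {z : ℝ × ℝ | -1 - (l : ℝ) ≤ z.1 ∧ z.1 ≤ -1 - (k : ℝ)} := by
    show -1 - (l : ℝ) ≤ -1 - (l : ℝ) ∧ -1 - (l : ℝ) ≤ -1 - (k : ℝ)
    constructor <;> linarith
  rcases hz with hz | hz
  · exact (strip_convex _ _).segment_subset hk hl hz
  · exact (strip_convex _ _).segment_subset hl hk hz

theorem planar_cp (c n : ℕ) : Planar (cp c n) := by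
  -- an edge of a triangle
  have tseg : ∀ (i : Fin c) (j j' : Fin 3) (z : ℝ × ℝ),
      z ∈ segment ℝ (draw (i := n) (Sum.inl (i, j))) (draw (i := n) (Sum.inl (i, j'))) →
      2 * (i : ℝ) ≤ z.1 ∧ z.1 ≤ 2 * (i : ℝ) + 1 := by
    intro i j j' z hz
    exact (strip_convex _ _).segment_subset (draw_fst (i, j)) (draw_fst (i, j')) hz
  have hpos : ∀ i : Fin c, (0 : ℝ) ≤ 2 * (i : ℝ) := fun i => by positivity
  have hneg : ∀ k : Fin n, -1 - (k : ℝ) < 0 := fun k => by
    have : (0 : ℝ) ≤ (k : ℕ) := by positivity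
    linarith
  -- an edge of the path
  have pseg : ∀ (k l : Fin n), ((k : ℕ) + 1 = l ∨ (l : ℕ) + 1 = k) → ∀ z : ℝ × ℝ,
      z ∈ segment ℝ (draw (c := c) (Sum.inr k)) (draw (c := c) (Sum.inr l)) →
      ∃ m : ℕ, -1 - ((m : ℝ) + 1) ≤ z.1 ∧ z.1 ≤ -1 - (m : ℝ) ∧
        (((k : ℕ) = m ∧ (l : ℕ) = m + 1) ∨ ((l : ℕ) = m ∧ (k : ℕ) = m + 1)) := by
    rintro k l (h | h) z hz
    · have h1 := path_seg (c := c) h (Or.inl hz)
      have h2 : ((k : ℕ) : ℝ) + 1 = (l : ℕ) := by exact_mod_cast h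
      exact ⟨k, by rw [h2]; exact h1.1, h1.2, Or.inl ⟨rfl, h.symm⟩⟩
    · have h1 := path_seg (c := c) h (Or.inr hz)
      have h2 : ((l : ℕ) : ℝ) + 1 = (k : ℕ) := by exact_mod_cast h
      exact ⟨l, by rw [h2]; exact h1.1, h1.2, Or.inr ⟨rfl, h.symm⟩⟩
  refine ⟨draw, ?_, ?_, ?_⟩
  · rintro (⟨i, j⟩ | k) (⟨i', j'⟩ | k') h
    · by_cases hik : i = i'
      · subst hik
        obtain ⟨h1, h2⟩ := Prod.mk.inj h
        fin_cases j <;> fin_cases j' <;> simp at h1 h2 ⊢
      · have h1 := draw_fst (i := n) (i, j)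
        rw [h] at h1
        exact (strip_disj hik h1 (draw_fst (i', j'))).elim
    · have h1 := draw_fst (i := n) (i, j)
      rw [h] at h1
      have h2 : 2 * (i : ℝ) ≤ -1 - (k' : ℝ) := h1.1
      have h3 := hpos i
      have h4 := hneg k'
      linarith
    · have h1 := draw_fst (i := n) (i', j')
      rw [← h] at h1
      have h2 : 2 * (i' : ℝ) ≤ -1 - (k : ℝ) := h1.1
      have h3 := hpos i'
      have h4 := hneg k
      linarith
    · obtain ⟨h1, -⟩ := Prod.mk.inj h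
      have h2 : ((k : ℕ) : ℝ) = (k' : ℕ) := by linarith
      have h3 : (k : ℕ) = k' := by exact_mod_cast h2
      rw [Fin.ext h3]
  · rintro (⟨i, j⟩ | k) (⟨i', j'⟩ | k') (⟨m, l⟩ | r) hadj h1 h2 hmem
    · obtain ⟨hi, hj⟩ := hadj
      simp only at hi hj
      subst hi
      by_cases hik : i = m
      · subst hik
        obtain ⟨a, b, ha, hb, hab, hz⟩ := hmem
        obtain ⟨e1, e2⟩ := Prod.mk.inj hz
        have hb' : b = 1 - a := by linarith
        subst hb'
        simp only [Prod.smul_fst, Prod.smul_snd, smul_eq_mul, draw] at e1 e2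
        fin_cases j <;> fin_cases j' <;> fin_cases l <;>
          first
            | exact absurd rfl hj
            | exact absurd rfl h1
            | exact absurd rfl h2
            | (simp at e1 e2 <;> nlinarith)
      · exact strip_disj hik (tseg i j j' _ hmem) (draw_fst (i := n) (m, l))
    · obtain ⟨hi, hj⟩ := hadj
      simp only at hi hj
      subst hi
      have h3 := (tseg i j j' _ hmem).1
      have h4 : 2 * (i : ℝ) ≤ -1 - (r : ℝ) := h3
      have h5 := hpos i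
      have h6 := hneg r
      linarith
    · exact hadj.elim
    · exact hadj.elim
    · exact hadj.elim
    · exact hadj.elim
    · obtain ⟨q, h3, h4, -⟩ := pseg k k' hadj _ hmem
      have h5 := (draw_fst (i := n) (m, l)).1
      have h6 := hpos m
      have h7 : (0 : ℝ) ≤ q := by positivity
      linarith
    · obtain ⟨q, h3, h4, h5⟩ := pseg k k' hadj _ hmem
      have h6 : -1 - ((q : ℝ) + 1) ≤ -1 - ((r : ℕ) : ℝ) := h3
      have h7 : -1 - ((r : ℕ) : ℝ) ≤ -1 - (q : ℝ) := h4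
      have h8 : ((r : ℕ) : ℝ) ≤ ((q + 1 : ℕ) : ℝ) := by push_cast; linarith
      have h9 : (q : ℝ) ≤ ((r : ℕ) : ℝ) := by linarith
      have h10 : (r : ℕ) ≤ q + 1 := by exact_mod_cast h8
      have h11 : q ≤ (r : ℕ) := by exact_mod_cast h9
      have h12 : (r : ℕ) ≠ k := fun h => h1 (by rw [Fin.ext h])
      have h13 : (r : ℕ) ≠ k' := fun h => h2 (by rw [Fin.ext h])
      omega
  · rintro (⟨i, j⟩ | k) (⟨i', j'⟩ | k') (⟨m, l⟩ | r) (⟨m', l'⟩ | r') hadj hadj' h1 h2 h3 h4 <;>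
      first
        | exact hadj.elim
        | exact hadj'.elim
        | skip
    · obtain ⟨hi, hj⟩ := hadj
      obtain ⟨hk, hl⟩ := hadj'
      simp only at hi hj hk hl
      subst hi
      subst hk
      by_cases hik : i = m
      · subst hik
        exfalso
        have n1 : j ≠ l := fun h => h1 (by rw [h])
        have n2 : j ≠ l' := fun h => h2 (by rw [h])
        have n3 : j' ≠ l := fun h => h3 (by rw [h])
        have n4 : j' ≠ l' := fun h => h4 (by rw [h])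
        clear h1 h2 h3 h4
        omega
      · rw [Set.disjoint_left]
        intro z hz hz'
        exact strip_disj hik (tseg _ _ _ z hz) (tseg _ _ _ z hz')
    · obtain ⟨hi, hj⟩ := hadj
      simp only at hi hj
      subst hi
      rw [Set.disjoint_left]
      intro z hz hz'
      have e1 := (tseg _ _ _ z hz).1
      obtain ⟨q, e2, e3, -⟩ := pseg _ _ hadj' z hz'
      have e4 := hpos i
      have e5 : (0 : ℝ) ≤ q := by positivity
      linarith
    · obtain ⟨hi, hj⟩ := hadj'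
      simp only at hi hj
      subst hi
      rw [Set.disjoint_left]
      intro z hz hz'
      have e1 := (tseg _ _ _ z hz').1
      obtain ⟨q, e2, e3, -⟩ := pseg _ _ hadj z hz
      have e4 := hpos m
      have e5 : (0 : ℝ) ≤ q := by positivity
      linarith
    · rw [Set.disjoint_left]
      intro z hz hz'
      obtain ⟨q, e1, e2, e3⟩ := pseg _ _ hadj z hz
      obtain ⟨q', e4, e5, e6⟩ := pseg _ _ hadj' z hz'
      have e7 : (q : ℝ) ≤ ((q' + 1 : ℕ) : ℝ) := by push_cast; linarith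
      have e8 : (q' : ℝ) ≤ ((q + 1 : ℕ) : ℝ) := by push_cast; linarith
      have e9 : q ≤ q' + 1 := by exact_mod_cast e7
      have e10 : q' ≤ q + 1 := by exact_mod_cast e8
      have n1 : (k : ℕ) ≠ r := fun h => h1 (by rw [Fin.ext h])
      have n2 : (k : ℕ) ≠ r' := fun h => h2 (by rw [Fin.ext h])
      have n3 : (k' : ℕ) ≠ r := fun h => h3 (by rw [Fin.ext h])
      have n4 : (k' : ℕ) ≠ r' := fun h => h4 (by rw [Fin.ext h])
      omega

end Pool.Agent.Q134.PT
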