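import Mathlib

set_option autoImplicit false

namespace Pool.Agent.Q134.SP

/-- A loopless multigraph with vertex set `V`: `mult u v` is the number of edges joining `u` and
`v`. -/
@[ext] structure MGraph (V : Type) where
  mult : V → V → ℕ
  symm : ∀ u v, mult u v = mult v u
  loopless : ∀ v, mult v v = 0

namespace MGraph

variable {V : Type}

/-- The list is the sequence of vertices of a path. -/
def IsPath (G : MGraph V) (l : List V) : Prop :=
  l ≠ [] ∧ l.Nodup ∧ l.IsChain (fun u v => 0 < G.mult u v)

/-- The list is the sequence of vertices of a unique shortest path: it is a path, consecutive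
vertices are joined by exactly one edge, and every path with the same ends and another sequence of
vertices has more vertices. -/
def IsUSP (G : MGraph V) (l : List V) : Prop :=
  G.IsPath l ∧ l.IsChain (fun u v => G.mult u v = 1) ∧
    ∀ l', G.IsPath l' → l'.head? = l.head? → l'.getLast? = l.getLast? → l' ≠ l →
      l.length < l'.length

/-- the parade number -/
noncomputable def usp (G : MGraph V) : ℕ := sSup {n | ∃ l, G.IsUSP l ∧ l.length = n}

/-- the spectator number -/
noncomputable def sp (G : MGraph V) : ℕ := Nat.card V - G.usp

/-- deletion of a vertex -/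
def delVertex (G : MGraph V) (x : V) : MGraph {v : V // v ≠ x} where
  mult u v := G.mult u v
  symm u v := G.symm u v
  loopless v := G.loopless v

open Classical in
/-- deletion of one of the edges joining `x` and `y` -/
noncomputable def delEdge (G : MGraph V) (x y : V) : MGraph V where
  mult u v := if (u = x ∧ v = y) ∨ (u = y ∧ v = x) then G.mult u v - 1 else G.mult u v
  symm u v := by
    rw [G.symm u v]
    by_cases h : (u = x ∧ v = y) ∨ (u = y ∧ v = x)
    · have h' : (v = x ∧ u = y) ∨ (v = y ∧ u = x) := by tauto
      rw [if_pos h, if_pos h']
    · have h' : ¬ ((v = x ∧ u = y) ∨ (v = y ∧ u = x)) := by tauto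
      rw [if_neg h, if_neg h']
  loopless v := by
    rw [G.loopless v]
    simp

open Classical in
/-- contraction of `x` and `y` to one vertex, which is called `x` again -/
noncomputable def contract (G : MGraph V) (x y : V) : MGraph {v : V // v ≠ y} where
  mult u v := if u = v then 0 else
    G.mult u v + (if u.1 = x then G.mult y v else 0) + (if v.1 = x then G.mult u y else 0)
  symm u v := by
    by_cases h : u = v
    · rw [if_pos h, if_pos h.symm]
    · rw [if_neg h, if_neg (Ne.symm h), G.symm u v, G.symm y v, G.symm u y]
      ring
  loopless v := by rw [if_pos rfl]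

/-- `F` is a supergraph of `G` on the same vertex set. -/
def IsSuper (F G : MGraph V) : Prop := ∀ u v, G.mult u v ≤ F.mult u v

end MGraph

open MGraph

/-- `G` is a minor of `H`: it is isomorphic to a graph obtained from `H` by a sequence of the
following operations: deletion of an isolated vertex, deletion of an edge, contraction of an edge
that has no edge parallel to it. -/
inductive IsMinor {V : Type} (G : MGraph V) : ∀ {W : Type}, MGraph W → Prop
  | iso {W : Type} (H : MGraph W) (e : V ≃ W) (h : ∀ u v, G.mult u v = H.mult (e u) (e v)) :
      IsMinor G H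
  | delVertex {W : Type} (H : MGraph W) (x : W) (hx : ∀ v, H.mult x v = 0)
      (h : IsMinor G (H.delVertex x)) : IsMinor G H
  | delEdge {W : Type} (H : MGraph W) (x y : W) (hxy : 0 < H.mult x y)
      (h : IsMinor G (H.delEdge x y)) : IsMinor G H
  | contract {W : Type} (H : MGraph W) (x y : W) (hxy : H.mult x y = 1)
      (h : IsMinor G (H.contract x y)) : IsMinor G H

/-- the spectator floor -/
noncomputable def sf {V : Type} (G : MGraph V) : ℕ :=
  sInf {k | ∃ (W : Type) (_ : Finite W) (_ : Nonempty W) (H : MGraph W), IsMinor G H ∧ H.sp = k}

end Pool.Agent.Q134.SP
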