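import Mathlib
import Pool.Agent.Q134.SPDefs

set_option autoImplicit false

/-!
Unique shortest paths and potentials.
-/

namespace Pool.Agent.Q134.SP

open MGraph

variable {V : Type}

/-! ### The parade number -/

lemma single_usp (G : MGraph V) (v : V) : G.IsUSP [v] := by
  refine ⟨⟨by simp, by simp, by simp⟩, by simp, ?_⟩
  intro l' hl' h1 h2 hne
  exfalso
  apply hne
  obtain ⟨h3, h4, h5⟩ := hl'
  cases l' with
  | nil => exact absurd rfl h3
  | cons a l =>
    simp only [List.head?_cons, Option.some.injEq] at h1
    subst h1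
    cases l with
    | nil => rfl
    | cons b l =>
      exfalso
      rw [List.getLast?_cons_cons] at h2
      have h6 : a ∈ b :: l := by
        apply List.mem_of_getLast? (l := b :: l)
        rw [h2]
        simp
      exact (List.nodup_cons.1 h4).1 h6

lemma usp_bdd [Finite V] (G : MGraph V) : BddAbove {n | ∃ l, G.IsUSP l ∧ l.length = n} := by
  classical
  have : Fintype V := Fintype.ofFinite V
  refine ⟨Nat.card V, ?_⟩
  rintro n ⟨l, hl, rfl⟩
  rw [Nat.card_eq_fintype_card]
  exact hl.1.2.1.length_le_card

lemma le_usp [Finite V] {G : MGraph V} {l : List V} (hl : G.IsUSP l) : l.length ≤ G.usp :=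
  le_csSup (usp_bdd G) ⟨l, hl, rfl⟩

lemma exists_usp [Finite V] [Nonempty V] (G : MGraph V) : ∃ l, G.IsUSP l ∧ l.length = G.usp := by
  obtain ⟨v⟩ := ‹Nonempty V›
  exact Nat.sSup_mem (s := {n | ∃ l, G.IsUSP l ∧ l.length = n}) ⟨1, [v], single_usp G v, rfl⟩
    (usp_bdd G)

lemma usp_pos [Finite V] [Nonempty V] (G : MGraph V) : 1 ≤ G.usp := by
  obtain ⟨v⟩ := ‹Nonempty V›
  exact le_usp (single_usp G v)

lemma usp_le_card [Finite V] [Nonempty V] (G : MGraph V) : G.usp ≤ Nat.card V := by
  classical
  have : Fintype V := Fintype.ofFinite V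
  obtain ⟨l, hl, h⟩ := exists_usp G
  rw [← h, Nat.card_eq_fintype_card]
  exact hl.1.2.1.length_le_card

/-! ### Potentials -/

/-- the data of a potential -/
def PotData (G : MGraph V) (t : ℕ) (N : ℤ) (φ : V → ℤ) (p : ℕ → V) : Prop :=
  2 ≤ N ∧ (∀ i, i < t → φ (p i) = N * i) ∧ (∀ i, i + 1 < t → G.mult (p i) (p (i + 1)) = 1) ∧
    (∀ u v, 0 < G.mult u v → φ v - φ u ≤ N) ∧
    ∀ u v, 0 < G.mult u v → φ v - φ u = N → ∃ i, i + 1 < t ∧ u = p i ∧ v = p (i + 1)

/-- there is a potential that shows that there is a unique shortest path with `t` vertices -/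
def Pot (G : MGraph V) (t : ℕ) : Prop := t = 0 ∨ ∃ N φ p, PotData G t N φ p

lemma PotData.inj {G : MGraph V} {t : ℕ} {N : ℤ} {φ : V → ℤ} {p : ℕ → V}
    (h : PotData G t N φ p) {i j : ℕ} (hi : i < t) (hj : j < t) (hij : p i = p j) : i = j := by
  have h1 := h.2.1 i hi
  have h2 := h.2.1 j hj
  rw [hij, h2] at h1
  have h3 := h.1
  have h4 : (j : ℤ) = i := mul_left_cancel₀ (by omega) h1
  exact_mod_cast h4.symm

lemma chain_pot {G : MGraph V} {t : ℕ} {N : ℤ} {φ : V → ℤ} {p : ℕ → V}
    (h : PotData G t N φ p) : ∀ (r : List V) (a b : V),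
    (a :: r).IsChain (fun u v => 0 < G.mult u v) → (a :: r).getLast? = some b →
    φ b - φ a ≤ N * r.length ∧ (φ b - φ a = N * r.length → ∀ i < t, a = p i →
      ∀ k ≤ r.length, (a :: r)[k]? = some (p (i + k)) ∧ i + k < t) := by
  intro r
  induction r with
  | nil =>
    intro a b _ hb
    simp only [List.getLast?_singleton, Option.some.injEq] at hb
    subst hb
    refine ⟨by simp, ?_⟩
    intro _ i hi ha k hk
    simp only [List.length_nil, Nat.le_zero] at hk
    subst hk
    refine ⟨by simp [ha], by omega⟩
  | cons c r ih =>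
    intro a b hc hb
    rw [List.isChain_cons_cons] at hc
    rw [List.getLast?_cons_cons] at hb
    obtain ⟨h1, h2⟩ := ih c b hc.2 hb
    have h3 := h.2.2.2.1 a c hc.1
    have h4 : N * ((c :: r).length : ℤ) = N * r.length + N := by
      rw [List.length_cons]; push_cast; ring
    rw [h4]
    refine ⟨by omega, ?_⟩
    intro h5 i hi ha k hk
    have h6 : φ c - φ a = N := by omega
    obtain ⟨j, hj, hj1, hj2⟩ := h.2.2.2.2 a c hc.1 h6
    have h7 : i = j := h.inj hi (by omega) (by rw [← ha, hj1])
    subst h7
    cases k with
    | zero => exact ⟨by simp [ha], by omega⟩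
    | succ k =>
      obtain ⟨h8, h9⟩ := h2 (by omega) (i + 1) hj hj2 k (by simpa using hk)
      refine ⟨?_, by omega⟩
      rw [List.getElem?_cons_succ, h8]
      congr 2
      omega

lemma Pot.usp [Finite V] {G : MGraph V} {t : ℕ} (h : Pot G t) : t ≤ G.usp := by
  rcases h with rfl | ⟨N, φ, p, h⟩
  · exact Nat.zero_le _
  by_cases ht : t = 0
  · omega
  have hget : ∀ k < t, ((List.range t).map p)[k]? = some (p k) := by
    intro k hk
    simp [List.getElem?_range hk]
  have hne : (List.range t).map p ≠ [] := by simp [ht]
  have hhead : ((List.range t).map p).head? = some (p 0) := by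
    rw [List.head?_eq_getElem?]
    exact hget 0 (by omega)
  have hlast : ((List.range t).map p).getLast? = some (p (t - 1)) := by
    rw [List.getLast?_eq_getElem?]
    simp only [List.length_map, List.length_range]
    exact hget (t - 1) (by omega)
  have husp : G.IsUSP ((List.range t).map p) := by
    refine ⟨⟨hne, ?_, ?_⟩, ?_, ?_⟩
    · refine List.Nodup.map_on ?_ List.nodup_range
      intro i hi j hj hij
      exact h.inj (List.mem_range.1 hi) (List.mem_range.1 hj) hij
    · rw [List.isChain_iff_getElem]
      intro i hi
      simp only [List.length_map, List.length_range] at hi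
      simp only [List.getElem_map, List.getElem_range]
      rw [h.2.2.1 i hi]
      norm_num
    · rw [List.isChain_iff_getElem]
      intro i hi
      simp only [List.length_map, List.length_range] at hi
      simp only [List.getElem_map, List.getElem_range]
      exact h.2.2.1 i hi
    · intro l' hl' h1 h2 hne'
      rw [hhead] at h1
      rw [hlast] at h2
      cases l' with
      | nil => simp at h1
      | cons a r =>
        simp only [List.head?_cons, Option.some.injEq] at h1
        subst h1
        obtain ⟨g1, g2⟩ := chain_pot h r _ _ hl'.2.2 h2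
        have g3 := h.2.1 0 (by omega)
        have g4 := h.2.1 (t - 1) (by omega)
        have hN := h.1
        rw [g3, g4] at g1
        have g5 : ((t - 1 : ℕ) : ℤ) ≤ r.length := by
          have : N * ((t - 1 : ℕ) : ℤ) ≤ N * r.length := by
            push_cast at g1 ⊢
            linarith
          exact le_of_mul_le_mul_left this (by omega)
        have g6 : t - 1 ≤ r.length := by exact_mod_cast g5
        simp only [List.length_map, List.length_range, List.length_cons]
        by_contra hlt
        have g7 : r.length = t - 1 := by omega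
        apply hne'
        apply List.ext_getElem?
        intro k
        by_cases hk : k < t
        · rw [hget k hk]
          have g8 := g2 (by rw [g3, g4, g7]; push_cast; ring) 0 (by omega) rfl k (by omega)
          rw [g8.1]
          congr 2
          omega
        · rw [List.getElem?_eq_none (by simp; omega), List.getElem?_eq_none (by simp; omega)]
  have := le_usp husp
  simpa using this

end Pool.Agent.Q134.SP
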