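import Mathlib
import Pool.Agent.Q134.SPPot

set_option autoImplicit false

/-!
Potentials and the minor operations.
-/

namespace Pool.Agent.Q134.SP

open MGraph

/-- the squeezing map -/
def sq (N γ r : ℤ) : ℤ := max (min r γ) (r - N)

lemma sq_low {N γ r : ℤ} (hN : 2 ≤ N) (h : r ≤ γ) : sq N γ r = r := by
  unfold sq
  rw [min_eq_left h, max_eq_left (by omega)]

lemma sq_mid {N γ r : ℤ} (h : γ ≤ r) (h' : r ≤ γ + N) : sq N γ r = γ := by
  unfold sq
  rw [min_eq_right h, max_eq_left (by omega)]

lemma sq_high {N γ r : ℤ} (hN : 2 ≤ N) (h : γ + N ≤ r) : sq N γ r = r - N := by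
  unfold sq
  rw [min_eq_right (by omega), max_eq_right (by omega)]

lemma sq_sub {N γ a b : ℤ} (hN : 2 ≤ N) (h : b - a ≤ N) : sq N γ b - sq N γ a ≤ N := by
  unfold sq
  omega

lemma sq_sub_eq {N γ a b : ℤ} (hN : 2 ≤ N) (h : b - a ≤ N)
    (h' : sq N γ b - sq N γ a = N) : b - a = N := by
  unfold sq at h'
  omega

variable {V W : Type}

/-- the potential may be assumed to be bounded -/
lemma PotData.clip {G : MGraph V} {t : ℕ} {N : ℤ} {φ : V → ℤ} {p : ℕ → V}
    (h : PotData G t N φ p) : PotData G t N (fun v => max 0 (min (φ v) (N * (t - 1))))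
      p := by
  obtain ⟨h1, h2, h3, h4, h5⟩ := h
  refine ⟨h1, ?_, h3, ?_, ?_⟩
  · intro i hi
    show max 0 (min (φ (p i)) (N * (t - 1))) = _
    rw [h2 i hi]
    have h6 : (i : ℤ) ≤ t - 1 := by omega
    have h7 : N * i ≤ N * (t - 1) := mul_le_mul_of_nonneg_left h6 (by omega)
    have h8 : 0 ≤ N * i := by positivity
    rw [min_eq_left h7, max_eq_right h8]
  · intro u v huv
    have := h4 u v huv
    show max 0 (min (φ v) (N * (t - 1))) - max 0 (min (φ u) (N * (t - 1))) ≤ N
    omega
  · intro u v huv h6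
    apply h5 u v huv
    have := h4 u v huv
    have h6' : max 0 (min (φ v) (N * (t - 1))) - max 0 (min (φ u) (N * (t - 1))) = N := h6
    omega

open Classical in
/-- an additional edge -/
noncomputable def plus (G : MGraph V) (b : Prop) (x y : V) (hxy : b → x ≠ y) : MGraph V where
  mult u v := G.mult u v + if b ∧ ((u = x ∧ v = y) ∨ (u = y ∧ v = x)) then 1 else 0
  symm u v := by
    rw [G.symm u v]
    by_cases h : b ∧ ((u = x ∧ v = y) ∨ (u = y ∧ v = x))
    · have h' : b ∧ ((v = x ∧ u = y) ∨ (v = y ∧ u = x)) := by tauto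
      rw [if_pos h, if_pos h']
    · have h' : ¬ (b ∧ ((v = x ∧ u = y) ∨ (v = y ∧ u = x))) := by tauto
      rw [if_neg h, if_neg h']
  loopless v := by
    rw [G.loopless v, if_neg]
    rintro ⟨hb, ⟨h1, h2⟩ | ⟨h1, h2⟩⟩
    · exact hxy hb (h1.symm.trans h2)
    · exact hxy hb (h2.symm.trans h1)

lemma plus_of {G : MGraph V} {b : Prop} {x y : V} {hxy : b → x ≠ y} {u v : V}
    (h : b ∧ ((u = x ∧ v = y) ∨ (u = y ∧ v = x))) :
    (plus G b x y hxy).mult u v = G.mult u v + 1 := by
  classical
  unfold plus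
  simp only
  rw [if_pos h]

lemma plus_not {G : MGraph V} {b : Prop} {x y : V} {hxy : b → x ≠ y} {u v : V}
    (h : ¬ (b ∧ ((u = x ∧ v = y) ∨ (u = y ∧ v = x)))) :
    (plus G b x y hxy).mult u v = G.mult u v := by
  classical
  unfold plus
  simp only
  rw [if_neg h, Nat.add_zero]

lemma plus_pos {G : MGraph V} {b : Prop} {x y : V} {hxy : b → x ≠ y} {u v : V}
    (h : 0 < (plus G b x y hxy).mult u v) :
    0 < G.mult u v ∨ (b ∧ ((u = x ∧ v = y) ∨ (u = y ∧ v = x))) := by
  by_cases hc : b ∧ ((u = x ∧ v = y) ∨ (u = y ∧ v = x))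
  · exact Or.inr hc
  · rw [plus_not hc] at h
    exact Or.inl h

lemma plus_super (G : MGraph V) (b : Prop) (x y : V) (hxy : b → x ≠ y) :
    (plus G b x y hxy).IsSuper G := fun _ _ => Nat.le_add_right _ _

/-- removing one vertex of the path -/
theorem bypass {F : MGraph V} {M : MGraph W} {g : W → V} (hg : Function.Injective g) {t : ℕ}
    {N : ℤ} {φ : V → ℤ} {p : ℕ → V} (h : PotData F t N φ p) {γ : ℤ} {i0 : ℕ} (hi0 : i0 < t)
    (hγ1 : γ < N * i0) (hγ2 : N * i0 < γ + N)
    (hA : ∀ u v, 0 < M.mult u v → ∃ u0 v0, 0 < F.mult u0 v0 ∧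
      (u0 = g u ∨ (sq N γ (φ u0) = γ ∧ sq N γ (φ (g u)) = γ)) ∧
      (v0 = g v ∨ (sq N γ (φ v0) = γ ∧ sq N γ (φ (g v)) = γ)))
    (hB : ∀ j < t, j ≠ i0 → ∃ w, g w = p j)
    (hC : ∀ j < t, ∀ k < t, j ≠ i0 → k ≠ i0 → ∀ w w', g w = p j → g w' = p k →
      M.mult w w' = F.mult (p j) (p k)) :
    ∃ F1 : MGraph W, F1.IsSuper M ∧ Pot F1 (t - 1) := by
  classical
  by_cases ht : t - 1 = 0
  · exact ⟨M, fun _ _ => le_rfl, Or.inl ht⟩
  obtain ⟨hN, h2, h3, h4, h5⟩ := id h
  have hW : Nonempty W := by
    by_cases hc : i0 = 0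
    · obtain ⟨w, -⟩ := hB 1 (by omega) (by omega)
      exact ⟨w⟩
    · obtain ⟨w, -⟩ := hB 0 (by omega) (by omega)
      exact ⟨w⟩
  have hq0 : ∀ j, ∃ w, j < t → j ≠ i0 → g w = p j := by
    intro j
    by_cases hj : j < t ∧ j ≠ i0
    · obtain ⟨w, hw⟩ := hB j hj.1 hj.2
      exact ⟨w, fun _ _ => hw⟩
    · obtain ⟨w⟩ := hW
      exact ⟨w, fun h1 h2 => absurd ⟨h1, h2⟩ hj⟩
  choose q hq using hq0
  have hqinj : ∀ j k, j < t → k < t → j ≠ i0 → k ≠ i0 → q j = q k → j = k := by
    intro j k hj hk hj0 hk0 hjk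
    apply h.inj hj hk
    rw [← hq j hj hj0, ← hq k hk hk0, hjk]
  -- values of the squeezed potential on the path
  have s1 : ∀ j, j < i0 → sq N γ (N * j) = N * j := by
    intro j hj
    apply sq_low hN
    have h6 : (j : ℤ) ≤ i0 - 1 := by omega
    have h7 := mul_le_mul_of_nonneg_left h6 (show (0 : ℤ) ≤ N by omega)
    have h8 : N * ((i0 : ℤ) - 1) = N * i0 - N := by ring
    omega
  have s2 : ∀ j, i0 < j → sq N γ (N * j) = N * (j - 1) := by
    intro j hj
    have h6 : (i0 : ℤ) + 1 ≤ j := by omega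
    have h7 := mul_le_mul_of_nonneg_left h6 (show (0 : ℤ) ≤ N by omega)
    have h8 : N * ((i0 : ℤ) + 1) = N * i0 + N := by ring
    rw [sq_high hN (by omega)]
    ring
  have s3 : sq N γ (N * i0) = γ := sq_mid (by omega) (by omega)
  have s4 : ∀ j, j ≠ i0 → sq N γ (N * j) ≠ γ := by
    intro j hj
    rcases lt_or_gt_of_ne hj with hj | hj
    · rw [s1 j hj]
      have h6 : (j : ℤ) ≤ i0 - 1 := by omega
      have h7 := mul_le_mul_of_nonneg_left h6 (show (0 : ℤ) ≤ N by omega)
      have h8 : N * ((i0 : ℤ) - 1) = N * i0 - N := by ring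
      omega
    · rw [s2 j hj]
      have h6 : (i0 : ℤ) ≤ j - 1 := by omega
      have h7 := mul_le_mul_of_nonneg_left h6 (show (0 : ℤ) ≤ N by omega)
      omega
  set b : Prop := 0 < i0 ∧ i0 + 1 < t with hb
  have hbne : b → q (i0 - 1) ≠ q (i0 + 1) := by
    intro hb' h6
    have := hqinj _ _ (by omega) (by omega) (by omega) (by omega) h6
    omega
  let q' : ℕ → W := fun j => if j < i0 then q j else q (j + 1)
  have q1 : ∀ j, j < i0 → q' j = q j := fun j hj => if_pos hj
  have q2 : ∀ j, i0 ≤ j → q' j = q (j + 1) := fun j hj => if_neg (by omega)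
  have hφq : ∀ j < t, j ≠ i0 → φ (g (q j)) = N * j := by
    intro j hj hj0
    rw [hq j hj hj0, h2 j hj]
  refine ⟨plus M b (q (i0 - 1)) (q (i0 + 1)) hbne, plus_super _ _ _ _ _, Or.inr
    ⟨N, fun w => sq N γ (φ (g w)), q', hN, ?_, ?_, ?_, ?_⟩⟩
  · intro j hj
    show sq N γ (φ (g (q' j))) = N * j
    by_cases hj0 : j < i0
    · rw [q1 j hj0, hφq j (by omega) (by omega), s1 j hj0]
    · rw [q2 j (by omega), hφq (j + 1) (by omega) (by omega), s2 (j + 1) (by omega)]
      push_cast
      ring
  · intro j hj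
    rcases lt_trichotomy (j + 1) i0 with hj0 | hj0 | hj0
    · rw [q1 j (by omega), q1 (j + 1) hj0, plus_not, hC j (by omega) (j + 1) (by omega)
        (by omega) (by omega) _ _ (hq j (by omega) (by omega))
        (hq (j + 1) (by omega) (by omega)), h3 j (by omega)]
      rintro ⟨hb', ⟨h6, h7⟩ | ⟨h6, h7⟩⟩
      · have := hqinj _ _ (by omega) (by omega) (by omega) (by omega) h6
        omega
      · have := hqinj _ _ (by omega) (by omega) (by omega) (by omega) h6
        omega
    · have hb' : b := ⟨by omega, by omega⟩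
      have e1 : q' j = q (i0 - 1) := by rw [q1 j (by omega)]; congr 1; omega
      have e2 : q' (j + 1) = q (i0 + 1) := by rw [q2 (j + 1) (by omega)]; congr 1; omega
      rw [e1, e2, plus_of ⟨hb', Or.inl ⟨rfl, rfl⟩⟩]
      have e3 : M.mult (q (i0 - 1)) (q (i0 + 1)) = 0 := by
        rw [hC (i0 - 1) (by omega) (i0 + 1) (by omega) (by omega) (by omega) _ _
          (hq (i0 - 1) (by omega) (by omega)) (hq (i0 + 1) (by omega) (by omega))]
        by_contra hne
        have h6 := h4 _ _ (Nat.pos_of_ne_zero hne)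
        rw [h2 (i0 - 1) (by omega), h2 (i0 + 1) (by omega)] at h6
        have h7 : N * ((i0 + 1 : ℕ) : ℤ) - N * ((i0 - 1 : ℕ) : ℤ) = 2 * N := by
          rw [Nat.cast_sub (by omega)]
          push_cast
          ring
        omega
      rw [e3]
    · rw [q2 j (by omega), q2 (j + 1) (by omega), plus_not, hC (j + 1) (by omega) (j + 1 + 1)
        (by omega) (by omega) (by omega) _ _ (hq (j + 1) (by omega) (by omega))
        (hq (j + 1 + 1) (by omega) (by omega)), h3 (j + 1) (by omega)]
      rintro ⟨hb', ⟨h6, h7⟩ | ⟨h6, h7⟩⟩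
      · have := hqinj _ _ (by omega) (by omega) (by omega) (by omega) h6
        omega
      · have := hqinj _ _ (by omega) (by omega) (by omega) (by omega) h7
        omega
  · intro u v huv
    have huv' := plus_pos huv
    show sq N γ (φ (g v)) - sq N γ (φ (g u)) ≤ N
    by_cases hM : 0 < M.mult u v
    · obtain ⟨u0, v0, h6, h7, h8⟩ := hA u v hM
      have e1 : sq N γ (φ (g u)) = sq N γ (φ u0) := by
        rcases h7 with rfl | h7
        · rfl
        · rw [h7.1, h7.2]
      have e2 : sq N γ (φ (g v)) = sq N γ (φ v0) := by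
        rcases h8 with rfl | h8
        · rfl
        · rw [h8.1, h8.2]
      rw [e1, e2]
      exact sq_sub hN (h4 _ _ h6)
    · obtain ⟨hb', hc⟩ := huv'.resolve_left hM
      have v1 : sq N γ (φ (g (q (i0 - 1)))) = N * i0 - N := by
        rw [hφq (i0 - 1) (by omega) (by omega), s1 (i0 - 1) (by omega), Nat.cast_sub (by omega)]
        push_cast
        ring
      have v2 : sq N γ (φ (g (q (i0 + 1)))) = N * i0 := by
        rw [hφq (i0 + 1) (by omega) (by omega), s2 (i0 + 1) (by omega)]
        push_cast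
        ring
      obtain ⟨rfl, rfl⟩ | ⟨rfl, rfl⟩ := hc
      · rw [v1, v2]
        omega
      · rw [v1, v2]
        omega
  · intro u v huv hd
    have huv' := plus_pos huv
    have hd' : sq N γ (φ (g v)) - sq N γ (φ (g u)) = N := hd
    by_cases hM : 0 < M.mult u v
    · obtain ⟨u0, v0, h6, h7, h8⟩ := hA u v hM
      have e1 : sq N γ (φ (g u)) = sq N γ (φ u0) := by
        rcases h7 with rfl | h7
        · rfl
        · rw [h7.1, h7.2]
      have e2 : sq N γ (φ (g v)) = sq N γ (φ v0) := by
        rcases h8 with rfl | h8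
        · rfl
        · rw [h8.1, h8.2]
      rw [e1, e2] at hd'
      have h9 := sq_sub_eq hN (h4 _ _ h6) hd'
      obtain ⟨i, hi, rfl, rfl⟩ := h5 _ _ h6 h9
      rw [h2 i (by omega), h2 (i + 1) hi] at hd'
      have n1 : i ≠ i0 := by
        rintro rfl
        rw [s3, s2 (i + 1) (by omega)] at hd'
        push_cast at hd'
        have : N * ((i : ℤ) + 1 - 1) = N * i := by ring
        omega
      have n2 : i + 1 ≠ i0 := by
        intro h10
        have h11 : sq N γ (N * ((i + 1 : ℕ) : ℤ)) = γ := by rw [h10]; exact s3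
        rw [h11, s1 i (by omega)] at hd'
        have h12 : N * (i0 : ℤ) = N * i + N := by rw [← h10]; push_cast; ring
        omega
      have e3 : p i = g u := by
        rcases h7 with h7 | h7
        · exact h7
        · exfalso
          apply s4 i n1
          rw [← h2 i (by omega)]
          exact h7.1
      have e4 : p (i + 1) = g v := by
        rcases h8 with h8 | h8
        · exact h8
        · exfalso
          apply s4 (i + 1) n2
          rw [← h2 (i + 1) hi]
          exact h8.1
      have e5 : u = q i := hg (by rw [hq i (by omega) n1, e3])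
      have e6 : v = q (i + 1) := hg (by rw [hq (i + 1) hi n2, e4])
      rcases lt_or_gt_of_ne n1 with h10 | h10
      · exact ⟨i, by omega, by rw [q1 i h10]; exact e5, by rw [q1 (i + 1) (by omega)]; exact e6⟩
      · refine ⟨i - 1, by omega, ?_, ?_⟩
        · rw [q2 (i - 1) (by omega), e5]
          congr 1
          omega
        · rw [q2 (i - 1 + 1) (by omega), e6]
          congr 1
          omega
    · obtain ⟨hb', hc⟩ := huv'.resolve_left hM
      have v1 : sq N γ (φ (g (q (i0 - 1)))) = N * i0 - N := by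
        rw [hφq (i0 - 1) (by omega) (by omega), s1 (i0 - 1) (by omega), Nat.cast_sub (by omega)]
        push_cast
        ring
      have v2 : sq N γ (φ (g (q (i0 + 1)))) = N * i0 := by
        rw [hφq (i0 + 1) (by omega) (by omega), s2 (i0 + 1) (by omega)]
        push_cast
        ring
      obtain ⟨rfl, rfl⟩ | ⟨rfl, rfl⟩ := hc
      · refine ⟨i0 - 1, by omega, (q1 _ (by omega)).symm, ?_⟩
        rw [q2 (i0 - 1 + 1) (by omega)]
        congr 1
        omega
      · exfalso
        rw [v1, v2] at hd'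
        omega

/-- deletion of a vertex -/
theorem step_del {F : MGraph V} {t : ℕ} (h : Pot F t) (x : V) :
    ∃ F1 : MGraph {v : V // v ≠ x}, F1.IsSuper (F.delVertex x) ∧ Pot F1 (t - 1) := by
  rcases h with rfl | ⟨N, φ, p, h⟩
  · exact ⟨F.delVertex x, fun _ _ => le_rfl, Or.inl rfl⟩
  by_cases ht : t = 0
  · subst ht
    exact ⟨F.delVertex x, fun _ _ => le_rfl, Or.inl rfl⟩
  have hex : ∃ i0 < t, ∀ j < t, j ≠ i0 → p j ≠ x := by
    by_cases hx : ∃ i < t, p i = x
    · obtain ⟨i, hi, rfl⟩ := hx
      exact ⟨i, hi, fun j hj hji hp => hji (h.inj hj hi hp)⟩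
    · push Not at hx
      exact ⟨t - 1, by omega, fun j hj _ => hx j hj⟩
  obtain ⟨i0, hi0, hx⟩ := hex
  have hN := h.1
  refine bypass (g := Subtype.val) Subtype.val_injective h (γ := N * i0 - 1) hi0 (by omega)
    (by omega) ?_ ?_ ?_
  · intro u v huv
    exact ⟨u, v, huv, Or.inl rfl, Or.inl rfl⟩
  · intro j hj hj0
    exact ⟨⟨p j, hx j hj hj0⟩, rfl⟩
  · intro j hj k hk hj0 hk0 w w' hw hw'
    show F.mult w w' = _
    rw [hw, hw']

/-- contraction -/
theorem step_contract {F : MGraph V} {t : ℕ} (h : Pot F t) (x y : V) (hxy : 0 < F.mult x y) :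
    ∃ F1 : MGraph {v : V // v ≠ y}, F1.IsSuper (F.contract x y) ∧ Pot F1 (t - 1) := by
  classical
  rcases h with rfl | ⟨N, φ0, p, h0⟩
  · exact ⟨F.contract x y, fun _ _ => le_rfl, Or.inl rfl⟩
  by_cases ht : t = 0
  · subst ht
    exact ⟨F.contract x y, fun _ _ => le_rfl, Or.inl rfl⟩
  have hne : x ≠ y := by
    rintro rfl
    rw [F.loopless] at hxy
    omega
  -- a bounded potential
  obtain ⟨φ, h, hφ0, hφ1⟩ : ∃ φ : V → ℤ, PotData F t N φ p ∧ (∀ v, 0 ≤ φ v) ∧
      ∀ v, φ v ≤ N * (t - 1) := by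
    have hN := h0.1
    have hnn : (0 : ℤ) ≤ N * ((t : ℤ) - 1) := mul_nonneg (by omega) (by omega)
    refine ⟨_, h0.clip, fun v => le_max_left _ _, fun v => ?_⟩
    show max 0 (min (φ0 v) (N * (t - 1))) ≤ N * (t - 1)
    omega
  have hyx : 0 < F.mult y x := by rw [F.symm]; exact hxy
  obtain ⟨hN, h2, h3, h4, h5⟩ := id h
  have hd1 := h4 x y hxy
  have hd2 := h4 y x hyx
  have hmc : ∀ u v : {v : V // v ≠ y}, 0 < (F.contract x y).mult u v →
      0 < F.mult u v ∨ (u.1 = x ∧ 0 < F.mult y v) ∨ (v.1 = x ∧ 0 < F.mult u y) := by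
    intro u v huv
    have huv' : 0 < (if u = v then 0 else
      F.mult u v + (if u.1 = x then F.mult y v else 0) + (if v.1 = x then F.mult u y else 0)) := huv
    split_ifs at huv' with g1 g2 g3 g3
    · omega
    · by_contra hcon; push Not at hcon
      have := hcon.2.1 g2; have := hcon.2.2 g3; omega
    · by_contra hcon; push Not at hcon
      have := hcon.2.1 g2; omega
    · by_contra hcon; push Not at hcon
      have := hcon.2.2 g3; omega
    · by_contra hcon; push Not at hcon
      omega
  by_cases hdist : φ y - φ x = N ∨ φ x - φ y = N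
  · -- an edge of the path
    obtain ⟨i, hi, hxi⟩ : ∃ i, i + 1 < t ∧ ((x = p i ∧ y = p (i + 1)) ∨
        (y = p i ∧ x = p (i + 1))) := by
      rcases hdist with hd | hd
      · obtain ⟨i, h6, h7, h8⟩ := h5 x y hxy hd
        exact ⟨i, h6, Or.inl ⟨h7, h8⟩⟩
      · obtain ⟨i, h6, h7, h8⟩ := h5 y x hyx hd
        exact ⟨i, h6, Or.inr ⟨h7, h8⟩⟩
    have hpx : ∀ j < t, j ≠ i → j ≠ i + 1 → p j ≠ x ∧ p j ≠ y := by
      intro j hj h6 h7
      rcases hxi with ⟨rfl, rfl⟩ | ⟨rfl, rfl⟩
      · exact ⟨fun h8 => h6 (h.inj hj (by omega) h8), fun h8 => h7 (h.inj hj hi h8)⟩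
      · exact ⟨fun h8 => h7 (h.inj hj hi h8), fun h8 => h6 (h.inj hj (by omega) h8)⟩
    set γ : ℤ := N * i with hγ
    have s1 : ∀ j : ℕ, j ≤ i → sq N γ (N * j) = N * j := by
      intro j hj
      apply sq_low hN
      have h6 : (j : ℤ) ≤ i := by omega
      exact mul_le_mul_of_nonneg_left h6 (show (0 : ℤ) ≤ N by omega)
    have s2 : ∀ j : ℕ, i < j → sq N γ (N * j) = N * (j - 1) := by
      intro j hj
      have h6 : (i : ℤ) + 1 ≤ j := by omega
      have h7 := mul_le_mul_of_nonneg_left h6 (show (0 : ℤ) ≤ N by omega)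
      have h8 : N * ((i : ℤ) + 1) = N * i + N := by ring
      rw [sq_high hN (by omega)]
      ring
    have sx : sq N γ (φ x) = γ := by
      rcases hxi with ⟨rfl, -⟩ | ⟨-, rfl⟩
      · rw [h2 i (by omega), s1 i le_rfl]
      · rw [h2 (i + 1) hi, s2 (i + 1) (by omega)]
        push_cast
        ring
    have sy : sq N γ (φ y) = γ := by
      rcases hxi with ⟨-, rfl⟩ | ⟨rfl, -⟩
      · rw [h2 (i + 1) hi, s2 (i + 1) (by omega)]
        push_cast
        ring
      · rw [h2 i (by omega), s1 i le_rfl]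
    have hx' : x ≠ y := hne
    let q' : ℕ → {v : V // v ≠ y} := fun j =>
      if h : j < i ∧ p j ≠ y then ⟨p j, h.2⟩ else
        if h' : i < j ∧ p (j + 1) ≠ y then ⟨p (j + 1), h'.2⟩ else ⟨x, hx'⟩
    have q1 : ∀ j, j < i → (q' j).1 = p j := by
      intro j hj
      have h6 : j < i ∧ p j ≠ y := ⟨hj, (hpx j (by omega) (by omega) (by omega)).2⟩
      simp only [q', dif_pos h6]
    have q2 : q' i = ⟨x, hx'⟩ := by
      simp only [q', lt_irrefl, false_and, dif_neg, not_false_iff]
    have q3 : ∀ j, i < j → j + 1 < t → (q' j).1 = p (j + 1) := by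
      intro j hj hjt
      have h6 : ¬ (j < i ∧ p j ≠ y) := by omega
      have h7 : i < j ∧ p (j + 1) ≠ y := ⟨hj, (hpx (j + 1) hjt (by omega) (by omega)).2⟩
      simp only [q', dif_neg h6, dif_pos h7]
    refine ⟨F.contract x y, fun _ _ => le_rfl, Or.inr ⟨N, fun w => sq N γ (φ w.1), q', hN, ?_, ?_,
      ?_, ?_⟩⟩
    · intro j hj
      show sq N γ (φ (q' j).1) = N * j
      rcases lt_trichotomy j i with hji | hji | hji
      · rw [q1 j hji, h2 j (by omega), s1 j hji.le]
      · rw [hji, q2, sx]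
      · rw [q3 j hji (by omega), h2 (j + 1) (by omega), s2 (j + 1) (by omega)]
        push_cast
        ring
    · intro j hj
      have hform : ∀ u v : {v : V // v ≠ y}, u.1 ≠ v.1 → (F.contract x y).mult u v =
          F.mult u v + (if u.1 = x then F.mult y v else 0) +
            (if v.1 = x then F.mult u y else 0) := by
        intro u v huv
        have : u ≠ v := fun h => huv (by rw [h])
        show (if u = v then 0 else _) = _
        rw [if_neg this]
      have far : ∀ a b : ℕ, a + 1 < b → b < t → F.mult (p a) (p b) = 0 := by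
        intro a b hab hb
        by_contra hc
        have h6 := h4 _ _ (Nat.pos_of_ne_zero hc)
        rw [h2 a (by omega), h2 b hb] at h6
        have h7 : (a : ℤ) + 2 ≤ b := by omega
        have h8 := mul_le_mul_of_nonneg_left h7 (show (0 : ℤ) ≤ N by omega)
        have h9 : N * ((a : ℤ) + 2) = N * a + 2 * N := by ring
        omega
      rcases lt_trichotomy (j + 1) i with hji | hji | hji
      · have e1 := q1 j (by omega)
        have e2 := q1 (j + 1) hji
        rw [hform _ _ (by rw [e1, e2]; intro h6; have := h.inj (by omega) (by omega) h6; omega),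
          e1, e2, if_neg (hpx j (by omega) (by omega) (by omega)).1,
          if_neg (hpx (j + 1) (by omega) (by omega) (by omega)).1, h3 j (by omega)]
      · have e1 := q1 j (by omega)
        have e2 : (q' (j + 1)).1 = x := by rw [hji, q2]
        have n1 := hpx j (by omega) (by omega) (by omega)
        rw [hform _ _ (by rw [e1, e2]; exact n1.1), e1, e2, if_neg n1.1, if_pos rfl]
        subst hji
        rcases hxi with ⟨rfl, rfl⟩ | ⟨rfl, rfl⟩
        · rw [h3 j (by omega), far j (j + 1 + 1) (by omega) hi]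
        · rw [far j (j + 1 + 1) (by omega) hi, h3 j (by omega)]
      · by_cases hji' : j = i
        · subst hji'
          have e1 : (q' j).1 = x := by rw [q2]
          have e2 := q3 (j + 1) (by omega) (by omega)
          have n1 := hpx (j + 1 + 1) (by omega) (by omega) (by omega)
          rw [hform _ _ (by rw [e1, e2]; exact n1.1.symm), e1, e2, if_pos rfl, if_neg n1.1]
          rcases hxi with ⟨rfl, rfl⟩ | ⟨rfl, rfl⟩
          · rw [h3 (j + 1) (by omega), far j (j + 1 + 1) (by omega) (by omega)]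
          · rw [h3 (j + 1) (by omega), far j (j + 1 + 1) (by omega) (by omega)]
        · have e1 := q3 j (by omega) (by omega)
          have e2 := q3 (j + 1) (by omega) (by omega)
          rw [hform _ _ (by rw [e1, e2]; intro h6; have := h.inj (by omega) (by omega) h6; omega),
            e1, e2, if_neg (hpx (j + 1) (by omega) (by omega) (by omega)).1,
            if_neg (hpx (j + 1 + 1) (by omega) (by omega) (by omega)).1, h3 (j + 1) (by omega)]
    · intro u v huv
      show sq N γ (φ v.1) - sq N γ (φ u.1) ≤ N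
      rcases hmc u v huv with h6 | ⟨h6, h7⟩ | ⟨h6, h7⟩
      · exact sq_sub hN (h4 _ _ h6)
      · have e := sq_sub (γ := γ) hN (h4 _ _ h7)
        rw [sy] at e
        rw [h6, sx]
        exact e
      · have e := sq_sub (γ := γ) hN (h4 _ _ h7)
        rw [sy] at e
        rw [h6, sx]
        exact e
    · intro u v huv hd
      have hd' : sq N γ (φ v.1) - sq N γ (φ u.1) = N := hd
      -- the original edge
      obtain ⟨u0, v0, g1, g2, g3⟩ : ∃ u0 v0, 0 < F.mult u0 v0 ∧ (u0 = u.1 ∨ (u.1 = x ∧ u0 = y)) ∧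
          (v0 = v.1 ∨ (v.1 = x ∧ v0 = y)) := by
        rcases hmc u v huv with h6 | ⟨h6, h7⟩ | ⟨h6, h7⟩
        · exact ⟨u, v, h6, Or.inl rfl, Or.inl rfl⟩
        · exact ⟨y, v, h7, Or.inr ⟨h6, rfl⟩, Or.inl rfl⟩
        · exact ⟨u, y, h7, Or.inl rfl, Or.inr ⟨h6, rfl⟩⟩
      have e1 : sq N γ (φ u.1) = sq N γ (φ u0) := by
        rcases g2 with rfl | ⟨g2, rfl⟩
        · rfl
        · rw [g2, sx, sy]
      have e2 : sq N γ (φ v.1) = sq N γ (φ v0) := by
        rcases g3 with rfl | ⟨g3, rfl⟩
        · rfl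
        · rw [g3, sx, sy]
      rw [e1, e2] at hd'
      have h9 := sq_sub_eq hN (h4 _ _ g1) hd'
      obtain ⟨k, hk, rfl, rfl⟩ := h5 _ _ g1 h9
      rw [h2 k (by omega), h2 (k + 1) hk] at hd'
      have n1 : k ≠ i := by
        rintro rfl
        rw [s1 k le_rfl, s2 (k + 1) (by omega)] at hd'
        push_cast at hd'
        have : N * ((k : ℤ) + 1 - 1) - N * k = 0 := by ring
        omega
      -- the index of a vertex
      have idx : ∀ (m : ℕ) (w : {v : V // v ≠ y}), m < t →
          (p m = w.1 ∨ (w.1 = x ∧ p m = y)) → w = q' (if m ≤ i then m else m - 1) := by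
        intro m w hm hw
        rcases lt_trichotomy m i with hmi | hmi | hmi
        · rw [if_pos hmi.le]
          apply Subtype.ext
          rw [q1 m hmi]
          rcases hw with hw | hw
          · exact hw.symm
          · exact absurd hw.2 (hpx m hm (by omega) (by omega)).2
        · rw [if_pos (by omega), hmi, q2]
          apply Subtype.ext
          show w.1 = x
          rcases hw with hw | hw
          · rcases hxi with ⟨h10, h11⟩ | ⟨h10, h11⟩
            · rw [← hw, hmi, h10]
            · exfalso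
              apply w.2
              rw [← hw, hmi, h10]
          · exact hw.1
        · rw [if_neg (by omega)]
          by_cases hmi' : m = i + 1
          · have e3 : m - 1 = i := by omega
            rw [e3, q2]
            apply Subtype.ext
            show w.1 = x
            rcases hw with hw | hw
            · rcases hxi with ⟨h10, h11⟩ | ⟨h10, h11⟩
              · exfalso
                apply w.2
                rw [← hw, hmi', h11]
              · rw [← hw, hmi', h11]
            · exact hw.1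
          · apply Subtype.ext
            have e3 : m - 1 + 1 = m := by omega
            rw [q3 (m - 1) (by omega) (by omega), e3]
            rcases hw with hw | hw
            · exact hw.symm
            · exact absurd hw.2 (hpx m hm (by omega) (by omega)).2
      have i1 := idx k u (by omega) g2
      have i2 := idx (k + 1) v hk g3
      rcases lt_or_gt_of_ne n1 with h10 | h10
      · rw [if_pos (by omega)] at i1 i2
        exact ⟨k, by omega, i1, i2⟩
      · rw [if_neg (by omega)] at i1 i2
        refine ⟨k - 1, by omega, i1, ?_⟩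
        rw [i2]
        congr 1
        omega
  · -- not an edge of the path
    push Not at hdist
    obtain ⟨γ, hγ0, hγ1, hγ2, hγ3, hγ4, hγ5⟩ : ∃ γ : ℤ, ¬ N ∣ γ ∧ γ ≤ φ x ∧ γ ≤ φ y ∧
        φ x ≤ γ + N ∧ φ y ≤ γ + N ∧ -1 ≤ γ := by
      have hx0 := hφ0 x
      have hy0 := hφ0 y
      by_cases hc : N ∣ min (φ x) (φ y)
      · refine ⟨min (φ x) (φ y) - 1, ?_, by omega, by omega, by omega, by omega, by omega⟩
        intro hc'
        have h6 := dvd_sub hc hc'
        have h7 : min (φ x) (φ y) - (min (φ x) (φ y) - 1) = 1 := by ring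
        rw [h7] at h6
        have := Int.le_of_dvd one_pos h6
        omega
      · exact ⟨min (φ x) (φ y), hc, by omega, by omega, by omega, by omega, by omega⟩
    have hfl1 := Int.mul_ediv_add_emod γ N
    have hfl2 := Int.emod_lt_of_pos γ (show 0 < N by omega)
    have hfl3 : 0 < γ % N := by
      have h6 := Int.emod_nonneg γ (show N ≠ 0 by omega)
      rcases h6.eq_or_lt with h7 | h7
      · exact absurd (Int.dvd_of_emod_eq_zero h7.symm) hγ0
      · exact h7
    have hq0 : -1 ≤ γ / N := by
      by_contra hc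
      push Not at hc
      have h6 : γ / N ≤ -2 := by omega
      have h7 := mul_le_mul_of_nonneg_left h6 (show (0 : ℤ) ≤ N by omega)
      omega
    obtain ⟨i0, hi0⟩ : ∃ i0 : ℕ, (i0 : ℤ) = γ / N + 1 := ⟨(γ / N + 1).toNat, by omega⟩
    have hNi : N * (i0 : ℤ) = N * (γ / N) + N := by rw [hi0]; ring
    have hi0t : i0 < t := by
      have h6 := hφ1 x
      have h7 : N * (i0 : ℤ) < N * t := by
        have : N * ((t : ℤ) - 1) = N * t - N := by ring
        omega
      have h8 := lt_of_mul_lt_mul_left h7 (show (0 : ℤ) ≤ N by omega)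
      exact_mod_cast h8
    have sx : sq N γ (φ x) = γ := sq_mid hγ1 hγ3
    have sy : sq N γ (φ y) = γ := sq_mid hγ2 hγ4
    have hpn : ∀ j < t, j ≠ i0 → p j ≠ x ∧ p j ≠ y := by
      intro j hj hj0
      have key : sq N γ (φ (p j)) ≠ γ := by
        rw [h2 j hj]
        rcases lt_or_gt_of_ne hj0 with h6 | h6
        · have h7 : (j : ℤ) ≤ i0 - 1 := by omega
          have h8 := mul_le_mul_of_nonneg_left h7 (show (0 : ℤ) ≤ N by omega)
          have h9 : N * ((i0 : ℤ) - 1) = N * i0 - N := by ring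
          rw [sq_low hN (by omega)]
          omega
        · have h7 : (i0 : ℤ) + 1 ≤ j := by omega
          have h8 := mul_le_mul_of_nonneg_left h7 (show (0 : ℤ) ≤ N by omega)
          have h9 : N * ((i0 : ℤ) + 1) = N * i0 + N := by ring
          rw [sq_high hN (by omega)]
          omega
      constructor
      · rintro rfl
        exact key sx
      · rintro rfl
        exact key sy
    refine bypass (g := Subtype.val) Subtype.val_injective h (γ := γ) hi0t (by omega)
      (by omega) ?_ ?_ ?_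
    · intro u v huv
      rcases hmc u v huv with h6 | ⟨h6, h7⟩ | ⟨h6, h7⟩
      · exact ⟨u, v, h6, Or.inl rfl, Or.inl rfl⟩
      · exact ⟨y, v, h7, Or.inr ⟨sy, by rw [h6]; exact sx⟩, Or.inl rfl⟩
      · exact ⟨u, y, h7, Or.inl rfl, Or.inr ⟨sy, by rw [h6]; exact sx⟩⟩
    · intro j hj hj0
      exact ⟨⟨p j, (hpn j hj hj0).2⟩, rfl⟩
    · intro j hj k hk hj0 hk0 w w' hw hw'
      show (if w = w' then 0 else _) = _
      by_cases hww : w = w'
      · rw [if_pos hww]
        subst hww
        rw [hw] at hw'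
        rw [← hw', F.loopless]
      · rw [if_neg hww, hw, hw', if_neg (hpn j hj hj0).1, if_neg (hpn k hk hk0).1]
        rfl

end Pool.Agent.Q134.SP
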