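import Mathlib
import Pool.Agent.Q134.SPPot

set_option autoImplicit false
set_option linter.unusedSectionVars false

/-!
A unique shortest path has a potential.
-/

namespace Pool.Agent.Q134.SP

open MGraph

section

variable {V : Type} (G : MGraph V) (l : List V) (N : ℕ)

/-- consecutive on the path, in one of the two orders -/
def Cs (u v : V) : Prop := (∃ i, l[i]? = some u ∧ l[i + 1]? = some v) ∨
  ∃ i, l[i]? = some v ∧ l[i + 1]? = some u

open Classical in
/-- the length of an edge -/
noncomputable def wt (u v : V) : ℕ := if Cs l u v then N else N - 1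

/-- the length of a path -/
noncomputable def W : List V → ℕ
  | [] => 0
  | [_] => 0
  | a :: b :: r => wt l N a b + W (b :: r)

variable {l N}

lemma wt_le (u v : V) : wt l N u v ≤ N := by
  unfold wt
  split_ifs <;> omega

lemma le_wt (u v : V) : N - 1 ≤ wt l N u v := by
  unfold wt
  split_ifs <;> omega

lemma Cs.symm {u v : V} (h : Cs l u v) : Cs l v u := Or.symm h

lemma wt_comm (u v : V) : wt l N u v = wt l N v u := by
  unfold wt
  by_cases h : Cs l u v
  · rw [if_pos h, if_pos h.symm]
  · rw [if_neg h, if_neg (fun h' => h h'.symm)]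

lemma W_append (l1 : List V) (v : V) (l2 : List V) :
    W l N (l1 ++ v :: l2) = W l N (l1 ++ [v]) + W l N (v :: l2) := by
  induction l1 with
  | nil => simp [W]
  | cons a l1 ih =>
    cases l1 with
    | nil => simp [W]
    | cons b l1 =>
      simp only [List.cons_append, W] at ih ⊢
      rw [ih]
      ring

lemma le_W : ∀ (r : List V) (a : V),
    (N - 1) * r.length ≤ W l N (a :: r) := by
  intro r
  induction r with
  | nil => intro a; simp [W]
  | cons b r ih =>
    intro a
    have h1 := ih b
    have h2 := le_wt (l := l) (N := N) a b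
    rw [W, List.length_cons, Nat.mul_add, Nat.mul_one]
    omega

lemma W_eq : ∀ (r : List V) (a : V), (∀ i u v, (a :: r)[i]? = some u → (a :: r)[i + 1]? = some v →
    Cs l u v) → W l N (a :: r) = N * r.length := by
  intro r
  induction r with
  | nil => intro a _; simp [W]
  | cons b r ih =>
    intro a h
    rw [W, ih b (fun i u v h1 h2 => h (i + 1) u v (by simpa using h1) (by simpa using h2)),
      List.length_cons]
    have h1 : Cs l a b := h 0 a b (by simp) (by simp)
    unfold wt
    rw [if_pos h1]
    ring

end

section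

variable {V : Type} [Finite V] {G : MGraph V} {l : List V}

/-- the possible lengths -/
def Sv (G : MGraph V) (l : List V) (N : ℕ) (v : V) : Set ℕ :=
  {n | n = N * (l.length - 1) ∨ ∃ l', G.IsPath l' ∧ l'.head? = l.head? ∧ l'.getLast? = some v ∧
    W l N l' = n}

/-- the truncated distance -/
noncomputable def D (G : MGraph V) (l : List V) (N : ℕ) (v : V) : ℕ := sInf (Sv G l N v)

lemma D_mem (N : ℕ) (v : V) : D G l N v ∈ Sv G l N v :=
  Nat.sInf_mem ⟨_, Or.inl rfl⟩

lemma D_le {N : ℕ} {v : V} {n : ℕ} (h : n ∈ Sv G l N v) : D G l N v ≤ n := Nat.sInf_le h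

lemma D_step {N : ℕ} {u v : V} (h : 0 < G.mult u v) : D G l N v ≤ D G l N u + wt l N u v := by
  rcases D_mem (G := G) (l := l) N u with h1 | ⟨l', h1, h2, h3, h4⟩
  · rw [h1]
    exact (D_le (Or.inl rfl)).trans (Nat.le_add_right _ _)
  · rw [← h4]
    by_cases hv : v ∈ l'
    · obtain ⟨l1, l2, rfl⟩ := List.append_of_mem hv
      have h5 : W l N (l1 ++ [v]) ∈ Sv G l N v := by
        refine Or.inr ⟨l1 ++ [v], ⟨by simp, ?_, ?_⟩, ?_, by simp, rfl⟩
        · exact h1.2.1.sublist
            (List.Sublist.append_left (List.Sublist.cons_cons _ (List.nil_sublist _)) _)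
        · exact (List.isChain_split.1 h1.2.2).1
        · rw [← h2]
          cases l1 <;> simp
      refine (D_le h5).trans ?_
      have h6 := W_append (l := l) (N := N) l1 v l2
      omega
    · have hne := h1.1
      obtain ⟨l1, rfl⟩ : ∃ l1, l' = l1 ++ [u] := by
        rw [List.getLast?_eq_some_iff] at h3
        exact h3
      have h5 : W l N (l1 ++ u :: [v]) ∈ Sv G l N v := by
        refine Or.inr ⟨l1 ++ u :: [v], ⟨by simp, ?_, ?_⟩, ?_, by simp, rfl⟩
        · have h6 : (l1 ++ [u] ++ [v]).Nodup := by
            rw [List.nodup_append']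
            refine ⟨h1.2.1, by simp, ?_⟩
            intro x hx hx'
            rw [List.mem_singleton] at hx'
            subst hx'
            exact hv hx
          simpa using h6
        · exact List.isChain_split.2 ⟨h1.2.2, by simpa using h⟩
        · rw [← h2]
          cases l1 <;> simp
      refine (D_le h5).trans ?_
      rw [W_append]
      simp [W]

lemma usp_pot (hl : G.IsUSP l) : Pot G l.length := by
  classical
  obtain ⟨⟨hne, hnd, hch⟩, hone, hmin⟩ := hl
  have : Fintype V := Fintype.ofFinite V
  set t := l.length with ht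
  have ht1 : 1 ≤ t := List.length_pos_of_ne_nil hne
  obtain ⟨x0, hx0⟩ := List.exists_mem_of_ne_nil l hne
  let p : ℕ → V := fun i => l.getD i x0
  have hp : ∀ i, i < t → l[i]? = some (p i) := by
    intro i hi
    simp only [p, List.getD_eq_getElem?_getD, List.getElem?_eq_getElem hi, Option.getD_some]
  have hinj : ∀ i j, i < t → j < t → p i = p j → i = j := by
    intro i j hi hj hij
    refine (List.getElem?_inj hi hnd).1 ?_
    rw [hp i hi, hp j hj, hij]
  set N : ℕ := Fintype.card V + 2 with hN
  have htN : t + 2 ≤ N := by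
    have := hnd.length_le_card
    omega
  have hcs : ∀ i, i + 1 < t → Cs l (p i) (p (i + 1)) := fun i hi =>
    Or.inl ⟨i, hp i (by omega), hp (i + 1) hi⟩
  have hmult : ∀ i, i + 1 < t → G.mult (p i) (p (i + 1)) = 1 := by
    intro i hi
    have h1 := List.isChain_iff_getElem.1 hone i hi
    have h2 := hp i (by omega)
    have h3 := hp (i + 1) hi
    obtain ⟨_, h2⟩ := List.getElem?_eq_some_iff.1 h2
    obtain ⟨_, h3⟩ := List.getElem?_eq_some_iff.1 h3
    rw [h2, h3] at h1
    exact h1
  have hlast : l.getLast? = some (p (t - 1)) := by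
    rw [List.getLast?_eq_getElem?]
    exact hp (t - 1) (by omega)
  -- the length of the path
  have hWl : ∀ i < t, D G l N (p i) ≤ N * i := by
    intro i
    induction i with
    | zero =>
      intro _
      apply D_le
      refine Or.inr ⟨[p 0], ⟨by simp, by simp, by simp⟩, ?_, by simp, by simp [W]⟩
      rw [List.head?_eq_getElem? (l := l), hp 0 (by omega)]
      rfl
    | succ i ih =>
      intro hi
      have h1 := ih (by omega)
      have h2 := D_step (l := l) (N := N) (G := G) (u := p i) (v := p (i + 1))
        (by rw [hmult i hi]; norm_num)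
      have h3 := wt_le (l := l) (N := N) (p i) (p (i + 1))
      calc D G l N (p (i + 1)) ≤ N * i + N := by omega
        _ = N * (i + 1) := by ring
  have hD0 : N * (t - 1) ≤ D G l N (p (t - 1)) := by
    rcases D_mem (G := G) (l := l) N (p (t - 1)) with h1 | ⟨l', h1, h2, h3, h4⟩
    · rw [h1]
    · rw [← h4]
      by_cases hll : l' = l
      · subst hll
        obtain ⟨a, r, rfl⟩ := List.exists_cons_of_ne_nil hne
        rw [W_eq r a (fun i u v h5 h6 => Or.inl ⟨i, h5, h6⟩)]
        rw [ht, List.length_cons]
        simp
      · have h5 := hmin l' h1 h2 (by rw [h3, hlast]) hll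
        obtain ⟨a, r, rfl⟩ := List.exists_cons_of_ne_nil h1.1
        have h6 := le_W (l := l) (N := N) r a
        refine le_trans ?_ h6
        rw [List.length_cons] at h5
        have h7 : t ≤ r.length := by omega
        obtain ⟨N', hN'⟩ : ∃ N', N = N' + 1 := ⟨N - 1, by omega⟩
        obtain ⟨t', ht'⟩ : ∃ t', t = t' + 1 := ⟨t - 1, by omega⟩
        rw [hN', ht']
        simp only [Nat.add_sub_cancel]
        calc (N' + 1) * t' = N' * t' + t' := by ring
          _ ≤ N' * t' + N' := by omega
          _ = N' * (t' + 1) := by ring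
          _ ≤ N' * r.length := Nat.mul_le_mul_left _ (by omega)
  have hD1 : ∀ k, k < t → N * (t - 1 - k) ≤ D G l N (p (t - 1 - k)) := by
    intro k
    induction k with
    | zero => intro _; simpa using hD0
    | succ k ih =>
      intro hk
      have h1 := ih (by omega)
      have h2 := D_step (l := l) (N := N) (G := G) (u := p (t - 1 - (k + 1)))
        (v := p (t - 1 - (k + 1) + 1)) (by rw [hmult _ (by omega)]; norm_num)
      have h3 := wt_le (l := l) (N := N) (p (t - 1 - (k + 1))) (p (t - 1 - (k + 1) + 1))
      have h4 : t - 1 - (k + 1) + 1 = t - 1 - k := by omega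
      rw [h4] at h2 h3
      have h5 : N * (t - 1 - k) = N * (t - 1 - (k + 1)) + N := by
        rw [← h4]; ring
      omega
  have hD : ∀ i < t, D G l N (p i) = N * i := by
    intro i hi
    have h1 := hD1 (t - 1 - i) (by omega)
    have h2 : t - 1 - (t - 1 - i) = i := by omega
    rw [h2] at h1
    exact le_antisymm (hWl i hi) h1
  have hstep : ∀ u v, 0 < G.mult u v → D G l N v ≤ D G l N u + wt l N u v :=
    fun u v h => D_step h
  refine Or.inr ⟨N, fun v => D G l N v, p, ?_, ?_, hmult, ?_, ?_⟩
  · omega
  · intro i hi
    show ((D G l N (p i) : ℕ) : ℤ) = _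
    rw [hD i hi]
    push_cast
    ring
  · intro u v huv
    have h1 := hstep u v huv
    have h2 := wt_le (l := l) (N := N) u v
    show ((D G l N v : ℕ) : ℤ) - ((D G l N u : ℕ) : ℤ) ≤ N
    omega
  · intro u v huv hd
    have hd' : ((D G l N v : ℕ) : ℤ) - ((D G l N u : ℕ) : ℤ) = N := hd
    have h1 := hstep u v huv
    have h3 : Cs l u v := by
      by_contra hc
      have : wt l N u v = N - 1 := by unfold wt; rw [if_neg hc]
      omega
    rcases h3 with ⟨i, h4, h5⟩ | ⟨i, h4, h5⟩
    · have h6 : i + 1 < t := (List.getElem?_eq_some_iff.1 h5).1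
      have h7 := hp i (by omega)
      have h8 := hp (i + 1) h6
      rw [h4, Option.some.injEq] at h7
      rw [h5, Option.some.injEq] at h8
      exact ⟨i, h6, h7, h8⟩
    · exfalso
      have h6 : i + 1 < t := (List.getElem?_eq_some_iff.1 h5).1
      have h7 := hp i (by omega)
      have h8 := hp (i + 1) h6
      rw [h4, Option.some.injEq] at h7
      rw [h5, Option.some.injEq] at h8
      have h9 := hD i (by omega)
      have h10 := hD (i + 1) h6
      rw [← h7] at h9
      rw [← h8] at h10
      have h11 : N * (i + 1) = N * i + N := by ring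
      omega

end

end Pool.Agent.Q134.SP
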