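import Mathlib
import Pool.Agent.Q134.SPWeight
import Pool.Agent.Q134.SPStep

set_option autoImplicit false

/-!
The spectator floor is attained by a supergraph, and the intermediate values.
-/

namespace Pool.Agent.Q134.SP

open MGraph

lemma super_refl {V : Type} (G : MGraph V) : G.IsSuper G := fun _ _ => le_rfl

lemma IsSuper.trans {V : Type} {A B C : MGraph V} (h : A.IsSuper B) (h' : B.IsSuper C) :
    A.IsSuper C := fun u v => (h' u v).trans (h u v)

lemma super_delVertex {V : Type} {F H : MGraph V} (h : F.IsSuper H) (x : V) :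
    (F.delVertex x).IsSuper (H.delVertex x) := fun u v => h u v

lemma super_contract {V : Type} {F H : MGraph V} (h : F.IsSuper H) (x y : V) :
    (F.contract x y).IsSuper (H.contract x y) := by
  classical
  intro u v
  show (if u = v then 0 else
    H.mult u v + (if u.1 = x then H.mult y v else 0) + (if v.1 = x then H.mult u y else 0)) ≤
    (if u = v then 0 else
    F.mult u v + (if u.1 = x then F.mult y v else 0) + (if v.1 = x then F.mult u y else 0))
  have h1 := h u v
  have h2 := h y v
  have h3 := h u y
  split_ifs <;> omega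

lemma super_delEdge {V : Type} {F H : MGraph V} (h : F.IsSuper H) (x y : V) :
    F.IsSuper (H.delEdge x y) := by
  classical
  intro u v
  refine le_trans ?_ (h u v)
  show (if (u = x ∧ v = y) ∨ (u = y ∧ v = x) then H.mult u v - 1 else H.mult u v) ≤ _
  split_ifs <;> omega

lemma card_ne {V : Type} [Finite V] (x : V) : Nat.card {v : V // v ≠ x} + 1 = Nat.card V := by
  classical
  have : Fintype V := Fintype.ofFinite V
  rw [Nat.card_eq_fintype_card, Nat.card_eq_fintype_card, Fintype.card_subtype,
    Finset.filter_ne', Finset.card_erase_of_mem (Finset.mem_univ x), Finset.card_univ]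
  have : 0 < Fintype.card V := Fintype.card_pos_iff.2 ⟨x⟩
  omega

/-- The supergraph. -/
theorem exists_super {V : Type} {G : MGraph V} {W : Type} {H : MGraph W} (h : IsMinor G H) :
    Finite W → ∀ F : MGraph W, F.IsSuper H → ∀ t, Pot F t → Finite V ∧
      ∃ F' : MGraph V, F'.IsSuper G ∧ ∃ t', Pot F' t' ∧ t + Nat.card V ≤ t' + Nat.card W := by
  induction h with
  | @iso W H e he =>
    intro hW F hF t ht
    have hV : Finite V := Finite.of_equiv W e.symm
    refine ⟨hV, ⟨fun u v => F.mult (e u) (e v), fun u v => F.symm _ _, fun v => F.loopless _⟩,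
      ?_, t, ?_, ?_⟩
    · intro u v
      rw [he]
      exact hF _ _
    · rcases ht with rfl | ⟨N, φ, p, h1, h2, h3, h4, h5⟩
      · exact Or.inl rfl
      · refine Or.inr ⟨N, fun v => φ (e v), fun i => e.symm (p i), h1, ?_, ?_, ?_, ?_⟩
        · intro i hi
          show φ (e (e.symm (p i))) = _
          rw [e.apply_symm_apply, h2 i hi]
        · intro i hi
          show F.mult (e (e.symm (p i))) (e (e.symm (p (i + 1)))) = 1
          rw [e.apply_symm_apply, e.apply_symm_apply, h3 i hi]
        · intro u v huv
          exact h4 _ _ huv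
        · intro u v huv hd
          obtain ⟨i, hi, g1, g2⟩ := h5 _ _ huv hd
          refine ⟨i, hi, e.injective ?_, e.injective ?_⟩
          · show e u = e (e.symm (p i))
            rw [e.apply_symm_apply, g1]
          · show e v = e (e.symm (p (i + 1)))
            rw [e.apply_symm_apply, g2]
    · rw [Nat.card_congr e]
  | @delVertex W H x hx h ih =>
    intro hW F hF t ht
    obtain ⟨F1, hF1, ht1⟩ := step_del ht x
    obtain ⟨hV, F', h1, t', h2, h3⟩ := ih inferInstance F1
      (IsSuper.trans hF1 (super_delVertex hF x)) (t - 1) ht1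
    have h4 := card_ne x
    exact ⟨hV, F', h1, t', h2, by omega⟩
  | @delEdge W H x y hxy h ih =>
    intro hW F hF t ht
    exact ih hW F (super_delEdge hF x y) t ht
  | @contract W H x y hxy h ih =>
    intro hW F hF t ht
    have hxy' : 0 < F.mult x y := by
      have := hF x y
      omega
    obtain ⟨F1, hF1, ht1⟩ := step_contract ht x y hxy'
    obtain ⟨hV, F', h1, t', h2, h3⟩ := ih inferInstance F1
      (IsSuper.trans hF1 (super_contract hF x y)) (t - 1) ht1
    have h4 := card_ne y
    exact ⟨hV, F', h1, t', h2, by omega⟩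

lemma minor_refl {V : Type} (G : MGraph V) : IsMinor G G :=
  IsMinor.iso G (Equiv.refl V) (fun _ _ => rfl)

/-- The floor is attained (as an upper bound) by a supergraph. -/
theorem exists_floor {V : Type} [Finite V] [Nonempty V] (G : MGraph V) :
    ∃ F : MGraph V, F.IsSuper G ∧ F.sp ≤ sf G := by
  have hne : {k | ∃ (W : Type) (_ : Finite W) (_ : Nonempty W) (H : MGraph W),
      IsMinor G H ∧ H.sp = k}.Nonempty :=
    ⟨G.sp, V, inferInstance, inferInstance, G, minor_refl G, rfl⟩
  obtain ⟨W, hW, hW', H, hGH, hH⟩ := Nat.sInf_mem hne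
  obtain ⟨l, hl, hll⟩ := exists_usp H
  obtain ⟨-, F, h1, t', h2, h3⟩ := exists_super hGH hW H (super_refl H) _ (usp_pot hl)
  refine ⟨F, h1, ?_⟩
  have h4 := h2.usp
  have h5 : H.sp = sf G := hH
  rw [← h5]
  have h6 := usp_le_card H
  have h7 := usp_le_card F
  unfold MGraph.sp
  omega

/-! ### Doubling edges -/

lemma usp_tail {V : Type} {G : MGraph V} {a b : V} {l : List V} (h : G.IsUSP (a :: b :: l)) :
    G.IsUSP (b :: l) := by
  classical
  obtain ⟨⟨-, h2, h3⟩, h4, h5⟩ := h
  refine ⟨⟨by simp, (List.nodup_cons.1 h2).2, (List.isChain_cons_cons.1 h3).2⟩,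
    (List.isChain_cons_cons.1 h4).2, ?_⟩
  intro l' hl' g1 g2 hne
  by_contra hlt
  push Not at hlt
  have hlast : (a :: b :: l).getLast? = (b :: l).getLast? := List.getLast?_cons_cons
  by_cases ha : a ∈ l'
  · obtain ⟨l1, l2, rfl⟩ := List.append_of_mem ha
    have g3 : (a :: l2).length < (a :: b :: l).length := by
      simp only [List.length_append, List.length_cons] at hlt ⊢
      omega
    have g4 := h5 (a :: l2) ⟨by simp, (List.nodup_append'.1 hl'.2.1).2.1,
      hl'.2.2.right_of_append⟩ rfl (by
        rw [hlast, ← g2]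
        exact (List.getLast?_append_of_ne_nil _ (by simp)).symm) (by
        intro h
        rw [h] at g3
        omega)
    omega
  · have g4 := h5 (a :: l') ⟨by simp, List.nodup_cons.2 ⟨ha, hl'.2.1⟩, ?_⟩ rfl ?_ ?_
    · simp only [List.length_cons] at g4 hlt
      omega
    · rw [List.isChain_cons]
      refine ⟨?_, hl'.2.2⟩
      intro x hx
      rw [g1] at hx
      simp only [List.head?_cons, Option.mem_some_iff] at hx
      rw [← hx]
      exact (List.isChain_cons_cons.1 h3).1
    · obtain ⟨c, r, rfl⟩ := List.exists_cons_of_ne_nil hl'.1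
      rw [List.getLast?_cons_cons, hlast, g2]
    · intro h
      exact hne (List.cons.inj h).2

/-- the number of pairs joined by exactly one edge -/
noncomputable def simplePairs {V : Type} (G : MGraph V) : ℕ :=
  Nat.card {q : V × V // G.mult q.1 q.2 = 1}

theorem exists_between {V : Type} [Finite V] [Nonempty V] (i : ℕ) (hi : i + 1 ≤ Nat.card V) :
    ∀ n, ∀ G : MGraph V, simplePairs G = n → G.sp ≤ i → ∃ F : MGraph V, F.IsSuper G ∧ F.sp = i := by
  classical
  intro n
  induction n using Nat.strong_induction_on with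
  | _ n ih =>
    intro G hn hG
    by_cases heq : G.sp = i
    · exact ⟨G, super_refl G, heq⟩
    obtain ⟨l, hl, hll⟩ := exists_usp G
    have hcard := usp_le_card G
    have hsp : G.sp = Nat.card V - G.usp := rfl
    have hlen : 2 ≤ l.length := by omega
    obtain ⟨a, r, rfl⟩ := List.exists_cons_of_ne_nil hl.1.1
    obtain ⟨b, r, rfl⟩ := List.exists_cons_of_ne_nil (l := r) (by
      rintro rfl
      simp at hlen)
    have hab1 : G.mult a b = 1 := (List.isChain_cons_cons.1 hl.2.1).1
    have hab : a ≠ b := by
      rintro rfl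
      rw [G.loopless] at hab1
      omega
    set F : MGraph V := plus G True a b (fun _ => hab) with hF
    have hFs : F.IsSuper G := plus_super _ _ _ _ _
    have hpos : ∀ u v, 0 < F.mult u v ↔ 0 < G.mult u v := by
      intro u v
      constructor
      · intro h
        rcases plus_pos h with h | ⟨-, ⟨rfl, rfl⟩ | ⟨rfl, rfl⟩⟩
        · exact h
        · omega
        · rw [G.symm]; omega
      · intro h
        exact lt_of_lt_of_le h (hFs u v)
    have hpath : ∀ l, F.IsPath l ↔ G.IsPath l := by
      intro l
      unfold MGraph.IsPath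
      simp only [hpos]
    have hone : ∀ u v, F.mult u v = 1 → G.mult u v = 1 := by
      intro u v h
      have h1 := (hpos u v).1 (by omega)
      have h2 := hFs u v
      omega
    -- the parade number drops by at most one
    have h1 : F.usp ≤ G.usp := by
      obtain ⟨l', hl', hll'⟩ := exists_usp F
      rw [← hll']
      apply le_usp
      refine ⟨(hpath l').1 hl'.1, hl'.2.1.imp (fun u v h => hone u v h), ?_⟩
      intro l'' g1 g2 g3 g4
      exact hl'.2.2 l'' ((hpath l'').2 g1) g2 g3 g4
    have h2 : G.usp ≤ F.usp + 1 := by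
      have h3 := usp_tail hl
      have h4 : F.IsUSP (b :: r) := by
        refine ⟨(hpath _).2 h3.1, ?_, ?_⟩
        · refine h3.2.1.imp_of_mem_imp ?_
          intro u v hu hv huv
          rw [hF, plus_not, huv]
          rintro ⟨-, ⟨rfl, rfl⟩ | ⟨rfl, rfl⟩⟩
          · exact (List.nodup_cons.1 hl.1.2.1).1 hu
          · exact (List.nodup_cons.1 hl.1.2.1).1 hv
        · intro l'' g1 g2 g3 g4
          exact h3.2.2 l'' ((hpath l'').1 g1) g2 g3 g4
      have h5 := le_usp h4
      rw [← hll]
      simp only [List.length_cons] at h5 ⊢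
      omega
    have hFab : F.mult a b = 2 := by
      rw [hF, plus_of ⟨trivial, Or.inl ⟨rfl, rfl⟩⟩, hab1]
    have h6 : simplePairs F < n := by
      rw [← hn]
      unfold simplePairs
      have h7 : ({q : V × V | F.mult q.1 q.2 = 1} : Set (V × V)) ⊂
          {q : V × V | G.mult q.1 q.2 = 1} := by
        refine ⟨fun q hq => hone _ _ hq, fun hsub => ?_⟩
        have h8 : F.mult a b = 1 := hsub (show (a, b) ∈ {q : V × V | G.mult q.1 q.2 = 1} from hab1)
        omega
      exact Set.ncard_lt_ncard h7 (Set.toFinite _)
    have h9 : F.sp ≤ i := by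
      unfold MGraph.sp
      omega
    obtain ⟨F', g1, g2⟩ := ih _ h6 F rfl h9
    exact ⟨F', IsSuper.trans g1 hFs, g2⟩

end Pool.Agent.Q134.SP
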