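import Mathlib

/-!
The `U`-polynomial and the strong `U`-polynomial of a multigraph.
-/

set_option autoImplicit false

namespace Pool.Agent.Q134.UP

open MvPolynomial

/-- A finite graph with the vertex set `V` and the edge set `E` (multiple edges and loops allowed)
is given by the unordered pair of end points of each edge. -/
abbrev Multigraph (V E : Type) : Type := E → Sym2 V

variable {V E : Type}

/-- No edge joins a vertex to itself. -/
def Loopless (G : Multigraph V E) : Prop := ∀ e, ¬ (G e).IsDiag

/-- Isomorphism of multigraphs. -/
def Isomorphic {V' E' : Type} (G : Multigraph V E) (H : Multigraph V' E') : Prop :=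
  ∃ (f : V ≃ V') (g : E ≃ E'), ∀ e, H (g e) = (G e).map f

/-- The spanning subgraph `(V, A)`, as far as its components are concerned. -/
def span (G : Multigraph V E) (A : Finset E) : SimpleGraph V :=
  SimpleGraph.fromEdgeSet (G '' (A : Set E))

/-- The components of `(V, A)`. -/
abbrev Comp (G : Multigraph V E) (A : Finset E) : Type := (span G A).ConnectedComponent

/-- The number of vertices of a component. -/
noncomputable def vert (G : Multigraph V E) (A : Finset E) (C : Comp G A) : ℕ := C.supp.ncard

/-- The number of edges of a component of `(V, A)`. -/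
noncomputable def edg (G : Multigraph V E) (A : Finset E) (C : Comp G A) : ℕ :=
  {e : E | e ∈ A ∧ ∀ v ∈ G e, v ∈ C.supp}.ncard

/-- The rank `r(A) = |V| - k(A)`. -/
noncomputable def rank (G : Multigraph V E) (A : Finset E) : ℕ := Nat.card V - Nat.card (Comp G A)

/-- The `U`-polynomial; the indeterminate `x_i` is `X (some i)`, and `y` is `X none`. -/
noncomputable def U [Fintype E] (G : Multigraph V E) : MvPolynomial (Option ℕ) ℤ :=
  ∑ A : Finset E, (∏ᶠ C : Comp G A, X (some (vert G A C))) * (X none - 1) ^ (A.card - rank G A)

/-- The strong `U`-polynomial; the indeterminate `z_{i,j}` is `X (i, j)`. -/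
noncomputable def strongU [Fintype E] (G : Multigraph V E) : MvPolynomial (ℕ × ℕ) ℤ :=
  ∑ A : Finset E, ∏ᶠ C : Comp G A, X (vert G A C, edg G A C + 1 - vert G A C)

end Pool.Agent.Q134.UP
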