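import Pool.Agent.Q134.UPDefs

set_option autoImplicit false
set_option linter.unusedSectionVars false

namespace Pool.Agent.Q134.UP

open MvPolynomial Finset

/-- relabel -/
def upd {V : Type} [DecidableEq V] (l : V → V) (a b : V) : V → V :=
  fun v => if l v = l b then l a else l v

/-- run through all subsets -/
def enum {V E β : Type} [DecidableEq V] (en : E → V × V) (leaf : (V → V) → List E → β) :
    List E → (V → V) → List E → List β
  | [], l, acc => [leaf l acc]
  | e :: es, l, acc => enum en leaf es l acc ++
      enum en leaf es (upd l (en e).1 (en e).2) (e :: acc)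

variable {V E : Type} [DecidableEq V] [Fintype V] [DecidableEq E] [Fintype E]

/-- the multigraph given by ordered pairs -/
def mk (en : E → V × V) : Multigraph V E := fun e => s((en e).1, (en e).2)

/-- `l` labels the components of `(V, A)` by representatives -/
def Inv (en : E → V × V) (l : V → V) (A : Finset E) : Prop :=
  (∀ v, l (l v) = l v) ∧ ∀ u v, l u = l v ↔ (span (mk en) A).Reachable u v

lemma inv_empty (en : E → V × V) : Inv en id ∅ := by
  refine ⟨fun v => rfl, fun u v => ?_⟩
  have : span (mk en) (∅ : Finset E) = ⊥ := by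
    unfold span; simp
  rw [this, SimpleGraph.reachable_bot]
  rfl

lemma span_insert (en : E → V × V) (A : Finset E) (e : E) :
    span (mk en) (insert e A) = span (mk en) A ⊔ SimpleGraph.edge (en e).1 (en e).2 := by
  ext u v
  rw [SimpleGraph.sup_adj, SimpleGraph.edge_adj]
  unfold span
  rw [SimpleGraph.fromEdgeSet_adj, SimpleGraph.fromEdgeSet_adj, coe_insert, Set.image_insert_eq,
    Set.mem_insert_iff]
  have : (s(u, v) = mk en e) ↔ ((en e).1 = u ∧ (en e).2 = v ∨ (en e).1 = v ∧ (en e).2 = u) := by
    unfold mk
    rw [eq_comm, Sym2.eq_iff]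
  rw [this]
  tauto

lemma reach_sup {G : SimpleGraph V} {a b u v : V} :
    (G ⊔ SimpleGraph.edge a b).Reachable u v ↔
      G.Reachable u v ∨ (G.Reachable u a ∧ G.Reachable b v) ∨
        (G.Reachable u b ∧ G.Reachable a v) := by
  constructor
  · rintro ⟨W⟩
    induction W with
    | nil => exact Or.inl (SimpleGraph.Reachable.refl _)
    | @cons x y z hadj _ ih =>
      rw [SimpleGraph.sup_adj, SimpleGraph.edge_adj] at hadj
      rcases hadj with h | ⟨h | h, -⟩
      · have h1 := h.reachable
        rcases ih with ih | ⟨ih1, ih2⟩ | ⟨ih1, ih2⟩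
        · exact Or.inl (h1.trans ih)
        · exact Or.inr (Or.inl ⟨h1.trans ih1, ih2⟩)
        · exact Or.inr (Or.inr ⟨h1.trans ih1, ih2⟩)
      · obtain ⟨rfl, rfl⟩ := h
        rcases ih with ih | ⟨ih1, ih2⟩ | ⟨ih1, ih2⟩
        · exact Or.inr (Or.inl ⟨SimpleGraph.Reachable.refl _, ih⟩)
        · exact Or.inr (Or.inl ⟨SimpleGraph.Reachable.refl _, ih2⟩)
        · exact Or.inl ih2
      · obtain ⟨rfl, rfl⟩ := h
        rcases ih with ih | ⟨ih1, ih2⟩ | ⟨ih1, ih2⟩
        · exact Or.inr (Or.inr ⟨SimpleGraph.Reachable.refl _, ih⟩)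
        · exact Or.inl ih2
        · exact Or.inr (Or.inr ⟨SimpleGraph.Reachable.refl _, ih2⟩)
  · have hle : G ≤ G ⊔ SimpleGraph.edge a b := le_sup_left
    have hab : (G ⊔ SimpleGraph.edge a b).Reachable a b := by
      by_cases h : a = b
      · rw [h]
      · refine SimpleGraph.Adj.reachable ?_
        rw [SimpleGraph.sup_adj, SimpleGraph.edge_adj]
        exact Or.inr ⟨Or.inl ⟨rfl, rfl⟩, h⟩
    rintro (h | ⟨h1, h2⟩ | ⟨h1, h2⟩)
    · exact h.mono hle
    · exact (h1.mono hle).trans (hab.trans (h2.mono hle))
    · exact (h1.mono hle).trans (hab.symm.trans (h2.mono hle))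

lemma inv_insert {en : E → V × V} {l : V → V} {A : Finset E} (h : Inv en l A) (e : E) :
    Inv en (upd l (en e).1 (en e).2) (insert e A) := by
  obtain ⟨h1, h2⟩ := h
  set a := (en e).1 with ha
  set b := (en e).2 with hb
  constructor
  · intro v
    show (if l (upd l a b v) = l b then l a else l (upd l a b v)) = upd l a b v
    by_cases hv : l v = l b
    · have h3 : upd l a b v = l a := by unfold upd; rw [if_pos hv]
      rw [h3, h1]; split_ifs <;> rfl
    · have h3 : upd l a b v = l v := by unfold upd; rw [if_neg hv]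
      rw [h3, h1, if_neg hv]
  · intro u v
    rw [span_insert, reach_sup, ← h2, ← h2, ← h2, ← h2, ← h2]
    rw [← ha, ← hb]
    unfold upd
    by_cases hu : l u = l b
    · by_cases hv : l v = l b
      · simp [hu, hv]
      · rw [if_pos hu, if_neg hv]
        constructor
        · intro h; exact Or.inr (Or.inr ⟨hu, h⟩)
        · rintro (h | ⟨h3, h4⟩ | ⟨h3, h4⟩)
          · exact absurd (h.symm.trans hu) hv
          · exact absurd h4.symm hv
          · exact h4
    · by_cases hv : l v = l b
      · rw [if_neg hu, if_pos hv]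
        constructor
        · intro h; exact Or.inr (Or.inl ⟨h, hv.symm⟩)
        · rintro (h | ⟨h3, h4⟩ | ⟨h3, h4⟩)
          · exact absurd (h.trans hv) hu
          · exact h3
          · exact absurd h3 hu
      · rw [if_neg hu, if_neg hv]
        constructor
        · exact Or.inl
        · rintro (h | ⟨h3, h4⟩ | ⟨h3, h4⟩)
          · exact h
          · exact absurd h4.symm hv
          · exact absurd h3 hu

/-- the enumeration computes the sum over all subsets -/
lemma sum_enum {β M : Type} [AddCommMonoid M] (en : E → V × V) (leaf : (V → V) → List E → β)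
    (f : Finset E → M) (mon : β → M)
    (hf : ∀ l acc, acc.Nodup → Inv en l acc.toFinset → f acc.toFinset = mon (leaf l acc)) :
    ∀ (es : List E) (l : V → V) (acc : List E), (es ++ acc).Nodup → Inv en l acc.toFinset →
      ∑ A ∈ es.toFinset.powerset, f (A ∪ acc.toFinset) =
        ((enum en leaf es l acc).map mon).sum := by
  intro es
  induction es with
  | nil =>
    intro l acc hnd hinv
    simp only [List.toFinset_nil, powerset_empty, sum_singleton, empty_union, enum, List.map_cons,
      List.map_nil, List.sum_cons, List.sum_nil, add_zero]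
    exact hf l acc (by simpa using hnd) hinv
  | cons e es ih =>
    intro l acc hnd hinv
    rw [List.cons_append, List.nodup_cons, List.mem_append, not_or] at hnd
    obtain ⟨⟨he1, he2⟩, hnd⟩ := hnd
    rw [List.toFinset_cons, sum_powerset_insert (by rwa [List.mem_toFinset])]
    rw [enum, List.map_append, List.sum_append, ih l acc hnd hinv]
    congr 1
    have hinv' := inv_insert hinv e
    rw [← List.toFinset_cons] at hinv'
    rw [← ih _ (e :: acc) ?_ hinv']
    · refine sum_congr rfl fun A _ => ?_
      rw [List.toFinset_cons]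
      congr 1
      ext x; simp only [mem_union, mem_insert]; tauto
    · rw [List.nodup_append'] at hnd ⊢
      refine ⟨hnd.1, ?_, ?_⟩
      · rw [List.nodup_cons]; exact ⟨he2, hnd.2.1⟩
      · intro x hx hx'
        rw [List.mem_cons] at hx'
        rcases hx' with rfl | hx'
        · exact he1 hx
        · exact hnd.2.2 hx hx'

/-- sum over all subsets of `Fin n` -/
lemma sum_all {β M : Type} [AddCommMonoid M] {n : ℕ} (en : Fin n → V × V)
    (leaf : (V → V) → List (Fin n) → β)
    (f : Finset (Fin n) → M) (mon : β → M)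
    (hf : ∀ l acc, acc.Nodup → Inv en l acc.toFinset → f acc.toFinset = mon (leaf l acc)) :
    ∑ A : Finset (Fin n), f A = ((enum en leaf (List.finRange n) id []).map mon).sum := by
  rw [← sum_enum en leaf f mon hf (List.finRange n) id [] (by simp [List.nodup_finRange])
    (inv_empty en)]
  have : (List.finRange n).toFinset = univ := by ext x; simp
  rw [this, powerset_univ]
  refine sum_congr rfl fun A _ => ?_
  simp

/-! ### components -/

omit [Fintype E] [DecidableEq E] in
lemma comp_bij {en : E → V × V} {l : V → V} {A : Finset E} (h : Inv en l A) :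
    Function.Bijective (fun v : {v : V // l v = v} =>
      ((span (mk en) A).connectedComponentMk v.1 : Comp (mk en) A)) := by
  obtain ⟨h1, h2⟩ := h
  constructor
  · rintro ⟨v, hv⟩ ⟨w, hw⟩ hvw
    simp only at hvw
    rw [SimpleGraph.ConnectedComponent.eq, ← h2, hv, hw] at hvw
    exact Subtype.ext hvw
  · intro C
    induction C using SimpleGraph.ConnectedComponent.ind with
    | _ u =>
      refine ⟨⟨l u, h1 u⟩, ?_⟩
      simp only
      rw [SimpleGraph.ConnectedComponent.eq, ← h2]
      exact h1 u

omit [Fintype E] [DecidableEq E] in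
lemma prod_comp {M : Type} [CommMonoid M] {en : E → V × V} {l : V → V} {A : Finset E}
    (h : Inv en l A) (F : Comp (mk en) A → M) :
    ∏ᶠ C, F C = ∏ v : V, if l v = v then F ((span (mk en) A).connectedComponentMk v) else 1 := by
  rw [← finprod_eq_of_bijective _ (comp_bij h) (fun v => rfl), finprod_eq_prod_of_fintype,
    ← Finset.prod_filter]
  exact (Finset.prod_subtype (univ.filter fun v => l v = v) (by simp)
    (fun v => F ((span (mk en) A).connectedComponentMk v))).symm

omit [Fintype E] [DecidableEq E] in
lemma vert_eq {en : E → V × V} {l : V → V} {A : Finset E} (h : Inv en l A) {v : V} (hv : l v = v) :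
    vert (mk en) A ((span (mk en) A).connectedComponentMk v) =
      (univ.filter fun u => l u = v).card := by
  unfold vert
  rw [← Set.ncard_coe_finset]
  congr 1
  ext u
  rw [SimpleGraph.ConnectedComponent.mem_supp_iff, SimpleGraph.ConnectedComponent.eq, ← h.2, hv]
  simp

lemma edg_eq {en : E → V × V} {l : V → V} {acc : List E} (hnd : acc.Nodup)
    (h : Inv en l acc.toFinset) {v : V} (hv : l v = v) :
    edg (mk en) acc.toFinset ((span (mk en) acc.toFinset).connectedComponentMk v) =
      (acc.filter fun e => l (en e).1 = v).length := by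
  have h0 : ∀ e ∈ acc, l (en e).1 = l (en e).2 := by
    intro e he
    rw [h.2]
    by_cases hee : (en e).1 = (en e).2
    · rw [hee]
    · refine SimpleGraph.Adj.reachable ?_
      unfold span
      rw [SimpleGraph.fromEdgeSet_adj]
      exact ⟨⟨e, by simpa using he, rfl⟩, hee⟩
  unfold edg
  rw [← List.toFinset_card_of_nodup (hnd.filter _), ← Set.ncard_coe_finset]
  congr 1
  ext e
  simp only [Set.mem_ofPred_eq, List.coe_toFinset, List.mem_filter, List.mem_toFinset,
    decide_eq_true_eq]
  have h3 : (∀ w ∈ mk en e, w ∈ ((span (mk en) acc.toFinset).connectedComponentMk v).supp) ↔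
      l (en e).1 = v ∧ l (en e).2 = v := by
    have h6 : ∀ w, w ∈ mk en e ↔ w = (en e).1 ∨ w = (en e).2 := fun w => Sym2.mem_iff
    simp only [h6, forall_eq_or_imp, forall_eq]
    rw [SimpleGraph.ConnectedComponent.mem_supp_iff, SimpleGraph.ConnectedComponent.eq,
      SimpleGraph.ConnectedComponent.mem_supp_iff, SimpleGraph.ConnectedComponent.eq, ← h.2,
      ← h.2, hv]
  constructor
  · rintro ⟨h4, h5⟩
    exact ⟨h4, (h3.mp h5).1⟩
  · rintro ⟨h4, h5⟩
    exact ⟨h4, h3.mpr ⟨h5, (h0 e h4).symm.trans h5⟩⟩

omit [Fintype E] [DecidableEq E] in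
lemma card_comp {en : E → V × V} {l : V → V} {A : Finset E} (h : Inv en l A) :
    Nat.card (Comp (mk en) A) = (univ.filter fun v => l v = v).card := by
  rw [← Nat.card_eq_of_bijective _ (comp_bij h), Nat.card_eq_fintype_card, Fintype.card_subtype]

end Pool.Agent.Q134.UP
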