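import Pool.Agent.Q134.UPEnum

set_option autoImplicit false

namespace Pool.Agent.Q134.UP

open MvPolynomial Finset

/-- size of a class -/
def sz (l : Fin 6 → Fin 6) (v : Fin 6) : ℕ := ((List.finRange 6).filter fun u => l u = v).length

/-- representatives -/
def reps (l : Fin 6 → Fin 6) : List (Fin 6) := (List.finRange 6).filter fun v => l v = v

/-- the key for `U` -/
def leafU (l : Fin 6 → Fin 6) (acc : List (Fin 9)) : List ℕ × ℕ :=
  (((reps l).map (sz l)).insertionSort (· ≤ ·), acc.length - (6 - (reps l).length))

/-- the monomial of a key -/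
noncomputable def monU (k : List ℕ × ℕ) : MvPolynomial (Option ℕ) ℤ :=
  (k.1.map fun s => X (some s)).prod * (X none - 1) ^ k.2

/-- the value for the strong `U`-polynomial at `z_{3,1} = 1`, `z_{i,j} = 0` otherwise -/
def leafS (en : Fin 9 → Fin 6 × Fin 6) (l : Fin 6 → Fin 6) (acc : List (Fin 9)) : ℤ :=
  ((reps l).map fun v => if sz l v = 3 ∧ (acc.filter fun e => l (en e).1 = v).length + 1 - sz l v = 1
    then 1 else 0).prod

lemma card_filter_fin (p : Fin 6 → Prop) [DecidablePred p] :
    (univ.filter p).card = ((List.finRange 6).filter p).length := rfl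

lemma prod_filter_list {M : Type} [CommMonoid M] {α : Type} (p : α → Prop) [DecidablePred p]
    (h : α → M) (L : List α) :
    ((L.filter p).map h).prod = (L.map fun v => if p v then h v else 1).prod := by
  induction L with
  | nil => rfl
  | cons a L ih =>
    by_cases ha : p a
    · rw [List.filter_cons_of_pos (by simpa using ha)]; simp [ha, ih]
    · rw [List.filter_cons_of_neg (by simpa using ha)]; simp [ha, ih]

lemma prod_reps {M : Type} [CommMonoid M] (l : Fin 6 → Fin 6) (h : Fin 6 → M) :
    ((reps l).map h).prod = ∏ v : Fin 6, if l v = v then h v else 1 := by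
  unfold reps
  rw [prod_filter_list (fun v => l v = v) h, Fin.prod_univ_def]

lemma U_eq (en : Fin 9 → Fin 6 × Fin 6) :
    U (mk en) = ((enum en leafU (List.finRange 9) id []).map monU).sum := by
  unfold U
  refine sum_all en leafU _ monU ?_
  intro l acc hnd hinv
  unfold monU leafU
  simp only
  congr 1
  · rw [prod_comp hinv]
    have h1 : (((reps l).map (sz l)).insertionSort (· ≤ ·)).Perm ((reps l).map (sz l)) :=
      List.perm_insertionSort _ _
    rw [(h1.map (fun s => (X (some s) : MvPolynomial (Option ℕ) ℤ))).prod_eq, List.map_map,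
      prod_reps]
    refine prod_congr rfl fun v _ => ?_
    by_cases hv : l v = v
    · rw [if_pos hv, if_pos hv, vert_eq hinv hv, card_filter_fin]; rfl
    · rw [if_neg hv, if_neg hv]
  · congr 1
    unfold rank
    rw [card_comp hinv, List.toFinset_card_of_nodup hnd, Nat.card_eq_fintype_card,
      Fintype.card_fin]
    rfl

lemma strongU_eval (en : Fin 9 → Fin 6 × Fin 6) :
    eval (fun p : ℕ × ℕ => if p.1 = 3 ∧ p.2 = 1 then (1 : ℤ) else 0) (strongU (mk en)) =
      ((enum en (leafS en) (List.finRange 9) id []).map id).sum := by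
  unfold strongU
  rw [map_sum]
  refine sum_all en (leafS en) _ id ?_
  intro l acc hnd hinv
  rw [prod_comp hinv, map_prod, id]
  unfold leafS
  rw [prod_reps]
  refine prod_congr rfl fun v _ => ?_
  by_cases hv : l v = v
  · rw [if_pos hv, if_pos hv, eval_X, vert_eq hinv hv, edg_eq hnd hinv hv, card_filter_fin]
    rfl
  · rw [if_neg hv, if_neg hv, map_one]

/-- the first graph -/
def enG : Fin 9 → Fin 6 × Fin 6 :=
  ![(0, 1), (0, 2), (0, 3), (0, 3), (0, 5), (1, 2), (1, 3), (1, 4), (2, 4)]

/-- the second graph -/
def enH : Fin 9 → Fin 6 × Fin 6 :=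
  ![(0, 1), (0, 2), (0, 3), (0, 3), (0, 4), (1, 2), (1, 4), (1, 5), (2, 3)]

set_option maxRecDepth 100000 in
lemma perm_GH : ((enum enG leafU (List.finRange 9) id []).isPerm
    (enum enH leafU (List.finRange 9) id [])) = true := by
  decide +kernel

set_option maxRecDepth 100000 in
lemma sG : ((enum enG (leafS enG) (List.finRange 9) id []).map id).sum = 1 := by
  decide +kernel

set_option maxRecDepth 100000 in
lemma sH : ((enum enH (leafS enH) (List.finRange 9) id []).map id).sum = 0 := by
  decide +kernel

end Pool.Agent.Q134.UP
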