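import Mathlib

/-!
Graphs of arbitrarily large diameter all of whose Wiener roots are rational.
The graph: a clique `A` with a hub, and paths (indexed by `I`, of lengths `h i`) attached to it,
vertices of different paths at the same level being adjacent; the first vertex of path `i` is
adjacent to those `a ∈ A` that are not `F`-far from `i`.
-/

set_option linter.unusedSectionVars false
set_option linter.unusedVariables false

namespace Pool.Q134.WienerRat

/-! ### a criterion for an explicit distance function -/

theorem dist_eq_of {V : Type} (δ : V → V → ℕ) (G : SimpleGraph V)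
    (hadj : ∀ u v, G.Adj u v ↔ δ u v = 1)
    (h0 : ∀ u v, δ u v = 0 ↔ u = v)
    (lip : ∀ u v w, δ u v = 1 → δ u w ≤ δ v w + 1)
    (desc : ∀ u v, 1 ≤ δ u v → ∃ u', δ u u' = 1 ∧ δ u' v + 1 = δ u v) (u v : V) :
    G.dist u v = δ u v ∧ G.Reachable u v := by
  have key : ∀ k : ℕ, ∀ u v, δ u v = k → ∃ p : G.Walk u v, p.length = k := by
    intro k
    induction k with
    | zero =>
      intro u v h
      obtain rfl := (h0 u v).1 h
      exact ⟨SimpleGraph.Walk.nil, rfl⟩
    | succ k ih =>
      intro u v h
      obtain ⟨u', h1, h2⟩ := desc u v (by omega)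
      obtain ⟨p, hp⟩ := ih u' v (by omega)
      exact ⟨SimpleGraph.Walk.cons ((hadj u u').2 h1) p, by simp [hp]⟩
  have low : ∀ {u v : V} (p : G.Walk u v), δ u v ≤ p.length := by
    intro u v p
    induction p with
    | nil => rw [(h0 _ _).2 rfl]; simp
    | @cons a b c hab p ih =>
      have := lip a b c ((hadj a b).1 hab)
      simp only [SimpleGraph.Walk.length_cons]
      omega
  obtain ⟨p, hp⟩ := key _ u v rfl
  have hr : G.Reachable u v := ⟨p⟩
  refine ⟨?_, hr⟩
  obtain ⟨p', hp'⟩ := hr.exists_walk_length_eq_dist
  have h1 := low p'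
  have h2 := SimpleGraph.dist_le p
  omega

/-! ### the explicit graph -/

section Constr
variable {A I : Type} [DecidableEq A] [DecidableEq I] (h : I → ℕ) (hub : A) (F : I → A → Bool)

/-- the explicit distance -/
def dl : (A ⊕ (Σ i : I, Fin (h i))) → (A ⊕ (Σ i : I, Fin (h i))) → ℕ
  | Sum.inl a, Sum.inl a' => if a = a' then 0 else 1
  | Sum.inl a, Sum.inr b => b.2.val + 1 + (if F b.1 a then 1 else 0)
  | Sum.inr b, Sum.inl a => b.2.val + 1 + (if F b.1 a then 1 else 0)
  | Sum.inr b, Sum.inr b' =>
      (b.2.val - b'.2.val) + (b'.2.val - b.2.val) + (if b.1 = b'.1 then 0 else 1)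

theorem dl_comm (u v) : dl h F u v = dl h F v u := by
  rcases u with a | ⟨i, j⟩ <;> rcases v with a' | ⟨i', j'⟩
  · simp [dl, eq_comm]
  · rfl
  · rfl
  · simp only [dl, eq_comm (a := i')]
    omega

theorem dl_zero (u v) : dl h F u v = 0 ↔ u = v := by
  rcases u with a | ⟨i, j⟩ <;> rcases v with a' | ⟨i', j'⟩
  · simp [dl]
  · simp [dl]
  · simp [dl]
  · constructor
    · intro hh
      simp only [dl] at hh
      have h1 : i = i' := by
        by_contra hne
        rw [if_neg hne] at hh
        omega
      subst h1
      have : j = j' := by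
        apply Fin.ext
        omega
      rw [this]
    · intro hh
      simp only [Sum.inr.injEq, Sigma.mk.injEq] at hh
      obtain ⟨rfl, hj⟩ := hh
      have := eq_of_heq hj
      subst this
      simp [dl]

theorem dl_lip (u v w) (huv : dl h F u v = 1) : dl h F u w ≤ dl h F v w + 1 := by
  rcases u with a | ⟨i, j⟩ <;> rcases v with a' | ⟨i', j'⟩ <;> rcases w with a'' | ⟨i'', j''⟩
  · simp only [dl] at *
    split_ifs <;> simp
  · simp only [dl] at *
    split_ifs <;> omega
  · simp only [dl] at *
    split_ifs <;> omega
  · simp only [dl] at *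
    by_cases h1 : i' = i''
    · subst h1
      rw [if_pos rfl]
      split_ifs at * <;> omega
    · rw [if_neg h1]
      split_ifs at * <;> omega
  · simp only [dl] at *
    by_cases h1 : a' = a''
    · subst h1
      split_ifs at * <;> omega
    · split_ifs at * <;> omega
  · simp only [dl] at *
    split_ifs at * <;> omega
  · simp only [dl] at *
    by_cases h1 : i = i'
    · subst h1
      split_ifs at * <;> omega
    · rw [if_neg h1] at huv
      split_ifs at * <;> omega
  · simp only [dl] at *
    by_cases h1 : i = i'
    · subst h1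
      split_ifs at * <;> omega
    · rw [if_neg h1] at huv
      split_ifs at * <;> omega

theorem dl_desc (hF : ∀ i, F i hub = false) (u v) (huv : 1 ≤ dl h F u v) :
    ∃ u', dl h F u u' = 1 ∧ dl h F u' v + 1 = dl h F u v := by
  rcases u with a | ⟨i, j⟩ <;> rcases v with a' | ⟨i', j'⟩
  · refine ⟨Sum.inl a', ?_, ?_⟩
    · simp only [dl] at *
      split_ifs at * <;> omega
    · simp only [dl] at *
      split_ifs at * <;> simp_all
  · by_cases hf : F i' a = true
    · refine ⟨Sum.inl hub, ?_, ?_⟩
      · have : a ≠ hub := by
          rintro rfl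
          rw [hF] at hf
          exact absurd hf (by simp)
        simp [dl, this]
      · simp [dl, hf, hF]
    · refine ⟨Sum.inr ⟨i', ⟨0, by have := j'.isLt; omega⟩⟩, ?_, ?_⟩
      · simp [dl, hf]
      · simp [dl, hf]
  · by_cases hj : j.val = 0
    · by_cases hf : F i a' = true
      · refine ⟨Sum.inl hub, ?_, ?_⟩
        · simp [dl, hF, hj]
        · have : hub ≠ a' := by
            rintro rfl
            rw [hF] at hf
            exact absurd hf (by simp)
          simp [dl, hf, hj, this]
      · refine ⟨Sum.inl a', ?_, ?_⟩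
        · simp [dl, hf, hj]
        · simp [dl, hf, hj]
    · refine ⟨Sum.inr ⟨i, ⟨j.val - 1, by have := j.isLt; omega⟩⟩, ?_, ?_⟩
      · simp only [dl]
        simp
        omega
      · simp only [dl]
        split_ifs <;> omega
  · by_cases h1 : i = i'
    · subst h1
      have hne : j.val ≠ j'.val := by
        intro hh
        simp only [dl] at huv
        simp [hh] at huv
      by_cases hlt : j.val < j'.val
      · refine ⟨Sum.inr ⟨i, ⟨j.val + 1, by have := j'.isLt; omega⟩⟩, ?_, ?_⟩
        · simp only [dl]
          simp
        · simp only [dl]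
          simp
          omega
      · refine ⟨Sum.inr ⟨i, ⟨j.val - 1, by have := j.isLt; omega⟩⟩, ?_, ?_⟩
        · simp only [dl]
          simp
          omega
        · simp only [dl]
          simp
          omega
    · by_cases hlt : j.val ≤ j'.val
      · refine ⟨Sum.inr ⟨i', ⟨j.val, by have := j'.isLt; omega⟩⟩, ?_, ?_⟩
        · simp only [dl]
          simp [h1]
        · simp only [dl]
          simp [h1]
      · refine ⟨Sum.inr ⟨i, ⟨j.val - 1, by have := j.isLt; omega⟩⟩, ?_, ?_⟩
        · simp only [dl]
          simp
          omega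
        · simp only [dl]
          simp [h1]
          omega

/-- the graph -/
def gr : SimpleGraph (A ⊕ (Σ i : I, Fin (h i))) where
  Adj u v := dl h F u v = 1
  symm := ⟨fun u v huv => by rw [dl_comm]; exact huv⟩
  loopless := ⟨fun u hu => by rw [(dl_zero h F u u).2 rfl] at hu; omega⟩

theorem gr_dist (hF : ∀ i, F i hub = false) (u v) :
    (gr h F).dist u v = dl h F u v ∧ (gr h F).Reachable u v :=
  dist_eq_of (dl h F) (gr h F) (fun _ _ => Iff.rfl) (dl_zero h F) (dl_lip h F)
    (dl_desc h hub F hF) u v

end Constr

end Pool.Q134.WienerRat
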