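import Mathlib
import Pool.Agent.Q134.WienerRat

/-!
Counting for the graphs of `Pool.Agent.Q134.WienerRat`.
-/

set_option linter.unusedSectionVars false
set_option linter.unusedVariables false

open Polynomial

namespace Pool.Q134.WienerRat

/-- The Wiener polynomial: the sum of `X ^ d(u, v)` over unordered pairs of distinct vertices,
written as half of the sum over ordered pairs of distinct vertices. -/
noncomputable def wiener {V : Type} [Fintype V] [DecidableEq V] (G : SimpleGraph V) : ℚ[X] :=
  C (1 / 2 : ℚ) * ∑ p ∈ (Finset.univ : Finset V).offDiag, X ^ (G.dist p.1 p.2)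

section Count
variable {A I : Type} [DecidableEq A] [DecidableEq I] [Fintype A] [Fintype I]
  (h : I → ℕ) (hub : A) (F : I → A → Bool)

/-- ordered pairs of path vertices at distance `k` -/
def bb (k : ℕ) : ℕ :=
  ∑ b : (Σ i : I, Fin (h i)), ∑ b' : (Σ i : I, Fin (h i)),
    if (b.2.val - b'.2.val) + (b'.2.val - b.2.val) + (if b.1 = b'.1 then 0 else 1) = k
      then 1 else 0

/-- number of long paths -/
def PP (k : ℕ) : ℕ := ∑ i : I, if k ≤ h i then 1 else 0

theorem fin_sum_aux (n e k : ℕ) (he : e ≤ 1) (hk : 2 ≤ k) :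
    (∑ j : Fin n, if j.val + 1 + e = k then 1 else 0) =
      (if k ≤ n then 1 else 0) + (if e = 1 ∧ n + 1 = k then 1 else 0) := by
  by_cases hle : k - 1 - e < n
  · rw [Finset.sum_eq_single (⟨k - 1 - e, hle⟩ : Fin n)]
    · have h1 : k - 1 - e + 1 + e = k := by omega
      simp only [h1, if_true]
      interval_cases e
      · have : k ≤ n := by omega
        simp [this]
      · by_cases h2 : k ≤ n
        · have : ¬ (n + 1 = k) := by omega
          simp [h2, this]
        · have : n + 1 = k := by omega
          simp [h2, this]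
    · intro b _ hb
      rw [if_neg]
      intro hh
      apply hb
      apply Fin.ext
      simp only
      omega
    · intro hh
      exact absurd (Finset.mem_univ _) hh
  · rw [Finset.sum_eq_zero]
    · have h2 : ¬ (k ≤ n) := by omega
      have h3 : ¬ (e = 1 ∧ n + 1 = k) := by omega
      simp [h2, h3]
    · intro j _
      rw [if_neg]
      have := j.isLt
      omega

theorem cnt_eq (k : ℕ) (hk : 2 ≤ k) :
    (∑ u, ∑ v, if dl h F u v = k then 1 else 0) =
      2 * (Fintype.card A * PP h k + ∑ i, ∑ a, if F i a = true ∧ h i + 1 = k then 1 else 0)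
        + bb h k := by
  have hAB : (∑ a : A, ∑ b : (Σ i : I, Fin (h i)),
      if dl h F (Sum.inl a) (Sum.inr b) = k then 1 else 0) =
      Fintype.card A * PP h k + ∑ i, ∑ a, if F i a = true ∧ h i + 1 = k then 1 else 0 := by
    have h1 : ∀ a : A, (∑ b : (Σ i : I, Fin (h i)),
        if dl h F (Sum.inl a) (Sum.inr b) = k then 1 else 0) =
        ∑ i : I, ((if k ≤ h i then 1 else 0) + (if F i a = true ∧ h i + 1 = k then 1 else 0)) := by
      intro a
      rw [Fintype.sum_sigma]
      apply Finset.sum_congr rfl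
      intro i _
      have h2 := fin_sum_aux (h i) (if F i a = true then 1 else 0) k (by split_ifs <;> omega) hk
      refine Eq.trans ?_ (h2.trans ?_)
      · rfl
      · congr 1
        by_cases hf : F i a = true <;> simp [hf]
    simp only [h1]
    simp only [Finset.sum_add_distrib]
    rw [Finset.sum_const, Finset.card_univ, smul_eq_mul]
    congr 1
    rw [Finset.sum_comm]
  have hBA : (∑ b : (Σ i : I, Fin (h i)), ∑ a : A,
      if dl h F (Sum.inr b) (Sum.inl a) = k then 1 else 0) =
      Fintype.card A * PP h k + ∑ i, ∑ a, if F i a = true ∧ h i + 1 = k then 1 else 0 := by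
    rw [← hAB, Finset.sum_comm]
    apply Finset.sum_congr rfl
    intro a _
    apply Finset.sum_congr rfl
    intro b _
    rw [dl_comm]
  have hAA : (∑ a : A, ∑ a' : A,
      if dl h F (Sum.inl a) (Sum.inl a') = k then 1 else 0) = 0 := by
    apply Finset.sum_eq_zero
    intro a _
    apply Finset.sum_eq_zero
    intro a' _
    rw [if_neg]
    simp only [dl]
    split_ifs <;> omega
  rw [Fintype.sum_sum_type]
  simp only [Fintype.sum_sum_type, Finset.sum_add_distrib]
  rw [hAA, hAB, hBA]
  have hBB : (∑ b : (Σ i : I, Fin (h i)), ∑ b' : (Σ i : I, Fin (h i)),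
      if dl h F (Sum.inr b) (Sum.inr b') = k then 1 else 0) = bb h k := rfl
  rw [hBB]
  ring

theorem bb_even (k : ℕ) (hk : 1 ≤ k) : Even (bb h k) := by
  have h1 : bb h k = ((Finset.univ : Finset ((Σ i : I, Fin (h i)) × (Σ i : I, Fin (h i)))).filter
      (fun p => (p.1.2.val - p.2.2.val) + (p.2.2.val - p.1.2.val) +
        (if p.1.1 = p.2.1 then 0 else 1) = k)).card := by
    rw [Finset.card_filter, ← Finset.univ_product_univ, Finset.sum_product]
    rfl
  rw [h1]
  have h2 : ((((Finset.univ : Finset ((Σ i : I, Fin (h i)) × (Σ i : I, Fin (h i)))).filter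
      (fun p => (p.1.2.val - p.2.2.val) + (p.2.2.val - p.1.2.val) +
        (if p.1.1 = p.2.1 then 0 else 1) = k)).card : ℕ) : ZMod 2) = 0 := by
    rw [Finset.card_eq_sum_ones, Nat.cast_sum]
    apply Finset.sum_involution (fun p _ => (p.2, p.1))
    · intro p _
      simp only [Nat.cast_one]
      decide
    · intro p hp _ hh
      rw [Finset.mem_filter] at hp
      have h3 : p.1 = p.2 := by
        have := congrArg Prod.snd hh
        exact this
      rw [h3] at hp
      simp at hp
      omega
    · intro p hp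
      rw [Finset.mem_filter] at hp ⊢
      refine ⟨Finset.mem_univ _, ?_⟩
      have := hp.2
      simp only [eq_comm (a := p.2.1)]
      omega
    · intro p _
      rfl
  exact (ZMod.natCast_eq_zero_iff_even).1 h2

theorem bb_le (k L : ℕ) (hk : 2 ≤ k) (hL : ∀ i, h i ≤ L) :
    bb h k ≤ 2 * (Fintype.card (Σ i : I, Fin (h i)) * (L * PP h k)) := by
  have hG : (∑ b : (Σ i : I, Fin (h i)), if k ≤ b.2.val + 1 then 1 else 0) ≤ L * PP h k := by
    rw [Fintype.sum_sigma, PP, Finset.mul_sum]
    apply Finset.sum_le_sum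
    intro i _
    by_cases hki : k ≤ h i
    · rw [if_pos hki, mul_one]
      calc (∑ y : Fin (h i), if k ≤ y.val + 1 then 1 else 0) ≤ ∑ y : Fin (h i), 1 := by
            apply Finset.sum_le_sum
            intro j _
            split_ifs <;> omega
        _ = h i := by simp
        _ ≤ L := hL i
    · rw [if_neg hki, mul_zero]
      apply le_of_eq
      apply Finset.sum_eq_zero
      intro j _
      rw [if_neg]
      show ¬ (k ≤ j.val + 1)
      have := j.isLt
      omega
  have h1 : bb h k ≤ ∑ b : (Σ i : I, Fin (h i)), ∑ b' : (Σ i : I, Fin (h i)),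
      ((if k ≤ b.2.val + 1 then 1 else 0) + (if k ≤ b'.2.val + 1 then 1 else 0)) := by
    apply Finset.sum_le_sum
    intro b _
    apply Finset.sum_le_sum
    intro b' _
    split_ifs <;> omega
  refine h1.trans ?_
  have h2 : (∑ b : (Σ i : I, Fin (h i)), ∑ b' : (Σ i : I, Fin (h i)),
      ((if k ≤ b.2.val + 1 then 1 else 0) + (if k ≤ b'.2.val + 1 then 1 else 0))) =
      2 * (Fintype.card (Σ i : I, Fin (h i)) *
        (∑ b : (Σ i : I, Fin (h i)), if k ≤ b.2.val + 1 then 1 else 0)) := by
    simp only [Finset.sum_add_distrib, Finset.sum_const, Finset.card_univ, smul_eq_mul]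
    rw [Finset.mul_sum]
    ring
  rw [h2]
  exact Nat.mul_le_mul_left _ (Nat.mul_le_mul_left _ hG)

/-- coefficients of the Wiener polynomial -/
theorem wiener_coeff (hF : ∀ i, F i hub = false) (k : ℕ) :
    (wiener (gr h F)).coeff k =
      if k = 0 then 0 else (1 / 2 : ℚ) *
        ((∑ u, ∑ v, if dl h F u v = k then 1 else 0 : ℕ) : ℚ) := by
  rw [wiener, coeff_C_mul, finsetSum_coeff]
  have h1 : ∀ p ∈ (Finset.univ : Finset (A ⊕ (Σ i : I, Fin (h i)))).offDiag,
      (X ^ ((gr h F).dist p.1 p.2) : ℚ[X]).coeff k = if dl h F p.1 p.2 = k then 1 else 0 := by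
    intro p _
    rw [coeff_X_pow, (gr_dist h hub F hF p.1 p.2).1]
    simp [eq_comm]
  rw [Finset.sum_congr rfl h1]
  by_cases hk : k = 0
  · rw [if_pos hk]
    rw [Finset.sum_eq_zero]
    · simp
    · intro p hp
      rw [Finset.mem_offDiag] at hp
      rw [if_neg]
      rw [hk, dl_zero]
      exact hp.2.2
  · rw [if_neg hk]
    congr 1
    push_cast
    rw [← Finset.sum_product']
    rw [← Finset.diag_union_offDiag, Finset.sum_union (Finset.disjoint_diag_offDiag _)]
    have h2 : (∑ x ∈ (Finset.univ : Finset (A ⊕ (Σ i : I, Fin (h i)))).diag,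
        (if dl h F x.1 x.2 = k then (1 : ℚ) else 0)) = 0 := by
      apply Finset.sum_eq_zero
      intro x hx
      rw [Finset.mem_diag] at hx
      rw [if_neg]
      rw [(dl_zero h F _ _).2 hx.2]
      omega
    rw [h2, zero_add]

end Count

/-- value at one -/
theorem wiener_eval_one {V : Type} [Fintype V] [DecidableEq V] (G : SimpleGraph V) :
    (wiener G).eval 1 = (1 / 2 : ℚ) * ((Fintype.card V : ℚ) * ((Fintype.card V : ℚ) - 1)) := by
  rw [wiener, eval_mul, eval_C, eval_finsetSum]
  simp only [eval_pow, eval_X, one_pow, Finset.sum_const, nsmul_eq_mul, mul_one]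
  rw [Finset.offDiag_card, Finset.card_univ]
  rw [Nat.cast_sub (Nat.le_mul_self _)]
  push_cast
  ring

end Pool.Q134.WienerRat
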