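import Mathlib
import Pool.Agent.Q134.WienerRatB

set_option linter.unusedSectionVars false
set_option linter.unusedVariables false

open Polynomial

namespace Pool.Q134.WienerRat

/-- the base constant -/
def qq (m : ℕ) : ℕ := (m + 1) ^ 3 * 2 ^ (m + 5)

/-- number of paths with `l + 1` vertices -/
def ss (m : ℕ) (l : Fin m) : ℕ := 2 ^ (m + 1) * (qq m) ^ (m - 1 - l.val)

/-- index set of the paths -/
abbrev II (m : ℕ) : Type := Σ l : Fin m, Fin (ss m l)

/-- lengths of the paths -/
def hh (m : ℕ) (i : II m) : ℕ := i.1.val + 1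

/-- number of path vertices -/
def cB (m : ℕ) : ℕ := Fintype.card (Σ i : II m, Fin (hh m i))

/-- order of the graph -/
def nn (m : ℕ) : ℕ := 2 * (qq m + 1) ^ m

theorem qq_big (m : ℕ) : 16 * (m * m * m * 2 ^ (m + 1)) ≤ qq m := by
  unfold qq
  have h1 : m * m * m ≤ (m + 1) ^ 3 := by nlinarith [sq_nonneg m]
  have h2 : 2 ^ (m + 5) = 16 * 2 ^ (m + 1) := by ring
  rw [h2]
  calc 16 * (m * m * m * 2 ^ (m + 1)) = (m * m * m) * (16 * 2 ^ (m + 1)) := by ring
    _ ≤ (m + 1) ^ 3 * (16 * 2 ^ (m + 1)) := Nat.mul_le_mul_right _ h1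

theorem qq_pos (m : ℕ) : 1 ≤ qq m := by
  unfold qq
  exact Nat.one_le_iff_ne_zero.2 (by positivity)

theorem pow_le_nn (m : ℕ) : 2 * (qq m) ^ m ≤ nn m := by
  unfold nn
  exact Nat.mul_le_mul_left _ (Nat.pow_le_pow_left (by omega) _)

theorem card_I_le (m : ℕ) : Fintype.card (II m) ≤ m * (2 ^ (m + 1) * (qq m) ^ (m - 1)) := by
  rw [Fintype.card_sigma]
  calc (∑ l : Fin m, Fintype.card (Fin (ss m l))) ≤ ∑ l : Fin m, 2 ^ (m + 1) * (qq m) ^ (m - 1) := by
        apply Finset.sum_le_sum
        intro l _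
        rw [Fintype.card_fin]
        unfold ss
        exact Nat.mul_le_mul_left _ (Nat.pow_le_pow_right (qq_pos m) (by omega))
    _ = m * (2 ^ (m + 1) * (qq m) ^ (m - 1)) := by simp

theorem cB_le (m : ℕ) : cB m ≤ m * Fintype.card (II m) := by
  unfold cB
  rw [Fintype.card_sigma]
  calc (∑ i : II m, Fintype.card (Fin (hh m i))) ≤ ∑ i : II m, m := by
        apply Finset.sum_le_sum
        intro i _
        rw [Fintype.card_fin]
        unfold hh
        have := i.1.isLt
        omega
    _ = m * Fintype.card (II m) := by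
        rw [Finset.sum_const, Finset.card_univ, smul_eq_mul, mul_comm]

theorem cB_bound (m : ℕ) (hm : 1 ≤ m) : 16 * (m * cB m) ≤ (qq m) ^ m := by
  have h1 : m * cB m ≤ m * (m * (m * (2 ^ (m + 1) * (qq m) ^ (m - 1)))) :=
    Nat.mul_le_mul_left _ ((cB_le m).trans (Nat.mul_le_mul_left _ (card_I_le m)))
  have h2 : (qq m) ^ m = qq m * (qq m) ^ (m - 1) := by
    rw [← pow_succ']
    congr 1
    omega
  rw [h2]
  calc 16 * (m * cB m) ≤ 16 * (m * (m * (m * (2 ^ (m + 1) * (qq m) ^ (m - 1))))) :=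
        Nat.mul_le_mul_left _ h1
    _ = (16 * (m * m * m * 2 ^ (m + 1))) * (qq m) ^ (m - 1) := by ring
    _ ≤ qq m * (qq m) ^ (m - 1) := Nat.mul_le_mul_right _ (qq_big m)

theorem cB_two (m : ℕ) (hm : 1 ≤ m) : 2 * cB m + 1 ≤ nn m ∧ m * cB m ≤ nn m := by
  have h1 := cB_bound m hm
  have h2 := pow_le_nn m
  have h3 : cB m ≤ m * cB m := Nat.le_mul_of_pos_left _ hm
  have h4 : 1 ≤ (qq m) ^ m := Nat.one_le_pow _ _ (qq_pos m)
  constructor <;> omega

theorem PP_le (m : ℕ) (l : Fin m) :
    PP (hh m) (l.val + 2) * qq m ≤ m * (2 ^ (m + 1) * (qq m) ^ (m - 1 - l.val)) := by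
  unfold PP
  rw [Fintype.sum_sigma, Finset.sum_mul]
  calc (∑ l' : Fin m, (∑ t : Fin (ss m l'), if l.val + 2 ≤ hh m ⟨l', t⟩ then 1 else 0) * qq m)
      ≤ ∑ l' : Fin m, 2 ^ (m + 1) * (qq m) ^ (m - 1 - l.val) := by
        apply Finset.sum_le_sum
        intro l' _
        by_cases hl : l.val + 1 ≤ l'.val
        · have h1 : (∑ t : Fin (ss m l'), if l.val + 2 ≤ hh m ⟨l', t⟩ then 1 else 0) ≤ ss m l' := by
            calc (∑ t : Fin (ss m l'), if l.val + 2 ≤ hh m ⟨l', t⟩ then 1 else 0)
                ≤ ∑ t : Fin (ss m l'), 1 := by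
                  apply Finset.sum_le_sum
                  intro t _
                  split_ifs <;> omega
              _ = ss m l' := by simp
          refine (Nat.mul_le_mul_right _ h1).trans ?_
          unfold ss
          rw [mul_assoc, ← pow_succ]
          apply Nat.mul_le_mul_left
          apply Nat.pow_le_pow_right (qq_pos m)
          have := l'.isLt
          omega
        · rw [Finset.sum_eq_zero]
          · simp
          · intro t _
            rw [if_neg]
            show ¬ (l.val + 2 ≤ l'.val + 1)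
            omega
    _ = m * (2 ^ (m + 1) * (qq m) ^ (m - 1 - l.val)) := by simp

/-- target coefficients -/
def cc (m : ℕ) (l : Fin m) : ℕ := (nn m - 1) * ((m.choose (l.val + 1)) * (qq m) ^ (m - 1 - l.val))

theorem nn_ge (m : ℕ) : 2 ≤ nn m := by
  unfold nn
  have : 1 ≤ (qq m + 1) ^ m := Nat.one_le_pow _ _ (by omega)
  omega

theorem lower (m : ℕ) (hm : 1 ≤ m) (l : Fin m) :
    (nn m - cB m) * PP (hh m) (l.val + 2) + bb (hh m) (l.val + 2) / 2 ≤ cc m l := by
  have hbb := bb_le (hh m) (l.val + 2) m (by omega) (by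
    intro i
    unfold hh
    have := i.1.isLt
    omega)
  have hbb2 : bb (hh m) (l.val + 2) / 2 ≤ cB m * (m * PP (hh m) (l.val + 2)) := by
    unfold cB
    omega
  obtain ⟨c1, c2⟩ := cB_two m hm
  have h1 : (nn m - cB m) * PP (hh m) (l.val + 2) + bb (hh m) (l.val + 2) / 2 ≤
      (2 * nn m) * PP (hh m) (l.val + 2) := by
    have h3 : (nn m - cB m) * PP (hh m) (l.val + 2) ≤ nn m * PP (hh m) (l.val + 2) :=
      Nat.mul_le_mul_right _ (by omega)
    have h4 : cB m * (m * PP (hh m) (l.val + 2)) ≤ nn m * PP (hh m) (l.val + 2) := by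
      calc cB m * (m * PP (hh m) (l.val + 2)) = (m * cB m) * PP (hh m) (l.val + 2) := by ring
        _ ≤ _ := Nat.mul_le_mul_right _ c2
    have h5 : (2 * nn m) * PP (hh m) (l.val + 2) =
      nn m * PP (hh m) (l.val + 2) + nn m * PP (hh m) (l.val + 2) := by ring
    omega
  refine h1.trans ?_
  have hq := qq_pos m
  apply Nat.le_of_mul_le_mul_right _ hq
  have h6 := PP_le m l
  have h7 : 1 ≤ m.choose (l.val + 1) := Nat.choose_pos (by have := l.isLt; omega)
  have h8 := nn_ge m
  have h9 : 4 * (m * 2 ^ (m + 1)) ≤ qq m := by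
    refine le_trans ?_ (qq_big m)
    have : m * 1 ≤ m * (m * m) := Nat.mul_le_mul_left _ (by nlinarith)
    nlinarith [Nat.one_le_two_pow (n := m + 1)]
  calc 2 * nn m * PP (hh m) (l.val + 2) * qq m = 2 * nn m * (PP (hh m) (l.val + 2) * qq m) := by
        ring
    _ ≤ 2 * nn m * (m * (2 ^ (m + 1) * (qq m) ^ (m - 1 - l.val))) := Nat.mul_le_mul_left _ h6
    _ ≤ 4 * (nn m - 1) * (m * (2 ^ (m + 1) * (qq m) ^ (m - 1 - l.val))) := by
        apply Nat.mul_le_mul_right
        omega
    _ = (nn m - 1) * ((qq m) ^ (m - 1 - l.val) * (4 * (m * 2 ^ (m + 1)))) := by ring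
    _ ≤ (nn m - 1) * ((qq m) ^ (m - 1 - l.val) * qq m) := by
        apply Nat.mul_le_mul_left
        apply Nat.mul_le_mul_left
        exact h9
    _ = (nn m - 1) * (1 * (qq m) ^ (m - 1 - l.val)) * qq m := by ring
    _ ≤ cc m l * qq m := by
        apply Nat.mul_le_mul_right
        unfold cc
        apply Nat.mul_le_mul_left
        exact Nat.mul_le_mul_right _ h7

theorem upper (m : ℕ) (hm : 1 ≤ m) (l : Fin m) :
    cc m l ≤ ss m l * (nn m - 1 - cB m) := by
  obtain ⟨c1, c2⟩ := cB_two m hm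
  unfold cc ss
  have h1 : m.choose (l.val + 1) ≤ 2 ^ m := Nat.choose_le_two_pow _ _
  calc (nn m - 1) * (m.choose (l.val + 1) * qq m ^ (m - 1 - l.val))
      ≤ (2 * (nn m - 1 - cB m)) * (2 ^ m * qq m ^ (m - 1 - l.val)) := by
        apply Nat.mul_le_mul
        · omega
        · exact Nat.mul_le_mul_right _ h1
    _ = _ := by ring

/-- the number of far pairs -/
def ee (m : ℕ) (l : Fin m) : ℕ :=
  cc m l - ((nn m - cB m) * PP (hh m) (l.val + 2) + bb (hh m) (l.val + 2) / 2)

theorem exists_E (m : ℕ) (hm : 1 ≤ m) :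
    ∃ E : (l : Fin m) → Finset (Fin (ss m l) × Fin (nn m - 1 - cB m)),
      ∀ l, (E l).card = ee m l := by
  have : ∀ l : Fin m, ∃ E : Finset (Fin (ss m l) × Fin (nn m - 1 - cB m)),
      E.card = ee m l := by
    intro l
    have h1 : ee m l ≤ (Finset.univ : Finset (Fin (ss m l) × Fin (nn m - 1 - cB m))).card := by
      rw [Finset.card_univ, Fintype.card_prod, Fintype.card_fin, Fintype.card_fin]
      exact (Nat.sub_le _ _).trans (upper m hm l)
    obtain ⟨t, _, ht⟩ := Finset.exists_subset_card_eq h1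
    exact ⟨t, ht⟩
  choose E hE using this
  exact ⟨E, hE⟩

/-- the far relation -/
def FF (m M : ℕ) (E : (l : Fin m) → Finset (Fin (ss m l) × Fin M)) :
    II m → Option (Fin M) → Bool
  | _, none => false
  | i, some a => decide ((i.2, a) ∈ E i.1)

theorem far_count (m M : ℕ) (E : (l : Fin m) → Finset (Fin (ss m l) × Fin M)) (l : Fin m) :
    (∑ i, ∑ a, if FF m M E i a = true ∧ hh m i + 1 = l.val + 2 then 1 else 0) = (E l).card := by
  rw [Fintype.sum_sigma, Finset.sum_eq_single l]
  · have h1 : ∀ t : Fin (ss m l), (∑ a, if FF m M E ⟨l, t⟩ a = true ∧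
        hh m ⟨l, t⟩ + 1 = l.val + 2 then 1 else 0) = ∑ a : Fin M, if (t, a) ∈ E l then 1 else 0 := by
      intro t
      rw [Fintype.sum_option]
      simp [FF, hh]
    simp only [h1]
    rw [← Finset.sum_product']
    simp
  · intro l' _ hne
    apply Finset.sum_eq_zero
    intro t _
    apply Finset.sum_eq_zero
    intro a _
    rw [if_neg]
    rintro ⟨_, h2⟩
    apply hne
    apply Fin.ext
    unfold hh at h2
    simp only at h2
    omega
  · intro hh
    exact absurd (Finset.mem_univ _) hh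

theorem PP_zero (m k : ℕ) (hk : m + 2 ≤ k) : PP (hh m) k = 0 := by
  unfold PP
  apply Finset.sum_eq_zero
  intro i _
  rw [if_neg]
  unfold hh
  have := i.1.isLt
  omega

theorem wiener_eq (m : ℕ) (hm : 1 ≤ m)
    (E : (l : Fin m) → Finset (Fin (ss m l) × Fin (nn m - 1 - cB m)))
    (hE : ∀ l, (E l).card = ee m l) :
    wiener (gr (hh m) (FF m (nn m - 1 - cB m) E)) =
      C ((nn m : ℚ) - 1) * X * (X + C (qq m : ℚ)) ^ m := by
  set W := wiener (gr (hh m) (FF m (nn m - 1 - cB m) E)) with hW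
  set T : ℚ[X] := C ((nn m : ℚ) - 1) * X * (X + C (qq m : ℚ)) ^ m with hT
  obtain ⟨c1, c2⟩ := cB_two m hm
  have hF : ∀ i, FF m (nn m - 1 - cB m) E i none = false := fun i => rfl
  have hcoef := wiener_coeff (hh m) none (FF m (nn m - 1 - cB m) E) hF
  have hnn := nn_ge m
  have hTc : ∀ k, T.coeff (k + 1) = ((nn m : ℚ) - 1) * ((qq m : ℚ) ^ (m - k) * (m.choose k : ℚ)) := by
    intro k
    rw [hT, mul_assoc, coeff_C_mul, coeff_X_mul, coeff_X_add_C_pow]
  have h0 : W.coeff 0 = T.coeff 0 := by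
    rw [hW, hcoef, if_pos rfl, hT, mul_assoc, coeff_C_mul, coeff_X_mul_zero, mul_zero]
  have h2 : ∀ k, W.coeff (k + 2) = T.coeff (k + 2) := by
    intro k
    rw [hTc (k + 1), hW, hcoef, if_neg (by omega), cnt_eq _ _ (k + 2) (by omega)]
    by_cases hk : k < m
    · have hfar := far_count m (nn m - 1 - cB m) E ⟨k, hk⟩
      simp only at hfar
      rw [hfar, hE]
      have hev : Even (bb (hh m) (k + 2)) := bb_even (hh m) (k + 2) (by omega)
      obtain ⟨r, hr⟩ := hev
      have hlow := lower m hm ⟨k, hk⟩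
      have hee : ee m ⟨k, hk⟩ + ((nn m - cB m) * PP (hh m) (k + 2) + bb (hh m) (k + 2) / 2) =
          cc m ⟨k, hk⟩ := by
        unfold ee
        exact Nat.sub_add_cancel hlow
      have hcard : Fintype.card (Option (Fin (nn m - 1 - cB m))) = nn m - cB m := by
        rw [Fintype.card_option, Fintype.card_fin]
        omega
      rw [hcard]
      have hr2 : bb (hh m) (k + 2) / 2 = r := by omega
      rw [hr2] at hee
      have h5 : 2 * ((nn m - cB m) * PP (hh m) (k + 2) + ee m ⟨k, hk⟩) + bb (hh m) (k + 2) =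
          2 * cc m ⟨k, hk⟩ := by
        rw [← hee, hr]
        ring
      rw [h5]
      unfold cc
      simp only
      rw [show m - 1 - k = m - (k + 1) by omega]
      push_cast [Nat.cast_sub (show 1 ≤ nn m by omega)]
      ring
    · have hP : PP (hh m) (k + 2) = 0 := PP_zero m (k + 2) (by omega)
      have hb : bb (hh m) (k + 2) = 0 := by
        have := bb_le (hh m) (k + 2) m (by omega) (by
          intro i
          unfold hh
          have := i.1.isLt
          omega)
        rw [hP] at this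
        omega
      have hs : (∑ i, ∑ a, if FF m (nn m - 1 - cB m) E i a = true ∧ hh m i + 1 = k + 2
          then 1 else 0) = 0 := by
        apply Finset.sum_eq_zero
        intro i _
        apply Finset.sum_eq_zero
        intro a _
        rw [if_neg]
        rintro ⟨_, h2⟩
        unfold hh at h2
        have := i.1.isLt
        omega
      rw [hP, hb, hs, Nat.choose_eq_zero_of_lt (by omega : m < k + 1)]
      simp
  have h1 : W.coeff 1 = T.coeff 1 := by
    have hdiff : W - T = C (W.coeff 1 - T.coeff 1) * X := by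
      ext k
      rcases k with _ | _ | k
      · rw [coeff_sub, h0, sub_self, coeff_C_mul, coeff_X_zero, mul_zero]
      · rw [coeff_sub, coeff_C_mul]
        simp
      · rw [coeff_sub, h2, sub_self, coeff_C_mul, coeff_X]
        simp
    have hev := congrArg (fun P => P.eval 1) hdiff
    simp only [eval_sub, eval_mul, eval_C, eval_X, mul_one] at hev
    have hW1 : W.eval 1 = (1 / 2 : ℚ) * ((nn m : ℚ) * ((nn m : ℚ) - 1)) := by
      rw [hW, wiener_eval_one]
      have hcard : Fintype.card (Option (Fin (nn m - 1 - cB m)) ⊕ (Σ i : II m, Fin (hh m i))) =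
          nn m := by
        rw [Fintype.card_sum, Fintype.card_option, Fintype.card_fin]
        show nn m - 1 - cB m + 1 + cB m = nn m
        omega
      rw [hcard]
    have hT1 : T.eval 1 = (1 / 2 : ℚ) * ((nn m : ℚ) * ((nn m : ℚ) - 1)) := by
      rw [hT]
      simp only [eval_mul, eval_C, eval_X, eval_pow, eval_add]
      have : (nn m : ℚ) = 2 * ((qq m : ℚ) + 1) ^ m := by
        unfold nn
        push_cast
        ring
      rw [add_comm (1 : ℚ) (qq m : ℚ)]
      rw [this]
      ring
    rw [hW1, hT1, sub_self] at hev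
    linarith
  ext k
  rcases k with _ | _ | k
  · exact h0
  · exact h1
  · exact h2 k

end Pool.Q134.WienerRat

namespace Pool.Q134.WienerRat.Final

open Pool.Q134.WienerRat in
/-- There are connected graphs of arbitrarily large diameter all of whose Wiener roots are
rational. -/
theorem large_diameter : ∀ D : ℕ, ∃ (V : Type) (_ : Fintype V) (_ : DecidableEq V) (G : SimpleGraph V),
    G.Connected ∧ (∃ u v, D ≤ G.dist u v) ∧
      ∀ z : ℂ, (Polynomial.aeval z (wiener G) = 0) → ∃ r : ℚ, z = (r : ℂ) := by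
  intro D
  set m := D + 1 with hm
  have hm1 : 1 ≤ m := by omega
  obtain ⟨E, hE⟩ := exists_E m hm1
  have hF : ∀ i, FF m (nn m - 1 - cB m) E i none = false := fun i => rfl
  have hd := gr_dist (hh m) none (FF m (nn m - 1 - cB m) E) hF
  refine ⟨Option (Fin (nn m - 1 - cB m)) ⊕ (Σ i : II m, Fin (hh m i)), inferInstance,
    inferInstance, gr (hh m) (FF m (nn m - 1 - cB m) E), ?_, ?_, ?_⟩
  · have : Nonempty (Option (Fin (nn m - 1 - cB m)) ⊕ (Σ i : II m, Fin (hh m i))) :=
      ⟨Sum.inl none⟩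
    exact SimpleGraph.Connected.mk (fun u v => (hd u v).2)
  · have hs : 0 < ss m ⟨m - 1, by omega⟩ := by
      unfold ss
      have := qq_pos m
      positivity
    refine ⟨Sum.inl none, Sum.inr ⟨⟨⟨m - 1, by omega⟩, ⟨0, hs⟩⟩, ⟨m - 1, ?_⟩⟩, ?_⟩
    · show m - 1 < m - 1 + 1
      omega
    · rw [(hd _ _).1]
      show D ≤ m - 1 + 1 + _
      omega
  · intro z hz
    rw [wiener_eq m hm1 E hE] at hz
    simp only [map_mul, map_pow, map_add, Polynomial.aeval_C, Polynomial.aeval_X] at hz
    rcases mul_eq_zero.1 hz with h | h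
    · rcases mul_eq_zero.1 h with h | h
      · exfalso
        rw [map_eq_zero] at h
        have h2 : (nn m : ℚ) = 1 := by linarith
        have h3 : nn m = 1 := by exact_mod_cast h2
        have := nn_ge m
        omega
      · exact ⟨0, by rw [h]; simp⟩
    · have h1 := pow_eq_zero_iff (by omega : m ≠ 0) |>.1 h
      refine ⟨-(qq m : ℚ), ?_⟩
      have h2 : z = - (algebraMap ℚ ℂ (qq m : ℚ)) := by
        linear_combination h1
      rw [h2]
      simp

end Pool.Q134.WienerRat.Final
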